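import Pool.Agent.MP_3fe7bf_gt.Mg.Hyp

-- part MP_3fe7bf_gt.Cube
section

/-!
The cube complex dual to the tessellation by right angled polytopes.
-/

namespace Pool.Agent.MP_3fe7bf_gt

open Matrix

def Ch (z : Vec) : Prop := ∃ g : PO, g • kap = z

theorem Ch.self {z : Vec} (h : Ch z) : B z z = -3 := by
  obtain ⟨g, rfl⟩ := h; rw [B_smul, B_kap_kap]

theorem Ch.future {z : Vec} (h : Ch z) : 0 < z 0 := by
  obtain ⟨g, rfl⟩ := h
  exact future_smul g (by rw [B_kap_kap]; norm_num) (by rw [kap_zero]; norm_num)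

theorem Ch.odd {z w : Vec} (h : Ch z) (hw : B w w = 1) : B w z % 2 = 1 := by
  obtain ⟨g, rfl⟩ := h
  have := deg_odd (v := g⁻¹ • w) (by rw [B_smul, hw])
  rw [deg_inv_smul] at this
  omega

theorem Ch.smul {z : Vec} (h : Ch z) (g : PO) : Ch (g • z) := by
  obtain ⟨a, rfl⟩ := h
  exact ⟨g * a, mul_smul _ _ _⟩

theorem Ch.flip {z v : Vec} (h : Ch z) (hv : B v v = 1) (h1 : B v z = 1) : Ch (z - (2 : ℤ) • v) := by
  have := h.smul (rf v hv)
  rwa [rf_smul, B_comm z v, h1, mul_one] at this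

theorem ch_kap : Ch kap := ⟨1, one_smul _ _⟩

theorem Ch.eq_kap {z : Vec} (h : Ch z) (hd : deg z < 4) : z = kap := by
  have h1 := psd z
  have h2 := deg_pos_of_future (x := z) (by rw [h.self]; norm_num) h.future
  rw [h.self] at h1
  have h3 : deg z = 3 := by nlinarith
  have := eq_zero_of_deg (x := z - kap) (by rw [deg_sub, h3, deg_kap]; rfl) (by
    rw [B_sub_left, B_sub_right, B_sub_right, h.self, B_kap_kap, kap_B, B_kap, h3]; norm_num)
  exact sub_eq_zero.mp this

theorem B_sum_right (x : Vec) (T : Finset Vec) : B x (∑ v ∈ T, v) = ∑ v ∈ T, B x v := by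
  induction T using Finset.induction_on with
  | empty => simp [B_zero_right]
  | insert a T ha ih => rw [Finset.sum_insert ha, Finset.sum_insert ha, B_add_right, ih]

structure Cube (z : Vec) (T : Finset Vec) : Prop where
  ch : Ch z
  root : ∀ v ∈ T, B v v = 1
  adj : ∀ v ∈ T, B v z = 1
  orth : ∀ v ∈ T, ∀ w ∈ T, v ≠ w → B v w = 0

def ctr (z : Vec) (T : Finset Vec) : Vec := z - ∑ v ∈ T, v

variable {z : Vec} {T : Finset Vec}

theorem Cube.B_ctr (h : Cube z T) {v : Vec} (hv : v ∈ T) : B v (ctr z T) = 0 := by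
  unfold ctr
  rw [B_sub_right, B_sum_right, h.adj v hv, Finset.sum_eq_single_of_mem v hv
    (fun w hw hne => h.orth v hv w hw hne.symm), h.root v hv]; rfl

theorem Cube.ctr_z (h : Cube z T) : B (ctr z T) z = -3 - T.card := by
  unfold ctr
  rw [B_comm, B_sub_right, B_sum_right, h.ch.self,
    Finset.sum_congr rfl (g := fun _ => (1 : ℤ)) (fun v hv => by rw [B_comm, h.adj v hv])]
  simp

theorem Cube.ctr_self (h : Cube z T) : B (ctr z T) (ctr z T) = -3 - T.card := by
  have : B (ctr z T) (ctr z T) = B (ctr z T) z - ∑ v ∈ T, B (ctr z T) v := by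
    rw [← B_sum_right, ← B_sub_right]; rfl
  rw [this, h.ctr_z, Finset.sum_eq_zero (fun v hv => by rw [B_comm, h.B_ctr hv]), sub_zero]

theorem Cube.ctr_neg (h : Cube z T) : B (ctr z T) (ctr z T) < 0 := by
  rw [h.ctr_self]; omega

theorem Cube.ctr_future (h : Cube z T) : 0 < ctr z T 0 :=
  future_of_B_neg (y := z) h.ctr_neg.le (by rw [h.ch.self]; norm_num) h.ch.future
    (by rw [h.ctr_z]; omega)

theorem Cube.root_orth (h : Cube z T) {w : Vec} (hw : B w w = 1) (h0 : B w (ctr z T) = 0) :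
    w ∈ T ∨ -w ∈ T := by
  have h1 := h.ch.odd hw
  have h2 : B w z = ∑ v ∈ T, B w v := by
    unfold ctr at h0
    rw [B_sub_right, B_sum_right] at h0
    linarith
  obtain ⟨v, hv, hne⟩ := Finset.exists_ne_zero_of_sum_ne_zero (s := T) (f := fun v => B w v)
    (by rw [← h2]; omega)
  have hp : 0 < B w v * B w v := mul_self_pos.mpr hne
  have e : B (w - B w v • v) (w - B w v • v) = 1 - B w v * B w v := by
    simp only [B_sub_left, B_sub_right, B_smul_left, B_smul_right, hw, h.root v hv, B_comm v w]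
    ring
  have h3 := eq_zero_of_orth (x := w - B w v • v) h.ctr_neg h.ctr_future
    (by rw [B_sub_left, B_smul_left, h0, h.B_ctr hv]; simp) (by rw [e]; omega)
  rw [h3, B_zero_right] at e
  have h4 : w = B w v • v := sub_eq_zero.mp h3
  rcases mul_self_eq_one_iff.mp (by linarith : B w v * B w v = 1) with a | a
  · left; rw [h4, a, one_smul]; exact hv
  · right; rw [h4, a, neg_smul, one_smul, neg_neg]; exact hv

theorem Cube.neg_notMem (h : Cube z T) {v : Vec} (hv : v ∈ T) : -v ∉ T := fun h2 => by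
  have a := h.adj v hv
  have b := h.adj _ h2
  rw [B_neg_left] at b
  omega

theorem Cube.smul (h : Cube z T) (g : PO) : Cube (g • z) (T.image (g • ·)) where
  ch := h.ch.smul g
  root := by
    simp only [Finset.forall_mem_image, B_smul]; exact h.root
  adj := by
    simp only [Finset.forall_mem_image, B_smul]; exact h.adj
  orth := by
    simp only [Finset.forall_mem_image, B_smul]
    exact fun v hv w hw hne => h.orth v hv w hw (fun e => hne (by rw [e]))

theorem card_smul (g : PO) (T : Finset Vec) : (T.image (g • ·)).card = T.card :=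
  Finset.card_image_of_injective _ (MulAction.injective g)

theorem ctr_smul (g : PO) (z : Vec) (T : Finset Vec) : ctr (g • z) (T.image (g • ·)) = g • ctr z T := by
  unfold ctr
  rw [Finset.sum_image (fun a _ b _ e => MulAction.injective g e), smul_sub, Finset.smul_sum]

theorem Cube.mono (h : Cube z T) {S : Finset Vec} (hS : S ⊆ T) : Cube z S :=
  ⟨h.ch, fun v hv => h.root v (hS hv), fun v hv => h.adj v (hS hv),
    fun v hv w hw => h.orth v (hS hv) w (hS hw)⟩

theorem ctr_erase (z : Vec) {v : Vec} (hv : v ∈ T) : ctr z (T.erase v) = ctr z T + v := by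
  unfold ctr
  rw [← Finset.add_sum_erase T (fun v => v) hv]; abel

theorem ctr_insert (z : Vec) {v : Vec} (hv : v ∉ T) : ctr z (insert v T) = ctr z T - v := by
  unfold ctr
  rw [Finset.sum_insert hv]; abel

theorem Cube.flip (h : Cube z T) {v : Vec} (hv : v ∈ T) : Cube (z - (2 : ℤ) • v) (T.erase v) where
  ch := h.ch.flip (h.root v hv) (h.adj v hv)
  root w hw := h.root w (Finset.mem_of_mem_erase hw)
  adj w hw := by
    rw [B_sub_right, B_smul_right, h.adj w (Finset.mem_of_mem_erase hw),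
      h.orth w (Finset.mem_of_mem_erase hw) v hv (Finset.ne_of_mem_erase hw)]; rfl
  orth a ha b hb := h.orth a (Finset.mem_of_mem_erase ha) b (Finset.mem_of_mem_erase hb)

theorem ctr_flip (z : Vec) {v : Vec} (hv : v ∈ T) :
    ctr (z - (2 : ℤ) • v) (T.erase v) = ctr z T - v := by
  rw [ctr_erase _ hv]
  unfold ctr
  rw [two_smul]; abel

theorem Cube.insert (h : Cube z T) {p : Vec} (h1 : B p p = 1) (h2 : B p z = 1)
    (h3 : ∀ v ∈ T, v ≠ p → B v p = 0) : Cube z (insert p T) where
  ch := h.ch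
  root := by simp only [Finset.forall_mem_insert]; exact ⟨h1, h.root⟩
  adj := by simp only [Finset.forall_mem_insert]; exact ⟨h2, h.adj⟩
  orth := by
    simp only [Finset.forall_mem_insert]
    exact ⟨⟨fun h => absurd rfl h, fun w hw hne => by rw [B_comm, h3 w hw hne.symm]⟩,
      fun v hv => ⟨h3 v hv, h.orth v hv⟩⟩

def Pos (T : Finset Vec) : Prop := ∀ v ∈ T, 0 < deg v

open Classical in
noncomputable def RR (c : Vec) : Finset Vec :=
  if h : {w | B w w = 1 ∧ B w c = 0}.Finite then h.toFinset else ∅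

theorem Cube.mem_RR' (h : Cube z T) {w : Vec} :
    w ∈ RR (ctr z T) ↔ B w w = 1 ∧ B w (ctr z T) = 0 := by
  have : {w | B w w = 1 ∧ B w (ctr z T) = 0}.Finite := by
    refine (T ∪ T.image (fun v => -v)).finite_toSet.subset fun w hw => ?_
    rcases h.root_orth hw.1 hw.2 with a | a
    · simp [a]
    · exact Finset.mem_coe.mpr (Finset.mem_union_right _ (Finset.mem_image.mpr ⟨_, a, neg_neg _⟩))
  simp [RR, this]

theorem Cube.mem_RR (h : Cube z T) {w : Vec} : w ∈ RR (ctr z T) ↔ w ∈ T ∨ -w ∈ T := by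
  rw [h.mem_RR']
  refine ⟨fun a => h.root_orth a.1 a.2, ?_⟩
  rintro (a | a)
  · exact ⟨h.root w a, h.B_ctr a⟩
  · have h1 := h.root _ a
    have h2 := h.B_ctr a
    rw [B_neg_left, B_neg_right, neg_neg] at h1
    rw [B_neg_left] at h2
    exact ⟨h1, by linarith⟩

theorem Cube.sum_RR (h : Cube z T) {A : Type} [AddCommMonoid A] (f : Vec → A) :
    ∑ w ∈ RR (ctr z T), f w = ∑ v ∈ T, f v + ∑ v ∈ T, f (-v) := by
  have : RR (ctr z T) = T ∪ T.image (fun v => -v) := by
    ext w
    rw [h.mem_RR, Finset.mem_union, Finset.mem_image]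
    refine or_congr Iff.rfl ⟨fun a => ⟨_, a, neg_neg _⟩, ?_⟩
    rintro ⟨v, hv, rfl⟩
    rwa [neg_neg]
  rw [this, Finset.sum_union, Finset.sum_image (fun a _ b _ e => neg_injective e)]
  rw [Finset.disjoint_left]
  intro w hw hw2
  obtain ⟨v, hv, rfl⟩ := Finset.mem_image.mp hw2
  exact h.neg_notMem hv hw

noncomputable def Ap (c : Vec) : Finset Vec := (RR c).filter (fun v => 0 < deg v)

theorem Cube.Ap_ctr (h : Cube z T) (hp : Pos T) : Ap (ctr z T) = T := by
  ext w
  rw [Ap, Finset.mem_filter, h.mem_RR]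
  refine ⟨?_, fun a => ⟨Or.inl a, hp w a⟩⟩
  rintro ⟨a | a, b⟩
  · exact a
  · have := hp _ a
    rw [deg_neg] at this
    omega

noncomputable def top (c : Vec) : Vec := c + ∑ v ∈ Ap c, v

theorem Cube.top_ctr (h : Cube z T) (hp : Pos T) : top (ctr z T) = z := by
  rw [top, h.Ap_ctr hp, ctr, sub_add_cancel]

def Dn (z v : Vec) : Prop := B v v = 1 ∧ 0 < deg v ∧ B v z = 1

theorem Ch.exists_Dn (h : Ch z) (hne : z ≠ kap) : ∃ v, Dn z v := by
  obtain ⟨g, rfl⟩ := h
  by_contra hn
  apply hne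
  have : g⁻¹ • kap = kap := by
    apply Pool.Agent.MP_3fe7bf_gt.eq_kap (by rw [B_smul, B_kap_kap])
    intro l hl
    by_contra hc
    have h1 := (ch_kap.smul g⁻¹).odd hl.1
    refine hn ⟨-(g • l), by rw [B_neg_left, B_neg_right, B_smul, hl.1]; rfl, ?_, ?_⟩
    · have := B_kap (g • l)
      rw [B_smul_left'] at this
      rw [B_comm] at hc
      rw [deg_neg]
      omega
    · rw [B_neg_left, B_smul, B_kap, hl.2]; rfl
  exact (inv_smul_eq_iff.mp this).symm

theorem Ch.Dn_orth (h : Ch z) {v w : Vec} (hv : Dn z v) (hw : Dn z w) (hne : v ≠ w) : B v w = 0 := by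
  have a : 0 < B (v - w) (v - w) := by
    by_contra hc
    exact hne (sub_eq_zero.mp (eq_zero_of_orth (y := z) (by rw [h.self]; norm_num) h.future
      (by rw [B_sub_left, hv.2.2, hw.2.2]; rfl) (by omega)))
  have b : 0 < B (v + w) (v + w) := by
    by_contra hc
    have h1 := future_of_deg_pos (x := v + w) (by omega) (by rw [deg_add]; linarith [hv.2.1, hw.2.1])
    have h2 := B_neg_of_future (x := v + w) (y := z) (by omega) (by rw [h.self]; norm_num) h1 h.future
    rw [B_add_left, hv.2.2, hw.2.2] at h2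
    omega
  rw [B_sub_left, B_sub_right, B_sub_right, hv.1, hw.1, B_comm w v] at a
  rw [B_add_left, B_add_right, B_add_right, hv.1, hw.1, B_comm w v] at b
  omega

open Classical in
noncomputable def pick (z : Vec) : Vec := if h : ∃ v, Dn z v then h.choose else 0

theorem pick_spec (h : ∃ v, Dn z v) : Dn z (pick z) := by
  rw [pick, dif_pos h]; exact h.choose_spec

theorem pick_zero (h : ¬ ∃ v, Dn z v) : pick z = 0 := by rw [pick, dif_neg h]

theorem Cube.insert_pick (h : Cube z T) (hp : Pos T) (hd : ∃ v, Dn z v) :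
    Cube z (Insert.insert (pick z) T) :=
  h.insert (pick_spec hd).1 (pick_spec hd).2.2 fun v hv hne =>
    h.ch.Dn_orth ⟨h.root v hv, hp v hv, h.adj v hv⟩ (pick_spec hd) hne

end Pool.Agent.MP_3fe7bf_gt

end

-- part MP_3fe7bf_gt.Ext
section

/-!
Orientation lines of cubes inside the exterior algebra.
-/

namespace Pool.Agent.MP_3fe7bf_gt

open Matrix

abbrev VQ := Fin 7 → ℚ
abbrev Ex := ExteriorAlgebra ℚ VQ

def cq (v : Vec) : VQ := fun i => (v i : ℚ)

noncomputable def io (v : Vec) : Ex := ExteriorAlgebra.ι ℚ (cq v)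

def du (w : Vec) : Module.Dual ℚ VQ where
  toFun x := -(w 0 * x 0) + w 1 * x 1 + w 2 * x 2 + w 3 * x 3 + w 4 * x 4 + w 5 * x 5 + w 6 * x 6
  map_add' x y := by simp only [Pi.add_apply]; ring
  map_smul' c x := by simp only [Pi.smul_apply, smul_eq_mul, RingHom.id_apply]; ring

theorem du_cq (w v : Vec) : du w (cq v) = (B w v : ℚ) := by simp [du, cq, B]

noncomputable def ct (w : Vec) : Ex →ₗ[ℚ] Ex := CliffordAlgebra.contractLeft (du w)

theorem ct_io_mul (w v : Vec) (x : Ex) : ct w (io v * x) = (B w v : ℚ) • x - io v * ct w x := by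
  rw [← du_cq]
  exact CliffordAlgebra.contractLeft_ι_mul _ _ _

theorem ct_comm (w v : Vec) (x : Ex) : ct w (ct v x) = -ct v (ct w x) :=
  CliffordAlgebra.contractLeft_comm _ _ _

theorem ct_one (w : Vec) : ct w 1 = 0 := CliffordAlgebra.contractLeft_one _ _

theorem ct_neg (w : Vec) (x : Ex) : ct (-w) x = -ct w x := by
  have : du (-w) = -du w := by
    apply LinearMap.ext
    intro y
    simp [du]; ring
  unfold ct
  rw [this, map_neg, LinearMap.neg_apply]

theorem io_neg (v : Vec) : io (-v) = -io v := by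
  unfold io
  rw [← map_neg]
  congr 1

theorem io_zero : io 0 = 0 := by
  unfold io
  rw [← map_zero (ExteriorAlgebra.ι ℚ (M := VQ))]
  congr 1

theorem io_mul_self (v : Vec) : io v * io v = 0 := ExteriorAlgebra.ι_sq_zero _

theorem io_swap (v w : Vec) : io v * io w = -(io w * io v) :=
  eq_neg_of_add_eq_zero_left (ExteriorAlgebra.ι_add_mul_swap _ _)

noncomputable def linQ (g : PO) : VQ →ₗ[ℚ] VQ := Matrix.toLin' ((mat g).map (Int.castRingHom ℚ))

theorem linQ_cq (g : PO) (v : Vec) : linQ g (cq v) = cq (g • v) := by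
  funext i
  exact (RingHom.map_mulVec (Int.castRingHom ℚ) (mat g) v i).symm

theorem cq_ext {T : Type} [AddCommGroup T] [Module ℚ T] {f g : VQ →ₗ[ℚ] T}
    (h : ∀ v, f (cq v) = g (cq v)) : f = g := by
  apply (Pi.basisFun ℚ (Fin 7)).ext
  intro i
  have : cq (Pi.single i 1) = Pi.basisFun ℚ (Fin 7) i := by
    ext j
    simp [cq, Pi.single_apply]
  rw [← this, h]

noncomputable def ac (g : PO) : Ex →ₐ[ℚ] Ex := ExteriorAlgebra.map (linQ g)

theorem ac_io (g : PO) (v : Vec) : ac g (io v) = io (g • v) := by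
  unfold ac io
  rw [ExteriorAlgebra.map_apply_ι, linQ_cq]

theorem ac_ext {A : Type} [Ring A] [Algebra ℚ A] {f g : Ex →ₐ[ℚ] A}
    (h : ∀ v, f (io v) = g (io v)) : f = g :=
  ExteriorAlgebra.hom_ext (cq_ext h)

theorem ac_one (x : Ex) : ac 1 x = x := by
  have : ac 1 = AlgHom.id ℚ Ex := ac_ext fun v => by rw [ac_io, one_smul]; rfl
  rw [this]; rfl

theorem ac_mul (g h : PO) (x : Ex) : ac (g * h) x = ac g (ac h x) := by
  have : ac (g * h) = (ac g).comp (ac h) := ac_ext fun v => by
    rw [AlgHom.comp_apply, ac_io, ac_io, ac_io, mul_smul]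
  rw [this]; rfl

theorem ac_ct (g : PO) (w : Vec) (x : Ex) : ac g (ct w x) = ct (g • w) (ac g x) := by
  have e : du (g • w) ∘ₗ linQ g = du w := cq_ext fun v => by
    rw [LinearMap.comp_apply, linQ_cq, du_cq, du_cq, B_smul]
  induction x using CliffordAlgebra.left_induction with
  | algebraMap r =>
    rw [AlgHom.commutes]
    unfold ct
    rw [CliffordAlgebra.contractLeft_algebraMap, CliffordAlgebra.contractLeft_algebraMap, map_zero]
  | add x y hx hy => simp only [map_add, hx, hy]
  | ι_mul x m hx =>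
    have h1 : ac g (CliffordAlgebra.ι 0 m) = CliffordAlgebra.ι 0 (linQ g m) :=
      ExteriorAlgebra.map_apply_ι _ _
    unfold ct at *
    rw [map_mul (ac g), h1, CliffordAlgebra.contractLeft_ι_mul, CliffordAlgebra.contractLeft_ι_mul, map_sub,
      map_mul, h1, hx, map_smul, ← e]
    rfl

noncomputable def ep : Ex →ₐ[ℚ] ℚ := ExteriorAlgebra.algebraMapInv

theorem ep_io (v : Vec) : ep (io v) = 0 := by simp [ep, io, ExteriorAlgebra.algebraMapInv]

theorem ep_ac (g : PO) (x : Ex) : ep (ac g x) = ep x := by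
  have : ep.comp (ac g) = ep := ac_ext fun v => by rw [AlgHom.comp_apply, ac_io, ep_io, ep_io]
  exact AlgHom.congr_fun this x

noncomputable def omg (l : List Vec) : Ex := (l.map io).prod

theorem omg_cons (a : Vec) (l : List Vec) : omg (a :: l) = io a * omg l := by simp [omg]

theorem omg_perm {l l' : List Vec} (h : l.Perm l') : omg l = omg l' ∨ omg l = -omg l' := by
  induction h with
  | nil => exact Or.inl rfl
  | cons a _ ih =>
    rw [omg_cons, omg_cons]
    rcases ih with h | h <;> rw [h] <;> simp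
  | swap a b l =>
    right
    simp only [omg_cons, ← mul_assoc]
    rw [io_swap b a, neg_mul]
  | trans _ _ ih1 ih2 =>
    rcases ih1 with h | h <;> rcases ih2 with h' | h' <;> rw [h, h'] <;> simp

noncomputable def Ln (T : Finset Vec) : Submodule ℚ Ex := Submodule.span ℚ {omg T.toList}

theorem om_mem (T : Finset Vec) : omg T.toList ∈ Ln T := Submodule.subset_span rfl

theorem Ln_empty : Ln ∅ = Submodule.span ℚ {1} := by simp [Ln, omg]

theorem Ln_insert {a : Vec} {T : Finset Vec} (h : a ∉ T) :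
    Ln (insert a T) = (Ln T).map (LinearMap.mulLeft ℚ (io a)) := by
  rw [Ln, Ln, Submodule.map_span, Set.image_singleton, LinearMap.mulLeft_apply, ← omg_cons]
  rcases omg_perm (Finset.toList_insert h) with e | e
  · rw [e]
  · rw [e, ← Set.neg_singleton, Submodule.span_neg]

theorem mul_mem_insert {a : Vec} {T : Finset Vec} (h : a ∉ T) {x : Ex} (hx : x ∈ Ln T) :
    io a * x ∈ Ln (insert a T) := by
  rw [Ln_insert h]; exact ⟨x, hx, rfl⟩

theorem exists_of_mem {v : Vec} {T : Finset Vec} (hv : v ∈ T) {x : Ex} (hx : x ∈ Ln T) :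
    ∃ y ∈ Ln (T.erase v), io v * y = x := by
  rw [← Finset.insert_erase hv, Ln_insert (Finset.notMem_erase v T)] at hx
  exact hx

theorem io_mul_eq_zero {v : Vec} {T : Finset Vec} (hv : v ∈ T) {x : Ex} (hx : x ∈ Ln T) :
    io v * x = 0 := by
  obtain ⟨y, -, rfl⟩ := exists_of_mem hv hx
  rw [← mul_assoc, io_mul_self, zero_mul]

theorem mul_mem_insert' (a : Vec) {T : Finset Vec} {x : Ex} (hx : x ∈ Ln T) :
    io a * x ∈ Ln (insert a T) := by
  by_cases h : a ∈ T
  · rw [io_mul_eq_zero h hx]; exact zero_mem _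
  · exact mul_mem_insert h hx

theorem ct_eq_zero {w : Vec} {T : Finset Vec} (h : ∀ v ∈ T, B w v = 0) {x : Ex} (hx : x ∈ Ln T) :
    ct w x = 0 := by
  induction T using Finset.induction_on generalizing x with
  | empty =>
    rw [Ln_empty, Submodule.mem_span_singleton] at hx
    obtain ⟨a, rfl⟩ := hx
    rw [map_smul, ct_one, smul_zero]
  | insert a T ha ih =>
    rw [Ln_insert ha] at hx
    obtain ⟨y, hy, rfl⟩ := hx
    rw [LinearMap.mulLeft_apply, ct_io_mul, h a (Finset.mem_insert_self _ _),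
      ih (fun v hv => h v (Finset.mem_insert_of_mem hv)) hy]
    simp

theorem ct_io_self {v : Vec} {T : Finset Vec} (h1 : B v v = 1) (h : ∀ w ∈ T, B v w = 0) {y : Ex}
    (hy : y ∈ Ln T) : ct v (io v * y) = y := by
  rw [ct_io_mul, h1, ct_eq_zero h hy]; simp

theorem Cube.ct_mem {z v : Vec} {T : Finset Vec} (h : Cube z T) (hv : v ∈ T) {x : Ex}
    (hx : x ∈ Ln T) : ct v x ∈ Ln (T.erase v) := by
  obtain ⟨y, hy, rfl⟩ := exists_of_mem hv hx
  rwa [ct_io_self (h.root v hv) (fun w hw =>
    h.orth v hv w (Finset.mem_of_mem_erase hw) (Finset.ne_of_mem_erase hw).symm) hy]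

theorem om_ne_zero {z : Vec} {T : Finset Vec} (h : Cube z T) : omg T.toList ≠ 0 := by
  induction T using Finset.induction_on with
  | empty => simp [omg]
  | insert a T ha ih =>
    have h1 : io a * omg T.toList ≠ 0 := fun e => by
      have := ct_io_self (h.root a (Finset.mem_insert_self _ _)) (T := T) (fun w hw =>
        h.orth a (Finset.mem_insert_self _ _) w (Finset.mem_insert_of_mem hw)
          (fun e => ha (e ▸ hw))) (om_mem T)
      rw [e, map_zero] at this
      exact ih (h.mono (Finset.subset_insert _ _)) this.symm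
    rw [← omg_cons] at h1
    rcases omg_perm (Finset.toList_insert ha) with e | e
    · rwa [e]
    · rwa [e, neg_ne_zero]

theorem ac_mem (g : PO) {T : Finset Vec} {x : Ex} (hx : x ∈ Ln T) :
    ac g x ∈ Ln (T.image (g • ·)) := by
  induction T using Finset.induction_on generalizing x with
  | empty =>
    rw [Finset.image_empty]
    rw [Ln_empty, Submodule.mem_span_singleton] at hx ⊢
    obtain ⟨a, rfl⟩ := hx
    exact ⟨a, by simp⟩
  | insert a T ha ih =>
    rw [Ln_insert ha] at hx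
    obtain ⟨y, hy, rfl⟩ := hx
    rw [LinearMap.mulLeft_apply, map_mul, ac_io, Finset.image_insert]
    exact mul_mem_insert' _ (ih hy)

theorem Ln_flip {v : Vec} {T : Finset Vec} (hv : v ∈ T) (hn : -v ∉ T) :
    Ln (insert (-v) (T.erase v)) = Ln T := by
  have e : LinearMap.mulLeft ℚ (io (-v)) = -LinearMap.mulLeft ℚ (io v) := by
    apply LinearMap.ext; intro x; simp [io_neg]
  rw [Ln_insert (fun h => hn (Finset.mem_of_mem_erase h)), e, Submodule.map_neg,
    ← Ln_insert (Finset.notMem_erase v T), Finset.insert_erase hv]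

theorem exists_pos_aux : ∀ (n : ℕ) (z : Vec) (T : Finset Vec), Cube z T →
    (T.filter (fun v => ¬ 0 < deg v)).card = n →
    ∃ z' T', Cube z' T' ∧ Pos T' ∧ T'.card = T.card ∧ ctr z' T' = ctr z T ∧ Ln T' = Ln T := by
  intro n
  induction n with
  | zero =>
    intro z T h h0
    refine ⟨z, T, h, fun v hv => ?_, rfl, rfl, rfl⟩
    by_contra hc
    have : v ∈ T.filter (fun v => ¬ 0 < deg v) := Finset.mem_filter.mpr ⟨hv, hc⟩
    rw [Finset.card_eq_zero.mp h0] at this
    simp at this
  | succ n ih =>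
    intro z T h h0
    obtain ⟨v, hv⟩ := Finset.card_pos.mp (by omega : 0 < (T.filter (fun v => ¬ 0 < deg v)).card)
    have hv' := hv
    rw [Finset.mem_filter] at hv
    have hn : -v ∉ T.erase v := fun a => h.neg_notMem hv.1 (Finset.mem_of_mem_erase a)
    have hc : Cube (z - (2 : ℤ) • v) (insert (-v) (T.erase v)) := (h.flip hv.1).insert
      (by rw [B_neg_left, B_neg_right, h.root v hv.1]; rfl)
      (by rw [B_neg_left, B_sub_right, B_smul_right, h.root v hv.1, h.adj v hv.1]; rfl)
      (fun w hw _ => by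
        rw [B_neg_right, h.orth w (Finset.mem_of_mem_erase hw) v hv.1 (Finset.ne_of_mem_erase hw)]; rfl)
    obtain ⟨z', T', a, b, c, d, e⟩ := ih _ _ hc (by
      have := deg_ne_zero (h.root v hv.1)
      rw [Finset.filter_insert, if_neg (by rw [deg_neg]; omega), Finset.filter_erase,
        Finset.card_erase_of_mem hv', h0]; rfl)
    refine ⟨z', T', a, b, ?_, ?_, ?_⟩
    · rw [c, Finset.card_insert_of_notMem hn, Finset.card_erase_add_one hv.1]
    · rw [d, ctr_insert _ hn, ctr_flip _ hv.1]; abel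
    · rw [e, Ln_flip hv.1 (h.neg_notMem hv.1)]

theorem Cube.exists_pos {z : Vec} {T : Finset Vec} (h : Cube z T) :
    ∃ z' T', Cube z' T' ∧ Pos T' ∧ T'.card = T.card ∧ ctr z' T' = ctr z T ∧ Ln T' = Ln T :=
  exists_pos_aux _ z T h rfl

theorem Cube.Ln_eq {z z' : Vec} {T T' : Finset Vec} (h : Cube z T) (h' : Cube z' T')
    (e : ctr z T = ctr z' T') : Ln T = Ln T' := by
  obtain ⟨a, A, a1, a2, -, a4, a5⟩ := h.exists_pos
  obtain ⟨b, C, b1, b2, -, b4, b5⟩ := h'.exists_pos
  rw [← a5, ← b5, ← a1.Ap_ctr a2, ← b1.Ap_ctr b2, a4, b4, e]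

end Pool.Agent.MP_3fe7bf_gt

end

-- part MP_3fe7bf_gt.Weyl
section

/-!
The stabiliser of `kap` has order 51840, and this is the index of the level two congruence subgroup.
-/

namespace Pool.Agent.MP_3fe7bf_gt

open Matrix

abbrev Wg : Subgroup PO := MulAction.stabilizer PO kap

theorem isComplement_Wg : Subgroup.IsComplement' red.ker Wg := by
  apply Subgroup.isComplement'_of_disjoint_and_mul_eq_univ
  · rw [Subgroup.disjoint_def]
    intro x h1 h2
    exact eq_one_of_fix h2 h1
  · rw [Set.eq_univ_iff_forall]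
    intro g
    obtain ⟨n, hn, h⟩ := exists_ker_mul_fix g
    exact ⟨n⁻¹, inv_mem hn, n * g, h, by simp⟩

def box : List Vec :=
  ([1, 2, 3, 4, 5] : List ℤ).flatMap fun a => ([0, -1, -2] : List ℤ).flatMap fun b =>
  ([0, -1, -2] : List ℤ).flatMap fun c => ([0, -1, -2] : List ℤ).flatMap fun d =>
  ([0, -1, -2] : List ℤ).flatMap fun e => ([0, -1, -2] : List ℤ).flatMap fun f =>
  ([0, -1, -2] : List ℤ).map fun g => ![a, b, c, d, e, f, g]

def L72 : List Vec := box.filter fun h => decide (B h h = -1 ∧ deg h = 3)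

theorem L72_length : L72.length = 72 := by decide +kernel

theorem L72_nodup : L72.Nodup := by decide +kernel

theorem L72_desc : ∀ h ∈ L72, h = ![1, 0, 0, 0, 0, 0, 0] ∨ ∃ i j k : Fin 6, i ≠ j ∧ i ≠ k ∧ j ≠ k ∧
    h 0 + h i.succ + h j.succ + h k.succ < 0 := by decide +kernel

theorem mem_L72 {h : Vec} : h ∈ L72 ↔ B h h = -1 ∧ deg h = 3 := by
  unfold L72
  rw [List.mem_filter, decide_eq_true_iff]
  refine ⟨fun H => H.2, fun H => ⟨?_, H⟩⟩
  obtain ⟨h1, h2⟩ := H
  have hz := csK h e0 (by rw [B_e0, deg_e0, e0_zero]; norm_num)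
  rw [B_e0, B_e0, deg_e0, e0_zero, h1, h2] at hz
  have hE : ∀ j : Fin 6, h j.succ = 0 ∨ h j.succ = -1 ∨ h j.succ = -2 := fun j => by
    have hj := csK h (E j) (by rw [B_E_E, deg_E]; norm_num)
    rw [B_E, B_E_E, deg_E, h1, h2] at hj
    have a : h j.succ ≤ 0 := by nlinarith
    have b : -2 ≤ h j.succ := by nlinarith
    omega
  have a : 1 ≤ h 0 := by nlinarith
  have b : h 0 ≤ 5 := by nlinarith
  have e : h = ![h 0, h 1, h 2, h 3, h 4, h 5, h 6] := by
    ext i; fin_cases i <;> rfl
  unfold box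
  simp only [List.mem_flatMap, List.mem_map, List.mem_cons, List.not_mem_nil, or_false]
  exact ⟨h 0, by omega, h 1, hE 0, h 2, hE 1, h 3, hE 2, h 4, hE 3, h 5, hE 4, h 6, hE 5, e.symm⟩

theorem e0_eq : e0 = ![1, 0, 0, 0, 0, 0, 0] := by
  ext i; fin_cases i <;> simp [e0]

theorem orbit_aux : ∀ (n : ℕ) (h : Vec), h ∈ L72 → h 0 < n → h ∈ MulAction.orbit Wg e0 := by
  intro n
  induction n with
  | zero =>
    intro h h1 h2
    rw [mem_L72] at h1
    have := future_of_deg_pos (x := h) (by rw [h1.1]; norm_num) (by rw [h1.2]; norm_num)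
    simp at h2; linarith
  | succ n ih =>
    intro h h1 h2
    rcases L72_desc h h1 with h3 | ⟨i, j, k, hij, hik, hjk, h3⟩
    · rw [h3, ← e0_eq]; exact MulAction.mem_orbit_self _
    · have h4 := ih (crem hij hik hjk • h) (by
        rw [mem_L72] at h1 ⊢
        rw [B_smul, deg_smul_of_fix (crem_kap _ _ _)]; exact h1) (by
        rw [crem_smul]
        simp only [Pi.add_apply, Pi.smul_apply, Pi.sub_apply, e0_zero, E_zero, smul_eq_mul]
        push_cast at h2
        linarith)
      obtain ⟨w, hw⟩ := h4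
      refine ⟨(⟨crem hij hik hjk, crem_kap _ _ _⟩ : Wg)⁻¹ * w, ?_⟩
      simp only [mul_smul] at hw ⊢
      rw [hw, inv_smul_eq_iff]
      rfl

theorem orbit_eq : MulAction.orbit Wg e0 = (L72.toFinset : Set Vec) := by
  ext h
  simp only [List.coe_toFinset, Set.mem_setOf_eq]
  constructor
  · rintro ⟨w, rfl⟩
    rw [mem_L72]
    refine ⟨?_, ?_⟩
    · show B ((w : PO) • e0) ((w : PO) • e0) = -1
      rw [B_smul, B_e0, e0_zero]
    · show deg ((w : PO) • e0) = 3
      rw [deg_smul_of_fix w.2, deg_e0]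
  · intro H
    exact orbit_aux ((h 0).toNat + 1) h H (by push_cast; omega)

theorem index_stab : (MulAction.stabilizer Wg e0).index = 72 := by
  rw [MulAction.index_stabilizer, orbit_eq, Set.ncard_coe_finset, List.toFinset_card_of_nodup L72_nodup,
    L72_length]

def ext7 (p : Equiv.Perm (Fin 6)) : Equiv.Perm (Fin 7) := Equiv.Perm.decomposeFin.symm (0, p)

theorem ext7_zero (p : Equiv.Perm (Fin 6)) : ext7 p 0 = 0 := by simp [ext7]
theorem ext7_succ (p : Equiv.Perm (Fin 6)) (i : Fin 6) : ext7 p i.succ = (p i).succ := by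
  simp [ext7]

theorem B_sum (u v : Vec) : B u v = -(u 0 * v 0) + ∑ i : Fin 6, u i.succ * v i.succ := by
  simp [B, Fin.sum_univ_succ]; ring

def permPO (p : Equiv.Perm (Fin 6)) : PO :=
  ⟨⟨(ext7 p).permMatrix ℤ, (ext7 p)⁻¹.permMatrix ℤ, by rw [← Matrix.permMatrix_mul]; simp,
    by rw [← Matrix.permMatrix_mul]; simp⟩, by
    refine ⟨lorentz_of_B ?_, ?_⟩
    · intro x y
      simp only [Matrix.permMatrix_mulVec, B_sum, Function.comp, ext7_zero, ext7_succ]
      rw [Equiv.sum_comp p (fun i => x i.succ * y i.succ)]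
    · simp [Equiv.Perm.permMatrix, PEquiv.toMatrix, ext7_zero]⟩

theorem permPO_smul (p : Equiv.Perm (Fin 6)) (v : Vec) : permPO p • v = v ∘ ext7 p :=
  Matrix.permMatrix_mulVec _

theorem permPO_kap (p : Equiv.Perm (Fin 6)) : permPO p • kap = kap := by
  have : ∀ i : Fin 6, kap i.succ = -1 := by intro i; fin_cases i <;> simp [kap]
  rw [permPO_smul]
  ext i
  refine Fin.cases ?_ (fun j => ?_) i
  · simp [ext7_zero]
  · simp [ext7_succ, this]

theorem permPO_e0 (p : Equiv.Perm (Fin 6)) : permPO p • e0 = e0 := by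
  rw [permPO_smul]
  ext i
  refine Fin.cases ?_ (fun j => ?_) i
  · simp [ext7_zero]
  · simp [ext7_succ, e0_succ]

theorem permPO_E (p : Equiv.Perm (Fin 6)) (i : Fin 6) : permPO p • E i = E (p.symm i) := by
  rw [permPO_smul]
  ext k
  refine Fin.cases ?_ (fun j => ?_) k
  · simp [ext7_zero, E_zero]
  · simp [ext7_succ, E_succ, Equiv.symm_apply_eq]

theorem E_injective : Function.Injective E := by
  intro i j h
  have := congrFun h j.succ
  rw [E_succ, E_succ] at this
  by_contra hne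
  simp [hne] at this

theorem line_zero {v : Vec} (hl : IsLine v) (h0 : v 0 = 0) : ∃ j, v = E j := by
  obtain ⟨h1, h2⟩ := hl
  unfold B at h1
  unfold deg at h2
  rw [h0] at h1 h2
  have n : ∀ x : ℤ, 0 ≤ x * x - x := fun x => by
    rcases le_or_gt x 0 with h | h <;> nlinarith
  have z : ∀ x : ℤ, x * x - x = 0 → x = 0 ∨ x = 1 := fun x hx => by
    have : x * (x - 1) = 0 := by linarith
    rcases mul_eq_zero.mp this with h | h
    · exact Or.inl h
    · exact Or.inr (by linarith)
  have n1 := n (v 1)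
  have n2 := n (v 2)
  have n3 := n (v 3)
  have n4 := n (v 4)
  have n5 := n (v 5)
  have n6 := n (v 6)
  have z1 := z (v 1) (by linarith)
  have z2 := z (v 2) (by linarith)
  have z3 := z (v 3) (by linarith)
  have z4 := z (v 4) (by linarith)
  have z5 := z (v 5) (by linarith)
  have z6 := z (v 6) (by linarith)
  have key : ∀ j : Fin 6, (∀ i : Fin 6, v i.succ = if j = i then 1 else 0) → ∃ j, v = E j := by
    intro j hj
    refine ⟨j, ?_⟩
    ext i
    refine Fin.cases ?_ (fun k => ?_) i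
    · rw [h0, E_zero]
    · rw [hj, E_succ]
  clear h1 n z n1 n2 n3 n4 n5 n6
  by_cases c1 : v 1 = 1
  · apply key 0; intro i; fin_cases i <;> simp <;> omega
  by_cases c2 : v 2 = 1
  · apply key 1; intro i; fin_cases i <;> simp <;> omega
  by_cases c3 : v 3 = 1
  · apply key 2; intro i; fin_cases i <;> simp <;> omega
  by_cases c4 : v 4 = 1
  · apply key 3; intro i; fin_cases i <;> simp <;> omega
  by_cases c5 : v 5 = 1
  · apply key 4; intro i; fin_cases i <;> simp <;> omega
  · apply key 5; intro i; fin_cases i <;> simp <;> omega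

def permStab (p : Equiv.Perm (Fin 6)) : MulAction.stabilizer Wg e0 :=
  ⟨⟨permPO p, permPO_kap p⟩, permPO_e0 p⟩

theorem permStab_bij : Function.Bijective permStab := by
  constructor
  · intro p q h
    have h1 : permPO p = permPO q := congrArg (fun x : MulAction.stabilizer Wg e0 => (x.1.1 : PO)) h
    have : p.symm = q.symm := by
      ext i
      have := permPO_E p i
      rw [h1, permPO_E] at this
      rw [E_injective this]
    exact Equiv.symm_bijective.1 this
  · rintro ⟨⟨s, hs⟩, hs0⟩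
    have hs0' : s • e0 = e0 := hs0
    have hs' : s • kap = kap := hs
    have : ∀ i, ∃ j, s • E i = E j := fun i => by
      apply line_zero (isLine_smul hs' (isLine_E i))
      have h := B_smul s (E i) e0
      rw [hs0', B_e0, B_e0, E_zero] at h
      linarith
    choose t ht using this
    have hinj : Function.Injective t := fun i j h => by
      have h1 : s • E i = s • E j := by rw [ht, ht, h]
      exact E_injective (smul_left_cancel s h1)
    refine ⟨(Equiv.ofBijective t (Finite.injective_iff_bijective.mp hinj)).symm, ?_⟩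
    apply Subtype.ext
    apply Subtype.ext
    apply ext_of_basis
    · exact (permPO_e0 _).trans hs0'.symm
    · intro i
      exact (permPO_E _ i).trans (ht i).symm

theorem card_stab : Nat.card (MulAction.stabilizer Wg e0) = 720 := by
  rw [← Nat.card_eq_of_bijective _ permStab_bij, Nat.card_perm]
  simp [Nat.factorial]

theorem card_Wg : Nat.card Wg = 51840 := by
  rw [← (MulAction.stabilizer Wg e0).index_mul_card, index_stab, card_stab]

theorem index_ker_red : red.ker.index = 51840 := by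
  rw [isComplement_Wg.symm.index_eq_card, card_Wg]

end Pool.Agent.MP_3fe7bf_gt

end

-- part MP_3fe7bf_gt.Count
section

/-!
Counting orbits of cubes.
-/

namespace Pool.Agent.MP_3fe7bf_gt

theorem card_quot_fibre {G X Y : Type} [Group G] [MulAction G X] [MulAction G Y] (f : X → Y)
    (hf : ∀ (g : G) x, f (g • x) = g • f x) (free : ∀ (g : G) (y : Y), g • y = y → g = 1) {m : ℕ}
    (hm : ∀ y, Nat.card {x // f x = y} = m) (hm0 : m ≠ 0) :
    Nat.card (MulAction.orbitRel.Quotient G X) = m * Nat.card (MulAction.orbitRel.Quotient G Y) := by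
  let φ : (Σ q : MulAction.orbitRel.Quotient G Y, {x // f x = q.out}) →
      MulAction.orbitRel.Quotient G X := fun p => Quotient.mk _ p.2.1
  have hφ : Function.Bijective φ := by
    constructor
    · rintro ⟨q, x, hx⟩ ⟨q', x', hx'⟩ h
      obtain ⟨g, hg⟩ : x ∈ MulAction.orbit G x' := Quotient.exact h
      have hg' : g • x' = x := hg
      have h1 : q.out = g • q'.out := by rw [← hx, ← hx', ← hg', hf]
      have h2 : q = q' := by
        rw [← q.out_eq, ← q'.out_eq]
        exact Quotient.sound ⟨g, h1.symm⟩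
      subst h2
      have h3 := free g _ h1.symm
      rw [h3, one_smul] at hg'
      subst hg'
      rfl
    · intro a
      obtain ⟨x, rfl⟩ := Quotient.exists_rep a
      obtain ⟨g, hg⟩ : (Quotient.mk (MulAction.orbitRel G Y) (f x)).out ∈ MulAction.orbit G (f x) :=
        Quotient.mk_out (s := MulAction.orbitRel G Y) (f x)
      exact ⟨⟨Quotient.mk _ (f x), g • x, (hf g x).trans hg⟩, Quotient.sound ⟨g, rfl⟩⟩
  have e : ∀ y, {x // f x = y} ≃ Fin m := fun y => by
    have : Finite {x // f x = y} := Nat.finite_of_card_ne_zero (by rw [hm]; exact hm0)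
    exact Finite.equivFinOfCardEq (hm y)
  rw [← Nat.card_eq_of_bijective φ hφ, Nat.card_congr ((Equiv.sigmaCongrRight fun q => e _).trans
    (Equiv.sigmaEquivProd _ _)), Nat.card_prod, Nat.card_fin, mul_comm]

theorem card_fibre_smul {G X Y : Type} [Group G] [MulAction G X] [MulAction G Y] (f : X → Y)
    (hf : ∀ (g : G) x, f (g • x) = g • f x) (g : G) (y : Y) :
    Nat.card {x // f x = g • y} = Nat.card {x // f x = y} :=
  Nat.card_congr (Equiv.subtypeEquiv (MulAction.toPerm g).symm fun x => by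
    rw [MulAction.toPerm_symm_apply, hf, inv_smul_eq_iff])

def Cen (k : ℕ) : Type := {c : Vec // ∃ z T, Cube z T ∧ T.card = k ∧ ctr z T = c}

instance (k : ℕ) : MulAction PO (Cen k) where
  smul g c := ⟨g • c.1, by
    obtain ⟨z, T, a, b, e⟩ := c.2
    exact ⟨_, _, a.smul g, by rw [card_smul, b], by rw [ctr_smul, e]⟩⟩
  one_smul c := Subtype.ext (one_smul _ c.1)
  mul_smul g h c := Subtype.ext (mul_smul g h c.1)

def ChT : Type := {z : Vec // Ch z}

instance : MulAction PO ChT where
  smul g c := ⟨g • c.1, c.2.smul g⟩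
  one_smul c := Subtype.ext (one_smul _ c.1)
  mul_smul g h c := Subtype.ext (mul_smul g h c.1)

def PC (k : ℕ) : Type := {p : Vec × Finset Vec // Cube p.1 p.2 ∧ p.2.card = k}

instance (k : ℕ) : MulAction PO (PC k) where
  smul g p := ⟨(g • p.1.1, p.1.2.image (g • ·)), p.2.1.smul g, by rw [card_smul, p.2.2]⟩
  one_smul p := Subtype.ext (Prod.ext (one_smul _ p.1.1) (by
    show p.1.2.image ((1 : PO) • ·) = p.1.2
    simp))
  mul_smul g h p := Subtype.ext (Prod.ext (mul_smul g h p.1.1) (by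
    show p.1.2.image ((g * h) • ·) = (p.1.2.image (h • ·)).image (g • ·)
    rw [Finset.image_image]
    simp only [mul_smul]
    rfl))

def toCen {k : ℕ} (p : PC k) : Cen k := ⟨ctr p.1.1 p.1.2, _, _, p.2.1, p.2.2, rfl⟩

def toCh {k : ℕ} (p : PC k) : ChT := ⟨p.1.1, p.2.1.ch⟩

def toCh0 (g : PO) : ChT := ⟨g • kap, ch_kap.smul g⟩

theorem toCen_smul {k : ℕ} (g : PO) (p : PC k) : toCen (g • p) = g • toCen p :=
  Subtype.ext (ctr_smul g _ _)

theorem toCh_smul {k : ℕ} (g : PO) (p : PC k) : toCh (g • p) = g • toCh p := rfl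

theorem toCh0_smul (g h : PO) : toCh0 (g • h) = g • toCh0 h := Subtype.ext (mul_smul g h kap)

theorem ChT_eq (y : ChT) : ∃ g : PO, y = g • toCh0 1 := by
  obtain ⟨g, hg⟩ := y.2
  exact ⟨g, Subtype.ext (by rw [← hg]; exact congrArg (g • ·) (one_smul PO kap).symm)⟩

theorem fibre_toCh0 (y : ChT) : Nat.card {g // toCh0 g = y} = 51840 := by
  obtain ⟨g, rfl⟩ := ChT_eq y
  rw [card_fibre_smul toCh0 toCh0_smul, ← card_Wg]
  refine Nat.card_congr (Equiv.subtypeEquivRight fun x => ?_)
  rw [MulAction.mem_stabilizer_iff]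
  refine Subtype.ext_iff.trans ?_
  show x • kap = (1 : PO) • kap ↔ _
  rw [one_smul]

theorem Cube.flip_insert {z v : Vec} {T : Finset Vec} (h : Cube z T) (hv : v ∈ T) :
    Cube (z - (2 : ℤ) • v) (Insert.insert (-v) (T.erase v)) :=
  (h.flip hv).insert (by rw [B_neg_left, B_neg_right, h.root v hv]; rfl)
    (by rw [B_neg_left, B_sub_right, B_smul_right, h.root v hv, h.adj v hv]; rfl)
    (fun w hw _ => by
      rw [B_neg_right, h.orth w (Finset.mem_of_mem_erase hw) v hv (Finset.ne_of_mem_erase hw)]; rfl)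

theorem fibre_toCen {k : ℕ} (y : Cen k) : Nat.card {p // toCen p = y} = 2 ^ k := by
  obtain ⟨_, z0, T0, a0, b0, rfl⟩ := y
  let φ : {p : PC k // toCen p = ⟨_, z0, T0, a0, b0, rfl⟩} → T0.powerset :=
    fun p => ⟨T0 \ p.1.1.2, Finset.mem_powerset.mpr Finset.sdiff_subset⟩
  have hφ : Function.Bijective φ := by
    constructor
    · have key : ∀ {z z' : Vec} {T T' : Finset Vec}, Cube z T → Cube z' T' → ctr z T = ctr z0 T0 →
          ctr z' T' = ctr z0 T0 → T0 \ T = T0 \ T' → T ⊆ T' := by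
        intro z z' T T' a a' e e' h v hv
        have h1 : v ∈ RR (ctr z0 T0) := by rw [← e, a.mem_RR]; exact Or.inl hv
        by_contra hn
        rcases a0.mem_RR.mp h1 with c | c
        · have : v ∈ T0 \ T := by rw [h]; exact Finset.mem_sdiff.mpr ⟨c, hn⟩
          exact (Finset.mem_sdiff.mp this).2 hv
        · have : -v ∈ T0 \ T' := by rw [← h]; exact Finset.mem_sdiff.mpr ⟨c, a.neg_notMem hv⟩
          rw [← e', a'.mem_RR] at h1
          exact (Finset.mem_sdiff.mp this).2 (h1.resolve_left hn)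
      rintro ⟨⟨⟨z, T⟩, a, b⟩, e⟩ ⟨⟨⟨z', T'⟩, a', b'⟩, e'⟩ h
      have e1 : ctr z T = ctr z0 T0 := congrArg Subtype.val e
      have e2 : ctr z' T' = ctr z0 T0 := congrArg Subtype.val e'
      have h1 : T0 \ T = T0 \ T' := congrArg Subtype.val h
      obtain rfl : T = T' := Finset.Subset.antisymm (key a a' e1 e2 h1) (key a' a e2 e1 h1.symm)
      obtain rfl : z = z' := sub_left_injective (e1.trans e2.symm)
      rfl
    · rintro ⟨U, hU'⟩
      have : ∃ z T, Cube z T ∧ T.card = k ∧ ctr z T = ctr z0 T0 ∧ T0 \ T = U := by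
        have hU := Finset.mem_powerset.mp hU'
        clear hU'
        induction U using Finset.induction_on with
        | empty => exact ⟨z0, T0, a0, b0, rfl, Finset.sdiff_self _⟩
        | insert u U hu ih =>
          obtain ⟨z, T, a, b, c, d⟩ := ih ((Finset.subset_insert _ _).trans hU)
          have h1 : u ∈ T0 := hU (Finset.mem_insert_self _ _)
          have h2 : u ∈ T := by
            by_contra hn
            exact hu (d ▸ Finset.mem_sdiff.mpr ⟨h1, hn⟩)
          have hn : -u ∉ T.erase u := fun x => a.neg_notMem h2 (Finset.mem_of_mem_erase x)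
          refine ⟨_, _, a.flip_insert h2, ?_, ?_, ?_⟩
          · rw [Finset.card_insert_of_notMem hn, Finset.card_erase_add_one h2, b]
          · rw [ctr_insert _ hn, ctr_flip _ h2, ← c]; abel
          · rw [Finset.sdiff_insert_of_notMem (a0.neg_notMem h1), Finset.sdiff_erase h1, d]
      obtain ⟨z, T, a, b, c, d⟩ := this
      exact ⟨⟨⟨(z, T), a, b⟩, Subtype.ext c⟩, Subtype.ext d⟩
  rw [Nat.card_eq_of_bijective φ hφ, Nat.card_eq_fintype_card, Fintype.card_coe,
    Finset.card_powerset, b0]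

def N27 : List Vec := [
  ![0, -1, 0, 0, 0, 0, 0], ![0, 0, -1, 0, 0, 0, 0], ![0, 0, 0, -1, 0, 0, 0],
  ![0, 0, 0, 0, -1, 0, 0], ![0, 0, 0, 0, 0, -1, 0], ![0, 0, 0, 0, 0, 0, -1],
  ![-1, 0, 0, 0, 0, 1, 1], ![-1, 0, 0, 0, 1, 0, 1], ![-1, 0, 0, 0, 1, 1, 0],
  ![-1, 0, 0, 1, 0, 0, 1], ![-1, 0, 0, 1, 0, 1, 0], ![-1, 0, 0, 1, 1, 0, 0],
  ![-1, 0, 1, 0, 0, 0, 1], ![-1, 0, 1, 0, 0, 1, 0], ![-1, 0, 1, 0, 1, 0, 0],
  ![-1, 0, 1, 1, 0, 0, 0], ![-1, 1, 0, 0, 0, 0, 1], ![-1, 1, 0, 0, 0, 1, 0],
  ![-1, 1, 0, 0, 1, 0, 0], ![-1, 1, 0, 1, 0, 0, 0], ![-1, 1, 1, 0, 0, 0, 0],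
  ![-2, 0, 1, 1, 1, 1, 1], ![-2, 1, 0, 1, 1, 1, 1], ![-2, 1, 1, 0, 1, 1, 1],
  ![-2, 1, 1, 1, 0, 1, 1], ![-2, 1, 1, 1, 1, 0, 1], ![-2, 1, 1, 1, 1, 1, 0]]

def box2 : List Vec :=
  ([0, -1, -2] : List ℤ).flatMap fun a => ([-1, 0, 1] : List ℤ).flatMap fun b =>
  ([-1, 0, 1] : List ℤ).flatMap fun c => ([-1, 0, 1] : List ℤ).flatMap fun d =>
  ([-1, 0, 1] : List ℤ).flatMap fun e => ([-1, 0, 1] : List ℤ).flatMap fun f =>
  ([-1, 0, 1] : List ℤ).map fun g => ![a, b, c, d, e, f, g]

theorem box2_N27 : ∀ v ∈ box2, B v v = 1 → deg v = -1 → v ∈ N27 := by decide +kernel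

theorem N27_spec : ∀ v ∈ N27, B v v = 1 ∧ deg v = -1 := by decide +kernel

theorem N27_nodup : N27.Nodup := by decide +kernel

theorem mem_N27 {h : Vec} : h ∈ N27 ↔ B h h = 1 ∧ B h kap = 1 := by
  rw [B_kap, neg_eq_iff_eq_neg]
  refine ⟨N27_spec h, fun H => box2_N27 h ?_ H.1 H.2⟩
  obtain ⟨h1, h2⟩ := H
  have hz := csK h e0 (by rw [B_e0, deg_e0, e0_zero]; norm_num)
  rw [B_e0, B_e0, deg_e0, e0_zero, h1, h2] at hz
  have hE : ∀ j : Fin 6, h j.succ = -1 ∨ h j.succ = 0 ∨ h j.succ = 1 := fun j => by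
    have hj := csK h (E j) (by rw [B_E_E, deg_E]; norm_num)
    rw [B_E, B_E_E, deg_E, h1, h2] at hj
    have a : h j.succ ≤ 1 := by nlinarith
    have b : -1 ≤ h j.succ := by nlinarith
    omega
  have a : -2 ≤ h 0 := by nlinarith
  have b : h 0 ≤ 0 := by nlinarith
  have e : h = ![h 0, h 1, h 2, h 3, h 4, h 5, h 6] := by
    ext i; fin_cases i <;> rfl
  unfold box2
  simp only [List.mem_flatMap, List.mem_map, List.mem_cons, List.not_mem_nil, or_false]
  exact ⟨h 0, by omega, h 1, hE 0, h 2, hE 1, h 3, hE 2, h 4, hE 3, h 5, hE 4, h 6, hE 5, e.symm⟩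

def cnt : ℕ → List Vec → ℕ → ℕ
  | _, _, 0 => 1
  | 0, _, _ + 1 => 0
  | _ + 1, [], _ + 1 => 0
  | n + 1, a :: l, k + 1 => cnt n (l.filter fun v => decide (B a v = 0)) k + cnt n l (k + 1)

def Orth (T : Finset Vec) : Prop := ∀ v ∈ T, ∀ w ∈ T, v ≠ w → B v w = 0

instance : DecidablePred Orth := fun T => by unfold Orth; infer_instance

theorem cnt_spec : ∀ (n : ℕ) (l : List Vec) (k : ℕ), l.length ≤ n → l.Nodup →
    ((l.toFinset.powersetCard k).filter Orth).card = cnt n l k := by
  intro n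
  have z : ∀ n (l : List Vec), ((l.toFinset.powersetCard 0).filter Orth).card = cnt n l 0 := by
    intro n l
    rw [Finset.powersetCard_zero, Finset.filter_singleton, if_pos (by simp [Orth])]
    cases n <;> simp [cnt]
  induction n with
  | zero =>
    intro l k h _
    obtain rfl := List.length_eq_zero_iff.mp (Nat.le_zero.mp h)
    cases k with
    | zero => exact z _ _
    | succ k => simp [cnt]
  | succ n ih =>
    intro l k h hn
    cases k with
    | zero => exact z _ _
    | succ k =>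
      cases l with
      | nil => simp [cnt]
      | cons a l =>
        rw [List.nodup_cons] at hn
        have ha : a ∉ l.toFinset := by simpa using hn.1
        have hl : l.length ≤ n := by simpa using h
        rw [cnt, ← ih l (k + 1) hl hn.2, ← ih _ k ((List.length_filter_le _ _).trans hl)
          (hn.2.filter _), List.toFinset_cons, Finset.powersetCard_succ_insert ha,
          Finset.filter_union, Finset.card_union_of_disjoint, add_comm, Finset.filter_image,
          Finset.card_image_of_injOn]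
        · congr 2
          ext S
          simp only [Finset.mem_filter, Finset.mem_powersetCard, List.toFinset_filter,
            Finset.subset_iff, decide_eq_true_eq, Orth, Finset.forall_mem_insert]
          constructor
          · rintro ⟨⟨h1, h2⟩, ⟨-, h3⟩, h4⟩
            exact ⟨⟨fun x hx => ⟨h1 hx, h3 x hx (fun e => ha (e ▸ h1 hx))⟩, h2⟩,
              fun v hv => (h4 v hv).2⟩
          · rintro ⟨⟨h1, h2⟩, h3⟩
            exact ⟨⟨fun x hx => (h1 hx).1, h2⟩, ⟨fun e => absurd rfl e, fun w hw _ => (h1 hw).2⟩,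
              fun v hv => ⟨fun _ => by rw [B_comm]; exact (h1 hv).2, h3 v hv⟩⟩
        · intro S hS S' hS' e
          have b1 : a ∉ S := fun x =>
            ha ((Finset.mem_powersetCard.mp (Finset.mem_filter.mp hS).1).1 x)
          have b2 : a ∉ S' := fun x =>
            ha ((Finset.mem_powersetCard.mp (Finset.mem_filter.mp hS').1).1 x)
          rw [← Finset.erase_insert b1, ← Finset.erase_insert b2, e]
        · rw [Finset.disjoint_left]
          intro S h1 h2
          obtain ⟨S', -, rfl⟩ := Finset.mem_image.mp (Finset.mem_filter.mp h2).1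
          exact ha ((Finset.mem_powersetCard.mp (Finset.mem_filter.mp h1).1).1
            (Finset.mem_insert_self _ _))

theorem fibre_toCh {k : ℕ} (y : ChT) : Nat.card {p : PC k // toCh p = y} = cnt 27 N27 k := by
  obtain ⟨g, rfl⟩ := ChT_eq y
  rw [card_fibre_smul toCh toCh_smul, ← cnt_spec 27 N27 k (by decide) N27_nodup,
    ← Fintype.card_coe, ← Nat.card_eq_fintype_card]
  let φ : {p : PC k // toCh p = toCh0 1} → (N27.toFinset.powersetCard k).filter Orth :=
    fun p => ⟨p.1.1.2, by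
      have e : p.1.1.1 = kap := (congrArg Subtype.val p.2).trans (one_smul PO kap)
      have a := p.1.2.1
      rw [e] at a
      refine Finset.mem_filter.mpr ⟨Finset.mem_powersetCard.mpr ⟨fun v hv => ?_, p.1.2.2⟩, a.orth⟩
      exact List.mem_toFinset.mpr (mem_N27.mpr ⟨a.root v hv, a.adj v hv⟩)⟩
  refine Nat.card_eq_of_bijective φ ⟨fun p q h => ?_, fun S => ?_⟩
  · exact Subtype.ext (Subtype.ext (Prod.ext
      ((congrArg Subtype.val p.2).trans (congrArg Subtype.val q.2).symm) (congrArg Subtype.val h)))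
  · obtain ⟨h1, h2⟩ := Finset.mem_filter.mp S.2
    obtain ⟨h3, h4⟩ := Finset.mem_powersetCard.mp h1
    exact ⟨⟨⟨(kap, S.1), ⟨ch_kap, fun v hv => (mem_N27.mp (List.mem_toFinset.mp (h3 hv))).1,
      fun v hv => (mem_N27.mp (List.mem_toFinset.mp (h3 hv))).2, h2⟩, h4⟩,
      Subtype.ext (one_smul PO kap).symm⟩, rfl⟩

theorem cnt_vals : ∀ k : Fin 8, cnt 27 N27 k = ![1, 27, 216, 720, 1080, 648, 72, 0] k := by
  decide +kernel

theorem isEmpty_Cen {k : ℕ} (hk : 7 ≤ k) : IsEmpty (Cen k) := by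
  refine ⟨fun c => ?_⟩
  obtain ⟨_, z, T, a, b, rfl⟩ := c
  obtain ⟨S, hS, hc⟩ := Finset.exists_subset_card_eq (s := T) (n := 7) (by omega)
  obtain ⟨g, rfl⟩ := a.ch
  have a' := (a.mono hS).smul g⁻¹
  rw [inv_smul_smul] at a'
  have h1 := cnt_spec 27 N27 7 (by decide) N27_nodup
  rw [show cnt 27 N27 7 = 0 from cnt_vals 7, Finset.card_eq_zero] at h1
  have : S.image (g⁻¹ • ·) ∈ (N27.toFinset.powersetCard 7).filter Orth :=
    Finset.mem_filter.mpr ⟨Finset.mem_powersetCard.mpr ⟨fun v hv =>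
      List.mem_toFinset.mpr (mem_N27.mpr ⟨a'.root v hv, a'.adj v hv⟩), by rw [card_smul, hc]⟩, a'.orth⟩
  rw [h1] at this
  simp at this

section
variable {Γ : Subgroup PO} (hΓ : ∀ g ∈ Γ, IsOfFinOrder g → g = 1)
include hΓ

theorem free_Cen {k : ℕ} (g : Γ) (c : Cen k) (h : g • c = c) : g = 1 := by
  obtain ⟨_, z, T, a, b, rfl⟩ := c
  exact Subtype.ext (hΓ g g.2 (isOfFinOrder_of_fix_vec a.ctr_neg a.ctr_future (congrArg Subtype.val h)))

theorem free_ChT (g : Γ) (c : ChT) (h : g • c = c) : g = 1 :=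
  Subtype.ext (hΓ g g.2 (isOfFinOrder_of_fix_vec (by rw [c.2.self]; norm_num) c.2.future
    (congrArg Subtype.val h)))

theorem card_ChT (hi : Γ.index = 414720) : Nat.card (MulAction.orbitRel.Quotient Γ ChT) = 8 := by
  have h1 := card_quot_fibre (G := Γ) toCh0 (fun g x => toCh0_smul g x) (free_ChT hΓ) fibre_toCh0
    (by norm_num)
  have h2 : Nat.card (MulAction.orbitRel.Quotient Γ PO) = Γ.index :=
    Nat.card_congr (QuotientGroup.quotientRightRelEquivQuotientLeftRel Γ)
  omega

theorem card_Cen (hi : Γ.index = 414720) {k : ℕ} (hk : cnt 27 N27 k ≠ 0) :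
    2 ^ k * Nat.card (MulAction.orbitRel.Quotient Γ (Cen k)) = cnt 27 N27 k * 8 := by
  rw [← card_ChT hΓ hi, ← card_quot_fibre (G := Γ) toCh (fun g x => toCh_smul g x) (free_ChT hΓ)
    fibre_toCh hk, ← card_quot_fibre (G := Γ) toCen (fun g x => toCen_smul g x) (free_Cen hΓ)
    fibre_toCen (by positivity)]

theorem card_Cen' (hi : Γ.index = 414720) (k : Fin 7) :
    Nat.card (MulAction.orbitRel.Quotient Γ (Cen k)) = ![8, 108, 432, 720, 540, 162, 9] k := by
  have h1 := cnt_vals k.castSucc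
  have h2 := card_Cen hΓ hi (k := k) (by
    rw [show cnt 27 N27 k = _ from h1]
    fin_cases k <;> simp)
  rw [show cnt 27 N27 k = _ from h1] at h2
  fin_cases k <;> simp at h2 ⊢ <;> omega

end

end Pool.Agent.MP_3fe7bf_gt

end
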