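import Mathlib
import Pool.Agent.MP_3fe7bf_gt.Mg.Count

-- part MP_3fe7bf_gt.Homol
section

/-!
Group homology computed from a free resolution realised inside ambient representations, and its
Euler characteristic when the resolution is finite.
-/

namespace Pool.Agent.MP_3fe7bf_gt

open CategoryTheory Module

section field
variable {k : Type} [Field k]

theorem finrank_sc (S : ShortComplex (ModuleCat.{0} k)) (hS : Module.Finite k S.X₂) :
    Module.Finite k S.homology ∧
      finrank k S.homology + finrank k (LinearMap.range S.f.hom) +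
        finrank k (LinearMap.range S.g.hom) = finrank k S.X₂ := by
  let e : S.homology ≃ₗ[k] (LinearMap.ker S.g.hom ⧸ LinearMap.range S.moduleCatToCycles) :=
    S.moduleCatHomologyIso.toLinearEquiv
  refine ⟨Module.Finite.equiv e.symm, ?_⟩
  have h1 := Submodule.finrank_quotient_add_finrank (LinearMap.range S.moduleCatToCycles)
  have h2 := LinearMap.finrank_range_add_finrank_ker S.g.hom
  have h3 : finrank k (LinearMap.range S.moduleCatToCycles) = finrank k (LinearMap.range S.f.hom) := by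
    rw [← Submodule.finrank_map_subtype_eq, ← LinearMap.range_comp]
    rfl
  rw [e.finrank_eq]
  omega

theorem euler_complex (K : ChainComplex (ModuleCat.{0} k) ℕ) (hfin : ∀ n, Module.Finite k (K.X n))
    (N : ℕ) : ∑ n ∈ Finset.range (N + 1), (-1 : ℤ) ^ n * finrank k (K.homology n) =
      ∑ n ∈ Finset.range (N + 1), (-1 : ℤ) ^ n * finrank k (K.X n) -
        (-1) ^ N * finrank k (LinearMap.range (K.d (N + 1) N).hom) := by
  have key : ∀ n, finrank k (K.homology n) + finrank k (LinearMap.range (K.d (n + 1) n).hom) +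
      finrank k (LinearMap.range (K.d n ((ComplexShape.down ℕ).next n)).hom) = finrank k (K.X n) := by
    intro n
    have h := (finrank_sc (K.sc' (n + 1) n ((ComplexShape.down ℕ).next n)) (hfin n)).2
    have e := (K.homologyIsoSc' (n + 1) n ((ComplexShape.down ℕ).next n) (by simp) rfl).toLinearEquiv
    rw [e.finrank_eq]
    exact h
  induction N with
  | zero =>
    have h := key 0
    rw [ChainComplex.next_nat_zero, K.shape 0 0 (by simp), ModuleCat.hom_zero, LinearMap.range_zero,
      finrank_bot] at h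
    simp at h ⊢
    omega
  | succ N ih =>
    have h := key (N + 1)
    rw [ChainComplex.next_nat_succ] at h
    rw [Finset.sum_range_succ _ (N + 1), Finset.sum_range_succ _ (N + 1), ih, ← h]
    push_cast
    ring

theorem finite_homology (K : ChainComplex (ModuleCat.{0} k) ℕ) (n : ℕ) (h : Module.Finite k (K.X n)) :
    Module.Finite k (K.homology n) :=
  (finrank_sc (K.sc n) h).1

end field

section
variable {k : Type} [CommRing k] {G : Type} [Group G] {M : ℕ → Type} [∀ n, AddCommGroup (M n)]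
  [∀ n, Module k (M n)] (ρ : ∀ n, Representation k G (M n))
  (D : ∀ n, M (n + 1) →ₗ[k] M n) (α : ℕ → Type) (b : ∀ n, α n → M n)

noncomputable abbrev JJ (n : ℕ) : (α n →₀ MonoidAlgebra k G) →ₗ[k] M n :=
  (Representation.freeLift (ρ n) (b n)).toLinearMap

structure ResData (ε : M 0 →ₗ[k] k) : Prop where
  inj : ∀ n, Function.Injective (JJ ρ α b n)
  map : ∀ n, ∀ x ∈ LinearMap.range (JJ ρ α b (n + 1)), D n x ∈ LinearMap.range (JJ ρ α b n)
  equiv : ∀ n g, ∀ x ∈ LinearMap.range (JJ ρ α b (n + 1)), D n (ρ (n + 1) g x) = ρ n g (D n x)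
  sq : ∀ n, ∀ x ∈ LinearMap.range (JJ ρ α b (n + 2)), D n (D (n + 1) x) = 0
  ex : ∀ n, ∀ x ∈ LinearMap.range (JJ ρ α b (n + 1)), D n x = 0 →
    ∃ y ∈ LinearMap.range (JJ ρ α b (n + 2)), D (n + 1) y = x
  eps_inv : ∀ g, ∀ x ∈ LinearMap.range (JJ ρ α b 0), ε (ρ 0 g x) = ε x
  eps_sq : ∀ x ∈ LinearMap.range (JJ ρ α b 1), ε (D 0 x) = 0
  eps_ex : ∀ x ∈ LinearMap.range (JJ ρ α b 0), ε x = 0 →
    ∃ y ∈ LinearMap.range (JJ ρ α b 1), D 0 y = x
  eps_surj : ∃ x ∈ LinearMap.range (JJ ρ α b 0), ε x = 1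

variable {ρ D α b} {ε : M 0 →ₗ[k] k}

theorem JJ_equiv (n : ℕ) (g : G) (x : α n →₀ MonoidAlgebra k G) :
    JJ ρ α b n (Representation.free k G (α n) g x) = ρ n g (JJ ρ α b n x) :=
  Representation.IntertwiningMap.isIntertwining _ _ (Representation.freeLift (ρ n) (b n)) g x

theorem JJ_single (n : ℕ) (i : α n) (g : G) (r : k) :
    JJ ρ α b n (Finsupp.single i (MonoidAlgebra.single g r)) = r • ρ n g (b n i) :=
  Representation.freeLift_single_single _ i g r (b n)

theorem JJ_eq (n : ℕ) : ∃ e : (α n →₀ MonoidAlgebra k G) ≃ₗ[k] (α n × G →₀ k),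
    JJ ρ α b n = Finsupp.linearCombination k (fun x : α n × G => ρ n x.2 (b n x.1)) ∘ₗ e.toLinearMap :=
  ⟨(Finsupp.mapRange.linearEquiv (MonoidAlgebra.coeffLinearEquiv k)).trans
    (Finsupp.curryLinearEquiv k).symm, rfl⟩

theorem JJ_injective (n : ℕ) (h : LinearIndependent k (fun x : α n × G => ρ n x.2 (b n x.1))) :
    Function.Injective (JJ ρ α b n) := by
  obtain ⟨e, he⟩ := JJ_eq (ρ := ρ) (b := b) n
  rw [he, LinearMap.coe_comp]
  exact Function.Injective.comp h e.injective

theorem JJ_range (n : ℕ) : LinearMap.range (JJ ρ α b n) =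
    Submodule.span k (Set.range fun x : α n × G => ρ n x.2 (b n x.1)) := by
  obtain ⟨e, he⟩ := JJ_eq (ρ := ρ) (b := b) n
  rw [he, LinearMap.range_comp, LinearEquiv.range, Submodule.map_top,
    Finsupp.range_linearCombination]

noncomputable def ResData.dl (H : ResData ρ D α b ε) (n : ℕ) :
    (α (n + 1) →₀ MonoidAlgebra k G) →ₗ[k] (α n →₀ MonoidAlgebra k G) :=
  (LinearEquiv.ofInjective _ (H.inj n)).symm.toLinearMap ∘ₗ
    (D n ∘ₗ JJ ρ α b (n + 1)).codRestrict _ (fun x => H.map n _ ⟨x, rfl⟩)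

theorem ResData.J_dl (H : ResData ρ D α b ε) (n : ℕ) (x : α (n + 1) →₀ MonoidAlgebra k G) :
    JJ ρ α b n (H.dl n x) = D n (JJ ρ α b (n + 1) x) := by
  have := LinearEquiv.ofInjective_symm_apply (JJ ρ α b n) (h := H.inj n)
    ((D n ∘ₗ JJ ρ α b (n + 1)).codRestrict _ (fun x => H.map n _ ⟨x, rfl⟩) x)
  exact this

noncomputable def ResData.d (H : ResData ρ D α b ε) (n : ℕ) :
    Rep.free k G (α (n + 1)) ⟶ Rep.free k G (α n) :=
  Rep.ofHom ⟨H.dl n, fun g => LinearMap.ext fun x => H.inj n (by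
    simp only [LinearMap.comp_apply]
    rw [H.J_dl, JJ_equiv, JJ_equiv, H.J_dl, H.equiv n g _ ⟨x, rfl⟩])⟩

noncomputable def ResData.cx (H : ResData ρ D α b ε) : ChainComplex (Rep k G) ℕ :=
  ChainComplex.of (fun n => Rep.free k G (α n)) H.d (fun n => by
    apply Rep.hom_ext
    apply Representation.IntertwiningMap.ext
    apply LinearMap.ext
    intro x
    apply H.inj n
    show JJ ρ α b n (H.dl n (H.dl (n + 1) x)) = JJ ρ α b n 0
    rw [H.J_dl, H.J_dl, H.sq n _ ⟨x, rfl⟩, map_zero])

theorem ResData.cx_d (H : ResData ρ D α b ε) (n : ℕ) : H.cx.d (n + 1) n = H.d n := by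
  simp [ResData.cx]

noncomputable def ResData.aug (H : ResData ρ D α b ε) : Rep.free k G (α 0) ⟶ Rep.trivial k G k :=
  Rep.ofHom ⟨ε ∘ₗ JJ ρ α b 0, fun g => LinearMap.ext fun x => by
    simp only [LinearMap.comp_apply]
    rw [JJ_equiv, H.eps_inv g _ ⟨x, rfl⟩]
    rfl⟩

noncomputable def ResData.π (H : ResData ρ D α b ε) :
    H.cx ⟶ (ChainComplex.single₀ (Rep k G)).obj (Rep.trivial k G k) :=
  (H.cx.toSingle₀Equiv _).symm ⟨H.aug, by
    rw [H.cx_d]
    apply Rep.hom_ext
    apply Representation.IntertwiningMap.ext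
    apply LinearMap.ext
    intro x
    show ε (JJ ρ α b 0 (H.dl 0 x)) = 0
    rw [H.J_dl, H.eps_sq _ ⟨x, rfl⟩]⟩

theorem ResData.π_zero (H : ResData ρ D α b ε) : H.π.f 0 = H.aug :=
  ChainComplex.toSingle₀Equiv_symm_apply_f_zero _ _

theorem ResData.quasiIso (H : ResData ρ D α b ε) : QuasiIso H.π where
  quasiIsoAt m := by
    cases m with
    | zero =>
      rw [ChainComplex.quasiIsoAt₀_iff, ShortComplex.quasiIso_iff_of_zeros' _ rfl rfl rfl]
      constructor
      · apply (forget₂ _ (ModuleCat k)).reflects_exact_of_faithful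
        rw [ShortComplex.moduleCat_exact_iff]
        intro x hx
        have hx' : (H.π.f 0).hom x = 0 := hx
        rw [H.π_zero] at hx'
        obtain ⟨_, ⟨y, rfl⟩, hy⟩ := H.eps_ex _ ⟨x, rfl⟩ hx'
        refine ⟨y, ?_⟩
        show (H.cx.d 1 0).hom y = x
        rw [H.cx_d]
        apply H.inj 0
        exact (H.J_dl 0 y).trans hy
      · rw [Rep.epi_iff_surjective]
        intro c
        obtain ⟨_, ⟨x, rfl⟩, hx⟩ := H.eps_surj
        let c' : k := c
        refine ⟨c' • x, ?_⟩
        show (H.π.f 0).hom (c' • x) = c'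
        rw [H.π_zero]
        show ε (JJ ρ α b 0 (c' • x)) = c'
        rw [map_smul, map_smul, hx, smul_eq_mul, mul_one]
    | succ m =>
      rw [quasiIsoAt_iff_exactAt' (hL := ChainComplex.exactAt_succ_single_obj ..),
        HomologicalComplex.exactAt_iff' _ (m + 2) (m + 1) m (by simp) (by simp)]
      apply (forget₂ _ (ModuleCat k)).reflects_exact_of_faithful
      rw [ShortComplex.moduleCat_exact_iff]
      intro x hx
      have hx' : (H.cx.d (m + 1) m).hom x = 0 := hx
      rw [H.cx_d] at hx'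
      have h1 : D m (JJ ρ α b (m + 1) x) = 0 := by
        rw [← H.J_dl]
        exact (congrArg (JJ ρ α b m) hx').trans (map_zero _)
      obtain ⟨_, ⟨y, rfl⟩, hy⟩ := H.ex m _ ⟨x, rfl⟩ h1
      refine ⟨y, ?_⟩
      show (H.cx.d (m + 1 + 1) (m + 1)).hom y = x
      rw [H.cx_d]
      apply H.inj (m + 1)
      exact (H.J_dl (m + 1) y).trans hy

noncomputable def ResData.resolution (H : ResData ρ D α b ε) :
    ProjectiveResolution (Rep.trivial k G k) where
  complex := H.cx
  projective n := inferInstanceAs (Projective (Rep.free k G (α n)))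
  π := H.π
  quasiIso := H.quasiIso

/-- comparison with any complex that looks like the complex of coinvariants -/
theorem ResData.compare (H : ResData ρ D α b ε) (K : ChainComplex (ModuleCat.{0} k) ℕ)
    (p : ∀ n, M n →ₗ[k] K.X n)
    (hinv : ∀ n g i, p n (ρ n g (b n i)) = p n (b n i))
    (hd : ∀ n x, (K.d (n + 1) n).hom (p (n + 1) x) = p n (D n x))
    (hb : ∀ n, Function.Bijective (Finsupp.linearCombination k (fun i => p n (b n i)))) (n : ℕ) :
    Nonempty (groupHomology (Rep.trivial k G k) n ≅ K.homology n) := by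
  classical
  let K' := H.resolution.complex.coinvariantsTensorObj (Rep.trivial k G k)
  let eX : ∀ n, K'.X n ≃ₗ[k] K.X n := fun n =>
    (Rep.coinvariantsTensorFreeLEquiv (Rep.trivial k G k) (α n)).trans
      (LinearEquiv.ofBijective _ (hb n))
  have key : ∀ n (a : k) (x : α n →₀ MonoidAlgebra k G),
      eX n (Rep.coinvariantsTensorMk (Rep.trivial k G k) (Rep.free k G (α n)) a x) =
        a • p n (JJ ρ α b n x) := by
    intro n a x
    let m : (α n →₀ MonoidAlgebra k G) →ₗ[k] K'.X n :=
      Rep.coinvariantsTensorMk (Rep.trivial k G k) (Rep.free k G (α n)) a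
    have : (eX n).toLinearMap ∘ₗ m = a • (p n ∘ₗ JJ ρ α b n) := by
      refine Finsupp.lhom_ext' fun i => MonoidAlgebra.lhom_ext' fun g => LinearMap.ext fun r => ?_
      show eX n (m (Finsupp.single i (MonoidAlgebra.single g r))) =
        a • p n (JJ ρ α b n (Finsupp.single i (MonoidAlgebra.single g r)))
      rw [JJ_single, map_smul, hinv]
      have := Rep.coinvariantsTensorFreeToFinsupp_mk_tmul_single (Rep.trivial k G k) a i g r
      show Finsupp.linearCombination k (fun i => p n (b n i))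
        (Rep.coinvariantsTensorFreeToFinsupp (Rep.trivial k G k) (α n) _) = _
      erw [this]
      rw [Finsupp.linearCombination_single, smul_smul, mul_comm]
      rfl
    exact LinearMap.congr_fun this x
  let e : K' ≅ K := HomologicalComplex.Hom.isoOfComponents (fun n => (eX n).toModuleIso) (by
    rintro _ n rfl
    apply Rep.coinvariantsTensor_hom_ext
    apply LinearMap.ext
    intro a
    apply LinearMap.ext
    intro x
    show (K.d (n + 1) n).hom (eX (n + 1) (Rep.coinvariantsTensorMk (Rep.trivial k G k)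
      (Rep.free k G (α (n + 1))) a x)) = eX n (Rep.coinvariantsTensorMk (Rep.trivial k G k)
      (Rep.free k G (α n)) a ((H.cx.d (n + 1) n).hom x))
    rw [key, key, map_smul, hd, H.cx_d]
    congr 2
    exact (H.J_dl n x).symm)
  exact ⟨groupHomologyIso _ n H.resolution ≪≫ (HomologicalComplex.homologyFunctor _ _ n).mapIso e⟩

end

section
variable {k : Type} [Field k] {G : Type} [Group G] {M : ℕ → Type} [∀ n, AddCommGroup (M n)]
  [∀ n, Module k (M n)] {ρ : ∀ n, Representation k G (M n)}
  {D : ∀ n, M (n + 1) →ₗ[k] M n} {α : ℕ → Type} {b : ∀ n, α n → M n} {ε : M 0 →ₗ[k] k}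

theorem ResData.euler (H : ResData ρ D α b ε) [∀ n, Finite (α n)] :
    (∀ n, Module.Finite k (groupHomology (Rep.trivial k G k) n)) ∧
    (∀ n, IsEmpty (α n) → Subsingleton (groupHomology (Rep.trivial k G k) n)) ∧
    ∀ N, IsEmpty (α (N + 1)) →
      ∑ n ∈ Finset.range (N + 1), (-1 : ℤ) ^ n * finrank k (groupHomology (Rep.trivial k G k) n) =
        ∑ n ∈ Finset.range (N + 1), (-1 : ℤ) ^ n * Nat.card (α n) := by
  classical
  let K := H.resolution.complex.coinvariantsTensorObj (Rep.trivial k G k)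
  have e : ∀ n, groupHomology (Rep.trivial k G k) n ≃ₗ[k] K.homology n := fun n =>
    (groupHomologyIso _ n H.resolution).toLinearEquiv
  have eX : ∀ n, K.X n ≃ₗ[k] (α n →₀ k) := fun n =>
    Rep.coinvariantsTensorFreeLEquiv (Rep.trivial k G k) (α n)
  have hfin : ∀ n, Module.Finite k (K.X n) := fun n => Module.Finite.equiv (eX n).symm
  have hrk : ∀ n, finrank k (K.X n) = Nat.card (α n) := fun n => by
    have := Fintype.ofFinite (α n)
    rw [(eX n).finrank_eq, Module.finrank_finsupp_self, Nat.card_eq_fintype_card]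
  have hH : ∀ n, Module.Finite k (K.homology n) := fun n => finite_homology K n (hfin n)
  refine ⟨fun n => Module.Finite.equiv (e n).symm, fun n hn => ?_, fun N hN => ?_⟩
  · have := hH n
    have h := (finrank_sc (K.sc n) (hfin n)).2
    have h0 : finrank k (K.sc n).X₂ = 0 := (hrk n).trans Nat.card_of_isEmpty
    have h1 : finrank k (K.homology n) = 0 := by
      have : finrank k (K.homology n) = finrank k (K.sc n).homology := rfl
      omega
    have : Subsingleton (K.homology n) := Module.finrank_zero_iff.mp h1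
    exact (e n).toEquiv.subsingleton
  · have h := euler_complex K hfin N
    have := hfin (N + 1)
    have h0 : finrank k (LinearMap.range (K.d (N + 1) N).hom) = 0 := by
      have h1 := LinearMap.finrank_range_le (K.d (N + 1) N).hom
      rw [hrk, Nat.card_of_isEmpty] at h1
      omega
    rw [h0] at h
    simp only [hrk] at h
    simp only [fun n => (e n).finrank_eq]
    rw [h]; simp

end

end Pool.Agent.MP_3fe7bf_gt

end

-- part MP_3fe7bf_gt.Sing
section

/-!
The singular homology of the quotient of a contractible space by a covering action is the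
homology of the group.
-/

namespace Pool.Agent.MP_3fe7bf_gt

open CategoryTheory AlgebraicTopology Limits Simplicial

variable (k : Type) [CommRing k]

noncomputable def gen (Y : SSet.{0}) (n : ℕ) (x : Y _⦋n⦌) :
    (Y.chainComplex (ModuleCat.of k k)).X n := (Y.ιChainComplex (R := ModuleCat.of k k) x).hom 1

theorem gen_ext {Y : SSet.{0}} {n : ℕ} {T : Type} [AddCommGroup T] [Module k T]
    {f g : (Y.chainComplex (ModuleCat.of k k)).X n →ₗ[k] T}
    (h : ∀ x, f (gen k Y n x) = g (gen k Y n x)) : f = g := by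
  have : ModuleCat.ofHom f = ModuleCat.ofHom g := by
    apply SSet.chainComplex_hom_ext
    intro x
    apply ModuleCat.hom_ext
    apply LinearMap.ext_ring
    exact h x
  exact congrArg ModuleCat.Hom.hom this

noncomputable def genLift {Y : SSet.{0}} {n : ℕ} {T : Type} [AddCommGroup T] [Module k T]
    (v : Y _⦋n⦌ → T) : (Y.chainComplex (ModuleCat.of k k)).X n →ₗ[k] T :=
  (Cofan.IsColimit.desc (Y.isColimitChainComplexXCofan (ModuleCat.of k k) n)
    (fun x => ModuleCat.ofHom (LinearMap.toSpanSingleton k T (v x)))).hom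

theorem genLift_gen {Y : SSet.{0}} {n : ℕ} {T : Type} [AddCommGroup T] [Module k T]
    (v : Y _⦋n⦌ → T) (x : Y _⦋n⦌) : genLift k v (gen k Y n x) = v x := by
  have := Cofan.IsColimit.fac (Y.isColimitChainComplexXCofan (ModuleCat.of k k) n)
    (fun x => ModuleCat.ofHom (LinearMap.toSpanSingleton k T (v x))) x
  have h := LinearMap.congr_fun (congrArg ModuleCat.Hom.hom this) 1
  exact h.trans (one_smul k (v x))

theorem gen_bij (Y : SSet.{0}) (n : ℕ) :
    Function.Bijective (Finsupp.linearCombination k (gen k Y n)) := by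
  refine Function.bijective_iff_has_inverse.mpr
    ⟨genLift k (fun x => Finsupp.single x (1 : k)), fun x => ?_, fun x => ?_⟩
  · have : genLift k (fun x => Finsupp.single x (1 : k)) ∘ₗ Finsupp.linearCombination k (gen k Y n) =
        LinearMap.id := by
      ext x : 2
      simp [genLift_gen]
    exact LinearMap.congr_fun this x
  · have : Finsupp.linearCombination k (gen k Y n) ∘ₗ genLift k (fun x => Finsupp.single x (1 : k)) =
        LinearMap.id := by
      apply gen_ext
      intro x
      simp [genLift_gen]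
    exact LinearMap.congr_fun this x

theorem map_gen {Y Z : SSet.{0}} (f : Y ⟶ Z) (n : ℕ) (x : Y _⦋n⦌) :
    ((SSet.chainComplexMap f (ModuleCat.of k k)).f n).hom (gen k Y n x) = gen k Z n (f.app _ x) :=
  LinearMap.congr_fun (congrArg ModuleCat.Hom.hom
    (SSet.ι_chainComplexMap_f Y Z f (ModuleCat.of k k) x)) 1

theorem d_gen (Y : SSet.{0}) (n : ℕ) (x : Y _⦋n + 1⦌) :
    ((Y.chainComplex (ModuleCat.of k k)).d (n + 1) n).hom (gen k Y (n + 1) x) =
      ∑ i : Fin (n + 2), (-1 : ℤ) ^ i.val • gen k Y n (Y.δ i x) := by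
  have := LinearMap.congr_fun (congrArg ModuleCat.Hom.hom
    (SSet.ιChainComplex_d Y (ModuleCat.of k k) x)) 1
  refine this.trans ?_
  simp [gen]

theorem equiv_map {A B : TopCat.{0}} (f : A ⟶ B) (n : SimplexCategoryᵒᵖ) (x : (TopCat.toSSet.obj A).obj n) :
    TopCat.toSSetObjEquiv B n ((TopCat.toSSet.map f).app n x) =
      f.hom.comp (TopCat.toSSetObjEquiv A n x) := rfl

variable {G E X : Type} [Group G] [TopologicalSpace E] [TopologicalSpace X] [MulAction G E]

def act [ContinuousConstSMul G E] (g : G) : TopCat.of E ⟶ TopCat.of E :=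
  TopCat.ofHom ⟨fun x => g • x, continuous_const_smul g⟩

noncomputable abbrev SS (Y : Type) [TopologicalSpace Y] : SSet.{0} := TopCat.toSSet.obj (TopCat.of Y)

noncomputable abbrev CC (Y : Type) [TopologicalSpace Y] : ChainComplex (ModuleCat.{0} k) ℕ :=
  (SS Y).chainComplex (ModuleCat.of k k)

noncomputable def singRep (G E : Type) [Group G] [TopologicalSpace E] [MulAction G E]
    [ContinuousConstSMul G E] (n : ℕ) : Representation k G ((CC k E).X n) where
  toFun g := ((SSet.chainComplexMap (TopCat.toSSet.map (act g)) (ModuleCat.of k k)).f n).hom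
  map_one' := by
    apply gen_ext
    intro x
    rw [map_gen]
    congr 1
    apply (TopCat.toSSetObjEquiv _ _).injective
    rw [equiv_map]
    ext t
    exact one_smul G _
  map_mul' g h := by
    apply gen_ext
    intro x
    rw [Module.End.mul_apply, map_gen, map_gen, map_gen]
    congr 1
    apply (TopCat.toSSetObjEquiv _ _).injective
    rw [equiv_map, equiv_map, equiv_map]
    ext t
    exact mul_smul g h _

theorem singRep_gen [ContinuousConstSMul G E] (n : ℕ) (g : G) (x : SS E _⦋n⦌) :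
    singRep k G E n g (gen k _ n x) = gen k _ n ((TopCat.toSSet.map (act g)).app _ x) :=
  map_gen k _ n x

theorem exact_succ [ContractibleSpace E] (n : ℕ) (x : (CC k E).X (n + 1))
    (hx : ((CC k E).d (n + 1) n).hom x = 0) : ∃ y, ((CC k E).d (n + 2) (n + 1)).hom y = x := by
  obtain ⟨x0, ⟨H⟩⟩ := id_nullhomotopic E
  let π : TopCat.of E ⟶ TopCat.of PUnit.{1} := TopCat.ofHom (ContinuousMap.const _ PUnit.unit)
  let ι : TopCat.of PUnit.{1} ⟶ TopCat.of E := TopCat.ofHom (ContinuousMap.const _ x0)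
  have H' : TopCat.Homotopy (𝟙 (TopCat.of E)) (π ≫ ι) := H
  have h1 := H'.congr_homologyMap_singularChainComplexFunctor (ModuleCat.of k k) (n + 1)
  have h2 := isZero_singularHomologyFunctor_of_totallyDisconnectedSpace (ModuleCat.{0} k) (n + 1)
    (ModuleCat.of k k) (TopCat.of PUnit.{1}) (by simp)
  have h3 : IsZero ((CC k E).homology (n + 1)) := by
    rw [IsZero.iff_id_eq_zero]
    rw [CategoryTheory.Functor.map_id, CategoryTheory.Functor.map_comp, HomologicalComplex.homologyMap_id,
      HomologicalComplex.homologyMap_comp] at h1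
    refine h1.trans ?_
    rw [h2.eq_zero_of_src (HomologicalComplex.homologyMap _ _)]
    exact comp_zero
  rw [← HomologicalComplex.exactAt_iff_isZero_homology,
    HomologicalComplex.exactAt_iff' _ (n + 2) (n + 1) n (by simp) (by simp),
    ShortComplex.moduleCat_exact_iff] at h3
  exact h3 x hx

theorem exact_zero [ContractibleSpace E] (x : (CC k E).X 0)
    (hx : genLift k (fun _ => (1 : k)) x = 0) : ∃ y, ((CC k E).d 1 0).hom y = x := by
  obtain ⟨x0, ⟨H⟩⟩ := id_nullhomotopic E
  let c : TopCat.of E ⟶ TopCat.of E := TopCat.ofHom (ContinuousMap.const _ x0)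
  have H' : TopCat.Homotopy (𝟙 (TopCat.of E)) c := H
  let h := H'.singularChainComplexFunctorObjMap (ModuleCat.of k k)
  have h1 := h.comm 0
  rw [Homotopy.dNext_zero_chainComplex, Homotopy.prevD_chainComplex, zero_add] at h1
  have h0 : (((singularChainComplexFunctor (ModuleCat k)).obj (ModuleCat.of k k)).map
      (𝟙 (TopCat.of E))).f 0 = 𝟙 _ := by rw [CategoryTheory.Functor.map_id]; rfl
  replace h1 := h0.symm.trans h1
  have h2 := LinearMap.congr_fun (congrArg ModuleCat.Hom.hom h1) x
  let s0 : SS E _⦋0⦌ := (TopCat.toSSetObjEquiv _ _).symm (ContinuousMap.const _ x0)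
  have h3 : ((SSet.chainComplexMap (TopCat.toSSet.map c) (ModuleCat.of k k)).f 0).hom =
      LinearMap.toSpanSingleton k _ (gen k _ 0 s0) ∘ₗ genLift k (fun _ => (1 : k)) := by
    apply gen_ext
    intro y
    rw [map_gen, LinearMap.comp_apply, genLift_gen, LinearMap.toSpanSingleton_apply, one_smul]
    congr 1
  have h4 := LinearMap.congr_fun h3 x
  rw [LinearMap.comp_apply, hx, map_zero] at h4
  refine ⟨(h.hom 0 1).hom x, ?_⟩
  have h5 : x = ((CC k E).d 1 0).hom ((h.hom 0 1).hom x) +
    ((SSet.chainComplexMap (TopCat.toSSet.map c) (ModuleCat.of k k)).f 0).hom x := h2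
  rw [h4, add_zero] at h5
  exact h5.symm

theorem exists_lifts {f : E → X} (hf : IsQuotientCoveringMap f G) (n : ℕ) :
    haveI := hf.toContinuousConstSMul
    ∃ b : SS X _⦋n⦌ → SS E _⦋n⦌,
      (∀ s, (TopCat.toSSet.map (TopCat.ofHom ⟨f, hf.continuous⟩ : TopCat.of E ⟶ TopCat.of X)).app _
        (b s) = s) ∧
      Function.Bijective (fun x : SS X _⦋n⦌ × G => (TopCat.toSSet.map (act x.2)).app _ (b x.1)) := by
  have := hf.toContinuousConstSMul
  have := hf.isCancelSMul
  let A := stdSimplex ℝ (Fin (n + 1))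
  have : ContractibleSpace A := (convex_stdSimplex ℝ (Fin (n + 1))).contractibleSpace
    ⟨_, single_mem_stdSimplex ℝ 0⟩
  have : LocallyPathConnectedSpace A := (convex_stdSimplex ℝ (Fin (n + 1))).locallyPathConnectedSpace
  let a0 : A := ⟨_, single_mem_stdSimplex ℝ 0⟩
  have cov := hf.isCoveringMap
  have ex : ∀ s : C(A, X), ∃ t : C(A, E), f ∘ t = s := fun s => by
    obtain ⟨e, he⟩ := hf.surjective (s a0)
    obtain ⟨t, ht, -⟩ := cov.existsUnique_continuousMap_lifts s a0 e he
    exact ⟨t, ht.2⟩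
  choose l hl using ex
  refine ⟨fun s => (TopCat.toSSetObjEquiv _ _).symm (l (TopCat.toSSetObjEquiv _ _ s)), fun s => ?_,
    ?_, ?_⟩
  · apply (TopCat.toSSetObjEquiv _ _).injective
    rw [equiv_map, Equiv.apply_symm_apply]
    ext t
    exact congrFun (hl _) t
  · rintro ⟨s, g⟩ ⟨s', g'⟩ h
    have h1 := congrArg (TopCat.toSSetObjEquiv _ _) h
    have h2 : ∀ t, g • l (TopCat.toSSetObjEquiv _ _ s) t = g' • l (TopCat.toSSetObjEquiv _ _ s') t :=
      fun t => ContinuousMap.congr_fun h1 t
    have h3 : s = s' := by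
      apply (TopCat.toSSetObjEquiv _ _).injective
      ext t
      have := congrArg f (h2 t)
      rw [hf.map_smul, hf.map_smul] at this
      exact (congrFun (hl _) t).symm.trans (this.trans (congrFun (hl _) t))
    subst h3
    have h4 : g = g' := IsCancelSMul.right_cancel _ _ _ (h2 a0)
    rw [h4]
  · intro τ
    let t : C(A, E) := TopCat.toSSetObjEquiv _ _ τ
    let s : C(A, X) := (⟨f, hf.continuous⟩ : C(E, X)).comp t
    have h1 : f (t a0) = f (l s a0) := (congrFun (hl s) a0).symm
    obtain ⟨g, hg⟩ := hf.apply_eq_iff_mem_orbit.mp h1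
    refine ⟨((TopCat.toSSetObjEquiv _ _).symm s, g), ?_⟩
    apply (TopCat.toSSetObjEquiv _ _).injective
    apply DFunLike.coe_injective
    refine cov.eq_of_comp_eq (ContinuousMap.continuous _) t.continuous ?_ a0 hg
    funext a
    exact (hf.map_smul g).trans (congrFun (hl s) a)

theorem singular_iso_group [ContractibleSpace E] {f : E → X} (hf : IsQuotientCoveringMap f G)
    (n : ℕ) : Nonempty (groupHomology (Rep.trivial k G k) n ≅
      ((singularHomologyFunctor (ModuleCat.{0} k) n).obj (ModuleCat.of k k)).obj (TopCat.of X)) := by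
  have := hf.toContinuousConstSMul
  choose b hb1 hb2 using exists_lifts hf
  let F : TopCat.of E ⟶ TopCat.of X := TopCat.ofHom ⟨f, hf.continuous⟩
  let bb : ∀ n, SS X _⦋n⦌ → (CC k E).X n := fun n s => gen k _ n (b n s)
  have e : ∀ n, (fun x : SS X _⦋n⦌ × G => singRep k G E n x.2 (bb n x.1)) =
      gen k _ n ∘ (fun x : SS X _⦋n⦌ × G => (TopCat.toSSet.map (act x.2)).app _ (b n x.1)) :=
    fun n => funext fun x => singRep_gen k n _ _
  have hr : ∀ n, LinearMap.range (JJ (singRep k G E) (fun n => SS X _⦋n⦌) bb n) = ⊤ := fun n => by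
    rw [JJ_range, e, (hb2 n).2.range_comp, ← Finsupp.range_linearCombination, LinearMap.range_eq_top]
    exact (gen_bij k _ n).2
  have H : ResData (singRep k G E) (fun n => ((CC k E).d (n + 1) n).hom) (fun n => SS X _⦋n⦌) bb
      (genLift k (fun _ => (1 : k))) :=
    { inj := fun n => JJ_injective n (by
        rw [e]
        exact LinearIndependent.comp (gen_bij k _ n).1 _ (hb2 n).1)
      map := fun n x _ => by rw [hr]; trivial
      equiv := fun n g x _ =>
        LinearMap.congr_fun (congrArg ModuleCat.Hom.hom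
          ((SSet.chainComplexMap (TopCat.toSSet.map (act g)) (ModuleCat.of k k)).comm (n + 1) n)) x
      sq := fun n x _ =>
        LinearMap.congr_fun (congrArg ModuleCat.Hom.hom ((CC k E).d_comp_d (n + 2) (n + 1) n)) x
      ex := fun n x _ hx => by
        obtain ⟨y, hy⟩ := exact_succ k n x hx
        exact ⟨y, by rw [hr]; trivial, hy⟩
      eps_inv := fun g x _ => by
        have : genLift k (fun _ => (1 : k)) ∘ₗ singRep k G E 0 g = genLift k (fun _ => (1 : k)) := by
          apply gen_ext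
          intro y
          rw [LinearMap.comp_apply, singRep_gen, genLift_gen, genLift_gen]
        exact LinearMap.congr_fun this x
      eps_sq := fun x _ => by
        have : genLift k (fun _ => (1 : k)) ∘ₗ ((CC k E).d 1 0).hom = 0 := by
          apply gen_ext
          intro y
          rw [LinearMap.comp_apply, d_gen]
          simp [Fin.sum_univ_two, genLift_gen]
        exact LinearMap.congr_fun this x
      eps_ex := fun x _ hx => by
        obtain ⟨y, hy⟩ := exact_zero k x hx
        exact ⟨y, by rw [hr]; trivial, hy⟩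
      eps_surj := by
        obtain ⟨x0⟩ : Nonempty E := inferInstance
        exact ⟨gen k _ 0 ((TopCat.toSSetObjEquiv _ _).symm (ContinuousMap.const _ x0)),
          by rw [hr]; trivial, genLift_gen k _ _⟩ }
  refine H.compare (CC k X)
    (fun n => ((SSet.chainComplexMap (TopCat.toSSet.map F) (ModuleCat.of k k)).f n).hom) ?_ ?_ ?_ n
  · intro n g i
    rw [singRep_gen, map_gen, map_gen]
    congr 1
    apply (TopCat.toSSetObjEquiv _ _).injective
    ext t
    exact hf.map_smul g
  · intro n x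
    exact LinearMap.congr_fun (congrArg ModuleCat.Hom.hom
      ((SSet.chainComplexMap (TopCat.toSSet.map F) (ModuleCat.of k k)).comm (n + 1) n)) x
  · intro n
    have : (fun i => ((SSet.chainComplexMap (TopCat.toSSet.map F) (ModuleCat.of k k)).f n).hom
        (bb n i)) = gen k _ n := funext fun i => by
      rw [map_gen, hb1]
    rw [this]
    exact gen_bij k _ n

end Pool.Agent.MP_3fe7bf_gt

end

-- part MP_3fe7bf_gt.Chain
section

/-!
The cellular chain complex of the cube complex is acyclic.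
-/

namespace Pool.Agent.MP_3fe7bf_gt

open Finsupp

abbrev MM := Vec →₀ Ex

noncomputable def rhoM : Representation ℚ PO MM where
  toFun g := Finsupp.lsum ℚ (fun c => Finsupp.lsingle (g • c) ∘ₗ (ac g).toLinearMap)
  map_one' := by
    apply Finsupp.lhom_ext
    intro c x
    simp [ac_one]
  map_mul' g h := by
    apply Finsupp.lhom_ext
    intro c x
    simp [ac_mul, mul_smul]

theorem rhoM_single (g : PO) (c : Vec) (x : Ex) : rhoM g (single c x) = single (g • c) (ac g x) := by
  simp [rhoM]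

noncomputable def Dm : MM →ₗ[ℚ] MM :=
  Finsupp.lsum ℚ (fun c => ∑ w ∈ RR c, Finsupp.lsingle (c + w) ∘ₗ ct w)

theorem Dm_single (c : Vec) (x : Ex) : Dm (single c x) = ∑ w ∈ RR c, single (c + w) (ct w x) := by
  simp [Dm]

noncomputable def hm : MM →ₗ[ℚ] MM :=
  Finsupp.lsum ℚ (fun c => Finsupp.lsingle (c - pick (top c)) ∘ₗ LinearMap.mulLeft ℚ (io (pick (top c))))

theorem hm_single (c : Vec) (x : Ex) :
    hm (single c x) = single (c - pick (top c)) (io (pick (top c)) * x) := by
  simp [hm]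

noncomputable def epM : MM →ₗ[ℚ] ℚ := Finsupp.lsum ℚ (fun _ => ep.toLinearMap)

theorem epM_single (c : Vec) (x : Ex) : epM (single c x) = ep x := by simp [epM]

variable {z : Vec} {T : Finset Vec}

theorem Cube.Dm_single (h : Cube z T) (x : Ex) : Dm (single (ctr z T) x) =
    ∑ v ∈ T, single (ctr z T + v) (ct v x) -
      ∑ v ∈ T, single (ctr (z - (2 : ℤ) • v) (T.erase v)) (ct v x) := by
  rw [Pool.Agent.MP_3fe7bf_gt.Dm_single, h.sum_RR, sub_eq_add_neg, ← Finset.sum_neg_distrib]
  congr 1
  refine Finset.sum_congr rfl fun v hv => ?_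
  rw [ct_neg, single_neg, ctr_flip _ hv, sub_eq_add_neg]

noncomputable def CK (k : ℕ) : Submodule ℚ MM := Submodule.span ℚ
  {m | ∃ z T x, Cube z T ∧ T.card = k ∧ x ∈ Ln T ∧ m = single (ctr z T) x}

noncomputable def Fil (k : ℕ) (N : ℤ) : Submodule ℚ MM := Submodule.span ℚ
  {m | ∃ z T x, Cube z T ∧ Pos T ∧ T.card = k ∧ deg z < N ∧ x ∈ Ln T ∧ m = single (ctr z T) x}

theorem Cube.mem_CK (h : Cube z T) {x : Ex} (hx : x ∈ Ln T) {k : ℕ} (hk : T.card = k) :
    single (ctr z T) x ∈ CK k := Submodule.subset_span ⟨z, T, x, h, hk, hx, rfl⟩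

theorem Cube.mem_Fil (h : Cube z T) (hp : Pos T) {x : Ex} (hx : x ∈ Ln T) {k : ℕ} (hk : T.card = k)
    {N : ℤ} (hN : deg z < N) : single (ctr z T) x ∈ Fil k N :=
  Submodule.subset_span ⟨z, T, x, h, hp, hk, hN, hx, rfl⟩

theorem CK_ind {k : ℕ} {A : Type} [AddCommGroup A] [Module ℚ A] (f : MM →ₗ[ℚ] A) (S : Submodule ℚ A)
    (h : ∀ z T x, Cube z T → T.card = k → x ∈ Ln T → f (single (ctr z T) x) ∈ S) :
    ∀ m ∈ CK k, f m ∈ S := by
  have : CK k ≤ S.comap f := Submodule.span_le.mpr (by
    rintro _ ⟨z, T, x, a, b, c, rfl⟩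
    exact h z T x a b c)
  exact this

theorem CK_ext {k : ℕ} {A : Type} [AddCommGroup A] [Module ℚ A] (f g : MM →ₗ[ℚ] A)
    (h : ∀ z T x, Cube z T → T.card = k → x ∈ Ln T → f (single (ctr z T) x) = g (single (ctr z T) x)) :
    ∀ m ∈ CK k, f m = g m := fun m hm => by
  have := CK_ind (f - g) ⊥ (fun z T x a b c => by
    rw [Submodule.mem_bot, LinearMap.sub_apply, h z T x a b c, sub_self]) m hm
  exact sub_eq_zero.mp this

theorem Fil_ind {k : ℕ} {N : ℤ} {A : Type} [AddCommGroup A] [Module ℚ A] (f : MM →ₗ[ℚ] A)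
    (S : Submodule ℚ A)
    (h : ∀ z T x, Cube z T → Pos T → T.card = k → deg z < N → x ∈ Ln T →
      f (single (ctr z T) x) ∈ S) : ∀ m ∈ Fil k N, f m ∈ S := by
  have : Fil k N ≤ S.comap f := Submodule.span_le.mpr (by
    rintro _ ⟨z, T, x, a, b, c, d, e, rfl⟩
    exact h z T x a b c d e)
  exact this

theorem Fil_mono {k : ℕ} {N N' : ℤ} (h : N ≤ N') : Fil k N ≤ Fil k N' :=
  Fil_ind LinearMap.id _ fun _ _ _ a b c d e => a.mem_Fil b e c (d.trans_le h)

theorem Fil_le_CK {k : ℕ} {N : ℤ} : Fil k N ≤ CK k :=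
  Fil_ind LinearMap.id _ fun _ _ _ a _ c _ e => a.mem_CK e c

theorem exists_Fil {k : ℕ} {m : MM} (h : m ∈ CK k) : ∃ n : ℕ, m ∈ Fil k (4 + n) := by
  induction h using Submodule.span_induction with
  | mem m hm =>
    obtain ⟨z, T, x, a, b, c, rfl⟩ := hm
    obtain ⟨z', T', a1, a2, a3, a4, a5⟩ := a.exists_pos
    refine ⟨(deg z').toNat, ?_⟩
    rw [← a4]
    exact a1.mem_Fil a2 (a5 ▸ c) (a3.trans b) (by omega)
  | zero => exact ⟨0, zero_mem _⟩
  | add x y _ _ hx hy =>
    obtain ⟨n, hn⟩ := hx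
    obtain ⟨n', hn'⟩ := hy
    exact ⟨n + n', add_mem (Fil_mono (by omega) hn) (Fil_mono (by omega) hn')⟩
  | smul a x _ hx =>
    obtain ⟨n, hn⟩ := hx
    exact ⟨n, Submodule.smul_mem _ _ hn⟩

theorem Dm_CK {k : ℕ} : ∀ m ∈ CK (k + 1), Dm m ∈ CK k := by
  refine CK_ind _ _ fun z T x a b c => ?_
  rw [a.Dm_single]
  refine sub_mem (Submodule.sum_mem _ fun v hv => ?_) (Submodule.sum_mem _ fun v hv => ?_)
  · rw [← ctr_erase _ hv]
    exact (a.mono (Finset.erase_subset _ _)).mem_CK (a.ct_mem hv c)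
      (by rw [Finset.card_erase_of_mem hv, b]; rfl)
  · exact (a.flip hv).mem_CK (a.ct_mem hv c) (by rw [Finset.card_erase_of_mem hv, b]; rfl)

theorem Dm_zero : ∀ m ∈ CK 0, Dm m = 0 := by
  refine CK_ext Dm 0 fun z T x a b _ => ?_
  rw [a.Dm_single, Finset.card_eq_zero.mp b]
  simp

theorem Cube.RR_add (h : Cube z T) {w : Vec} (hw : w ∈ RR (ctr z T)) :
    RR (ctr z T + w) = (RR (ctr z T)).filter (fun u => B w u = 0) := by
  have key : ∀ {v z' : Vec}, v ∈ T → (w = v ∨ w = -v) → Cube z' (T.erase v) →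
      ctr z' (T.erase v) = ctr z T + w →
      RR (ctr z T + w) = (RR (ctr z T)).filter (fun u => B w u = 0) := by
    intro v z' hv hwv hc e
    ext u
    rw [Finset.mem_filter, ← e]
    constructor
    · intro hu
      rw [hc.mem_RR] at hu
      rw [h.mem_RR]
      have : ∀ u ∈ T.erase v, B w u = 0 := fun u hu => by
        have := h.orth v hv u (Finset.mem_of_mem_erase hu) (Finset.ne_of_mem_erase hu).symm
        rcases hwv with rfl | rfl
        · exact this
        · rw [B_neg_left, this]; rfl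
      rcases hu with a | a
      · exact ⟨Or.inl (Finset.mem_of_mem_erase a), this u a⟩
      · refine ⟨Or.inr (Finset.mem_of_mem_erase a), ?_⟩
        have := this _ a
        rw [B_neg_right] at this
        linarith
    · rintro ⟨a, b⟩
      rw [h.mem_RR'] at a
      rw [hc.mem_RR', e, B_add_right, a.2, B_comm u w, b]
      exact ⟨a.1, rfl⟩
  rcases h.mem_RR.mp hw with a | a
  · exact key a (Or.inl rfl) (h.mono (Finset.erase_subset _ _)) (ctr_erase _ a)
  · exact key a (Or.inr (neg_neg w).symm) (h.flip a) (by rw [ctr_flip _ a, sub_neg_eq_add])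

theorem Dm_Dm {k : ℕ} : ∀ m ∈ CK k, Dm (Dm m) = 0 := by
  refine CK_ext (Dm ∘ₗ Dm) 0 fun z T x a _ _ => ?_
  rw [LinearMap.comp_apply, Dm_single, map_sum, LinearMap.zero_apply,
    Finset.sum_congr rfl (fun w hw => by rw [Dm_single, a.RR_add hw, Finset.sum_filter])]
  set S := ∑ w ∈ RR (ctr z T), ∑ u ∈ RR (ctr z T),
    if B w u = 0 then single (ctr z T + w + u) (ct u (ct w x)) else 0 with hS
  have : S = -S := by
    conv_lhs => rw [hS, Finset.sum_comm]
    rw [hS, ← Finset.sum_neg_distrib]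
    refine Finset.sum_congr rfl fun w _ => ?_
    rw [← Finset.sum_neg_distrib]
    refine Finset.sum_congr rfl fun u _ => ?_
    rw [B_comm u w]
    split_ifs
    · rw [ct_comm, single_neg, add_right_comm]
    · rw [neg_zero]
  have h2 : (2 : ℚ) • S = 0 := by rw [two_smul]; exact add_eq_zero_iff_eq_neg.mpr this
  exact (smul_eq_zero.mp h2).resolve_left (by norm_num)

theorem Dm_rho {k : ℕ} (g : PO) : ∀ m ∈ CK k, Dm (rhoM g m) = rhoM g (Dm m) := by
  refine CK_ext (Dm ∘ₗ rhoM g) (rhoM g ∘ₗ Dm) fun z T x a _ _ => ?_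
  rw [LinearMap.comp_apply, LinearMap.comp_apply, rhoM_single, Dm_single, Dm_single, map_sum]
  have : RR (g • ctr z T) = (RR (ctr z T)).image (g • ·) := by
    ext u
    rw [← ctr_smul, (a.smul g).mem_RR', ctr_smul, Finset.mem_image]
    constructor
    · rintro ⟨b, c⟩
      refine ⟨g⁻¹ • u, a.mem_RR'.mpr ⟨by rw [B_smul, b], ?_⟩, smul_inv_smul _ _⟩
      rw [B_smul_left', inv_inv, c]
    · rintro ⟨w, hw, rfl⟩
      rw [B_smul, B_smul]
      exact a.mem_RR'.mp hw
  rw [this, Finset.sum_image (fun a _ b _ e => MulAction.injective g e)]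
  refine Finset.sum_congr rfl fun w _ => ?_
  rw [rhoM_single, ac_ct, smul_add]

theorem epM_rho (g : PO) (m : MM) : epM (rhoM g m) = epM m := by
  have : epM ∘ₗ rhoM g = epM := Finsupp.lhom_ext fun c x => by
    rw [LinearMap.comp_apply, rhoM_single, epM_single, epM_single, ep_ac]
  exact LinearMap.congr_fun this m

theorem epM_Dm {k : ℕ} : ∀ m ∈ CK k, epM (Dm m) = 0 := by
  refine CK_ext (epM ∘ₗ Dm) 0 fun z T x a _ _ => ?_
  rw [LinearMap.comp_apply, a.Dm_single]
  simp [epM_single]

theorem Cube.hm_mem (h : Cube z T) (hp : Pos T) {x : Ex} (hx : x ∈ Ln T) {k : ℕ}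
    (hk : T.card + 1 = k) {N : ℤ} (hN : deg z < N) : hm (single (ctr z T) x) ∈ Fil k N := by
  rw [hm_single, h.top_ctr hp]
  by_cases hd : ∃ v, Dn z v
  · by_cases hT : pick z ∈ T
    · rw [io_mul_eq_zero hT hx, single_zero]; exact zero_mem _
    · rw [← ctr_insert _ hT]
      refine (h.insert_pick hp hd).mem_Fil ?_ (mul_mem_insert hT hx)
        (by rw [Finset.card_insert_of_notMem hT, hk]) hN
      intro v hv
      rcases Finset.mem_insert.mp hv with rfl | a
      · exact (pick_spec hd).2.1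
      · exact hp v a
  · rw [pick_zero hd, io_zero, zero_mul, single_zero]; exact zero_mem _

theorem hm_Fil {k : ℕ} {N : ℤ} : ∀ m ∈ Fil k N, hm m ∈ Fil (k + 1) N :=
  Fil_ind _ _ fun _ _ _ a b c d e => a.hm_mem b e (by rw [c]) d

theorem not_Dn_kap : ¬ ∃ v, Dn kap v := by
  rintro ⟨v, -, a, b⟩
  rw [B_kap] at b
  omega

theorem Cube.eq_empty (h : Cube kap T) (hp : Pos T) : T = ∅ :=
  Finset.eq_empty_of_forall_notMem fun v hv => not_Dn_kap ⟨v, h.root v hv, hp v hv, h.adj v hv⟩

theorem Pos.erase (hp : Pos T) (v : Vec) : Pos (T.erase v) :=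
  fun w hw => hp w (Finset.mem_of_mem_erase hw)

theorem step_Fil {k : ℕ} {N : ℤ} (hN : 4 ≤ N) :
    ∀ m ∈ Fil k (N + 1), m - Dm (hm m) - hm (Dm m) ∈ Fil k N := by
  refine Fil_ind (LinearMap.id - Dm ∘ₗ hm - hm ∘ₗ Dm) _ fun z T x a hp hk hz hx => ?_
  show single (ctr z T) x - Dm (hm (single (ctr z T) x)) - hm (Dm (single (ctr z T) x)) ∈ _
  by_cases hzk : z = kap
  · subst hzk
    have e := a.eq_empty hp
    rw [hm_single, a.top_ctr hp, pick_zero not_Dn_kap, io_zero, zero_mul, single_zero, map_zero,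
      Dm_zero _ (a.mem_CK hx (by rw [e]; rfl)), map_zero, sub_zero, sub_zero]
    exact a.mem_Fil hp hx hk (by rw [deg_kap]; omega)
  have hd := a.ch.exists_Dn hzk
  have a' := a.insert_pick hp hd
  have hp' : Pos (insert (pick z) T) := fun v hv => by
    rcases Finset.mem_insert.mp hv with rfl | b
    · exact (pick_spec hd).2.1
    · exact hp v b
  have low : ∀ v, 0 < deg v → deg (z - (2 : ℤ) • v) < N := fun v hv => by
    rw [deg_sub, deg_smul]; omega
  obtain ⟨L1, hL1, e1⟩ : ∃ L ∈ Fil k N, Dm (hm (single (ctr z T) x)) =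
      ∑ v ∈ insert (pick z) T, single (ctr z T - pick z + v) (ct v (io (pick z) * x)) - L := by
    rw [hm_single, a.top_ctr hp]
    by_cases hT : pick z ∈ T
    · exact ⟨0, zero_mem _, by simp [io_mul_eq_zero hT hx]⟩
    · rw [← ctr_insert _ hT, a'.Dm_single]
      refine ⟨_, Submodule.sum_mem _ fun v hv => ?_, rfl⟩
      exact (a'.flip hv).mem_Fil (hp'.erase v) (a'.ct_mem hv (mul_mem_insert hT hx))
        (by rw [Finset.card_erase_of_mem hv, Finset.card_insert_of_notMem hT, hk]; rfl)
        (low v (hp' v hv))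
  obtain ⟨L2, hL2, e2⟩ : ∃ L ∈ Fil k N, hm (Dm (single (ctr z T) x)) =
      ∑ v ∈ insert (pick z) T, single (ctr z T - pick z + v) (io (pick z) * ct v x) - L := by
    rw [a.Dm_single, map_sub, map_sum, map_sum]
    refine ⟨_, Submodule.sum_mem _ fun v hv => (a.flip hv).hm_mem (hp.erase v) (a.ct_mem hv hx)
      (by rw [Finset.card_erase_add_one hv, hk]) (low v (hp v hv)), ?_⟩
    congr 1
    rw [Finset.sum_insert_of_eq_zero_if_notMem (fun hT => by
      rw [ct_eq_zero (fun v hv => a'.orth _ (Finset.mem_insert_self _ _) v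
        (Finset.mem_insert_of_mem hv) (fun e => hT (e ▸ hv))) hx, mul_zero, single_zero])]
    refine Finset.sum_congr rfl fun v hv => ?_
    rw [hm_single, ← ctr_erase _ hv, (a.mono (Finset.erase_subset _ _)).top_ctr (hp.erase v),
      ctr_erase _ hv, add_sub_right_comm]
  have e3 : ∑ v ∈ insert (pick z) T, single (ctr z T - pick z + v) (ct v (io (pick z) * x)) +
      ∑ v ∈ insert (pick z) T, single (ctr z T - pick z + v) (io (pick z) * ct v x) =
      single (ctr z T) x := by
    rw [← Finset.sum_add_distrib, Finset.sum_eq_single_of_mem (pick z) (Finset.mem_insert_self _ _)]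
    · rw [← single_add, ct_io_mul, (pick_spec hd).1]; simp
    · intro v hv hne
      rw [← single_add, ct_io_mul, a'.orth v hv _ (Finset.mem_insert_self _ _) hne]; simp
  rw [e1, e2, ← e3]
  have : ∀ A C : MM, A + C - (A - L1) - (C - L2) = L1 + L2 := fun A C => by abel
  rw [this]
  exact add_mem hL1 hL2

theorem descend {k : ℕ} : ∀ (n : ℕ) (m : MM), m ∈ Fil k (4 + n) → Dm m = 0 →
    ∃ y ∈ CK (k + 1), m - Dm y ∈ Fil k 4 := by
  intro n
  induction n with
  | zero => intro m h _; exact ⟨0, zero_mem _, by simpa using h⟩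
  | succ n ih =>
    intro m h h0
    have h1 := step_Fil (N := 4 + n) (by omega) m (by simpa [add_assoc] using h)
    rw [h0, map_zero, sub_zero] at h1
    have h2 : hm m ∈ CK (k + 1) := Fil_le_CK (hm_Fil m h)
    obtain ⟨y, hy, h3⟩ := ih _ h1 (by rw [map_sub, h0, Dm_Dm _ h2, sub_zero])
    exact ⟨hm m + y, add_mem h2 hy, by rwa [map_add, ← sub_sub]⟩

theorem exact_CK {k : ℕ} {m : MM} (h : m ∈ CK (k + 1)) (h0 : Dm m = 0) :
    ∃ y ∈ CK (k + 2), Dm y = m := by
  obtain ⟨n, hn⟩ := exists_Fil h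
  obtain ⟨y, hy, h1⟩ := descend n m hn h0
  have := Fil_ind (k := k + 1) (N := 4) LinearMap.id ⊥ (fun z T x a b c d _ => by
    obtain rfl := a.ch.eq_kap d
    rw [a.eq_empty b] at c
    simp at c) _ h1
  exact ⟨y, hy, (sub_eq_zero.mp this).symm⟩

theorem exact_CK_zero {m : MM} (h : m ∈ CK 0) (h0 : epM m = 0) : ∃ y ∈ CK 1, Dm y = m := by
  obtain ⟨n, hn⟩ := exists_Fil h
  obtain ⟨y, hy, h1⟩ := descend n m hn (Dm_zero m h)
  have := Fil_ind (k := 0) (N := 4) LinearMap.id (Submodule.span ℚ {single kap 1})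
    (fun z T x a b c d e => by
      obtain rfl := a.ch.eq_kap d
      obtain rfl := a.eq_empty b
      rw [Ln_empty, Submodule.mem_span_singleton] at e
      obtain ⟨r, rfl⟩ := e
      exact Submodule.mem_span_singleton.mpr ⟨r, by simp [ctr]⟩) _ h1
  obtain ⟨r, hr⟩ := Submodule.mem_span_singleton.mp this
  have h2 := congrArg epM hr
  rw [LinearMap.id_apply, map_sub, h0, epM_Dm y hy, map_smul, epM_single, map_one] at h2
  have h3 : r = 0 := by simpa using h2
  rw [h3, zero_smul, LinearMap.id_apply] at hr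
  exact ⟨y, hy, (sub_eq_zero.mp hr.symm).symm⟩

end Pool.Agent.MP_3fe7bf_gt

end
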