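import Pool.Agent.MP_3fe7bf_gt.Mg.Hyp

/-!
The colouring of the 27 wall types by vectors of the six dimensional space over the field with two
elements, the symmetry of order eight, and the finite checks about them.
-/

namespace Pool.Agent.MP_3fe7bf_gt

open Matrix

abbrev Res := Fin 7 → ZMod 2
abbrev V := Fin 6 → ZMod 2

def T27 : List Res := [
  ![0, 1, 0, 0, 0, 0, 0], ![0, 0, 1, 0, 0, 0, 0], ![0, 0, 0, 1, 0, 0, 0],
  ![0, 0, 0, 0, 1, 0, 0], ![0, 0, 0, 0, 0, 1, 0], ![0, 0, 0, 0, 0, 0, 1],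
  ![1, 1, 1, 0, 0, 0, 0], ![1, 1, 0, 1, 0, 0, 0], ![1, 1, 0, 0, 1, 0, 0],
  ![1, 1, 0, 0, 0, 1, 0], ![1, 1, 0, 0, 0, 0, 1], ![1, 0, 1, 1, 0, 0, 0],
  ![1, 0, 1, 0, 1, 0, 0], ![1, 0, 1, 0, 0, 1, 0], ![1, 0, 1, 0, 0, 0, 1],
  ![1, 0, 0, 1, 1, 0, 0], ![1, 0, 0, 1, 0, 1, 0], ![1, 0, 0, 1, 0, 0, 1],
  ![1, 0, 0, 0, 1, 1, 0], ![1, 0, 0, 0, 1, 0, 1], ![1, 0, 0, 0, 0, 1, 1],
  ![0, 0, 1, 1, 1, 1, 1], ![0, 1, 0, 1, 1, 1, 1], ![0, 1, 1, 0, 1, 1, 1],
  ![0, 1, 1, 1, 0, 1, 1], ![0, 1, 1, 1, 1, 0, 1], ![0, 1, 1, 1, 1, 1, 0]]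

def tab : List ℕ := [
  0, 0, 1, 0, 2, 0, 0, 46, 4, 0, 0, 25, 0, 20, 0, 0,
  8, 0, 0, 31, 0, 18, 0, 0, 0, 46, 0, 0, 0, 0, 0, 0,
  16, 0, 0, 56, 0, 57, 0, 0, 0, 7, 0, 0, 0, 0, 0, 0,
  0, 52, 0, 0, 0, 0, 0, 0, 0, 0, 0, 0, 0, 0, 27, 0,
  32, 0, 0, 57, 0, 51, 0, 0, 0, 52, 0, 0, 0, 0, 0, 0,
  0, 12, 0, 0, 0, 0, 0, 0, 0, 0, 0, 0, 0, 0, 43, 0,
  0, 46, 0, 0, 0, 0, 0, 0, 0, 0, 0, 0, 0, 0, 4, 0,
  0, 0, 0, 0, 0, 0, 3, 0, 0, 0, 10, 0, 2, 0, 0, 0]

def idx (t : Res) : ℕ := (t 0).val + 2 * (t 1).val + 4 * (t 2).val + 8 * (t 3).val +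
  16 * (t 4).val + 32 * (t 5).val + 64 * (t 6).val

def colR (t : Res) : V := fun k => if (tab.getD (idx t) 0).testBit k.val then 1 else 0

def bR (t u : Res) : ZMod 2 :=
  -(t 0 * u 0) + t 1 * u 1 + t 2 * u 2 + t 3 * u 3 + t 4 * u 4 + t 5 * u 5 + t 6 * u 6

theorem B_cast' (x y : Vec) : ((B x y : ℤ) : ZMod 2) = bR (res x) (res y) := B_cast x y

def rhoF (x : V) : V := ![
    x 3 + x 5,
    x 3,
    x 1 + x 2 + x 3 + x 4,
    x 0 + x 5,
    x 2 + x 4 + x 5,
    x 2]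

def rho : V →+ V := AddMonoidHom.mk' rhoF (by decide +kernel)

def sigM : Matrix (Fin 7) (Fin 7) ℤ :=
  !![3, 0, 2, 1, 1, 1, 1;
     -1, 0, -1, 0, 0, 0, -1;
     -1, 0, -1, 0, 0, -1, 0;
     -2, 0, -1, -1, -1, -1, -1;
     0, 1, 0, 0, 0, 0, 0;
     -1, 0, -1, 0, -1, 0, 0;
     -1, 0, -1, -1, 0, 0, 0]

def sigI : Matrix (Fin 7) (Fin 7) ℤ :=
  !![3, 1, 1, 2, 0, 1, 1;
     0, 0, 0, 0, 1, 0, 0;
     -2, -1, -1, -1, 0, -1, -1;
     -1, 0, 0, -1, 0, 0, -1;
     -1, 0, 0, -1, 0, -1, 0;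
     -1, 0, -1, -1, 0, 0, 0;
     -1, -1, 0, -1, 0, 0, 0]

def sig : PO := ⟨⟨sigM, sigI, by decide +kernel, by decide +kernel⟩,
  (by decide +kernel : sigMᵀ * J * sigM = J), (by decide +kernel : 0 < sigM 0 0)⟩

theorem sig_kap : sig • kap = kap := (by decide +kernel : sigM *ᵥ kap = kap)

def sigR (t : Res) : Res := ![
    t 0 + t 3 + t 4 + t 5 + t 6,
    t 0 + t 2 + t 6,
    t 0 + t 2 + t 5,
    t 2 + t 3 + t 4 + t 5 + t 6,
    t 1,
    t 0 + t 2 + t 4,
    t 0 + t 2 + t 3]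

theorem red_sig (t : Res) : red sig • t = sigR t :=
  (by decide +kernel : ∀ t : Res, (sigM.map (Int.castRingHom (ZMod 2))) *ᵥ t = sigR t) t

theorem colR_sigR : ∀ t, colR (sigR t) = rho (colR t) := by decide +kernel

theorem sigR_eight : ∀ t, sigR^[8] t = t := by decide +kernel

theorem sigR_four : sigR^[4] ![0, 1, 0, 0, 0, 0, 0] ≠ ![0, 1, 0, 0, 0, 0, 0] := by decide +kernel

theorem eta_inv : ∀ t, colR (sigR^[4] t) 4 = colR t 4 := by decide +kernel

theorem eta_fix : ∀ t, sigR^[4] t = t → colR t 4 = 0 := by decide +kernel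

def om : V →+ ZMod 2 := AddMonoidHom.mk' (fun x => x 4 + x 5) (by decide +kernel)

theorem om_rho : ∀ x, om (rho x) = om x := by decide +kernel

def l0 : Vec := ![1, 0, 0, 0, 0, -1, -1]

theorem isLine_l0 : IsLine l0 := by constructor <;> simp [B, deg, l0]

theorem om_orth : ∀ t, bR t (res l0) = 0 → om (colR t) = 0 := by decide +kernel

theorem om_l0 : om (colR (res l0)) = 1 := by decide +kernel

theorem om_E4 : om (colR (res (E 4))) = 1 := by decide +kernel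

theorem om_E0 : om (colR (res (E 0))) = 0 := by decide +kernel

theorem sigR_l0 : sigR (res l0) = res l0 := by decide +kernel

theorem res_E4_ne : res (E 4) ≠ res l0 := by decide +kernel

theorem colR_E : ∀ i, colR (res (E i)) = Pi.single i 1 := by decide +kernel

theorem tau_eight : ∑ j ∈ Finset.range 8, rho^[j] (colR (res (E 0))) = 0 := by decide +kernel

theorem tau_four : (∑ j ∈ Finset.range 4, rho^[j] (colR (res (E 0)))) 4 = 1 := by decide +kernel

def wt (t : Res) : ℤ := -((t 0).val : ℤ) + (t 1).val + (t 2).val + (t 3).val + (t 4).val +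
  (t 5).val + (t 6).val

theorem mem_T27_of_wt : ∀ t : Res, wt t % 4 = 1 → t ≠ ![1, 1, 1, 1, 1, 1, 1] → t ∈ T27 := by
  decide +kernel

theorem sq_mod_four (x : ℤ) : ∃ k, x * x = ((x : ZMod 2).val : ℤ) + 4 * k := by
  rw [ZMod.val_intCast]
  rcases Int.emod_two_eq_zero_or_one x with h | h
  · refine ⟨(x / 2) * (x / 2), ?_⟩
    have : x = 2 * (x / 2) := by omega
    push_cast
    rw [h]
    generalize x / 2 = y at *
    rw [this]; ring
  · refine ⟨(x / 2) * (x / 2) + x / 2, ?_⟩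
    have : x = 2 * (x / 2) + 1 := by omega
    push_cast
    rw [h]
    generalize x / 2 = y at *
    rw [this]; ring

theorem sq_mod_eight {x : ℤ} (h : (x : ZMod 2) = 1) : ∃ k, x * x = 1 + 8 * k := by
  have h1 : x % 2 = 1 := by
    have := ZMod.val_intCast (n := 2) x
    rw [h] at this
    exact this.symm
  obtain ⟨k, hk⟩ := sq_par (x / 2)
  refine ⟨x / 2 + k, ?_⟩
  have : x = 2 * (x / 2) + 1 := by omega
  generalize x / 2 = y at *
  rw [this]
  linear_combination 4 * hk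

theorem res_mem_T27 {v : Vec} (h : B v v = 1) : res v ∈ T27 := by
  apply mem_T27_of_wt
  · obtain ⟨k0, h0⟩ := sq_mod_four (v 0)
    obtain ⟨k1, h1⟩ := sq_mod_four (v 1)
    obtain ⟨k2, h2⟩ := sq_mod_four (v 2)
    obtain ⟨k3, h3⟩ := sq_mod_four (v 3)
    obtain ⟨k4, h4⟩ := sq_mod_four (v 4)
    obtain ⟨k5, h5⟩ := sq_mod_four (v 5)
    obtain ⟨k6, h6⟩ := sq_mod_four (v 6)
    unfold B at h
    unfold wt res
    omega
  · intro e
    obtain ⟨k0, h0⟩ := sq_mod_eight (x := v 0) (congrFun e 0)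
    obtain ⟨k1, h1⟩ := sq_mod_eight (x := v 1) (congrFun e 1)
    obtain ⟨k2, h2⟩ := sq_mod_eight (x := v 2) (congrFun e 2)
    obtain ⟨k3, h3⟩ := sq_mod_eight (x := v 3) (congrFun e 3)
    obtain ⟨k4, h4⟩ := sq_mod_eight (x := v 4) (congrFun e 4)
    obtain ⟨k5, h5⟩ := sq_mod_eight (x := v 5) (congrFun e 5)
    obtain ⟨k6, h6⟩ := sq_mod_eight (x := v 6) (congrFun e 6)
    unfold B at h
    omega

def good : ℕ → List Res → V → Bool
  | 0, _, _ => false
  | _ + 1, [], _ => true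
  | n + 1, a :: l, acc => decide (acc + colR a ≠ 0) &&
      good n (l.filter fun t => decide (bR a t = 0)) (acc + colR a) && good n l acc

theorem good_T27 : good 28 T27 0 = true := by decide +kernel

theorem good_spec : ∀ (n : ℕ) (l : List Res) (acc : V), good n l acc = true →
    ∀ A : Finset Res, (∀ t ∈ A, t ∈ l) → (∀ t ∈ A, ∀ u ∈ A, t ≠ u → bR t u = 0) → A.Nonempty →
      acc + ∑ t ∈ A, colR t ≠ 0 := by
  intro n
  induction n with
  | zero => intro l acc h; simp [good] at h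
  | succ n ih =>
    intro l acc h A hA hp hne
    cases l with
    | nil => obtain ⟨t, ht⟩ := hne; simpa using hA t ht
    | cons a l =>
      simp only [good, Bool.and_eq_true, decide_eq_true_eq] at h
      obtain ⟨⟨h1, h2⟩, h3⟩ := h
      by_cases ha : a ∈ A
      · rw [← Finset.add_sum_erase A _ ha, ← add_assoc]
        by_cases hB : (A.erase a).Nonempty
        · apply ih _ _ h2 _ _ _ hB
          · intro t ht
            rw [Finset.mem_erase] at ht
            rw [List.mem_filter, decide_eq_true_eq]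
            refine ⟨?_, hp a ha t ht.2 ht.1.symm⟩
            rcases List.mem_cons.mp (hA t ht.2) with h | h
            · exact absurd h ht.1
            · exact h
          · intro t ht u hu
            exact hp t (Finset.mem_of_mem_erase ht) u (Finset.mem_of_mem_erase hu)
        · rw [Finset.not_nonempty_iff_eq_empty.mp hB]
          simpa using h1
      · apply ih _ _ h3 _ _ hp hne
        intro t ht
        rcases List.mem_cons.mp (hA t ht) with h | h
        · exact absurd (h ▸ ht) ha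
        · exact h

/-- colours of a nonempty orthonormal family of walls do not sum to zero -/
theorem sum_col_ne_zero (A : Finset Vec) (h1 : ∀ v ∈ A, B v v = 1)
    (h2 : ∀ v ∈ A, ∀ w ∈ A, v ≠ w → B v w = 0) (hne : A.Nonempty) :
    ∑ v ∈ A, colR (res v) ≠ 0 := by
  have hinj : Set.InjOn res (A : Set Vec) := by
    intro v hv w hw e
    by_contra hvw
    have a := B_cast' v w
    have b := B_cast' v v
    rw [h2 v hv w hw hvw, ← e, ← b, h1 v hv] at a
    simp at a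
  have := good_spec _ _ _ good_T27 (A.image res)
    (by
      intro t ht
      obtain ⟨v, hv, rfl⟩ := Finset.mem_image.mp ht
      exact res_mem_T27 (h1 v hv))
    (by
      intro t ht u hu htu
      obtain ⟨v, hv, rfl⟩ := Finset.mem_image.mp ht
      obtain ⟨w, hw, rfl⟩ := Finset.mem_image.mp hu
      rw [← B_cast', h2 v hv w hw (fun e => htu (e ▸ rfl))]
      simp)
    (hne.image _)
  rwa [zero_add, Finset.sum_image hinj] at this

end Pool.Agent.MP_3fe7bf_gt
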