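import Pool.Agent.MP_3fe7bf_gt.Mg.Hyp

/-!
Finite index subgroups of the integral positive Lorentz group have finite covolume.
-/

namespace Pool.Agent.MP_3fe7bf_gt

open Matrix MeasureTheory

def Tri (y : Fin 7 → ℝ) : Prop :=
  ∀ i j k : Fin 6, i ≠ j → i ≠ k → j ≠ k → |y i.succ| + |y j.succ| + |y k.succ| ≤ y 0

def F0 : Set H6 := {x | Tri x.val}

theorem isClosed_F0 : IsClosed F0 := by
  have : F0 = ⋂ i : Fin 6, ⋂ j : Fin 6, ⋂ k : Fin 6, ⋂ _ : i ≠ j, ⋂ _ : i ≠ k, ⋂ _ : j ≠ k,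
      {x : H6 | |x.val i.succ| + |x.val j.succ| + |x.val k.succ| ≤ x.val 0} := by
    ext x; simp [F0, Tri]
  rw [this]
  refine isClosed_iInter fun i => isClosed_iInter fun j => isClosed_iInter fun k =>
    isClosed_iInter fun _ => isClosed_iInter fun _ => isClosed_iInter fun _ => ?_
  have hc : ∀ l, Continuous fun x : H6 => x.val l := fun l =>
    (continuous_apply l).comp continuous_subtype_val
  exact isClosed_le (((hc _).abs.add (hc _).abs).add (hc _).abs) (hc _)

theorem refl_zero (v : Vec) (h : 1 * B v v = 2) (y : H6) :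
    (refl 1 v (by norm_num) h • y).val 0 = y.val 0 - v 0 * lor y.val (fun i => (v i : ℝ)) := by
  rw [smul_val, lor_eq]
  have : ∀ j, matR (refl 1 v (by norm_num) h) 0 j = (reflMat 1 v 0 j : ℝ) := fun j => rfl
  simp only [Matrix.mulVec, dotProduct, this]
  simp [reflMat, J, Matrix.vecMulVec, Matrix.mulVec_diagonal, Fin.sum_univ_succ, Matrix.one_apply]
  ring

theorem lor_E (y : Fin 7 → ℝ) (a b c : ℤ) (i j k : Fin 6) :
    lor y (fun l => ((e0 - a • E i - b • E j - c • E k) l : ℝ)) =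
      -y 0 - a * y i.succ - b * y j.succ - c * y k.succ := by
  simp [lor, e0_zero, E_zero, e0_succ, E_succ, mul_sub, Finset.sum_sub_distrib]
  ring

theorem exists_sign (t : ℝ) : ∃ a : ℤ, a * a = 1 ∧ a * t = -|t| := by
  rcases le_total 0 t with h | h
  · exact ⟨-1, by norm_num, by rw [abs_of_nonneg h]; simp⟩
  · exact ⟨1, by norm_num, by rw [abs_of_nonpos h]; simp⟩

theorem cover_F0 (x : H6) : ∃ g : PO, g • x ∈ F0 := by
  obtain ⟨g, hg, hmin⟩ := Set.exists_min_image _ (fun g : PO => (g • x).val 0)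
    (finite_height x (x.val 0)) ⟨1, by simp⟩
  have hg' : (g • x).val 0 ≤ x.val 0 := hg
  have hm : ∀ h : PO, (g • x).val 0 ≤ (h • g • x).val 0 := fun h => by
    rw [← mul_smul]
    by_cases c : ((h * g) • x).val 0 ≤ x.val 0
    · exact hmin _ c
    · linarith
  refine ⟨g, fun i j k hij hik hjk => ?_⟩
  obtain ⟨a, ha, ha'⟩ := exists_sign ((g • x).val i.succ)
  obtain ⟨b, hb, hb'⟩ := exists_sign ((g • x).val j.succ)
  obtain ⟨c, hc, hc'⟩ := exists_sign ((g • x).val k.succ)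
  have hr : 1 * B (e0 - a • E i - b • E j - c • E k) (e0 - a • E i - b • E j - c • E k) = 2 := by
    simp only [B_sub_right, B_smul_right, B_e0, B_E, Pi.sub_apply, Pi.smul_apply, e0_zero, E_zero,
      e0_succ, E_succ, hij, hij.symm, hik, hik.symm, hjk, hjk.symm]
    simp
    linarith
  have := hm (refl 1 _ (by norm_num) hr)
  rw [refl_zero, lor_E] at this
  simp only [Pi.sub_apply, Pi.smul_apply, e0_zero, E_zero, smul_zero, sub_zero, Int.cast_one,
    one_mul] at this
  linarith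

theorem second_small {y : Fin 7 → ℝ} (h1 : -1 ≤ lor y y) (h2 : Tri y) {i : Fin 6}
    (hi : ∀ j : Fin 6, |y j.succ| ≤ |y i.succ|) {j : Fin 6} (hj : j ≠ i) :
    2 * (|y i.succ| * |y j.succ|) ≤ 1 := by
  obtain ⟨j0, hj0, hmax⟩ := (Finset.univ.erase i).exists_max_image (fun l : Fin 6 => |y l.succ|)
    ⟨j, by simpa using hj⟩
  have hcard : ((Finset.univ.erase i).erase j0).card = 4 := by
    rw [Finset.card_erase_of_mem hj0, Finset.card_erase_of_mem (Finset.mem_univ i)]; simp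
  obtain ⟨k0, hk0, hmax'⟩ := ((Finset.univ.erase i).erase j0).exists_max_image
    (fun l : Fin 6 => |y l.succ|) (Finset.card_pos.mp (by omega))
  have a1 : j0 ≠ i := (Finset.mem_erase.mp hj0).1
  have a2 : k0 ≠ j0 := (Finset.mem_erase.mp hk0).1
  have a3 : k0 ≠ i := (Finset.mem_erase.mp (Finset.mem_erase.mp hk0).2).1
  have t := h2 i j0 k0 a1.symm a3.symm a2.symm
  have s1 := Finset.add_sum_erase Finset.univ (fun l : Fin 6 => y l.succ * y l.succ) (Finset.mem_univ i)
  have s2 := Finset.add_sum_erase _ (fun l : Fin 6 => y l.succ * y l.succ) hj0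
  have s3 := Finset.sum_le_card_nsmul ((Finset.univ.erase i).erase j0)
    (fun l : Fin 6 => y l.succ * y l.succ) (|y k0.succ| * |y k0.succ|) (fun l hl => by
      rw [← abs_mul_abs_self]
      exact mul_self_le_mul_self (abs_nonneg _) (hmax' l hl))
  rw [hcard] at s3
  simp only [nsmul_eq_mul] at s1 s2 s3
  unfold lor at h1
  rw [← abs_mul_abs_self (y i.succ)] at s1
  rw [← abs_mul_abs_self (y j0.succ)] at s2
  have b1 := hmax j (by simpa using hj)
  have b2 := hmax k0 (Finset.mem_erase.mp hk0).2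
  have b3 := hi j0
  have b4 := abs_nonneg (y k0.succ)
  have b5 := abs_nonneg (y j.succ)
  generalize |y i.succ| = m1 at *
  generalize |y j0.succ| = m2 at *
  generalize |y k0.succ| = m3 at *
  generalize |y j.succ| = m at *
  have c1 : (m1 + m2 + m3) * (m1 + m2 + m3) ≤ y 0 * y 0 := mul_self_le_mul_self (by linarith) t
  have c2 : m3 * m3 ≤ m1 * m3 := mul_le_mul_of_nonneg_right (by linarith) b4
  have c3 : m3 * m3 ≤ m2 * m3 := mul_le_mul_of_nonneg_right (by linarith) b4
  have c4 : m1 * m ≤ m1 * m2 := mul_le_mul_of_nonneg_left b1 (by linarith)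
  push_cast at s3
  nlinarith [mul_self_nonneg m3]

def boxS (i : Fin 6) (s : ℝ) (k : ℕ) : Fin 7 → Set ℝ :=
  Fin.cons (Set.Icc ((k : ℝ) + 1) (k + 4))
    (fun j => if j = i then Set.uIcc (s * (k + 1)) (s * (k + 2)) else
      Set.Icc (-(1 / ((k : ℝ) + 1))) (1 / ((k : ℝ) + 1)))

theorem vol_box (i : Fin 6) {s : ℝ} (hs : |s| = 1) (k : ℕ) :
    volume (Set.pi Set.univ (boxS i s k)) = ENNReal.ofReal (96 * (1 / ((k : ℝ) + 1) ^ 5)) := by
  rw [volume_pi_pi, Fin.prod_univ_succ]
  simp only [boxS, Fin.cons_zero, Fin.cons_succ]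
  rw [← Finset.mul_prod_erase _ _ (Finset.mem_univ i), if_pos rfl,
    Finset.prod_congr rfl (g := fun _ => ENNReal.ofReal (2 / ((k : ℝ) + 1))) (fun j hj => by
      rw [if_neg (Finset.mem_erase.mp hj).1, Real.volume_Icc]; congr 1; ring),
    Finset.prod_const, Finset.card_erase_of_mem (Finset.mem_univ i), Real.volume_Icc,
    Real.volume_interval, ← mul_sub, abs_mul, hs,
    ← ENNReal.ofReal_pow (by positivity), ← ENNReal.ofReal_mul (by positivity),
    ← ENNReal.ofReal_mul (by linarith)]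
  congr 1
  rw [show (k : ℝ) + 2 - (k + 1) = 1 by ring]
  simp
  field_simp
  ring

theorem vol_boxes (i : Fin 6) {s : ℝ} (hs : |s| = 1) :
    volume (⋃ k : ℕ, Set.pi Set.univ (boxS i s k)) < ⊤ := by
  refine (measure_iUnion_le _).trans_lt ?_
  simp only [vol_box i hs]
  have h : Summable fun k : ℕ => 96 * (1 / ((k : ℝ) + 1) ^ 5) := by
    have := (summable_nat_add_iff 1).mpr (Real.summable_one_div_nat_pow.mpr (by norm_num : 1 < 5))
    simpa using this.mul_left 96
  exact h.tsum_ofReal_lt_top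

theorem mem_boxes {y : Fin 7 → ℝ} (h0 : 0 ≤ y 0) (h1 : -1 ≤ lor y y) (h2 : Tri y) :
    y ∈ Set.Icc (fun _ => (-3 : ℝ)) (fun _ => 3) ∪ ⋃ i : Fin 6,
      ((⋃ k : ℕ, Set.pi Set.univ (boxS i 1 k)) ∪ ⋃ k : ℕ, Set.pi Set.univ (boxS i (-1) k)) := by
  obtain ⟨i, -, hi'⟩ := Finset.univ.exists_max_image (fun l : Fin 6 => |y l.succ|) ⟨0, by simp⟩
  have hi : ∀ j : Fin 6, |y j.succ| ≤ |y i.succ| := fun j => hi' j (Finset.mem_univ j)
  have s1 := Finset.add_sum_erase Finset.univ (fun l : Fin 6 => y l.succ * y l.succ) (Finset.mem_univ i)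
  have hcard : (Finset.univ.erase i).card = 5 := by
    rw [Finset.card_erase_of_mem (Finset.mem_univ i)]; simp
  have hlor := h1
  unfold lor at hlor
  rw [← abs_mul_abs_self (y i.succ)] at s1
  have s3 : ∑ l ∈ Finset.univ.erase i, y l.succ * y l.succ ≤ 5 := by
    have := Finset.sum_le_card_nsmul (Finset.univ.erase i)
      (fun l : Fin 6 => y l.succ * y l.succ) 1 (fun l hl => by
        have a := second_small h1 h2 hi (Finset.mem_erase.mp hl).1
        have b := hi l
        have c := abs_nonneg (y l.succ)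
        rw [← abs_mul_abs_self]
        nlinarith)
    rw [hcard] at this
    simpa using this
  have hp := abs_nonneg (y i.succ)
  by_cases c : |y i.succ| < 1
  · left
    have e : ∀ l, |y l| ≤ 3 := fun l => by
      refine Fin.cases ?_ (fun j => ?_) l
      · rw [abs_of_nonneg h0]; nlinarith
      · linarith [hi j]
    exact ⟨fun l => (abs_le.mp (e l)).1, fun l => (abs_le.mp (e l)).2⟩
  · right
    push Not at c
    obtain ⟨k, hk1, hk2⟩ : ∃ k : ℕ, (k : ℝ) + 1 ≤ |y i.succ| ∧ |y i.succ| ≤ k + 2 := by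
      refine ⟨⌊|y i.succ| - 1⌋₊, ?_, ?_⟩
      · linarith [Nat.floor_le (a := |y i.succ| - 1) (by linarith)]
      · linarith [Nat.lt_floor_add_one (|y i.succ| - 1)]
    have hle : |y i.succ| ≤ y 0 := by
      obtain ⟨j, k, hj, hk, hjk⟩ :=
        (by decide : ∀ i : Fin 6, ∃ j k : Fin 6, i ≠ j ∧ i ≠ k ∧ j ≠ k) i
      linarith [h2 i j k hj hk hjk, abs_nonneg (y j.succ), abs_nonneg (y k.succ)]
    have key : ∀ s : ℝ, y i.succ ∈ Set.uIcc (s * (k + 1)) (s * (k + 2)) →
        y ∈ Set.pi Set.univ (boxS i s k) := by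
      intro s hs l _
      refine Fin.cases ?_ (fun j => ?_) l
      · simp only [boxS, Fin.cons_zero]
        constructor
        · linarith
        · nlinarith
      · simp only [boxS, Fin.cons_succ]
        split_ifs with hj
        · rw [hj]; exact hs
        · have a := second_small h1 h2 hi hj
          have b := abs_nonneg (y j.succ)
          have : |y j.succ| ≤ 1 / ((k : ℝ) + 1) := by
            rw [le_div_iff₀ (by positivity)]
            nlinarith
          exact abs_le.mp this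
    refine Set.mem_iUnion.mpr ⟨i, ?_⟩
    rcases le_total 0 (y i.succ) with d | d
    · left
      rw [abs_of_nonneg d] at hk1 hk2
      exact Set.mem_iUnion.mpr ⟨k, key 1 (Set.mem_uIcc_of_le (by linarith) (by linarith))⟩
    · right
      rw [abs_of_nonpos d] at hk1 hk2
      exact Set.mem_iUnion.mpr ⟨k, key (-1) (Set.mem_uIcc_of_ge (by linarith) (by linarith))⟩

def cone (F : Set H6) : Set (Fin 7 → ℝ) := {y | ∃ t ∈ Set.Ioo (0 : ℝ) 1, ∃ x ∈ F, y = t • x.val}

theorem vol_cone_F0 : volume (cone F0) < ⊤ := by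
  refine (measure_mono (t := Set.Icc (fun _ => (-3 : ℝ)) (fun _ => 3) ∪ ⋃ i : Fin 6,
      ((⋃ k : ℕ, Set.pi Set.univ (boxS i 1 k)) ∪ ⋃ k : ℕ, Set.pi Set.univ (boxS i (-1) k))) ?_).trans_lt
    (measure_union_lt_top isCompact_Icc.measure_lt_top ?_)
  · rintro _ ⟨t, ⟨t0, t1⟩, x, hx, rfl⟩
    apply mem_boxes
    · exact (mul_pos t0 x.2.2).le
    · have : lor (t • x.val) (t • x.val) = t * t * lor x.val x.val := by
        simp only [lor_eq, Pi.smul_apply, smul_eq_mul]; ring
      rw [this, x.2.1]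
      nlinarith
    · intro i j k a b c
      have := hx i j k a b c
      simp only [Pi.smul_apply, smul_eq_mul, abs_mul, abs_of_pos t0]
      nlinarith
  · refine (measure_iUnion_le _).trans_lt ?_
    rw [tsum_fintype]
    exact ENNReal.sum_lt_top.mpr fun i _ =>
      measure_union_lt_top (vol_boxes i (by simp)) (vol_boxes i (by simp))

theorem vol_cone_preimage (g : PO) : volume (cone ((fun x => g • x) ⁻¹' F0)) < ⊤ := by
  have : cone ((fun x => g • x) ⁻¹' F0) ⊆ Matrix.toLin' (matR g⁻¹) '' cone F0 := by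
    rintro _ ⟨t, ht, x, hx, rfl⟩
    refine ⟨t • (g • x).val, ⟨t, ht, _, hx, rfl⟩, ?_⟩
    rw [map_smul, Matrix.toLin'_apply, ← smul_val, inv_smul_smul]
  refine (measure_mono this).trans_lt ?_
  rw [Measure.addHaar_image_linearMap]
  exact ENNReal.mul_lt_top ENNReal.ofReal_lt_top vol_cone_F0

theorem finite_covolume (Γ : Subgroup PO) (h : Γ.index ≠ 0) :
    ∃ F : Set H6, MeasurableSet F ∧ hvol F < ⊤ ∧ ∀ x : H6, ∃ g ∈ Γ.map toR, g • x ∈ F := by
  have : Finite (PO ⧸ Γ) := Nat.finite_of_card_ne_zero h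
  have := Fintype.ofFinite (PO ⧸ Γ)
  refine ⟨⋃ q : PO ⧸ Γ, (fun x => q.out • x) ⁻¹' F0, ?_, ?_, fun x => ?_⟩
  · exact (isClosed_iUnion_of_finite fun q =>
      isClosed_F0.preimage (continuous_const_smul _)).measurableSet
  · have e : cone (⋃ q : PO ⧸ Γ, (fun x => q.out • x) ⁻¹' F0) ⊆
        ⋃ q : PO ⧸ Γ, cone ((fun x => q.out • x) ⁻¹' F0) := by
      rintro _ ⟨t, ht, x, hx, rfl⟩
      obtain ⟨q, hq⟩ := Set.mem_iUnion.mp hx
      exact Set.mem_iUnion.mpr ⟨q, t, ht, x, hq, rfl⟩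
    refine ENNReal.mul_lt_top (by norm_num) ((measure_mono e).trans_lt ?_)
    refine (measure_iUnion_le _).trans_lt ?_
    rw [tsum_fintype]
    exact ENNReal.sum_lt_top.mpr fun q _ => vol_cone_preimage _
  · obtain ⟨g, hg⟩ := cover_F0 x
    obtain ⟨a, ha⟩ := QuotientGroup.mk_out_eq_mul Γ g
    refine ⟨toR (a : PO)⁻¹, ⟨_, inv_mem a.2, rfl⟩, Set.mem_iUnion.mpr ⟨(g : PO ⧸ Γ), ?_⟩⟩
    show (g : PO ⧸ Γ).out • ((a : PO)⁻¹ • x) ∈ F0
    rw [ha, mul_smul, smul_inv_smul]
    exact hg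

end Pool.Agent.MP_3fe7bf_gt
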