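import Pool.Agent.MP_3fe7bf_gt.Mg.Count
import Pool.Agent.MP_3fe7bf_gt.Mg.Colour
import Pool.Agent.MP_3fe7bf_gt.Mg.Chain
import Pool.Agent.MP_3fe7bf_gt.Mg.Vol

-- part MP_3fe7bf_gt.Main
section

/-!
The torsion free subgroup of index 414720 with a nontrivial homomorphism to the integers.
-/

namespace Pool.Agent.MP_3fe7bf_gt

open Matrix

theorem V_neg : ∀ x : V, -x = x := by decide +kernel
theorem V_add_self : ∀ x : V, x + x = 0 := by decide +kernel

/-- colour cocycle -/
noncomputable def La (g : PO) : V := Lam (fun v => colR (res v)) g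

theorem red_sig_pow (k : ℕ) (t : Res) : (red sig ^ k) • t = sigR^[k] t := by
  induction k with
  | zero => simp
  | succ k ih => rw [pow_succ', mul_smul, ih, red_sig, Function.iterate_succ_apply']

theorem colR_iter (k : ℕ) (t : Res) : colR (sigR^[k] t) = rho^[k] (colR t) := by
  induction k with
  | zero => simp
  | succ k ih => rw [Function.iterate_succ_apply', Function.iterate_succ_apply', colR_sigR, ih]

theorem rho_iter_sum (k : ℕ) (A : Finset Vec) (f : Vec → V) :
    rho^[k] (∑ v ∈ A, f v) = ∑ v ∈ A, rho^[k] (f v) := by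
  induction k with
  | zero => simp
  | succ k ih => simp only [Function.iterate_succ_apply', ih, map_sum]

theorem La_mul {g : PO} {k : ℕ} (hk : red g = red sig ^ k) (h : PO) :
    La (g * h) = La g + rho^[k] (La h) := by
  unfold La
  rw [Lam_mul _ (fun v => by rw [res_neg, V_neg])]
  congr 1
  unfold Lam
  rw [rho_iter_sum]
  refine Finset.sum_congr rfl fun v _ => ?_
  show colR (res (g • v)) = _
  rw [res_smul, hk, red_sig_pow, colR_iter]

theorem La_mul_ker {g : PO} (hg : g ∈ red.ker) (h : PO) : La (g * h) = La g + La h :=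
  La_mul (k := 0) (by simpa using hg) h

theorem La_one : La 1 = 0 := Lam_one _

theorem La_rf {l : Vec} (hl : IsLine l) : La (rf l hl.1) = colR (res l) := Lam_rf _ hl

def g1 : PO := rf (E 0) (isLine_E 0).1 * sig

theorem red_g1 : red g1 = red sig := by
  unfold g1
  rw [map_mul, MonoidHom.mem_ker.mp (rf_mem_ker _ _), one_mul]

theorem red_g1_pow (k : ℕ) : red (g1 ^ k) = red sig ^ k := by rw [map_pow, red_g1]

theorem La_g1 : La g1 = colR (res (E 0)) := by
  unfold g1
  rw [La_mul_ker (rf_mem_ker _ _), La_rf (isLine_E 0)]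
  have : La sig = 0 := Lam_of_fix _ sig_kap
  rw [this, add_zero]

theorem La_g1_pow (k : ℕ) : La (g1 ^ k) = ∑ j ∈ Finset.range k, rho^[j] (colR (res (E 0))) := by
  induction k with
  | zero => simp [La_one]
  | succ k ih => rw [pow_succ, La_mul (red_g1_pow k), ih, La_g1, Finset.sum_range_succ]

theorem red_sig_eight : red sig ^ 8 = 1 := by
  apply Units.ext
  apply Matrix.ext_iff_smul.mpr
  intro t
  have := red_sig_pow 8 t
  rw [sigR_eight] at this
  exact this.trans (one_smul _ t).symm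

theorem orderOf_red_sig : orderOf (red sig) = 8 := by
  have : Fact (Nat.Prime 2) := ⟨Nat.prime_two⟩
  apply orderOf_eq_prime_pow (p := 2) (n := 2)
  · intro h
    apply sigR_four
    have h' : red sig ^ 4 = 1 := h
    rw [← red_sig_pow, h', one_smul]
  · exact red_sig_eight

theorem La_g1_add_eight (k : ℕ) : La (g1 ^ (8 + k)) = La (g1 ^ k) := by
  rw [pow_add, La_mul_ker (by rw [MonoidHom.mem_ker, red_g1_pow, red_sig_eight]), La_g1_pow 8,
    tau_eight, zero_add]

theorem La_g1_mod (k : ℕ) : La (g1 ^ k) = La (g1 ^ (k % 8)) := by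
  induction k using Nat.strong_induction_on with
  | _ k ih =>
    by_cases h : k < 8
    · rw [Nat.mod_eq_of_lt h]
    · obtain ⟨m, rfl⟩ : ∃ m, k = 8 + m := ⟨k - 8, by omega⟩
      rw [La_g1_add_eight, ih m (by omega), Nat.add_mod_left]

theorem La_g1_congr {k l : ℕ} (h : red sig ^ k = red sig ^ l) : La (g1 ^ k) = La (g1 ^ l) := by
  rw [pow_eq_pow_iff_modEq, orderOf_red_sig] at h
  rw [La_g1_mod k, La_g1_mod l, h]

theorem red_inv {g : PO} {k : ℕ} (hk : red g = red sig ^ k) : red g⁻¹ = red sig ^ (7 * k) := by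
  rw [map_inv, hk, inv_eq_iff_mul_eq_one, ← pow_add, show k + 7 * k = 8 * k by ring, pow_mul,
    red_sig_eight, one_pow]

/-- the torsion free subgroup -/
def Gam : Subgroup PO where
  carrier := {g | ∃ k : ℕ, red g = red sig ^ k ∧ La g = La (g1 ^ k)}
  one_mem' := ⟨0, by simp, by simp⟩
  mul_mem' := by
    rintro g h ⟨k, hk, hg⟩ ⟨l, hl, hh⟩
    refine ⟨k + l, by rw [map_mul, hk, hl, pow_add], ?_⟩
    rw [La_mul hk, pow_add, La_mul (red_g1_pow k), hg, hh]
  inv_mem' := by
    rintro g ⟨k, hk, hg⟩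
    refine ⟨7 * k, red_inv hk, ?_⟩
    have h1 := La_mul (red_inv hk) g
    have h2 := La_mul (red_g1_pow (7 * k)) (g1 ^ k)
    rw [inv_mul_cancel, La_one] at h1
    rw [← pow_add, La_g1_mod, show (7 * k + k) % 8 = 0 by omega, pow_zero, La_one, ← hg] at h2
    exact add_right_cancel (h1.symm.trans h2)

theorem La_of_mem {g : PO} (hg : g ∈ Gam) {k : ℕ} (hk : red g = red sig ^ k) :
    La g = La (g1 ^ k) := by
  obtain ⟨l, hl, h⟩ := hg
  rw [h]
  exact La_g1_congr (hl.symm.trans hk)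

theorem mem_Gam_of_ker {g : PO} (hg : g ∈ red.ker) : g ∈ Gam ↔ La g = 0 := by
  have h0 : red g = red sig ^ 0 := by simpa using hg
  constructor
  · intro h
    rw [La_of_mem h h0, pow_zero, La_one]
  · intro h
    exact ⟨0, h0, by rw [h, pow_zero, La_one]⟩

theorem g1_mem : g1 ∈ Gam := ⟨1, by rw [red_g1, pow_one], by rw [pow_one]⟩

noncomputable def La2 : red.ker →* Multiplicative V :=
  MonoidHom.mk' (fun g => Multiplicative.ofAdd (La g)) (fun g h => by
    rw [← ofAdd_add, ← La_mul_ker g.2]; rfl)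

theorem La2_surj : Function.Surjective La2 := by
  rw [← MonoidHom.range_eq_top, Subgroup.eq_top_iff']
  intro x
  have hb : ∀ i : Fin 6, Multiplicative.ofAdd (Pi.single i 1 : V) ∈ La2.range := fun i =>
    ⟨⟨rf (E i) (isLine_E i).1, rf_mem_ker _ _⟩, by
      show Multiplicative.ofAdd (La (rf (E i) (isLine_E i).1)) = _
      rw [La_rf (isLine_E i), colR_E]⟩
  have hc : ∀ (i : Fin 6) (c : ZMod 2), Multiplicative.ofAdd (Pi.single i c : V) ∈ La2.range := by
    intro i c
    fin_cases c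
    · have : (Pi.single i (0 : ZMod 2) : V) = 0 := Pi.single_zero i
      show Multiplicative.ofAdd (Pi.single i (0 : ZMod 2) : V) ∈ La2.range
      rw [this]; exact one_mem _
    · exact hb i
  have : x = ∏ i : Fin 6, Multiplicative.ofAdd (Pi.single i (x.toAdd i) : V) := by
    rw [← ofAdd_sum, Finset.univ_sum_single]; rfl
  rw [this]
  exact Subgroup.prod_mem _ fun i _ => hc i _

theorem relIndex_ker : Gam.relIndex red.ker = 64 := by
  have : Gam.subgroupOf red.ker = La2.ker := by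
    ext g
    rw [Subgroup.mem_subgroupOf, mem_Gam_of_ker g.2, MonoidHom.mem_ker]
    exact ofAdd_eq_one.symm
  rw [Subgroup.relIndex, this, Subgroup.index_ker, MonoidHom.range_eq_top.mpr La2_surj,
    Subgroup.card_top]
  simp

theorem relIndex_Gam : red.ker.relIndex Gam = 8 := by
  have : Gam.map red = Subgroup.zpowers (red sig) := by
    apply le_antisymm
    · rintro _ ⟨g, ⟨k, hk, _⟩, rfl⟩
      rw [hk]
      exact Subgroup.npow_mem_zpowers _ _
    · rw [Subgroup.zpowers_le]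
      exact ⟨g1, g1_mem, red_g1⟩
  rw [Subgroup.relIndex_ker, this, Nat.card_zpowers, orderOf_red_sig]

theorem index_Gam : Gam.index = 414720 := by
  have h1 := Subgroup.relIndex_mul_index (inf_le_left : red.ker ⊓ Gam ≤ red.ker)
  have h2 := Subgroup.relIndex_mul_index (inf_le_right : red.ker ⊓ Gam ≤ Gam)
  rw [Subgroup.inf_relIndex_left, relIndex_ker, index_ker_red] at h1
  rw [Subgroup.inf_relIndex_right, relIndex_Gam] at h2
  omega

theorem sum_future (g : PO) (m : ℕ) :
    B (∑ i ∈ Finset.range (m + 1), g ^ i • kap) (∑ i ∈ Finset.range (m + 1), g ^ i • kap) < 0 ∧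
      0 < (∑ i ∈ Finset.range (m + 1), g ^ i • kap) 0 := by
  induction m with
  | zero => simp [B_kap_kap, kap_zero]
  | succ m ih =>
    rw [Finset.sum_range_succ]
    generalize ∑ i ∈ Finset.range (m + 1), g ^ i • kap = y at *
    have h1 : B (g ^ (m + 1) • kap) (g ^ (m + 1) • kap) = -3 := by rw [B_smul, B_kap_kap]
    have h2 : 0 < (g ^ (m + 1) • kap) 0 :=
      future_smul _ (by rw [B_kap_kap]; norm_num) (by rw [kap_zero]; norm_num)
    generalize g ^ (m + 1) • kap = z at *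
    have h3 := B_neg_of_future (x := y) (y := z) ih.1.le (by rw [h1]; norm_num) ih.2 h2
    refine ⟨?_, by rw [Pi.add_apply]; linarith [ih.2]⟩
    rw [B_add_left, B_add_right, B_add_right, B_comm z y]
    linarith [ih.1]

theorem exists_fixed {g : PO} (hg : IsOfFinOrder g) :
    ∃ y : Vec, B y y < 0 ∧ 0 < y 0 ∧ g • y = y := by
  obtain ⟨n, hn, h⟩ := isOfFinOrder_iff_pow_eq_one.mp hg
  obtain ⟨m, rfl⟩ : ∃ m, n = m + 1 := ⟨n - 1, by omega⟩
  refine ⟨_, (sum_future g m).1, (sum_future g m).2, ?_⟩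
  rw [Finset.smul_sum]
  simp only [← mul_smul, ← pow_succ']
  have := Finset.sum_range_succ (fun i => g ^ i • kap) (m + 1)
  rw [Finset.sum_range_succ' (fun i => g ^ i • kap) (m + 1), h, pow_zero] at this
  exact add_right_cancel this

theorem eq_one_of_ker {g : PO} (h1 : g ∈ red.ker) (h2 : g ∈ Gam) (hg : IsOfFinOrder g) : g = 1 := by
  obtain ⟨y, hy, hy0, hfix⟩ := exists_fixed hg
  obtain ⟨n, hn, hnef⟩ := descent hy.le (deg_pos_of_future hy.le hy0)
  have hz : B (n • y) (n • y) < 0 := by rwa [B_smul]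
  have hz0 : 0 < (n • y) 0 := future_smul n hy.le hy0
  have hfix' : (n * g * n⁻¹) • (n • y) = n • y := by
    rw [mul_smul, inv_smul_smul, mul_smul, hfix]
  have hker : n * g * n⁻¹ ∈ red.ker := mul_mem (mul_mem hn h1) (inv_mem hn)
  have hLa : La (n * g * n⁻¹) = 0 := by
    have a := La_mul_ker hn n⁻¹
    rw [mul_inv_cancel, La_one] at a
    rw [La_mul_ker (mul_mem hn h1), La_mul_ker hn, (mem_Gam_of_ker h1).mp h2, add_zero, ← a]
  generalize n • y = z at *
  have key : n * g * n⁻¹ = 1 := by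
    generalize n * g * n⁻¹ = q at *
    have horth : ∀ v ∈ sep q, B v z = 0 := by
      intro v hv
      obtain ⟨a, b, c⟩ := mem_sep.mp hv
      have e1 := nef_root hnef a b
      have e2 := nef_root hnef (v := -(q⁻¹ • v)) (by rw [B_neg_left, B_neg_right, B_smul, a]; rfl)
        (by rw [deg_neg]; linarith)
      rw [B_neg_right, ← B_smul_left', hfix'] at e2
      rw [B_comm]; linarith
    apply eq_one_of_fix _ hker
    apply fix_of_sep_empty
    by_contra hne
    refine sum_col_ne_zero (sep q) (fun v hv => (mem_sep.mp hv).1) ?_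
      (Finset.nonempty_iff_ne_empty.mpr hne) hLa
    intro v hv w hw hvw
    obtain ⟨a, b, _⟩ := mem_sep.mp hv
    obtain ⟨a', b', _⟩ := mem_sep.mp hw
    have p1 : ¬ B (v - w) (v - w) ≤ 0 := fun h => hvw (sub_eq_zero.mp (eq_zero_of_orth hz hz0
      (by rw [B_sub_left, horth v hv, horth w hw]; rfl) h))
    have p2 : ¬ B (v + w) (v + w) ≤ 0 := fun h => by
      have := eq_zero_of_orth hz hz0 (by rw [B_add_left, horth v hv, horth w hw]; rfl) h
      have h3 := congrArg deg this
      rw [deg_add] at h3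
      simp [deg] at h3 b b'
      linarith
    rw [B_sub_left, B_sub_right, B_sub_right, a, a', B_comm w v] at p1
    rw [B_add_left, B_add_right, B_add_right, a, a', B_comm w v] at p2
    omega
  have : g = n⁻¹ * (n * g * n⁻¹) * n := by group
  rw [this, key]; simp

theorem no_involution {h : PO} (h2 : h ∈ Gam) (h4 : red h = red sig ^ 4) (hh : h * h = 1) : False := by
  have e1 : La h 4 = 1 := by rw [La_of_mem h2 h4, La_g1_pow, tau_four]
  have hinv : h⁻¹ = h := inv_eq_of_mul_eq_one_right hh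
  have e2 : La h 4 = 0 := by
    unfold La Lam
    rw [Finset.sum_apply]
    refine Finset.sum_involution (fun v _ => -(h • v)) ?_ ?_ ?_ ?_
    · intro v _
      rw [res_neg, res_smul, h4, red_sig_pow, eta_inv]
      generalize colR (res v) 4 = x
      revert x; decide
    · intro v _ hv e
      apply hv
      apply eta_fix
      rw [← red_sig_pow, ← h4, ← res_smul, ← res_neg, e]
    · intro v hv
      obtain ⟨a, b, c⟩ := mem_sep.mp hv
      rw [hinv] at c
      rw [mem_sep, hinv, B_neg_left, B_neg_right, B_smul, a, smul_neg, ← mul_smul, hh, one_smul,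
        deg_neg, deg_neg]
      exact ⟨rfl, by linarith, by linarith⟩
    · intro v _
      rw [smul_neg, ← mul_smul, hh, one_smul, neg_neg]
  rw [e1] at e2
  exact absurd e2 (by decide)

theorem torsion_free {g : PO} (h2 : g ∈ Gam) (hg : IsOfFinOrder g) : g = 1 := by
  obtain ⟨k, hk, _⟩ := id h2
  have hmod : ∀ a : ℕ, red sig ^ a = red sig ^ (a % 8) := fun a => by
    rw [← orderOf_red_sig, pow_mod_orderOf]
  by_cases h8 : k % 8 = 0
  · apply eq_one_of_ker _ h2 hg
    rw [MonoidHom.mem_ker, hk, hmod, h8, pow_zero]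
  · exfalso
    obtain ⟨j, hj⟩ : ∃ j, (k * j) % 8 = 4 := by
      by_cases a : k % 2 = 1
      · exact ⟨4, by omega⟩
      by_cases b : k % 4 = 2
      · exact ⟨2, by omega⟩
      · exact ⟨1, by omega⟩
    have h4 : red (g ^ j) = red sig ^ 4 := by rw [map_pow, hk, ← pow_mul, hmod, hj]
    apply no_involution (pow_mem h2 j) h4
    apply eq_one_of_ker _ (mul_mem (pow_mem h2 j) (pow_mem h2 j))
    · rw [← pow_add]; exact hg.pow
    · rw [MonoidHom.mem_ker, map_mul, h4, ← pow_add, red_sig_eight]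

theorem orth_of_fix {d : PO} {l : Vec} (hl : IsLine l) (hd : d • l = l) {v : Vec} (hv : v ∈ sep d) :
    B v l = 0 := by
  obtain ⟨a, b, c⟩ := mem_sep.mp hv
  have hd' : d⁻¹ • l = l := inv_smul_eq_iff.mpr hd.symm
  by_contra hne
  have h1 : v ≠ l := fun e => by rw [e, hd', hl.2] at c; linarith
  have h2 : -(d⁻¹ • v) ≠ l := fun e => by
    have : v = -l := by
      rw [← hd, ← e]; simp
    rw [this, deg_neg, hl.2] at b; linarith
  have p1 := deg_rf_pos hl a b h1
  have p2 := deg_rf_pos hl (v := -(d⁻¹ • v)) (by rw [B_neg_left, B_neg_right, B_smul, a]; rfl)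
    (by rw [deg_neg]; linarith) h2
  have e : B (d⁻¹ • v) l = B v l := by rw [B_smul_left', inv_inv, hd]
  rw [rf_smul, deg_sub, deg_smul, hl.2] at p1 p2
  rw [deg_neg, B_neg_left, e] at p2
  have q1 : B (v - B v l • l) (v - B v l • l) ≤ 0 := by
    simp only [B_sub_left, B_sub_right, B_smul_left, B_smul_right, a, hl.1, B_comm l v]
    have : 0 < B v l * B v l := mul_self_pos.mpr hne
    linarith
  have q2 := deg_smul_pos d⁻¹ q1 (by rw [deg_sub, deg_smul, hl.2]; linarith)
  rw [smul_sub, smul_zsmul, hd', deg_sub, deg_smul, hl.2] at q2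
  linarith

theorem om_iter (k : ℕ) (x : V) : om (rho^[k] x) = om x := by
  induction k with
  | zero => rfl
  | succ k ih => rw [Function.iterate_succ_apply', om_rho, ih]

def Kg : Subgroup PO where
  carrier := {g | ∃ k : ℕ, red g = red sig ^ k ∧ om (La g) = 0}
  one_mem' := ⟨0, by simp, by simp [La_one]⟩
  mul_mem' := by
    rintro g h ⟨k, hk, hg⟩ ⟨l, hl, hh⟩
    refine ⟨k + l, by rw [map_mul, hk, hl, pow_add], ?_⟩
    rw [La_mul hk, map_add, om_iter, hg, hh, add_zero]
  inv_mem' := by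
    rintro g ⟨k, hk, hg⟩
    refine ⟨7 * k, red_inv hk, ?_⟩
    have h1 := congrArg om (La_mul hk g⁻¹)
    rwa [mul_inv_cancel, La_one, map_add, om_iter, hg, map_zero, zero_add, eq_comm] at h1

theorem Gam_le_Kg : Gam ≤ Kg := by
  rintro g ⟨k, hk, hg⟩
  refine ⟨k, hk, ?_⟩
  rw [hg, La_g1_pow, map_sum]
  exact Finset.sum_eq_zero fun j _ => by rw [om_iter, om_E0]

def Ob (v : Vec) : Prop := ∃ g ∈ Kg, g • l0 = v

theorem Ob_smul {g : PO} (hg : g ∈ Kg) {v : Vec} : Ob (g • v) ↔ Ob v := by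
  constructor
  · rintro ⟨a, ha, e⟩
    exact ⟨g⁻¹ * a, mul_mem (inv_mem hg) ha, by rw [mul_smul, e, inv_smul_smul]⟩
  · rintro ⟨a, ha, e⟩
    exact ⟨g * a, mul_mem hg ha, by rw [mul_smul, e]⟩

theorem not_Ob_neg : ¬ Ob (-l0) := by
  rintro ⟨g, ⟨k, hk, hg⟩, e⟩
  have hfix : (g * rf l0 isLine_l0.1) • l0 = l0 := by
    rw [mul_smul, rf_self, smul_neg, e, neg_neg]
  have h1 : om (La (g * rf l0 isLine_l0.1)) = 1 := by
    rw [La_mul hk, map_add, om_iter, hg, La_rf isLine_l0, om_l0, zero_add]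
  have h2 : om (La (g * rf l0 isLine_l0.1)) = 0 := by
    unfold La Lam
    rw [map_sum]
    refine Finset.sum_eq_zero fun v hv => om_orth _ ?_
    rw [← B_cast', orth_of_fix isLine_l0 hfix hv]; rfl
  rw [h1] at h2
  exact absurd h2 (by decide)

theorem res_of_Ob {v : Vec} (h : Ob v) : res v = res l0 := by
  obtain ⟨g, ⟨k, hk, _⟩, rfl⟩ := h
  rw [res_smul, hk, red_sig_pow]
  exact Function.iterate_fixed sigR_l0 k

open Classical in
noncomputable def sgn (v : Vec) : ℤ := (if Ob v then 1 else 0) - (if Ob (-v) then 1 else 0)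

theorem sgn_neg (v : Vec) : sgn (-v) = -sgn v := by
  unfold sgn; rw [neg_neg]; ring

theorem sgn_smul {g : PO} (hg : g ∈ Kg) (v : Vec) : sgn (g • v) = sgn v := by
  unfold sgn
  rw [← smul_neg, Ob_smul hg, Ob_smul hg]

theorem Phi_mul {g : PO} (hg : g ∈ Kg) (h : PO) : Lam sgn (g * h) = Lam sgn g + Lam sgn h := by
  rw [Lam_mul _ sgn_neg]
  simp only [sgn_smul hg]

noncomputable def Phi : Gam →* Multiplicative ℤ :=
  MonoidHom.mk' (fun g => Multiplicative.ofAdd (Lam sgn (g : PO))) (fun g h => by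
    rw [← ofAdd_add, ← Phi_mul (Gam_le_Kg g.2)]; rfl)

def g0 : PO := rf l0 isLine_l0.1 * rf (E 4) (isLine_E 4).1

theorem g0_ker : g0 ∈ red.ker := mul_mem (rf_mem_ker _ _) (rf_mem_ker _ _)

theorem g0_Kg : g0 ∈ Kg := by
  refine ⟨0, by simpa using g0_ker, ?_⟩
  unfold g0
  rw [La_mul_ker (rf_mem_ker _ _), La_rf isLine_l0, La_rf (isLine_E 4), map_add, om_l0, om_E4]
  decide

theorem g0_sq_mem : g0 * g0 ∈ Gam := by
  rw [mem_Gam_of_ker (mul_mem g0_ker g0_ker), La_mul_ker g0_ker, V_add_self]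

theorem Phi_g0 : Lam sgn g0 = 1 := by
  unfold g0
  rw [Lam_mul _ sgn_neg, Lam_rf _ isLine_l0, Lam_rf _ (isLine_E 4)]
  have a : Ob l0 := ⟨1, one_mem _, one_smul _ _⟩
  have e : res (rf l0 isLine_l0.1 • E 4) = res (E 4) := mem_ker_red.mp (rf_mem_ker _ _) _
  have b : ¬ Ob (rf l0 isLine_l0.1 • E 4) := fun h => res_E4_ne (e ▸ res_of_Ob h)
  have c : ¬ Ob (-(rf l0 isLine_l0.1 • E 4)) := fun h => res_E4_ne (by
    rw [← e, ← res_neg]; exact res_of_Ob h)
  simp [sgn, a, b, c, not_Ob_neg]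

theorem Phi_ne_one : Phi ⟨g0 * g0, g0_sq_mem⟩ = Multiplicative.ofAdd 2 := by
  show Multiplicative.ofAdd (Lam sgn (g0 * g0)) = _
  rw [Phi_mul g0_Kg, Phi_g0]; rfl

theorem infinite_abelianization {H : Type} [Group H] (f : H →* Multiplicative ℤ) (g : H)
    (hg : f g = Multiplicative.ofAdd 2) : Infinite (Abelianization H) := by
  apply Infinite.of_injective (fun n : ℕ => Abelianization.of g ^ n)
  intro n m h
  have := congrArg (Abelianization.lift f) h
  simp only [map_pow, Abelianization.lift_apply_of, hg, ← ofAdd_nsmul] at this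
  have := Multiplicative.ofAdd.injective this
  simp at this
  exact this

theorem main : ∃ P Γ : Subgroup (GL (Fin 7) ℤ),
    (∀ A : GL (Fin 7) ℤ, A ∈ P ↔ (A : Matrix (Fin 7) (Fin 7) ℤ)ᵀ * J * A = J ∧
      0 < (A : Matrix (Fin 7) (Fin 7) ℤ) 0 0) ∧
    Γ ≤ P ∧ Γ.relIndex P = 414720 ∧ (∀ g ∈ Γ, IsOfFinOrder g → g = 1) ∧
    Infinite (Abelianization Γ) := by
  refine ⟨PO, Gam.map PO.subtype, fun A => Iff.rfl, Subgroup.map_subtype_le _, ?_, ?_, ?_⟩
  · rw [Subgroup.relIndex, Subgroup.subgroupOf,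
      Subgroup.comap_map_eq_self_of_injective PO.subtype_injective, index_Gam]
  · rintro _ ⟨g, hg, rfl⟩ h
    rw [torsion_free hg (PO.subtype_injective.isOfFinOrder_iff.mp h), map_one]
  · let e := Gam.equivMapOfInjective PO.subtype PO.subtype_injective
    exact infinite_abelianization (Phi.comp e.symm.toMonoidHom) (e ⟨g0 * g0, g0_sq_mem⟩)
      (by simp [Phi_ne_one])

end Pool.Agent.MP_3fe7bf_gt

end

-- part MP_3fe7bf_gt.Final
section

/-!
The finite free resolution, the Euler characteristic and the final assembly.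
-/

namespace Pool.Agent.MP_3fe7bf_gt

open Finsupp CategoryTheory

theorem linInd_single {ι κ A : Type} [AddCommGroup A] [Module ℚ A] (f : ι → κ)
    (hf : Function.Injective f) (v : ι → A) (hv : ∀ i, v i ≠ 0) :
    LinearIndependent ℚ (fun i => single (f i) (v i)) := by
  classical
  rw [linearIndependent_iff']
  intro s g h j hj
  have := DFunLike.congr_fun h (f j)
  rw [Finsupp.finsetSum_apply, Finset.sum_eq_single_of_mem j hj (fun i _ hne => by
    rw [Finsupp.smul_apply, single_eq_of_ne (fun e => hne (hf e).symm), smul_zero]),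
    Finsupp.smul_apply, single_eq_same] at this
  exact (smul_eq_zero.mp this).resolve_right (hv j)

abbrev Al (Γ : Subgroup PO) (k : ℕ) : Type := MulAction.orbitRel.Quotient Γ (Cen k)

noncomputable def Cen.T {k : ℕ} (c : Cen k) : Finset Vec := c.2.choose_spec.choose

theorem Cen.spec {k : ℕ} (c : Cen k) : ∃ z, Cube z c.T ∧ c.T.card = k ∧ ctr z c.T = c.1 :=
  ⟨_, c.2.choose_spec.choose_spec⟩

noncomputable def bb (Γ : Subgroup PO) (k : ℕ) (i : Al Γ k) : MM :=
  single (Quotient.out i).1 (omg (Quotient.out i).T.toList)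

noncomputable def rhoG (Γ : Subgroup PO) : Representation ℚ Γ MM := rhoM.comp Γ.subtype

theorem rhoG_bb (Γ : Subgroup PO) (k : ℕ) (i : Al Γ k) (g : Γ) : rhoG Γ g (bb Γ k i) =
    single (g • Quotient.out i).1 (ac g (omg (Quotient.out i).T.toList)) := rhoM_single _ _ _

theorem range_JJ (Γ : Subgroup PO) (k : ℕ) :
    LinearMap.range (JJ (fun _ => rhoG Γ) (Al Γ) (bb Γ) k) = CK k := by
  rw [JJ_range]
  apply le_antisymm
  · rw [Submodule.span_le]
    rintro _ ⟨⟨i, g⟩, rfl⟩
    obtain ⟨z, a, b, c⟩ := (Quotient.out i).spec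
    have := (a.smul g).mem_CK (ac_mem g (om_mem _)) (k := k) (by rw [card_smul, b])
    rw [ctr_smul, c] at this
    show rhoG Γ g (bb Γ k i) ∈ CK k
    rw [rhoG_bb]
    exact this
  · refine CK_ind LinearMap.id _ fun z T x a b hx => ?_
    let c : Cen k := ⟨ctr z T, z, T, a, b, rfl⟩
    let i : Al Γ k := Quotient.mk _ c
    obtain ⟨g, hg⟩ : Quotient.out i ∈ MulAction.orbit Γ c :=
      Quotient.mk_out (s := MulAction.orbitRel Γ (Cen k)) c
    have hg' : g • c = Quotient.out i := hg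
    obtain ⟨z', a', -, c'⟩ := (Quotient.out i).spec
    have h1 := ac_mem g hx
    rw [(a.smul g).Ln_eq a' (by rw [ctr_smul, c', ← hg']; rfl), Ln,
      Submodule.mem_span_singleton] at h1
    obtain ⟨r, hr⟩ := h1
    have h2 : single (ctr z T) x = r • rhoG Γ g⁻¹ (bb Γ k i) := by
      rw [rhoG_bb, smul_single, ← map_smul, hr, ← ac_mul, ← hg', inv_smul_smul]
      simp [ac_one, c]
    rw [LinearMap.id_apply, h2]
    exact Submodule.smul_mem _ _ (Submodule.subset_span ⟨(i, g⁻¹), rfl⟩)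

theorem resData {Γ : Subgroup PO} (hΓ : ∀ g ∈ Γ, IsOfFinOrder g → g = 1) :
    ResData (fun _ => rhoG Γ) (fun _ => Dm) (Al Γ) (bb Γ) epM where
  inj n := JJ_injective n (by
    simp only [rhoG_bb]
    apply linInd_single
    · rintro ⟨i, g⟩ ⟨j, h⟩ e
      have e1 : g • Quotient.out i = h • Quotient.out j := Subtype.ext e
      have e2 : (h⁻¹ * g) • Quotient.out i = Quotient.out j := by rw [mul_smul, e1, inv_smul_smul]
      have e3 : i = j := by
        rw [← i.out_eq, ← j.out_eq]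
        symm
        exact Quotient.sound ⟨_, e2⟩
      subst e3
      rw [(inv_mul_eq_one.mp (free_Cen hΓ _ _ e2))]
    · rintro ⟨i, g⟩ e
      obtain ⟨z, a, -⟩ := (Quotient.out i).spec
      have := congrArg (ac (g : PO)⁻¹) e
      rw [← ac_mul, inv_mul_cancel, ac_one, map_zero] at this
      exact om_ne_zero a this)
  map n x hx := by rw [range_JJ] at *; exact Dm_CK x hx
  equiv n g x hx := by rw [range_JJ] at *; exact Dm_rho g x hx
  sq n x hx := by rw [range_JJ] at *; exact Dm_Dm x hx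
  ex n x hx h := by rw [range_JJ] at *; exact exact_CK hx h
  eps_inv g x _ := epM_rho g x
  eps_sq x hx := by rw [range_JJ] at *; exact epM_Dm x hx
  eps_ex x hx h := by rw [range_JJ] at *; exact exact_CK_zero hx h
  eps_surj := by
    rw [range_JJ]
    refine ⟨_, Cube.mem_CK (z := kap) (T := ∅) (x := 1) ⟨ch_kap, by simp, by simp, by simp⟩
      (by rw [Ln_empty]; exact Submodule.mem_span_singleton_self _) rfl, ?_⟩
    rw [epM_single, map_one]

theorem euler_group {Γ : Subgroup PO} (hΓ : ∀ g ∈ Γ, IsOfFinOrder g → g = 1)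
    (hi : Γ.index = 414720) :
    (∀ n, Module.Finite ℚ (groupHomology (Rep.trivial ℚ Γ ℚ) n)) ∧
    (∀ n, 6 < n → Subsingleton (groupHomology (Rep.trivial ℚ Γ ℚ) n)) ∧
    ∑ n ∈ Finset.range 7, (-1 : ℤ) ^ n * Module.finrank ℚ (groupHomology (Rep.trivial ℚ Γ ℚ) n) = -1 := by
  have he : ∀ n, 6 < n → IsEmpty (Al Γ n) := fun n hn => by
    have := isEmpty_Cen (k := n) hn
    exact ⟨fun q => this.false (Quotient.out q)⟩
  have hc := card_Cen' hΓ hi
  have : ∀ n, Finite (Al Γ n) := fun n => by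
    by_cases hn : 6 < n
    · have := he n hn
      infer_instance
    · apply Nat.finite_of_card_ne_zero
      have := hc ⟨n, by omega⟩
      rw [show Nat.card (Al Γ n) = _ from this]
      generalize (⟨n, _⟩ : Fin 7) = j
      fin_cases j <;> simp
  obtain ⟨h1, h2, h3⟩ := (resData hΓ).euler
  refine ⟨h1, fun n hn => h2 n (he n hn), ?_⟩
  rw [h3 6 (he 7 (by norm_num))]
  have c0 : Nat.card (Al Γ 0) = 8 := hc 0
  have c1 : Nat.card (Al Γ 1) = 108 := hc 1
  have c2 : Nat.card (Al Γ 2) = 432 := hc 2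
  have c3 : Nat.card (Al Γ 3) = 720 := hc 3
  have c4 : Nat.card (Al Γ 4) = 540 := hc 4
  have c5 : Nat.card (Al Γ 5) = 162 := hc 5
  have c6 : Nat.card (Al Γ 6) = 9 := hc 6
  simp only [Finset.sum_range_succ, Finset.sum_range_zero, c0, c1, c2, c3, c4, c5, c6]
  norm_num

theorem orb_iso {Γ : Subgroup PO} (hΓ : ∀ g ∈ Γ, IsOfFinOrder g → g = 1) (k : Type) [CommRing k]
    (n : ℕ) : Nonempty (groupHomology (Rep.trivial k Γ k) n ≅ Hsing k n (Orb (Γ.map toR))) := by
  have : IsCancelSMul Γ H6 := isCancelSMul_iff_eq_one_of_smul_eq.mpr fun g x h =>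
    Subtype.ext (hΓ g g.2 (isOfFinOrder_of_fix h))
  have : ContinuousConstSMul Γ H6 := ⟨fun g => continuous_const_smul (g : PO)⟩
  refine singular_iso_group k (E := H6) (f := Quotient.mk _) ?_ n
  refine isQuotientMap_quotient_mk'.isQuotientCoveringMap_of_properlyDiscontinuousSMul ?_
  intro a b
  refine Quotient.eq.trans ⟨?_, ?_⟩
  · rintro ⟨⟨_, g, hg, rfl⟩, e⟩
    exact ⟨⟨g, hg⟩, e⟩
  · rintro ⟨g, e⟩
    exact ⟨⟨_, g, g.2, rfl⟩, e⟩

theorem final : ∃ Γ : Subgroup Isom6,
    DiscreteTopology Γ ∧ (∀ g ∈ Γ, IsOfFinOrder g → g = 1) ∧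
    (∃ F : Set H6, MeasurableSet F ∧ hvol F < ⊤ ∧ ∀ x : H6, ∃ g ∈ Γ, g • x ∈ F) ∧
    Infinite (Hsing ℤ 1 (Orb Γ)) ∧
    (∀ n, Module.Finite ℚ (Hsing ℚ n (Orb Γ))) ∧
    (∀ n, 6 < n → Subsingleton (Hsing ℚ n (Orb Γ))) ∧
    ∑ n ∈ Finset.range 7, (-1 : ℤ) ^ n * Module.finrank ℚ (Hsing ℚ n (Orb Γ)) = -1 := by
  have hΓ : ∀ g ∈ Gam, IsOfFinOrder g → g = 1 := fun g h1 h2 => torsion_free h1 h2
  obtain ⟨h1, h2, h3⟩ := euler_group hΓ index_Gam
  have e := fun n => (orb_iso hΓ ℚ n).some.toLinearEquiv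
  refine ⟨Gam.map toR, discrete_map _, ?_, finite_covolume _ (by rw [index_Gam]; norm_num), ?_,
    fun n => Module.Finite.equiv (e n), fun n hn => ?_, ?_⟩
  · rintro _ ⟨g, hg, rfl⟩ h
    rw [hΓ g hg (toR_injective.isOfFinOrder_iff.mp h), map_one]
  · have a := infinite_abelianization Phi _ Phi_ne_one
    have b := (groupHomology.H1AddEquivOfIsTrivial (Rep.trivial ℤ Gam ℤ)).toEquiv.trans
      (TensorProduct.rid ℤ (Additive (Abelianization Gam))).toEquiv
    have c : Infinite (groupHomology (Rep.trivial ℤ Gam ℤ) 1) := Infinite.of_surjective b b.surjective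
    exact Infinite.of_injective _ (orb_iso hΓ ℤ 1).some.toLinearEquiv.injective
  · have := h2 n hn
    exact (e n).symm.toEquiv.subsingleton
  · exact (Finset.sum_congr rfl fun n _ => by rw [(e n).finrank_eq]).trans h3

end Pool.Agent.MP_3fe7bf_gt

end
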