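import Pool.Agent.MP_3fe7bf_gt.Mg.Chain

/-!
Coloured simplicial complexes: a simplex has at most one vertex of each colour `t : T`. Augmented
chains, cones and unions.
-/

namespace Pool.Agent.MP_3fe7bf_gt.GB

open Finsupp Function

variable {T J : Type} [Fintype T] [LinearOrder T]

/-- the colours used by a simplex -/
def supp (σ : T → Option J) : Finset T := Finset.univ.filter fun t => (σ t).isSome

/-- the number of vertices -/
def sz (σ : T → Option J) : ℕ := (supp σ).card

/-- the sign of a simplex in Euler characteristic sums -/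
def sgn (σ : T → Option J) : ℤ := (-1) ^ sz σ

/-- the incidence sign -/
def sg (σ : T → Option J) (t : T) : ℚ := (-1) ^ ((supp σ).filter (· < t)).card

/-- the augmented boundary operator -/
noncomputable def bd : ((T → Option J) →₀ ℚ) →ₗ[ℚ] ((T → Option J) →₀ ℚ) :=
  linearCombination ℚ fun σ => ∑ t ∈ supp σ, single (update σ t none) (sg σ t)

theorem nerve_mem {σ : T → Option J} {t : T} : t ∈ supp σ ↔ σ t ≠ none := by
  simp [supp, Option.isSome_iff_ne_none]

theorem nerve_supp_none (σ : T → Option J) (t : T) :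
    supp (update σ t none) = (supp σ).erase t := by
  ext u
  rw [Finset.mem_erase, nerve_mem, nerve_mem]
  by_cases h : u = t
  · simp [h]
  · simp [h]

theorem nerve_supp_some (σ : T → Option J) (t : T) (j : J) :
    supp (update σ t (some j)) = insert t (supp σ) := by
  ext u
  rw [Finset.mem_insert, nerve_mem, nerve_mem]
  by_cases h : u = t
  · simp [h]
  · simp [h]

/-- the sign of an ordered pair of colours -/
def nerveE (t u : T) : ℚ := if t < u then -1 else 1

theorem nerveE_self (t : T) : nerveE t t = 1 := if_neg (lt_irrefl t)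

theorem nerveE_anti {t u : T} (h : t ≠ u) : nerveE t u = -nerveE u t := by
  rcases lt_or_gt_of_ne h with h | h
  · simp [nerveE, h, h.not_gt]
  · simp [nerveE, h, h.not_gt]

theorem nerve_sg_sq (σ : T → Option J) (t : T) : sg σ t * sg σ t = 1 := by
  rw [sg, ← mul_pow]; simp

theorem nerve_sg_none {σ : T → Option J} {t : T} (h : t ∈ supp σ) (u : T) :
    sg (update σ t none) u = sg σ u * nerveE t u := by
  rw [sg, sg, nerve_supp_none, Finset.filter_erase, nerveE]
  split_ifs with h1
  · have h2 : t ∈ (supp σ).filter (· < u) := Finset.mem_filter.2 ⟨h, h1⟩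
    rw [← Finset.card_erase_add_one h2, pow_succ]
    ring
  · have h2 : t ∉ (supp σ).filter (· < u) := fun h2 => h1 (Finset.mem_filter.1 h2).2
    rw [Finset.erase_eq_of_notMem h2, mul_one]

theorem nerve_sg_some {σ : T → Option J} {t : T} (h : σ t = none) (j : J) (u : T) :
    sg (update σ t (some j)) u = sg σ u * nerveE t u := by
  have h1 : t ∈ supp (update σ t (some j)) := by simp [nerve_supp_some]
  have h2 := nerve_sg_none h1 u
  have h6 : update σ t none = σ := by rw [← h, update_eq_self]
  rw [Function.update_idem, h6] at h2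
  rw [h2, mul_assoc, nerveE]
  split_ifs <;> ring

theorem bd_single (σ : T → Option J) (r : ℚ) :
    bd (single σ r) = ∑ t ∈ supp σ, single (update σ t none) (r * sg σ t) := by
  rw [bd, linearCombination_single, Finset.smul_sum]
  exact Finset.sum_congr rfl fun t _ => by rw [smul_single, smul_eq_mul]

theorem sz_update_none {σ : T → Option J} {t : T} (h : t ∈ supp σ) :
    sz (update σ t none) + 1 = sz σ := by
  rw [sz, sz, nerve_supp_none, Finset.card_erase_add_one h]

theorem sz_le (σ : T → Option J) : sz σ ≤ Fintype.card T := by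
  exact Finset.card_le_univ _

theorem sz_eq_zero {σ : T → Option J} : sz σ = 0 ↔ σ = fun _ => none := by
  rw [sz, Finset.card_eq_zero, Finset.eq_empty_iff_forall_notMem, funext_iff]
  simp only [nerve_mem, not_not]

theorem sgn_none : sgn (fun _ => none : T → Option J) = 1 := by
  rw [sgn, sz_eq_zero.2 rfl, pow_zero]

theorem bd_bd (x : (T → Option J) →₀ ℚ) : bd (bd x) = 0 := by
  induction x using Finsupp.induction_linear with
  | zero => simp
  | add f g hf hg => rw [map_add, map_add, hf, hg, add_zero]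
  | single σ r =>
    rw [bd_single, map_sum]
    simp only [bd_single, nerve_supp_none]
    rw [Finset.sum_sigma']
    refine Finset.sum_involution (fun x _ => ⟨x.2, x.1⟩) (fun x hx => ?_) (fun x hx _ e => ?_)
      (fun x hx => ?_) (fun x hx => rfl)
    · obtain ⟨h1, h2⟩ := Finset.mem_sigma.1 hx
      obtain ⟨h3, h4⟩ := Finset.mem_erase.1 h2
      rw [nerve_sg_none h1, nerve_sg_none h4, Function.update_comm h3, ← single_add, nerveE_anti h3]
      exact single_eq_zero.2 (by ring)
    · exact (Finset.mem_erase.1 (Finset.mem_sigma.1 hx).2).1 (congrArg Sigma.fst e)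
    · obtain ⟨h1, h2⟩ := Finset.mem_sigma.1 hx
      obtain ⟨h3, h4⟩ := Finset.mem_erase.1 h2
      exact Finset.mem_sigma.2 ⟨h4, Finset.mem_erase.2 ⟨h3.symm, h1⟩⟩

/-- closed under taking faces -/
def Down (K : Set (T → Option J)) : Prop := ∀ σ ∈ K, ∀ t, update σ t none ∈ K

/-- the augmented chain complex is exact -/
def Exa (K : Set (T → Option J)) : Prop :=
  ∀ x ∈ supported ℚ ℚ K, bd x = 0 → ∃ y ∈ supported ℚ ℚ K, bd y = x

structure Good (K : Set (T → Option J)) : Prop where
  down : Down K
  exa : Exa K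
  sum : K.Finite → ∑ᶠ σ ∈ K, sgn σ = 0

theorem nerve_map_mem {K L : Set (T → Option J)}
    {f : ((T → Option J) →₀ ℚ) →ₗ[ℚ] ((T → Option J) →₀ ℚ)}
    (h : ∀ σ ∈ K, f (single σ 1) ∈ supported ℚ ℚ L) {x : (T → Option J) →₀ ℚ}
    (hx : x ∈ supported ℚ ℚ K) : f x ∈ supported ℚ ℚ L := by
  rw [supported_eq_span_single] at hx
  have : Submodule.span ℚ ((fun i => single i (1 : ℚ)) '' K) ≤ (supported ℚ ℚ L).comap f := by
    rw [Submodule.span_le]
    rintro _ ⟨σ, hσ, rfl⟩
    exact h σ hσ
  exact this hx

theorem nerve_bd_mem {K L : Set (T → Option J)}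
    (h : ∀ σ ∈ K, ∀ t ∈ supp σ, update σ t none ∈ L) {x : (T → Option J) →₀ ℚ}
    (hx : x ∈ supported ℚ ℚ K) : bd x ∈ supported ℚ ℚ L := by
  refine nerve_map_mem (fun σ hσ => ?_) hx
  rw [bd_single]
  exact Submodule.sum_mem _ fun t ht => single_mem_supported _ _ (h σ hσ t ht)

theorem Down.bd_mem {K : Set (T → Option J)} (h : Down K) {x : (T → Option J) →₀ ℚ}
    (hx : x ∈ supported ℚ ℚ K) : bd x ∈ supported ℚ ℚ K := by
  exact nerve_bd_mem (fun σ hσ t _ => h σ hσ t) hx

theorem bd_mem_sz {n : ℕ} {x : (T → Option J) →₀ ℚ} (hx : x ∈ supported ℚ ℚ {σ | sz σ = n + 1}) :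
    bd x ∈ supported ℚ ℚ {σ : T → Option J | sz σ = n} := by
  refine nerve_bd_mem (fun σ hσ t ht => ?_) hx
  have h1 := sz_update_none ht
  have h2 : sz σ = n + 1 := hσ
  change sz _ = n
  omega

theorem nerve_bd_filter (n : ℕ) (y : (T → Option J) →₀ ℚ) :
    bd (y.filter fun σ => sz σ = n + 1) = (bd y).filter fun σ => sz σ = n := by
  induction y using Finsupp.induction_linear with
  | zero => simp [filter_zero]
  | add f g hf hg => rw [filter_add, map_add, map_add, filter_add, hf, hg]
  | single σ r =>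
    rw [bd_single, filter_sum]
    by_cases h : sz σ = n + 1
    · rw [filter_single_of_pos (fun σ => sz σ = n + 1) h, bd_single]
      refine Finset.sum_congr rfl fun t ht => (filter_single_of_pos _ ?_).symm
      have := sz_update_none ht
      omega
    · rw [filter_single_of_neg (fun σ => sz σ = n + 1) h, map_zero]
      refine (Finset.sum_eq_zero fun t ht => filter_single_of_neg _ ?_).symm
      have := sz_update_none ht
      omega

/-- exactness degree by degree -/
theorem Exa.graded {K : Set (T → Option J)} (h : Exa K) {n : ℕ} {x : (T → Option J) →₀ ℚ}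
    (hx : x ∈ supported ℚ ℚ {σ | σ ∈ K ∧ sz σ = n}) (h0 : bd x = 0) :
    ∃ y ∈ supported ℚ ℚ {σ | σ ∈ K ∧ sz σ = n + 1}, bd y = x := by
  obtain ⟨y, hy, e⟩ := h x (supported_mono (fun σ hσ => hσ.1) hx) h0
  refine ⟨y.filter fun σ => sz σ = n + 1, ?_, ?_⟩
  · rw [mem_supported] at hy ⊢
    intro σ hσ
    rw [support_filter, Finset.mem_coe, Finset.mem_filter] at hσ
    exact ⟨hy hσ.1, hσ.2⟩
  · rw [nerve_bd_filter, e, filter_eq_self_iff]
    intro σ hσ
    exact ((mem_supported _ _).1 hx (mem_support_iff.2 hσ)).2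

open Classical in
/-- the cone operator -/
noncomputable def nerveH (t : T) (j : J) :
    ((T → Option J) →₀ ℚ) →ₗ[ℚ] ((T → Option J) →₀ ℚ) :=
  linearCombination ℚ fun σ => if σ t = none then single (update σ t (some j)) (sg σ t) else 0

theorem nerveH_none {σ : T → Option J} {t : T} (h : σ t = none) (j : J) (r : ℚ) :
    nerveH t j (single σ r) = single (update σ t (some j)) (r * sg σ t) := by
  rw [nerveH, linearCombination_single, if_pos h, smul_single, smul_eq_mul]

theorem nerveH_some {σ : T → Option J} {t : T} (h : σ t ≠ none) (j : J) (r : ℚ) :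
    nerveH t j (single σ r) = 0 := by
  rw [nerveH, linearCombination_single, if_neg h, smul_zero]

theorem nerve_homot {σ : T → Option J} {t : T} {j : J} (h : σ t = none ∨ σ t = some j) :
    bd (nerveH t j (single σ 1)) + nerveH t j (bd (single σ 1)) = single σ 1 := by
  rcases h with h | h
  · have h5 : t ∉ supp σ := by simp [nerve_mem, h]
    have h6 : update σ t none = σ := by rw [← h, update_eq_self]
    rw [nerveH_none h, bd_single, bd_single, map_sum, nerve_supp_some, Finset.sum_insert h5,
      Function.update_idem, h6, nerve_sg_some h, nerveE_self, one_mul, mul_one, nerve_sg_sq, add_assoc,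
      ← Finset.sum_add_distrib, Finset.sum_eq_zero, add_zero]
    intro u hu
    have h7 : u ≠ t := fun e => h5 (e ▸ hu)
    rw [nerveH_none (by rw [update_of_ne h7.symm, h]), nerve_sg_some h, nerve_sg_none hu,
      Function.update_comm h7, ← single_add, nerveE_anti h7]
    exact single_eq_zero.2 (by ring)
  · have h5 : σ t ≠ none := by simp [h]
    rw [nerveH_some h5, map_zero, zero_add, bd_single, map_sum,
      Finset.sum_eq_single_of_mem t (nerve_mem.2 h5), nerveH_none (Function.update_self ..), Function.update_idem,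
      nerve_sg_none (nerve_mem.2 h5), nerveE_self, one_mul, mul_one, nerve_sg_sq, ← h,
      update_eq_self]
    intro u _ hu
    exact nerveH_some (by rwa [update_of_ne hu.symm]) _ _

theorem good_cone {K : Set (T → Option J)} (h : Down K) (t : T) (j : J)
    (h1 : ∀ σ ∈ K, σ t = none ∨ σ t = some j) (h2 : ∀ σ ∈ K, update σ t (some j) ∈ K) :
    Good K := by
  classical
  refine ⟨h, fun x hx h0 => ⟨nerveH t j x, nerve_map_mem (fun σ hσ => ?_) hx, ?_⟩, fun hK => ?_⟩
  · by_cases e : σ t = none
    · rw [nerveH_none e]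
      exact single_mem_supported _ _ (h2 σ hσ)
    · rw [nerveH_some e]
      exact Submodule.zero_mem _
  · have h3 : ∀ y ∈ supported ℚ ℚ K, bd (nerveH t j y) + nerveH t j (bd y) = y := fun y hy => by
      rw [supported_eq_span_single] at hy
      induction hy using Submodule.span_induction with
      | mem y hy =>
        obtain ⟨σ, hσ, rfl⟩ := hy
        exact nerve_homot (h1 σ hσ)
      | zero => simp
      | add a b _ _ ha hb =>
        simp only [map_add]
        rw [add_add_add_comm, ha, hb]
      | smul c a _ ha =>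
        simp only [map_smul]
        rw [← smul_add, ha]
    have := h3 x hx
    rwa [h0, map_zero, add_zero] at this
  · rw [finsum_mem_eq_finite_toFinset_sum _ hK]
    have h4 : ∀ σ : T → Option J, σ t = none → sgn (update σ t (some j)) = -sgn σ := fun σ e => by
      have h5 : t ∉ supp σ := by simp [nerve_mem, e]
      rw [sgn, sgn, sz, sz, nerve_supp_some, Finset.card_insert_of_notMem h5, pow_succ]
      ring
    refine Finset.sum_involution
      (fun σ _ => if σ t = none then update σ t (some j) else update σ t none)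
      (fun σ hσ => ?_) (fun σ hσ _ e => ?_) (fun σ hσ => ?_) (fun σ hσ => ?_)
    · split_ifs with e
      · rw [h4 σ e, add_neg_cancel]
      · rw [sgn, sgn, ← sz_update_none (nerve_mem.2 e), pow_succ]
        ring
    · have := congrFun e t
      split_ifs at this with e'
      · simp [e'] at this
      · exact e' (by simpa using this.symm)
    · rw [Set.Finite.mem_toFinset] at hσ ⊢
      split_ifs with e
      · exact h2 σ hσ
      · exact h σ hσ t
    · rw [Set.Finite.mem_toFinset] at hσ
      rcases h1 σ hσ with e | e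
      · simp only [e, if_true, Function.update_self, reduceCtorEq, if_false, Function.update_idem]
        rw [← e, update_eq_self]
      · simp only [e, reduceCtorEq, if_false, Function.update_self, if_true, Function.update_idem]
        rw [← e, update_eq_self]

theorem Good.union {K L : Set (T → Option J)} (hK : Good K) (hL : Good L) (h : Good (K ∩ L)) :
    Good (K ∪ L) := by
  refine ⟨fun σ hσ t => hσ.imp (fun e => hK.down σ e t) fun e => hL.down σ e t,
    fun x hx h0 => ?_, fun hf => ?_⟩
  · rw [supported_union] at hx ⊢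
    obtain ⟨a, ha, b, hb, rfl⟩ := Submodule.mem_sup.1 hx
    have e : bd a = -bd b := by rw [eq_neg_iff_add_eq_zero, ← map_add, h0]
    have hm : bd a ∈ supported ℚ ℚ (K ∩ L) := by
      rw [supported_inter]
      exact ⟨hK.down.bd_mem ha, e ▸ Submodule.neg_mem _ (hL.down.bd_mem hb)⟩
    obtain ⟨z, hz, ez⟩ := h.exa _ hm (bd_bd a)
    rw [supported_inter] at hz
    obtain ⟨y₁, hy₁, e₁⟩ := hK.exa (a - z) (Submodule.sub_mem _ ha hz.1)
      (by rw [map_sub, ez, sub_self])
    obtain ⟨y₂, hy₂, e₂⟩ := hL.exa (b + z) (Submodule.add_mem _ hb hz.2)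
      (by rw [map_add, ez, e, add_neg_cancel])
    refine ⟨y₁ + y₂, Submodule.add_mem_sup hy₁ hy₂, ?_⟩
    rw [map_add, e₁, e₂]
    abel
  · have f1 := hf.subset Set.subset_union_left
    have f2 := hf.subset Set.subset_union_right
    have := finsum_mem_union_inter (f := sgn) f1 f2
    rwa [hK.sum f1, hL.sum f2, h.sum (f1.subset Set.inter_subset_left), add_zero, add_zero] at this

end Pool.Agent.MP_3fe7bf_gt.GB

/-!
A group acting on an acyclic coloured complex whose vertices of each colour form a free orbit: the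
Euler characteristic of the group.
-/

namespace Pool.Agent.MP_3fe7bf_gt.GB

open Finsupp Function

variable {T G : Type} [Fintype T] [LinearOrder T] [Group G]

/-- normalised simplices: the first vertex is the unit -/
def Nrm (σ : T → Option G) : Prop := ∃ t, σ t = some 1 ∧ ∀ s, s < t → σ s = none

theorem smul_simplex (g : G) (σ : T → Option G) (t : T) : (g • σ) t = (σ t).map (g * ·) := rfl

theorem supp_smul (g : G) (σ : T → Option G) : supp (g • σ) = supp σ := by
  unfold supp
  congr 1
  funext t
  rw [smul_simplex, Option.isSome_map]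

theorem sz_smul (g : G) (σ : T → Option G) : sz (g • σ) = sz σ := by
  rw [sz, supp_smul, sz]

theorem sgn_smul (g : G) (σ : T → Option G) : sgn (g • σ) = sgn σ := by
  rw [sgn, sz_smul, sgn]

theorem Nrm.ne_none {σ : T → Option G} (h : Nrm σ) : σ ≠ fun _ => none := by
  obtain ⟨t, ht, -⟩ := h
  intro e
  rw [e] at ht
  cases ht

theorem exists_Nrm {σ : T → Option G} (h : σ ≠ fun _ => none) :
    ∃ g : G, ∃ τ, Nrm τ ∧ σ = g • τ := by
  classical
  have hne : (supp σ).Nonempty := by
    by_contra hc
    apply h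
    funext t
    cases e : σ t with
    | none => rfl
    | some a => exact absurd ⟨t, by simp [supp, e]⟩ hc
  have h1 : (σ ((supp σ).min' hne)).isSome := by
    have := (supp σ).min'_mem hne
    simpa [supp] using this
  obtain ⟨g, hg⟩ := Option.isSome_iff_exists.mp h1
  refine ⟨g, g⁻¹ • σ, ⟨(supp σ).min' hne, ?_, fun s hs => ?_⟩, (smul_inv_smul g σ).symm⟩
  · rw [smul_simplex, hg]
    simp
  · rw [smul_simplex]
    cases e : σ s with
    | none => rfl
    | some a => exact absurd ((supp σ).min'_le s (by simp [supp, e])) (not_le.mpr hs)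

theorem Nrm_unique {τ τ' : T → Option G} (h : Nrm τ) (h' : Nrm τ') {g g' : G}
    (e : g • τ = g' • τ') : g = g' ∧ τ = τ' := by
  obtain ⟨t, ht, hs⟩ := h
  obtain ⟨t', ht', hs'⟩ := h'
  have e1 := congrFun e t
  have e2 := congrFun e t'
  rw [smul_simplex, smul_simplex] at e1 e2
  have : t = t' := by
    rcases lt_trichotomy t t' with l | l | l
    · rw [ht, hs' t l] at e1
      cases e1
    · exact l
    · rw [ht', hs t' l] at e2
      cases e2
  subst this
  rw [ht, ht'] at e1
  have hg : g = g' := by simpa using e1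
  subst hg
  exact ⟨rfl, MulAction.injective g e⟩

theorem finite_smul_mem {τ : T → Option G} (h : Nrm τ) {S : Set (T → Option G)} (hS : S.Finite) :
    {g : G | g • τ ∈ S}.Finite :=
  Set.Finite.preimage (f := fun g : G => g • τ) (fun _ _ _ _ e => (Nrm_unique h h e).1) hS

/-- a signed count of simplices, orbit by orbit -/
theorem sum_orbits {S : Set (T → Option G)} (hS : S.Finite) (R : Finset (T → Option G))
    (hR : ∀ τ ∈ R, Nrm τ) (hc : ∀ σ ∈ S, ∃ g : G, ∃ τ ∈ R, σ = g • τ) :
    ∑ᶠ σ ∈ S, sgn σ = ∑ τ ∈ R, sgn τ * ({g : G | g • τ ∈ S}.ncard : ℤ) := by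
  classical
  rw [finsum_mem_eq_finite_toFinset_sum _ hS]
  have hU : hS.toFinset = R.biUnion fun τ => hS.toFinset.filter fun σ => ∃ g : G, σ = g • τ := by
    ext σ
    simp only [Finset.mem_biUnion, Finset.mem_filter, Set.Finite.mem_toFinset]
    constructor
    · intro h
      obtain ⟨g, τ, hτ, e⟩ := hc σ h
      exact ⟨τ, hτ, h, g, e⟩
    · rintro ⟨τ, -, h, -⟩
      exact h
  rw [hU, Finset.sum_biUnion]
  · refine Finset.sum_congr rfl fun τ hτ => ?_
    have e : ({g : G | g • τ ∈ S}.ncard) =
        (hS.toFinset.filter fun σ => ∃ g : G, σ = g • τ).card := by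
      rw [← Set.ncard_coe_finset]
      rw [← Set.ncard_image_of_injective {g : G | g • τ ∈ S} (f := fun g : G => g • τ)
        (fun _ _ e => (Nrm_unique (hR τ hτ) (hR τ hτ) e).1)]
      congr 1
      ext σ
      simp only [Set.mem_image, Set.mem_ofPred_eq, Finset.coe_filter, Set.Finite.mem_toFinset]
      constructor
      · rintro ⟨g, h, rfl⟩
        exact ⟨h, g, rfl⟩
      · rintro ⟨h, g, rfl⟩
        exact ⟨g, h, rfl⟩
    rw [e, Finset.sum_congr rfl (g := fun _ => sgn τ), Finset.sum_const, nsmul_eq_mul, mul_comm]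
    intro σ hσ
    obtain ⟨g, rfl⟩ := (Finset.mem_filter.mp hσ).2
    exact sgn_smul g τ
  · intro τ hτ τ' hτ' hne
    rw [Function.onFun, Finset.disjoint_left]
    intro σ h1 h2
    obtain ⟨g, rfl⟩ := (Finset.mem_filter.mp h1).2
    obtain ⟨g', e⟩ := (Finset.mem_filter.mp h2).2
    exact hne (Nrm_unique (hR τ hτ) (hR τ' hτ') e).2

/-- the permutation representation on chains -/
noncomputable def resolRho : Representation ℚ G ((T → Option G) →₀ ℚ) where
  toFun g := lmapDomain ℚ ℚ fun σ => g • σ
  map_one' := by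
    refine lhom_ext fun σ r => ?_
    simp
  map_mul' g h := by
    refine lhom_ext fun σ r => ?_
    simp [mul_smul]

theorem resol_rho_single (g : G) (σ : T → Option G) (r : ℚ) :
    resolRho g (single σ r) = single (g • σ) r := mapDomain_single

theorem resol_update (g : G) (σ : T → Option G) (t : T) :
    update (g • σ) t none = g • update σ t none := by
  funext s
  rw [smul_simplex]
  by_cases e : s = t
  · subst e
    simp
  · rw [update_of_ne e, update_of_ne e, smul_simplex]

theorem resol_bd (g : G) (x : (T → Option G) →₀ ℚ) : bd (resolRho g x) = resolRho g (bd x) := by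
  have : bd ∘ₗ resolRho g = resolRho (T := T) g ∘ₗ bd := by
    refine lhom_ext fun σ r => ?_
    rw [LinearMap.comp_apply, LinearMap.comp_apply, resol_rho_single, bd_single, bd_single, map_sum,
      supp_smul]
    refine Finset.sum_congr rfl fun t _ => ?_
    rw [resol_rho_single, resol_update, sg, sg, supp_smul]
  exact LinearMap.congr_fun this x

theorem resol_none (g : G) (x : (T → Option G) →₀ ℚ) :
    resolRho g x (fun _ => none) = x (fun _ => none) := by
  have e : (fun _ => none : T → Option G) = g • (fun _ => none : T → Option G) := rfl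
  conv_lhs => rw [e]
  exact mapDomain_apply (MulAction.injective g) x _

theorem resol_range {K : Set (T → Option G)} (hG : ∀ g : G, ∀ σ ∈ K, g • σ ∈ K)
    (R : Finset (T → Option G)) (hR : ∀ τ, τ ∈ R ↔ τ ∈ K ∧ Nrm τ) (n : ℕ) :
    LinearMap.range (JJ (k := ℚ) (fun _ => resolRho (T := T) (G := G))
      (fun n => {τ // τ ∈ R ∧ sz τ = n + 1}) (fun _ τ => single τ.1 1) n) =
      supported ℚ ℚ {σ | σ ∈ K ∧ sz σ = n + 1} := by
  rw [JJ_range, supported_eq_span_single]
  congr 1
  ext x
  simp only [resol_rho_single, Set.mem_range, Set.mem_image, Set.mem_ofPred_eq]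
  constructor
  · rintro ⟨⟨⟨τ, h1, h2⟩, g⟩, rfl⟩
    exact ⟨g • τ, ⟨hG g τ ((hR τ).mp h1).1, by rw [sz_smul, h2]⟩, rfl⟩
  · rintro ⟨σ, ⟨h1, h2⟩, rfl⟩
    obtain ⟨g, τ, hτ, rfl⟩ := exists_Nrm (σ := σ) (fun e => by
      rw [sz_eq_zero.mpr e] at h2
      omega)
    have h3 := hG g⁻¹ _ h1
    rw [inv_smul_smul] at h3
    exact ⟨⟨⟨τ, (hR τ).mpr ⟨h3, hτ⟩, by rwa [sz_smul] at h2⟩, g⟩, rfl⟩

theorem resol_mem {K : Set (T → Option G)} (hd : Down K) {n : ℕ} {x : (T → Option G) →₀ ℚ}
    (hx : x ∈ supported ℚ ℚ {σ | σ ∈ K ∧ sz σ = n + 1}) :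
    bd x ∈ supported ℚ ℚ {σ | σ ∈ K ∧ sz σ = n} := by
  have h1 := hd.bd_mem (supported_mono (fun σ hσ => hσ.1) hx)
  have h2 := bd_mem_sz (n := n) (supported_mono (fun σ hσ => hσ.2) hx)
  rw [mem_supported] at h1 h2 ⊢
  exact fun σ hσ => ⟨h1 hσ, h2 hσ⟩

theorem resol_data {K : Set (T → Option G)} (hd : Down K) (he : Exa K)
    (h0 : (fun _ => none) ∈ K) (hG : ∀ g : G, ∀ σ ∈ K, g • σ ∈ K)
    (R : Finset (T → Option G)) (hR : ∀ τ, τ ∈ R ↔ τ ∈ K ∧ Nrm τ) :
    ResData (k := ℚ) (fun _ => resolRho (T := T) (G := G)) (fun _ => bd)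
      (fun n => {τ // τ ∈ R ∧ sz τ = n + 1}) (fun _ τ => single τ.1 1)
      (lapply (fun _ => none) ∘ₗ bd) where
  inj n := JJ_injective n (by
    simp only [resol_rho_single]
    refine (linearIndependent_single_one ℚ (T → Option G)).comp
      (fun x : {τ // τ ∈ R ∧ sz τ = n + 1} × G => x.2 • x.1.1) ?_
    rintro ⟨⟨τ, h1⟩, g⟩ ⟨⟨τ', h2⟩, g'⟩ e
    obtain ⟨rfl, rfl⟩ := Nrm_unique ((hR τ).mp h1.1).2 ((hR τ').mp h2.1).2 e
    rfl)
  map n x hx := by
    rw [resol_range hG R hR] at *
    exact resol_mem hd hx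
  equiv n g x _ := resol_bd g x
  sq n x _ := bd_bd x
  ex n x hx h := by
    rw [resol_range hG R hR] at *
    exact he.graded hx h
  eps_inv g x _ := by
    rw [LinearMap.comp_apply, LinearMap.comp_apply, resol_bd]
    exact resol_none g _
  eps_sq x _ := by rw [LinearMap.comp_apply, bd_bd, map_zero]
  eps_ex x hx h := by
    rw [resol_range hG R hR] at *
    refine he.graded hx ?_
    have h1 := resol_mem hd hx
    rw [mem_supported'] at h1
    ext σ
    by_cases e : σ = fun _ => none
    · rw [e]
      exact h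
    · exact h1 σ fun c => e (sz_eq_zero.mp c.2)
  eps_surj := by
    rw [resol_range hG R hR]
    obtain ⟨y, hy, e⟩ := he.graded (n := 0) (x := single (fun _ => none) 1)
      (single_mem_supported ℚ _ ⟨h0, sz_eq_zero.mpr rfl⟩) (by
        rw [bd_single]
        have : supp (fun _ => none : T → Option G) = ∅ := by simp [supp]
        rw [this, Finset.sum_empty])
    refine ⟨y, hy, ?_⟩
    rw [LinearMap.comp_apply, e, lapply_apply, single_eq_same]

theorem euler_nerve {K : Set (T → Option G)} (hd : Down K) (he : Exa K)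
    (h0 : (fun _ => none) ∈ K) (hG : ∀ g : G, ∀ σ ∈ K, g • σ ∈ K)
    (R : Finset (T → Option G)) (hR : ∀ τ, τ ∈ R ↔ τ ∈ K ∧ Nrm τ) :
    (∀ n, Module.Finite ℚ (groupHomology (Rep.trivial ℚ G ℚ) n)) ∧
    (∀ n, Fintype.card T + 1 ≤ n → Subsingleton (groupHomology (Rep.trivial ℚ G ℚ) n)) ∧
    ∑ n ∈ Finset.range (Fintype.card T + 1),
      (-1 : ℤ) ^ n * Module.finrank ℚ (groupHomology (Rep.trivial ℚ G ℚ) n) =
        -∑ τ ∈ R, sgn τ := by
  classical
  have hfin : ∀ n, Finite {τ // τ ∈ R ∧ sz τ = n + 1} := fun n =>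
    Set.Finite.to_subtype (R.finite_toSet.subset fun τ h => h.1)
  have hemp : ∀ n, Fintype.card T ≤ n → IsEmpty {τ // τ ∈ R ∧ sz τ = n + 1} := fun n hn =>
    ⟨fun τ => by
      have h1 := sz_le τ.1
      have h2 := τ.2.2
      omega⟩
  obtain ⟨h1, h2, h3⟩ := (resol_data hd he h0 hG R hR).euler
  refine ⟨h1, fun n hn => h2 n (hemp n (by omega)), ?_⟩
  rw [h3 _ (hemp _ (by omega))]
  have hpos : ∀ τ ∈ R, sz τ ≠ 0 := fun τ hτ e => ((hR τ).mp hτ).2.ne_none (sz_eq_zero.mp e)
  rw [← Finset.sum_fiberwise_of_maps_to (s := R) (t := Finset.range (Fintype.card T + 1))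
    (g := fun τ => sz τ - 1) (fun τ _ => by
      have := sz_le τ
      rw [Finset.mem_range]
      omega), ← Finset.sum_neg_distrib]
  refine Finset.sum_congr rfl fun n _ => ?_
  have e : R.filter (fun τ => sz τ - 1 = n) = R.filter (fun τ => sz τ = n + 1) :=
    Finset.filter_congr fun τ hτ => by
      have := hpos τ hτ
      omega
  have c : Nat.card {τ // τ ∈ R ∧ sz τ = n + 1} = (R.filter fun τ => sz τ = n + 1).card := by
    exact Nat.subtype_card _ fun τ => Finset.mem_filter
  rw [e, c, Finset.sum_congr rfl (g := fun _ => (-1 : ℤ) ^ (n + 1)), Finset.sum_const, nsmul_eq_mul]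
  · ring
  · intro τ hτ
    rw [sgn, (Finset.mem_filter.mp hτ).2]

end Pool.Agent.MP_3fe7bf_gt.GB
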