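import Pool.Agent.MP_3fe7bf_gt.Mg.GB_Vol
import Pool.Agent.MP_3fe7bf_gt.Mg.GB_Comb
import Pool.Agent.MP_3fe7bf_gt.Stmt

-- part MP_3fe7bf_gt.GB.Chi
section

/-!
The nerve lemma for convex sets.
-/

namespace Pool.Agent.MP_3fe7bf_gt.GB

variable {T J : Type}

/-- the intersection of the sets of a simplex -/
def st (U : T → J → Set H6) (σ : T → Option J) : Set H6 := {x | ∀ t j, σ t = some j → x ∈ U t j}

/-- the nerve of the family restricted to `V` -/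
def Nv (U : T → J → Set H6) (V : Set H6) : Set (T → Option J) := {σ | (st U σ ∩ V).Nonempty}

theorem hc_st {U : T → J → Set H6} (hU : ∀ t j, HC (U t j)) (σ : T → Option J) : HC (st U σ) :=
  fun x hx y hy z a b ha hb e t j h => hU t j x (hx t j h) y (hy t j h) z a b ha hb e

theorem isOpen_st [Finite T] {U : T → J → Set H6} (hU : ∀ t j, IsOpen (U t j))
    (σ : T → Option J) : IsOpen (st U σ) := by
  have e : st U σ = ⋂ t, {x | ∀ j, σ t = some j → x ∈ U t j} := by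
    ext x
    simp [st]
  rw [e]
  refine isOpen_iInter_of_finite fun t => ?_
  rcases h : σ t with _ | j
  · simp
  · simpa using hU t j

theorem Nv_mono (U : T → J → Set H6) {V V' : Set H6} (h : V ⊆ V') : Nv U V ⊆ Nv U V' :=
  fun _ ⟨x, hx⟩ => ⟨x, hx.1, h hx.2⟩

theorem none_mem_Nv (U : T → J → Set H6) {V : Set H6} (h : V.Nonempty) :
    (fun _ => none) ∈ Nv U V := by
  obtain ⟨x, hx⟩ := h
  exact ⟨x, fun _ _ e => by simp at e, hx⟩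

/-- Klein coordinates -/
noncomputable def nvlem_kap (x : H6) : Fin 6 → ℝ := fun k => x.val k.succ / x.val 0

theorem nvlem_cont : Continuous nvlem_kap := by
  refine continuous_pi fun k => ?_
  exact ((continuous_apply k.succ).comp continuous_subtype_val).div
    ((continuous_apply 0).comp continuous_subtype_val) fun x => x.2.2.ne'

theorem nvlem_inj : Function.Injective nvlem_kap := by
  intro x y h
  have hx := x.2.2
  have hy := y.2.2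
  have e : y.val = (y.val 0 / x.val 0) • x.val := by
    funext i
    refine Fin.cases ?_ (fun k => ?_) i
    · simp only [Pi.smul_apply, smul_eq_mul]
      field_simp
    · have h1 : x.val k.succ / x.val 0 = y.val k.succ / y.val 0 := congrFun h k
      simp only [Pi.smul_apply, smul_eq_mul]
      field_simp at h1 ⊢
      linarith
  have h2 := y.2.1
  rw [e, lor_smul_left, lor_smul_right, x.2.1] at h2
  have h3 : 0 < y.val 0 / x.val 0 := div_pos hy hx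
  have h4 : y.val 0 / x.val 0 = 1 := by nlinarith
  rw [h4, one_smul] at e
  exact Subtype.ext e.symm

theorem nvlem_abs_le (x : H6) (k : Fin 6) : |nvlem_kap x k| ≤ 1 := by
  have hx := x.2.2
  have h := x.2.1
  rw [lor_eq] at h
  rw [nvlem_kap, abs_div, abs_of_pos hx, div_le_one hx, ← abs_of_pos hx, ← sq_le_sq]
  fin_cases k <;> simp <;> nlinarith [sq_nonneg (x.val 1), sq_nonneg (x.val 2), sq_nonneg (x.val 3),
    sq_nonneg (x.val 4), sq_nonneg (x.val 5), sq_nonneg (x.val 6)]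

/-- a Lebesgue number in Klein coordinates -/
theorem lebesgue_klein {I : Type} (O : I → Set H6) (R : ℝ)
    (hO : ∀ x : H6, dl o x ≤ R → ∃ i, O i ∈ nhds x) :
    ∃ δ > 0, ∀ x : H6, dl o x ≤ R → ∃ i, ∀ y : H6, dl o y ≤ R →
      (∀ k : Fin 6, |y.val k.succ / y.val 0 - x.val k.succ / x.val 0| ≤ δ) → y ∈ O i := by
  have hK := isCompact_ball o R
  set K : Set H6 := {x | dl o x ≤ R} with hKd
  have hop : ∀ i, IsOpen (nvlem_kap '' (K \ interior (O i)))ᶜ := fun i =>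
    ((hK.diff isOpen_interior).image nvlem_cont).isClosed.isOpen_compl
  have hcov : nvlem_kap '' K ⊆ ⋃ i, (nvlem_kap '' (K \ interior (O i)))ᶜ := by
    rintro _ ⟨x, hx, rfl⟩
    obtain ⟨i, hi⟩ := hO x hx
    refine Set.mem_iUnion.2 ⟨i, ?_⟩
    rintro ⟨y, hy, e⟩
    obtain rfl := nvlem_inj e
    exact hy.2 (mem_interior_iff_mem_nhds.2 hi)
  obtain ⟨δ, hδ, h⟩ := lebesgue_number_lemma_of_metric (hK.image nvlem_cont) hop hcov
  refine ⟨δ / 2, by linarith, fun x hx => ?_⟩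
  obtain ⟨i, hi⟩ := h _ ⟨x, hx, rfl⟩
  refine ⟨i, fun y hy hk => ?_⟩
  have hb : nvlem_kap y ∈ Metric.ball (nvlem_kap x) δ := by
    rw [Metric.mem_ball, dist_pi_lt_iff hδ]
    intro k
    rw [Real.dist_eq]
    exact (hk k).trans_lt (by linarith)
  by_contra hn
  exact hi hb ⟨y, ⟨hy, fun hh => hn (interior_subset hh)⟩, rfl⟩

variable [Fintype T] [LinearOrder T]

theorem down_Nv (U : T → J → Set H6) (V : Set H6) : Down (Nv U V) := by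
  rintro σ ⟨x, hx, hV⟩ t
  refine ⟨x, fun s j e => ?_, hV⟩
  by_cases h : s = t
  · subst h
    simp at e
  · rw [Function.update_of_ne h] at e
    exact hx s j e

theorem nvlem_cone {U : T → J → Set H6}
    (hd : ∀ t j j' x, x ∈ U t j → x ∈ U t j' → j = j') {V : Set H6} {t : T} {j : J}
    (h : V ⊆ U t j) : Good (Nv U V) := by
  refine good_cone (down_Nv U V) t j ?_ ?_
  · rintro σ ⟨x, hx, hV⟩
    rcases e : σ t with _ | j'
    · exact Or.inl rfl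
    · exact Or.inr (by rw [hd t j' j x (hx t j' e) (h hV)])
  · rintro σ ⟨x, hx, hV⟩
    refine ⟨x, fun s j' e => ?_, hV⟩
    by_cases hs : s = t
    · subst hs
      rw [Function.update_self] at e
      obtain rfl := Option.some.inj e
      exact h hV
    · rw [Function.update_of_ne hs] at e
      exact hx s j' e

theorem nvlem_split {U : T → J → Set H6} (hU : ∀ t j, HC (U t j)) {V : Set H6} (hV : HC V)
    (l : V7 →ₗ[ℝ] ℝ) (h1 : Good (Nv U (V ∩ {y | l y.val ≤ 0})))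
    (h2 : Good (Nv U (V ∩ {y | (-l) y.val ≤ 0}))) (h3 : Good (Nv U (V ∩ {y | l y.val = 0}))) :
    Good (Nv U V) := by
  have e1 : Nv U V = Nv U (V ∩ {y | l y.val ≤ 0}) ∪ Nv U (V ∩ {y | (-l) y.val ≤ 0}) := by
    refine Set.Subset.antisymm ?_ (Set.union_subset (Nv_mono U Set.inter_subset_left)
      (Nv_mono U Set.inter_subset_left))
    rintro σ ⟨x, hx, hV⟩
    rcases le_total (l x.val) 0 with h | h
    · exact Or.inl ⟨x, hx, hV, h⟩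
    · exact Or.inr ⟨x, hx, hV, by simpa using h⟩
  have e2 : Nv U (V ∩ {y | l y.val ≤ 0}) ∩ Nv U (V ∩ {y | (-l) y.val ≤ 0}) =
      Nv U (V ∩ {y | l y.val = 0}) := by
    refine Set.Subset.antisymm ?_ (Set.subset_inter (Nv_mono U fun y hy => ⟨hy.1, hy.2.le⟩)
      (Nv_mono U fun y hy => ⟨hy.1, by simpa using hy.2.ge⟩))
    rintro σ ⟨⟨x, hx, hxV, hx0⟩, ⟨y, hy, hyV, hy0⟩⟩
    obtain ⟨z, hz, hz0⟩ := ((hc_st hU σ).inter hV).ivt l ⟨hx, hxV⟩ ⟨hy, hyV⟩ hx0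
      (by simpa using hy0)
    exact ⟨z, hz.1, hz.2, hz0⟩
  rw [e1]
  exact h1.union h2 (e2 ▸ h3)

theorem nerve_good {U : T → J → Set H6} (hU : ∀ t j, HC (U t j))
    (hd : ∀ t j j' x, x ∈ U t j → x ∈ U t j' → j = j') {V : Set H6} (hV : HC V) (hb : Bdd V)
    (hc : ∀ x : H6, ∃ t j, ∃ O ∈ nhds x, O ∩ V ⊆ U t j) : Good (Nv U V) := by
  obtain ⟨R, hR⟩ := hb
  choose t j O hO hOU using hc
  obtain ⟨δ, hδ, hL⟩ := lebesgue_klein O R fun x _ => ⟨x, hO x⟩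
  have key : ∀ N : ℕ, ∀ (n : Fin 6 → ℕ) (a : Fin 6 → ℝ) (W : Set H6), ∑ k, n k < N → HC W →
      W ⊆ V → (∀ y ∈ W, ∀ k, a k ≤ nvlem_kap y k ∧ nvlem_kap y k ≤ a k + n k * δ) →
      Good (Nv U W) := by
    intro N
    induction N with
    | zero => intro n a W h; exact absurd h (Nat.not_lt_zero _)
    | succ N ih =>
      intro n a W hN hW hWV hbox
      by_cases hn : ∀ k, n k ≤ 1
      · rcases W.eq_empty_or_nonempty with rfl | ⟨x, hx⟩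
        · exact nvlem_cone hd (t := t o) (j := j o) (Set.empty_subset _)
        · obtain ⟨i, hi⟩ := hL x (hR x (hWV hx))
          refine nvlem_cone hd (t := t i) (j := j i) fun y hy => hOU i ⟨?_, hWV hy⟩
          refine hi y (hR y (hWV hy)) fun k => ?_
          have h1 := hbox x hx k
          have h2 := hbox y hy k
          have h3 : (n k : ℝ) * δ ≤ δ := by
            have : (n k : ℝ) ≤ 1 := by exact_mod_cast hn k
            nlinarith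
          change |nvlem_kap y k - nvlem_kap x k| ≤ δ
          rw [abs_le]
          constructor <;> linarith [h1.1, h1.2, h2.1, h2.2]
      · push Not at hn
        obtain ⟨k, hk⟩ := hn
        let l : V7 →ₗ[ℝ] ℝ := LinearMap.proj k.succ - (a k + δ) • LinearMap.proj 0
        have hl : ∀ y : H6, l y.val = (nvlem_kap y k - (a k + δ)) * y.val 0 := by
          intro y
          have := y.2.2.ne'
          simp only [l, nvlem_kap, LinearMap.sub_apply, LinearMap.smul_apply, LinearMap.proj_apply,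
            smul_eq_mul]
          field_simp
        have hs : ∀ m, m < n k → ∑ i, Function.update n k m i < N := by
          intro m hm
          refine lt_of_lt_of_le (Finset.sum_lt_sum (g := n) (fun i _ => ?_)
            ⟨k, Finset.mem_univ _, by simpa using hm⟩) (by omega)
          by_cases hi : i = k
          · subst hi
            simpa using hm.le
          · rw [Function.update_of_ne hi]
        have hlo : ∀ y ∈ W, l y.val ≤ 0 → ∀ i, a i ≤ nvlem_kap y i ∧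
            nvlem_kap y i ≤ a i + (Function.update n k 1 i : ℕ) * δ := by
          intro y hy h0 i
          refine ⟨(hbox y hy i).1, ?_⟩
          by_cases hi : i = k
          · subst hi
            rw [hl] at h0
            have := nonpos_of_mul_nonpos_left h0 y.2.2
            simp only [Function.update_self, Nat.cast_one, one_mul]
            linarith
          · rw [Function.update_of_ne hi]
            exact (hbox y hy i).2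
        refine nvlem_split hU hW l ?_ ?_ ?_
        · exact ih _ a _ (hs 1 hk) (hW.inter (hc_le l)) (Set.inter_subset_left.trans hWV)
            fun y hy => hlo y hy.1 hy.2
        · refine ih _ (Function.update a k (a k + δ)) _ (hs (n k - 1) (by omega))
            (hW.inter (hc_le (-l))) (Set.inter_subset_left.trans hWV) fun y hy i => ?_
          by_cases hi : i = k
          · subst hi
            have h0 : 0 ≤ l y.val := by simpa using hy.2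
            rw [hl] at h0
            have h1 := nonneg_of_mul_nonneg_left h0 y.2.2
            have h2 := (hbox y hy.1 i).2
            simp only [Function.update_self]
            rw [Nat.cast_sub hk.le]
            constructor
            · linarith
            · push_cast
              linarith
          · rw [Function.update_of_ne hi, Function.update_of_ne hi]
            exact hbox y hy.1 i
        · exact ih _ a _ (hs 1 hk) (hW.inter (hc_eq l)) (Set.inter_subset_left.trans hWV)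
            fun y hy => hlo y hy.1 (le_of_eq hy.2)
  refine key _ (fun _ => ⌈2 / δ⌉₊) (fun _ => -1) V (Nat.lt_succ_self _) hV subset_rfl
    fun y _ k => ?_
  have h1 := abs_le.1 (nvlem_abs_le y k)
  have h2 : 2 ≤ (⌈2 / δ⌉₊ : ℝ) * δ := by
    rw [← div_le_iff₀ hδ]
    exact Nat.le_ceil _
  exact ⟨h1.1, by linarith [h1.2]⟩

theorem nerve_exa {U : T → J → Set H6} (hU : ∀ t j, HC (U t j))
    (hd : ∀ t j j' x, x ∈ U t j → x ∈ U t j' → j = j')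
    (hc : ∀ x : H6, ∃ t j, U t j ∈ nhds x) : Exa (Nv U Set.univ) := by
  intro x hx h0
  rw [Finsupp.mem_supported] at hx
  have hp : ∀ σ : T → Option J, ∃ p : H6, σ ∈ x.support → p ∈ st U σ := by
    intro σ
    by_cases h : σ ∈ x.support
    · obtain ⟨p, hp, -⟩ := hx h
      exact ⟨p, fun _ => hp⟩
    · exact ⟨o, fun h' => absurd h' h⟩
  choose p hp using hp
  obtain ⟨R, hR⟩ := (x.support.finite_toSet.image fun σ => dl o (p σ)).bddAbove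
  have hG : Good (Nv U {y | dl o y ≤ R}) :=
    nerve_good hU hd (hc_cball o R) ⟨R, fun _ h => h⟩ fun y => by
      obtain ⟨t, j, h⟩ := hc y
      exact ⟨t, j, U t j, h, Set.inter_subset_left⟩
  obtain ⟨y, hy, e⟩ := hG.exa x (by
    rw [Finsupp.mem_supported]
    intro σ hσ
    exact ⟨p σ, hp σ hσ, hR ⟨σ, hσ, rfl⟩⟩) h0
  exact ⟨y, Finsupp.supported_mono (Nv_mono U (Set.subset_univ _)) hy, e⟩

end Pool.Agent.MP_3fe7bf_gt.GB

/-!
The nerve of a cover by balls and prisms computes the Euler characteristic.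
-/

namespace Pool.Agent.MP_3fe7bf_gt.GB

variable {Γ : Subgroup Isom6} {D : TT Γ} {M : ℝ} (C : Cov D M)

/-- the translates of the sets of the cover -/
def Cov.U (t : Fin C.m) (γ : Γ) : Set H6 := {x | (γ : Isom6)⁻¹ • x ∈ C.W t}

/-- simplices with a vertex that is a ball -/
def Cov.IsF (σ : Fin C.m → Option Γ) : Prop := ∃ t, C.kind t = none ∧ σ t ≠ none

theorem Cov.hc_U (t : Fin C.m) (γ : Γ) : HC (C.U t γ) := (C.hc t).preimage _

theorem Cov.isOpen_U (t : Fin C.m) (γ : Γ) : IsOpen (C.U t γ) :=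
  (C.op t).preimage (continuous_const_smul (γ : Isom6)⁻¹)

theorem Cov.U_disj (t : Fin C.m) (γ γ' : Γ) (x : H6) (h : x ∈ C.U t γ) (h' : x ∈ C.U t γ') :
    γ = γ' := by
  have h1 : (γ' : Isom6)⁻¹ * γ = 1 := by
    refine C.emb t _ (Γ.mul_mem (Γ.inv_mem γ'.2) γ.2) _ h ?_
    rw [mul_smul, smul_inv_smul]
    exact h'
  exact Subtype.ext (inv_mul_eq_one.mp h1).symm

theorem Cov.U_cover (x : H6) : ∃ t γ, C.U t γ ∈ nhds x := by
  obtain ⟨t, γ, hγ, h⟩ := C.cov x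
  refine ⟨t, ⟨γ⁻¹, Γ.inv_mem hγ⟩, (C.isOpen_U t _).mem_nhds ?_⟩
  show γ⁻¹⁻¹ • x ∈ C.W t
  rwa [inv_inv]

theorem Cov.U_sub {t : Fin C.m} {i : Fin D.n} (h : C.kind t = some i) (γ : Γ) :
    C.U t γ ⊆ Hb ((γ : Isom6) • D.c i • z0) M := by
  intro x hx
  obtain ⟨a, ha⟩ := C.sub t i h
  have h1 := (ha ((D.c i)⁻¹ • (γ : Isom6)⁻¹ • x) (by rw [smul_inv_smul]; exact hx)).1
  have h2 := (smul_mem_Hb (γ : Isom6)).2 ((mem_Hb_chart (D.c i)).2 h1)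
  rwa [smul_inv_smul, smul_inv_smul] at h2

theorem Cov.lf (t : Fin C.m) {V : Set H6} (hV : Bdd V) :
    {γ : Γ | (C.U t γ ∩ V).Nonempty}.Finite := by
  obtain ⟨R, hR⟩ := hV
  rcases h : C.kind t with _ | i
  · obtain ⟨R', hR'⟩ := C.bdd t h
    refine ((C.nice.fin_ball (max R R')).preimage Subtype.val_injective.injOn).subset ?_
    rintro γ ⟨x, hx, hxV⟩
    refine ⟨γ.2, (γ : Isom6)⁻¹ • x, (hR' _ hx).trans (le_max_right _ _), ?_⟩
    rw [smul_inv_smul]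
    exact (hR x hxV).trans (le_max_left _ _)
  · obtain ⟨a, ha⟩ := C.sub t i h
    have hM : 0 < M := lt_of_lt_of_le one_pos C.one_le
    refine ((D.fin_deep C.nice i R a hM).preimage Subtype.val_injective.injOn).subset ?_
    rintro γ ⟨x, hx, hxV⟩
    have h1 := ha ((D.c i)⁻¹ • (γ : Isom6)⁻¹ • x) (by rw [smul_inv_smul]; exact hx)
    refine ⟨γ.2, _, h1.1, h1.2, ?_⟩
    rw [smul_inv_smul, smul_inv_smul]
    exact hR x hxV

theorem Cov.pair (s t : Fin C.m) : {γ : Γ | (C.U t γ ∩ C.U s 1).Nonempty}.Finite := by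
  rcases hs : C.kind s with _ | j
  · exact C.lf t ((C.bdd s hs).preimage _)
  rcases ht : C.kind t with _ | i
  · have h1 := C.lf s (V := C.U t 1) ((C.bdd t ht).preimage _)
    refine (h1.preimage (f := fun γ : Γ => γ⁻¹) inv_injective.injOn).subset ?_
    rintro γ ⟨x, hx, hx'⟩
    refine ⟨(γ : Isom6)⁻¹ • x, ?_, ?_⟩
    · show ((γ⁻¹ : Γ) : Isom6)⁻¹ • (γ : Isom6)⁻¹ • x ∈ C.W s
      have h2 : ((1 : Γ) : Isom6)⁻¹ • x ∈ C.W s := hx'
      rw [Subgroup.coe_inv, inv_inv, smul_inv_smul]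
      rwa [Subgroup.coe_one, inv_one, one_smul] at h2
    · show ((1 : Γ) : Isom6)⁻¹ • (γ : Isom6)⁻¹ • x ∈ C.W t
      rw [Subgroup.coe_one, inv_one, one_smul]
      exact hx
  obtain ⟨a, ha⟩ := C.sub t i ht
  obtain ⟨b, hb⟩ := C.sub s j hs
  have hi : Function.Injective fun γ : Γ => (D.c i)⁻¹ * (γ : Isom6) * D.c i := fun p q e =>
    Subtype.ext (by simpa using e)
  refine (((D.cryst C.nice i).fin_uu (b + a)).preimage hi.injOn).subset ?_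
  rintro γ ⟨x, hx, hx'⟩
  have h1 := Hb_mono (D.mem_LC (D.c_mem_HV i γ.2)) C.one_le (C.U_sub ht γ hx)
  have h2 := Hb_mono (D.mem_LC (D.c_mem_HV j (1 : Γ).2)) C.one_le (C.U_sub hs 1 hx')
  rw [Subgroup.coe_one, one_smul] at h2
  obtain ⟨rfl, h3⟩ := D.disj i j γ γ.2 x h1 h2
  have h4 := conj_mem_Pc γ.2 h3
  refine ⟨h4, (norm_uu_smul_o_le h4.1 ((D.c i)⁻¹ • (γ : Isom6)⁻¹ • x)).trans (add_le_add ?_ ?_)⟩
  · refine (hb _ ?_).2
    have h5 : ((1 : Γ) : Isom6)⁻¹ • x ∈ C.W s := hx'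
    rw [Subgroup.coe_one, inv_one, one_smul] at h5
    rwa [mul_smul, mul_smul, smul_inv_smul, smul_inv_smul, smul_inv_smul]
  · exact (ha _ (by rw [smul_inv_smul]; exact hx)).2

theorem Cov.smul_mem_st (γ : Γ) (σ : Fin C.m → Option Γ) (x : H6) :
    (γ : Isom6) • x ∈ st C.U (γ • σ) ↔ x ∈ st C.U σ := by
  have key : ∀ t (j : Γ), (γ : Isom6) • x ∈ C.U t (γ * j) ↔ x ∈ C.U t j := by
    intro t j
    show ((γ * j : Γ) : Isom6)⁻¹ • (γ : Isom6) • x ∈ C.W t ↔ (j : Isom6)⁻¹ • x ∈ C.W t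
    rw [Subgroup.coe_mul, mul_inv_rev, mul_smul, inv_smul_smul]
  constructor
  · intro h t j e
    refine (key t j).1 (h t _ ?_)
    rw [smul_simplex, e, Option.map_some]
  · intro h t j e
    rw [smul_simplex, Option.map_eq_some_iff] at e
    obtain ⟨k, hk, rfl⟩ := e
    exact (key t k).2 (h t k hk)

theorem Cov.smul_mem_Nv (γ : Γ) (σ : Fin C.m → Option Γ) (V : Set H6) :
    γ • σ ∈ Nv C.U V ↔ ∃ y ∈ st C.U σ, (γ : Isom6) • y ∈ V := by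
  constructor
  · rintro ⟨x, hx, hV⟩
    refine ⟨(γ : Isom6)⁻¹ • x, (C.smul_mem_st γ σ _).1 ?_, ?_⟩
    · rwa [smul_inv_smul]
    · rwa [smul_inv_smul]
  · rintro ⟨y, hy, hV⟩
    exact ⟨_, (C.smul_mem_st γ σ y).2 hy, hV⟩

theorem Cov.isF_smul (γ : Γ) (σ : Fin C.m → Option Γ) : C.IsF (γ • σ) ↔ C.IsF σ := by
  refine exists_congr fun t => and_congr_right fun _ => not_congr ?_
  rw [smul_simplex, Option.map_eq_none_iff]

theorem Cov.bdd_st {σ : Fin C.m → Option Γ} (h : C.IsF σ) : Bdd (st C.U σ) := by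
  obtain ⟨t, ht, h1⟩ := h
  obtain ⟨j, hj⟩ := Option.ne_none_iff_exists'.mp h1
  exact Bdd.mono (B := C.U t j) ((C.bdd t ht).preimage _) fun x hx => hx t j hj

theorem Cov.fin_Nv {V : Set H6} (hV : Bdd V) : (Nv C.U V).Finite := by
  refine (Set.Finite.pi (t := fun t => insert none (some '' {γ : Γ | (C.U t γ ∩ V).Nonempty}))
    fun t => ((C.lf t hV).image _).insert _).subset ?_
  rintro σ ⟨x, hx, hxV⟩ t -
  rcases e : σ t with _ | j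
  · exact Set.mem_insert _ _
  · exact Set.mem_insert_of_mem _ ⟨j, ⟨x, hx t j e, hxV⟩, rfl⟩

theorem Cov.fin_nrm : {τ | τ ∈ Nv C.U Set.univ ∧ Nrm τ}.Finite := by
  refine (Set.finite_iUnion fun s : Fin C.m => Set.Finite.pi
    (t := fun t => insert none (some '' {γ : Γ | (C.U t γ ∩ C.U s 1).Nonempty}))
    fun t => ((C.pair s t).image _).insert _).subset ?_
  rintro σ ⟨⟨x, hx, -⟩, s, hs, -⟩
  refine Set.mem_iUnion.2 ⟨s, fun t _ => ?_⟩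
  rcases e : σ t with _ | j
  · exact Set.mem_insert _ _
  · exact Set.mem_insert_of_mem _ ⟨j, ⟨x, hx t j e, hx s 1 hs⟩, rfl⟩

open Classical in
/-- orbit representatives of the simplices with a ball -/
noncomputable def Cov.FN : Finset (Fin C.m → Option Γ) := C.fin_nrm.toFinset.filter C.IsF

open Classical in
/-- orbit representatives of the simplices made of prisms -/
noncomputable def Cov.PN : Finset (Fin C.m → Option Γ) :=
  C.fin_nrm.toFinset.filter fun τ => ¬C.IsF τ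

theorem Cov.mem_FN {τ : Fin C.m → Option Γ} :
    τ ∈ C.FN ↔ ((st C.U τ).Nonempty ∧ Nrm τ) ∧ C.IsF τ := by
  simp [Cov.FN, Nv]

theorem Cov.mem_PN {τ : Fin C.m → Option Γ} :
    τ ∈ C.PN ↔ ((st C.U τ).Nonempty ∧ Nrm τ) ∧ ¬C.IsF τ := by
  simp [Cov.PN, Nv]

theorem Cov.chi : HasChi (Orb Γ) (-(∑ τ ∈ C.FN, sgn τ + ∑ τ ∈ C.PN, sgn τ)) := by
  classical
  obtain ⟨h1, h2, h3⟩ := euler_nerve (K := Nv C.U Set.univ) (down_Nv _ _)
    (nerve_exa C.hc_U C.U_disj C.U_cover) (none_mem_Nv _ ⟨o, trivial⟩)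
    (fun g σ hσ => by
      obtain ⟨x, hx, -⟩ := hσ
      exact (C.smul_mem_Nv g σ _).2 ⟨x, hx, trivial⟩)
    C.fin_nrm.toFinset (fun τ => C.fin_nrm.mem_toFinset)
  have e := fun n => (C.nice.orb_iso ℚ n).some.toLinearEquiv
  refine ⟨fun n => Module.Finite.equiv (e n), Fintype.card (Fin C.m) + 1, fun n hn => ?_, ?_⟩
  · have := h2 n hn
    exact (e n).symm.toEquiv.subsingleton
  · rw [Cov.FN, Cov.PN, Finset.sum_filter_add_sum_filter_not, ← h3]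
    exact Finset.sum_congr rfl fun n _ => by rw [(e n).finrank_eq]

end Pool.Agent.MP_3fe7bf_gt.GB

/-!
Local Euler characteristic sums; the cusps do not contribute.
-/

namespace Pool.Agent.MP_3fe7bf_gt.GB

variable {Γ : Subgroup Isom6} {D : TT Γ} {M : ℝ} (C : Cov D M) {V : Set H6}

theorem sums_sub {σ : Fin C.m → Option Γ} (h0 : σ ≠ fun _ => none) (hF : ¬C.IsF σ) :
    ∃ ζ ∈ D.HV, st C.U σ ⊆ Hb ζ M := by
  obtain ⟨t, ht⟩ := Function.ne_iff.1 h0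
  obtain ⟨γ, hγ⟩ := Option.ne_none_iff_exists'.1 ht
  obtain ⟨i, hi⟩ := Option.ne_none_iff_exists'.1 fun e : C.kind t = none => hF ⟨t, e, ht⟩
  exact ⟨_, D.c_mem_HV i γ.2, fun x hx => C.U_sub hi γ (hx t γ hγ)⟩

theorem sums_ne {τ : Fin C.m → Option Γ} (h : Nrm τ) (g : Γ) : g • τ ≠ fun _ => none := by
  obtain ⟨t, ht, -⟩ := h
  intro e
  have := congrFun e t
  rw [smul_simplex, ht] at this
  cases this

theorem sums_cnt (i : Fin D.n) (R : ℝ) (A : Set H6) :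
    {γ : Γ | ∃ y ∈ A, (γ : Isom6) • y ∈ {x : H6 | (D.c i)⁻¹ • x ∈ cap M R}}.ncard =
      D.cnt i M R A := by
  rw [TT.cnt, ← Set.ncard_image_of_injective _ (inv_injective (G := Γ))]
  congr 1
  ext γ
  constructor
  · rintro ⟨γ, ⟨y, hy, h⟩, rfl⟩
    exact ⟨_, h, by simpa using hy⟩
  · rintro ⟨y, hy, h⟩
    exact ⟨γ⁻¹, ⟨_, h, by simpa using hy⟩, inv_inv γ⟩

/-- the simplices made of prisms that meet `V` inside one horoball -/
theorem Cov.sum_one (hV : HC V) (hb : Bdd V) {ζ : V7} (hζ : ζ ∈ D.hb M V) :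
    ∑ᶠ σ ∈ {σ | σ ∈ Nv C.U (V ∩ Hb ζ M) ∧ (σ ≠ fun _ => none) ∧ ¬C.IsF σ}, sgn σ = -1 := by
  obtain ⟨⟨i, γ0, hγ0, rfl⟩, x0, hx0, hx0'⟩ := hζ
  set ζ := γ0 • D.c i • z0 with hζ
  let U' : Fin C.m → Γ → Set H6 := fun t γ => {x | C.kind t ≠ none ∧ x ∈ C.U t γ}
  have hG : Good (Nv U' (V ∩ Hb ζ M)) := by
    refine nerve_good (fun t γ => ?_) (fun t j j' x h h' => C.U_disj t j j' x h.2 h'.2)
      (hV.inter (hc_Hb ζ M)) (hb.mono Set.inter_subset_left) fun x => ?_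
    · exact fun x hx y hy z a b ha hb e => ⟨hx.1, C.hc_U t γ x hx.2 y hy.2 z a b ha hb e⟩
    · obtain ⟨t, γ, hγ, hk, O, hO, h⟩ := C.loc i (γ0⁻¹ • x)
      refine ⟨t, ⟨γ0 * γ⁻¹, Γ.mul_mem hγ0 (Γ.inv_mem hγ)⟩, {y | γ0⁻¹ • y ∈ O},
        (continuous_const_smul γ0⁻¹).continuousAt.preimage_mem_nhds hO, fun y hy => ?_⟩
      refine ⟨by simp [hk], ?_⟩
      have h1 : γ0⁻¹ • y ∈ Hb (D.c i • z0) M := by
        rw [← smul_mem_Hb γ0, smul_inv_smul]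
        exact hy.2.2
      have h2 := h _ hy.1 h1
      show (γ0 * γ⁻¹)⁻¹ • y ∈ C.W t
      rwa [mul_inv_rev, inv_inv, mul_smul]
  have hf := C.fin_Nv (hb.mono (Set.inter_subset_left (t := Hb ζ M)))
  set S := {σ | σ ∈ Nv C.U (V ∩ Hb ζ M) ∧ (σ ≠ fun _ => none) ∧ ¬C.IsF σ} with hS
  have hSf : S.Finite := hf.subset fun _ h => h.1
  have e : Nv U' (V ∩ Hb ζ M) = insert (fun _ => none) S := by
    ext σ
    constructor
    · rintro ⟨x, hx, hxV⟩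
      by_cases h0 : σ = fun _ => none
      · exact Or.inl h0
      · refine Or.inr ⟨⟨x, fun t j h => (hx t j h).2, hxV⟩, h0, ?_⟩
        rintro ⟨t, h1, h2⟩
        obtain ⟨j, hj⟩ := Option.ne_none_iff_exists'.1 h2
        exact (hx t j hj).1 h1
    · rintro (rfl | ⟨⟨x, hx, hxV⟩, -, hF⟩)
      · exact none_mem_Nv _ ⟨x0, hx0', hx0⟩
      · exact ⟨x, fun t j h => ⟨fun hk => hF ⟨t, hk, by simp [h]⟩, hx t j h⟩, hxV⟩
  have h3 := hG.sum (e ▸ hSf.insert _)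
  rw [e, finsum_mem_insert _ (fun h => h.2.1 rfl) hSf, sgn_none] at h3
  linarith

theorem Cov.sum_P (hV : HC V) (hb : Bdd V) :
    ∑ᶠ σ ∈ {σ | σ ∈ Nv C.U V ∧ (σ ≠ fun _ => none) ∧ ¬C.IsF σ}, sgn σ = -(D.nB M V : ℤ) := by
  have hfin := D.fin_hb C.nice (lt_of_lt_of_le one_pos C.one_le) hb
  have e : {σ | σ ∈ Nv C.U V ∧ (σ ≠ fun _ => none) ∧ ¬C.IsF σ} = ⋃ ζ ∈ D.hb M V,
      {σ | σ ∈ Nv C.U (V ∩ Hb ζ M) ∧ (σ ≠ fun _ => none) ∧ ¬C.IsF σ} := by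
    ext σ
    simp only [Set.mem_iUnion]
    constructor
    · rintro ⟨⟨x, hx, hxV⟩, h0, hF⟩
      obtain ⟨ζ, hζ, hs⟩ := sums_sub C h0 hF
      exact ⟨ζ, ⟨hζ, x, hs hx, hxV⟩, ⟨x, hx, hxV, hs hx⟩, h0, hF⟩
    · rintro ⟨ζ, -, h1, h0, hF⟩
      exact ⟨Nv_mono _ Set.inter_subset_left h1, h0, hF⟩
  rw [e, finsum_mem_biUnion _ hfin fun ζ _ =>
    (C.fin_Nv (hb.mono (Set.inter_subset_left (t := Hb ζ M)))).subset fun _ h => h.1]
  · rw [finsum_mem_congr rfl fun ζ hζ => C.sum_one hV hb hζ,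
      finsum_mem_eq_finite_toFinset_sum _ hfin, Finset.sum_const, TT.nB,
      Set.ncard_eq_toFinset_card _ hfin]
    simp
  · intro ζ hζ ζ' hζ' hne
    refine Set.disjoint_left.2 ?_
    rintro σ ⟨⟨x, hx, -, hx'⟩, h0, hF⟩ ⟨⟨y, hy, -, hy'⟩, -, -⟩
    obtain ⟨ζ0, hζ0, hs⟩ := sums_sub C h0 hF
    exact hne ((D.HV_eq C.one_le hζ.1 hζ0 hx' (hs hx)).trans
      (D.HV_eq C.one_le hζ0 hζ'.1 (hs hy) hy'))

theorem Cov.sum_F (hV : HC V) (hb : Bdd V) (hne : V.Nonempty) :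
    ∑ᶠ σ ∈ {σ | σ ∈ Nv C.U V ∧ C.IsF σ}, sgn σ = (D.nB M V : ℤ) - 1 := by
  have hG : Good (Nv C.U V) := nerve_good C.hc_U C.U_disj hV hb fun x => by
    obtain ⟨t, γ, h⟩ := C.U_cover x
    exact ⟨t, γ, _, h, Set.inter_subset_left⟩
  have hf := C.fin_Nv hb
  have hP := C.sum_P hV hb
  set F := {σ | σ ∈ Nv C.U V ∧ C.IsF σ} with hF
  set P := {σ | σ ∈ Nv C.U V ∧ (σ ≠ fun _ => none) ∧ ¬C.IsF σ} with hPd
  have hFf : F.Finite := hf.subset fun _ h => h.1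
  have hPf : P.Finite := hf.subset fun _ h => h.1
  have e : Nv C.U V = insert (fun _ => none) (F ∪ P) := by
    ext σ
    constructor
    · intro h
      by_cases h0 : σ = fun _ => none
      · exact Or.inl h0
      · by_cases h1 : C.IsF σ
        · exact Or.inr (Or.inl ⟨h, h1⟩)
        · exact Or.inr (Or.inr ⟨h, h0, h1⟩)
    · rintro (rfl | h | h)
      · exact none_mem_Nv _ hne
      · exact h.1
      · exact h.1
  have hn : (fun _ => none) ∉ F ∪ P := by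
    rintro (⟨-, t, -, h⟩ | h)
    · exact h rfl
    · exact h.2.1 rfl
  have h3 := hG.sum hf
  rw [e, finsum_mem_insert _ hn (hFf.union hPf), sgn_none,
    finsum_mem_union (Set.disjoint_left.2 fun _ a b => b.2.2 a.2) hFf hPf, hP] at h3
  linarith

theorem Cov.orb_P (hV : HC V) (hb : Bdd V) :
    ∑ τ ∈ C.PN, sgn τ * ({γ : Γ | ∃ y ∈ st C.U τ, (γ : Isom6) • y ∈ V}.ncard : ℤ) =
      -(D.nB M V : ℤ) := by
  rw [← C.sum_P hV hb, sum_orbits ((C.fin_Nv hb).subset fun _ h => h.1) C.PN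
    (fun τ h => (C.mem_PN.1 h).1.2)]
  · refine Finset.sum_congr rfl fun τ hτ => ?_
    obtain ⟨⟨-, h1⟩, h2⟩ := C.mem_PN.1 hτ
    congr 3
    ext g
    exact ⟨fun h => ⟨(C.smul_mem_Nv g τ V).2 h, sums_ne C h1 g,
      fun h' => h2 ((C.isF_smul g τ).1 h')⟩, fun h => (C.smul_mem_Nv g τ V).1 h.1⟩
  · rintro σ ⟨h1, h0, hF⟩
    obtain ⟨g, τ, hτ, rfl⟩ := exists_Nrm h0
    obtain ⟨y, hy, -⟩ := (C.smul_mem_Nv g τ V).1 h1
    exact ⟨g, τ, C.mem_PN.2 ⟨⟨⟨y, hy⟩, hτ⟩, fun h => hF ((C.isF_smul g τ).2 h)⟩, rfl⟩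

theorem Cov.orb_F (hV : HC V) (hb : Bdd V) (hne : V.Nonempty) :
    ∑ τ ∈ C.FN, sgn τ * ({γ : Γ | ∃ y ∈ st C.U τ, (γ : Isom6) • y ∈ V}.ncard : ℤ) =
      (D.nB M V : ℤ) - 1 := by
  rw [← C.sum_F hV hb hne, sum_orbits ((C.fin_Nv hb).subset fun _ h => h.1) C.FN
    (fun τ h => (C.mem_FN.1 h).1.2)]
  · refine Finset.sum_congr rfl fun τ hτ => ?_
    obtain ⟨-, h2⟩ := C.mem_FN.1 hτ
    congr 3
    ext g
    exact ⟨fun h => ⟨(C.smul_mem_Nv g τ V).2 h, (C.isF_smul g τ).2 h2⟩,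
      fun h => (C.smul_mem_Nv g τ V).1 h.1⟩
  · rintro σ ⟨h1, hF⟩
    have h0 : σ ≠ fun _ => none := by
      obtain ⟨t, -, h⟩ := hF
      exact fun e => h (congrFun e t)
    obtain ⟨g, τ, hτ, rfl⟩ := exists_Nrm h0
    obtain ⟨y, hy, -⟩ := (C.smul_mem_Nv g τ V).1 h1
    exact ⟨g, τ, C.mem_FN.2 ⟨⟨⟨y, hy⟩, hτ⟩, (C.isF_smul g τ).1 hF⟩, rfl⟩

theorem Cov.hb_PN {τ : Fin C.m → Option Γ} (h : τ ∈ C.PN) :
    (∃ ζ, D.hb M (st C.U τ) = {ζ}) ∧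
      ∀ i, ∀ γ ∈ Γ, ∃ a, ∀ y : H6, γ • D.c i • y ∈ st C.U τ → M < ht y → ‖uu y‖ ≤ a := by
  obtain ⟨⟨⟨x0, hx0⟩, hN⟩, hF⟩ := C.mem_PN.1 h
  constructor
  · obtain ⟨ζ, hζ, hs⟩ := sums_sub C hN.ne_none hF
    exact ⟨ζ, (D.nB_le_one C.one_le hζ hs).antisymm
      (Set.singleton_subset_iff.2 ⟨hζ, x0, hs hx0, hx0⟩)⟩
  · intro i γ hγ
    obtain ⟨t, ht1, -⟩ := hN
    obtain ⟨j, hj⟩ := Option.ne_none_iff_exists'.1 fun e : C.kind t = none =>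
      hF ⟨t, e, by simp [ht1]⟩
    obtain ⟨a, ha⟩ := C.sub t j hj
    refine ⟨‖uu (((D.c i)⁻¹ * γ * D.c i)⁻¹ • o)‖ + a, fun y hy hM => ?_⟩
    have h1 : γ • D.c i • y ∈ C.U t 1 := hy t 1 ht1
    have h2 : γ • D.c i • y ∈ Hb (D.c j • z0) M := by simpa using C.U_sub hj 1 h1
    have h3 : γ • D.c i • y ∈ Hb (γ • D.c i • z0) M :=
      (smul_mem_Hb γ).2 ((mem_Hb_chart _).2 hM)
    obtain ⟨rfl, h4⟩ := D.disj i j γ hγ _
      (Hb_mono (D.mem_LC (D.c_mem_HV i hγ)) C.one_le h3)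
      (Hb_mono (smul_mem_LC _ z0_mem) C.one_le h2)
    have h5 := ((Pc Γ (D.c i)).inv_mem (conj_mem_Pc hγ h4)).1
    have h6 := (ha (((D.c i)⁻¹ * γ * D.c i) • y) (by
      rw [mul_smul, mul_smul, smul_inv_smul]
      simpa [Cov.U] using h1)).2
    have h7 := norm_uu_smul_le h5 (((D.c i)⁻¹ * γ * D.c i) • y)
    rw [inv_smul_smul] at h7
    linarith

theorem Cov.sum_PN : ∑ τ ∈ C.PN, sgn τ = 0 := by
  choose R hR using fun i => (D.cryst C.nice i).exists_fol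
  have hM : 0 < M := lt_of_lt_of_le one_pos C.one_le
  let V : Fin D.n → ℕ → Set H6 := fun i k => {x | (D.c i)⁻¹ • x ∈ cap M (R i k)}
  have h1 : ∀ i k, ∑ τ ∈ C.PN, (sgn τ : ℝ) * (D.cnt i M (R i k) (st C.U τ) : ℝ) =
      -(D.nB M (V i k) : ℝ) := by
    intro i k
    have := C.orb_P (V := V i k) ((hc_cap M _).preimage _)
      (Bdd.preimage (A := cap M (R i k)) (cap_bdd hM _) _)
    simp only [V, sums_cnt] at this
    exact_mod_cast this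
  have h2 : ∀ i k, (D.nB M (V i k) : ℝ) ≤ 1 := by
    intro i k
    have h3 : D.hb M (V i k) ⊆ {(1 : Isom6) • D.c i • z0} :=
      D.nB_le_one C.one_le (D.c_mem_HV i Γ.one_mem) fun x hx => by
        rw [one_smul, ← smul_inv_smul (D.c i) x, mem_Hb_chart]
        exact hx.1
    have h4 := Set.ncard_le_ncard h3 (Set.finite_singleton _)
    rw [Set.ncard_singleton] at h4
    exact_mod_cast h4
  have hA : Filter.Tendsto (fun k => ∑ τ ∈ C.PN, (sgn τ : ℝ) *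
      ∑ i, (D.cnt i M (R i k) (st C.U τ) : ℝ) / NP (Pc Γ (D.c i)) (R i k)) Filter.atTop
      (nhds (∑ τ ∈ C.PN, (sgn τ : ℝ))) := by
    refine tendsto_finsetSum _ fun τ hτ => ?_
    obtain ⟨⟨ζ, hζ⟩, h3⟩ := C.hb_PN hτ
    have h4 := (D.cnt_lim C.nice hR (hζ ▸ Set.finite_singleton ζ) h3).const_mul (sgn τ : ℝ)
    rwa [TT.nB, hζ, Set.ncard_singleton, Nat.cast_one, mul_one] at h4
  have hB : Filter.Tendsto (fun k => ∑ i, -((D.nB M (V i k) : ℝ) / NP (Pc Γ (D.c i)) (R i k)))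
      Filter.atTop (nhds 0) := by
    rw [← Finset.sum_const_zero (s := Finset.univ (α := Fin D.n))]
    refine tendsto_finsetSum _ fun i _ => ?_
    rw [← neg_zero]
    refine Filter.Tendsto.neg (squeeze_zero (fun k => by positivity) (fun k => ?_)
      (((D.cryst C.nice i).NP_tendsto.comp (hR i).1).inv_tendsto_atTop))
    rw [div_eq_mul_inv]
    exact mul_le_of_le_one_left (by positivity) (h2 i k)
  have e : (fun k => ∑ τ ∈ C.PN, (sgn τ : ℝ) *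
      ∑ i, (D.cnt i M (R i k) (st C.U τ) : ℝ) / NP (Pc Γ (D.c i)) (R i k)) =
      fun k => ∑ i, -((D.nB M (V i k) : ℝ) / NP (Pc Γ (D.c i)) (R i k)) := by
    funext k
    simp only [Finset.mul_sum]
    rw [Finset.sum_comm]
    refine Finset.sum_congr rfl fun i _ => ?_
    rw [← neg_div, ← h1, Finset.sum_div]
    exact Finset.sum_congr rfl fun τ _ => (mul_div_assoc _ _ _).symm
  rw [e] at hA
  exact_mod_cast tendsto_nhds_unique hA hB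

theorem Cov.chi_F : HasChi (Orb Γ) (-∑ τ ∈ C.FN, sgn τ) := by
  simpa [C.sum_PN] using C.chi

end Pool.Agent.MP_3fe7bf_gt.GB

end

-- part MP_3fe7bf_gt.GB.Thin
section

/-!
Fixed points at infinity of the elements of a discrete torsion free group.
-/

namespace Pool.Agent.MP_3fe7bf_gt.GB

/-- the future lightlike eigenvectors of `g` -/
def Fx (g : Isom6) : Set V7 := {ζ | ζ ∈ LC ∧ Par ζ (g • ζ)}

variable {Γ : Subgroup Isom6} {a b g : Isom6} {ξ ζ θ : V7}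

theorem mem_Fx_of_par (h : ξ ∈ Fx g) (hp : Par ξ ζ) : ζ ∈ Fx g := by
  refine ⟨?_, hp.symm.trans (h.2.trans (hp.smul g))⟩
  obtain ⟨t, ht, rfl⟩ := hp
  exact rsmul_mem_LC h.1 ht

theorem mem_Fx_conj (c : Isom6) : c • ζ ∈ Fx (c * g * c⁻¹) ↔ ζ ∈ Fx g := by
  have e : (c * g * c⁻¹) • c • ζ = c • g • ζ := by
    rw [mul_smul, mul_smul, inv_smul_smul]
  constructor
  · rintro ⟨h1, h2⟩
    rw [e, par_smul_iff] at h2
    exact ⟨by simpa using smul_mem_LC c⁻¹ h1, h2⟩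
  · rintro ⟨h1, h2⟩
    refine ⟨smul_mem_LC c h1, ?_⟩
    rw [e, par_smul_iff]
    exact h2

theorem Fx_conj_congr (c : Isom6) (h : Fx a = Fx b) : Fx (c * a * c⁻¹) = Fx (c * b * c⁻¹) := by
  ext ζ
  rw [← smul_inv_smul c ζ, mem_Fx_conj, mem_Fx_conj, h]

theorem Fx_inv : Fx g⁻¹ = Fx g := by
  ext ζ
  constructor
  · rintro ⟨h1, h2⟩
    exact ⟨h1, by simpa using (h2.smul g).symm⟩
  · rintro ⟨h1, h2⟩
    exact ⟨h1, by simpa using (h2.smul g⁻¹).symm⟩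

theorem mul_mem_Fx (ha : ζ ∈ Fx a) (hb : ζ ∈ Fx b) : ζ ∈ Fx (a * b) := by
  refine ⟨ha.1, ?_⟩
  rw [mul_smul]
  exact ha.2.trans (hb.2.smul a)

theorem pow_mem_Fx (h : ζ ∈ Fx g) (k : ℕ) : ζ ∈ Fx (g ^ k) := by
  induction k with
  | zero => exact ⟨h.1, by simpa using Par.refl ζ⟩
  | succ k ih => rw [pow_succ]; exact mul_mem_Fx ih h

theorem fix_cancel (h : ξ ∈ LC) {s t : ℝ} (e : s • ξ = t • ξ) : s = t := by
  have e0 := congrFun e 0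
  simp only [Pi.smul_apply, smul_eq_mul] at e0
  exact mul_right_cancel₀ h.2.ne' e0

theorem fix_inv_eq {l : ℝ} (hl : 0 < l) (e : l = l⁻¹) : l = 1 := by
  have h1 : l * l = 1 := by
    nth_rewrite 2 [e]
    exact mul_inv_cancel₀ hl.ne'
  nlinarith

theorem fix_sum_neg (hξ : ξ ∈ LC) (hζ : ζ ∈ LC) (hp : ¬Par ξ ζ) :
    lor (ξ + ζ) (ξ + ζ) = 2 * lor ξ ζ ∧ lor (ξ + ζ) (ξ + ζ) < 0 ∧ 0 < (ξ + ζ) 0 := by
  have h := lor_neg_of_not_par hξ hζ hp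
  have e : lor (ξ + ζ) (ξ + ζ) = 2 * lor ξ ζ := by
    rw [lor_add_left, lor_add_right, lor_add_right, hξ.1, hζ.1, lor_comm ζ ξ]; ring
  refine ⟨e, by rw [e]; linarith, ?_⟩
  have := hξ.2
  have := hζ.2
  simp only [Pi.add_apply]
  linarith

/-- an eigenvalue different from one forces a second fixed point -/
theorem exists_second (h : ξ ∈ Fx g) (hne : g • ξ ≠ ξ) : ∃ ζ ∈ Fx g, ¬Par ξ ζ := by
  obtain ⟨hξ, l, hl, e⟩ := h
  have hl1 : l ≠ 1 := by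
    rintro rfl
    exact hne (by simpa using e)
  let T : V7 →ₗ[ℝ] V7 := Matrix.toLin' g.val.val - l⁻¹ • LinearMap.id
  have hT : ∀ v, T v = g • v - l⁻¹ • v := fun v => rfl
  have horth : ∀ v, lor (T v) ξ = 0 := by
    intro v
    have e1 : lor (g • v) (g • ξ) = lor v ξ := lor_smul g v ξ
    rw [e, lor_smul_right] at e1
    rw [hT, lor_sub_left, lor_smul_left, ← e1]
    field_simp
    ring
  have hns : ¬Function.Surjective T := by
    intro hs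
    obtain ⟨v, hv⟩ := hs o.val
    have h1 := horth v
    rw [hv] at h1
    exact (lor_neg_LC o hξ).ne h1
  have hni : ¬Function.Injective T := fun hi => hns (LinearMap.injective_iff_surjective.1 hi)
  rw [← LinearMap.ker_eq_bot, Submodule.eq_bot_iff] at hni
  push Not at hni
  obtain ⟨w, hw, hw0⟩ := hni
  have ew : g • w = l⁻¹ • w := by
    have := LinearMap.mem_ker.1 hw
    rw [hT] at this
    exact sub_eq_zero.1 this
  have hww : lor w w = 0 := by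
    have e1 := lor_smul g w w
    rw [ew, lor_smul_left, lor_smul_right] at e1
    by_contra hn
    have e2 : l⁻¹ * l⁻¹ = 1 := by
      apply mul_right_cancel₀ hn
      rw [one_mul, mul_assoc]
      exact e1
    have e3 : l * l = 1 := by
      rw [← mul_inv] at e2
      exact inv_eq_one.1 e2
    apply hl1
    nlinarith
  have key : ∀ u : V7, u ∈ LC → g • u = l⁻¹ • u → ∃ ζ ∈ Fx g, ¬Par ξ ζ := by
    intro u hu eu
    refine ⟨u, ⟨hu, l⁻¹, inv_pos.2 hl, eu⟩, ?_⟩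
    rintro ⟨t, ht, rfl⟩
    rw [smul_rsmul, e, smul_comm] at eu
    exact hl1 (fix_inv_eq hl (fix_cancel hu eu))
  rcases mem_LC_or hww hw0 with h1 | h1
  · exact key w h1 ew
  · exact key (-w) h1 (by rw [smul_neg, smul_neg, ew])

/-- two fixed points have inverse eigenvalues different from one -/
theorem Nice.eig (h : Nice Γ) (ha : a ∈ Γ) (h1 : a ≠ 1) (hξ : ξ ∈ Fx a) (hζ : ζ ∈ Fx a)
    (hp : ¬Par ξ ζ) : ∃ l : ℝ, 0 < l ∧ l ≠ 1 ∧ a • ξ = l • ξ ∧ a • ζ = l⁻¹ • ζ := by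
  obtain ⟨hξ, l, hl, e⟩ := hξ
  obtain ⟨hζ, m, hm, e'⟩ := hζ
  have hn := lor_neg_of_not_par hξ hζ hp
  have e1 := lor_smul a ξ ζ
  rw [e, e', lor_smul_left, lor_smul_right] at e1
  have e2 : l * m = 1 := by
    apply mul_right_cancel₀ hn.ne
    rw [one_mul, mul_assoc]
    exact e1
  have e3 : m = l⁻¹ := eq_inv_of_mul_eq_one_right e2
  refine ⟨l, hl, ?_, e, by rw [← e3]; exact e'⟩
  rintro rfl
  obtain ⟨-, s1, s2⟩ := fix_sum_neg hξ hζ hp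
  apply h1
  apply h.free_vec ha s1 s2
  rw [smul_add, e, e', e3]
  simp

theorem Nice.Fx_three (h : Nice Γ) (ha : a ∈ Γ) (h1 : a ≠ 1) (hξ : ξ ∈ Fx a) (hζ : ζ ∈ Fx a)
    (hp : ¬Par ξ ζ) (hθ : θ ∈ Fx a) : Par ξ θ ∨ Par ζ θ := by
  by_contra hc
  rw [not_or] at hc
  obtain ⟨l, hl, hl1, e1, e2⟩ := h.eig ha h1 hξ hζ hp
  obtain ⟨l', -, -, e3, e4⟩ := h.eig ha h1 hξ hθ hc.1
  obtain ⟨l'', -, -, e5, e6⟩ := h.eig ha h1 hζ hθ hc.2
  have a1 : l = l' := fix_cancel hξ.1 (e1.symm.trans e3)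
  have a2 : l⁻¹ = l'' := fix_cancel hζ.1 (e2.symm.trans e5)
  have a3 : l'⁻¹ = l''⁻¹ := fix_cancel hθ.1 (e4.symm.trans e6)
  rw [← a1, ← a2, inv_inv] at a3
  exact hl1 (fix_inv_eq hl a3.symm)

theorem fix_cont (g : Isom6) : Continuous fun v : V7 => g • v :=
  Continuous.matrix_mulVec continuous_const continuous_id

theorem fix_abs_le (x : H6) (i : Fin 7) : |x.val i| ≤ x.val 0 := by
  have h := x.2.1
  have h0 := x.2.2
  rw [lor_eq] at h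
  apply abs_le_of_sq_le_sq' _ h0.le |> fun h => abs_le.2 h
  fin_cases i <;> simp only [Fin.zero_eta, Fin.mk_one, Fin.reduceFinMk, Fin.isValue] <;>
    nlinarith [mul_self_nonneg (x.val 1), mul_self_nonneg (x.val 2), mul_self_nonneg (x.val 3),
      mul_self_nonneg (x.val 4), mul_self_nonneg (x.val 5), mul_self_nonneg (x.val 6)]

theorem Nice.Fx_nonempty (h : Nice Γ) (ha : a ∈ Γ) (h1 : a ≠ 1) : (Fx a).Nonempty := by
  have hinj : Function.Injective fun n : ℕ => a ^ n :=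
    injective_pow_iff_not_isOfFinOrder.2 fun hf => h1 (h.tf a ha hf)
  set t : ℕ → ℝ := fun n => dl o (a ^ n • o) with ht
  have t1 : ∀ n, 1 ≤ t n := fun n => one_le_dl _ _
  have t0 : ∀ n, 0 < t n := fun n => lt_of_lt_of_le one_pos (t1 n)
  have tval : ∀ n, t n = (a ^ n • o).val 0 := fun n => dl_o _
  have hlim : Filter.Tendsto t Filter.atTop Filter.atTop := by
    rw [← Nat.cofinite_eq_atTop, Filter.tendsto_atTop]
    intro c
    rw [Filter.eventually_cofinite]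
    refine ((h.fin c).preimage hinj.injOn).subset ?_
    intro n hn
    exact ⟨pow_mem ha n, (not_le.1 hn).le⟩
  set y : ℕ → V7 := fun n => (t n)⁻¹ • (a ^ n • o).val with hy
  have hmem : ∀ n, y n ∈ Metric.closedBall (0 : V7) 1 := by
    intro n
    rw [mem_closedBall_zero_iff, pi_norm_le_iff_of_nonneg zero_le_one]
    intro i
    have := fix_abs_le (a ^ n • o) i
    rw [← tval] at this
    simp only [hy, Pi.smul_apply, smul_eq_mul, Real.norm_eq_abs, abs_mul,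
      abs_of_pos (inv_pos.2 (t0 n))]
    rw [inv_mul_le_iff₀ (t0 n), mul_one]
    exact this
  obtain ⟨ξ, -, φ, hφ, hconv⟩ := (isCompact_closedBall (0 : V7) 1).tendsto_subseq hmem
  have hinv : Filter.Tendsto (fun n => (t (φ n))⁻¹) Filter.atTop (nhds 0) :=
    tendsto_inv_atTop_zero.comp (hlim.comp hφ.tendsto_atTop)
  have hsq : ∀ c : ℝ,
      Filter.Tendsto (fun n => (t (φ n))⁻¹ * ((t (φ n))⁻¹ * c)) Filter.atTop (nhds 0) := by
    intro c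
    simpa using hinv.mul (hinv.mul_const c)
  have x0 : ξ 0 = 1 := by
    have c1 : Filter.Tendsto (fun n => y (φ n) 0) Filter.atTop (nhds (ξ 0)) :=
      ((continuous_apply 0).tendsto ξ).comp hconv
    have c2 : (fun n => y (φ n) 0) = fun _ => (1 : ℝ) := by
      funext n
      simp only [hy, Pi.smul_apply, smul_eq_mul]
      rw [← tval, inv_mul_cancel₀ (t0 _).ne']
    rw [c2] at c1
    exact (tendsto_nhds_unique tendsto_const_nhds c1).symm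
  have x1 : lor ξ ξ = 0 := by
    have c0 : Continuous fun v : V7 => lor v v := continuous_lor continuous_id continuous_id
    have c1 : Filter.Tendsto (fun n => lor (y (φ n)) (y (φ n))) Filter.atTop (nhds (lor ξ ξ)) :=
      (c0.tendsto ξ).comp hconv
    have c2 : (fun n => lor (y (φ n)) (y (φ n))) =
        fun n => (t (φ n))⁻¹ * ((t (φ n))⁻¹ * (-1)) := by
      funext n
      simp only [hy]
      rw [lor_smul_left, lor_smul_right, (a ^ φ n • o).2.1]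
    rw [c2] at c1
    exact tendsto_nhds_unique c1 (hsq _)
  have x2 : lor ξ (a • ξ) = 0 := by
    have c0 : Continuous fun v : V7 => lor v (a • v) := continuous_lor continuous_id (fix_cont a)
    have c1 : Filter.Tendsto (fun n => lor (y (φ n)) (a • y (φ n))) Filter.atTop
        (nhds (lor ξ (a • ξ))) := (c0.tendsto ξ).comp hconv
    have c2 : (fun n => lor (y (φ n)) (a • y (φ n))) =
        fun n => (t (φ n))⁻¹ * ((t (φ n))⁻¹ * lor o.val (a • o.val)) := by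
      funext n
      simp only [hy]
      rw [smul_rsmul, lor_smul_left, lor_smul_right, val_smul, ← mul_smul, ← pow_succ',
        pow_succ, mul_smul, lor_smul]
    rw [c2] at c1
    exact tendsto_nhds_unique c1 (hsq _)
  have hLC : ξ ∈ LC := ⟨x1, by rw [x0]; exact one_pos⟩
  refine ⟨ξ, hLC, ?_⟩
  by_contra hp
  exact (lor_neg_of_not_par hLC (smul_mem_LC a hLC) hp).ne x2

theorem fix_pow_smul {l : ℝ} (e : b • ξ = l • ξ) (n : ℕ) : b ^ n • ξ = l ^ n • ξ := by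
  induction n with
  | zero => simp
  | succ n ih => rw [pow_succ, mul_smul, e, smul_rsmul, ih, smul_smul, pow_succ']

theorem fix_key (h : Nice Γ) (ha : a ∈ Γ) (h1 : a ≠ 1) (hb : b ∈ Γ) (hξ : ξ ∈ LC) (hζ : ζ ∈ LC)
    (hp : ¬Par ξ ζ) (ea : a • ξ = ξ) {l : ℝ} (hl : 1 < l) (e1 : b • ξ = l • ξ)
    (e2 : b • ζ = l⁻¹ • ζ) : False := by
  obtain ⟨s0, s1, s2⟩ := fix_sum_neg hξ hζ hp
  obtain ⟨s, -, x, hx⟩ := exists_nrm s1 s2
  obtain ⟨δ, hδ, hd⟩ := h.min_disp (dl o x)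
  have l0 : 0 < l := by linarith
  have hxx : s * (s * (2 * lor ξ ζ)) = -1 := by
    have := x.2.1
    rw [hx, lor_smul_left, lor_smul_right, s0] at this
    exact this
  have f1 : lor ξ (a • ζ) = lor ξ ζ := by
    have := lor_smul a ξ ζ
    rwa [ea] at this
  set C : ℝ := -(s * s * lor ζ (a • ζ)) with hC
  have main : ∀ n : ℕ, δ ≤ C * (l⁻¹ ^ n * l⁻¹ ^ n) := by
    intro n
    have hne : (b ^ n)⁻¹ * a * b ^ n ≠ 1 := by
      intro e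
      apply h1
      have : a = b ^ n * ((b ^ n)⁻¹ * a * b ^ n) * (b ^ n)⁻¹ := by group
      rw [this, e]; simp
    have m1 := hd x le_rfl _ (mul_mem (mul_mem (inv_mem (pow_mem hb n)) ha) (pow_mem hb n)) hne
    rw [mul_smul, mul_smul, ← dl_smul_left] at m1
    have v1 : (b ^ n • x).val = s • (l ^ n • ξ + l⁻¹ ^ n • ζ) := by
      rw [val_smul, hx, smul_rsmul, smul_add, fix_pow_smul e1, fix_pow_smul e2]
    have v2 : (a • b ^ n • x).val = s • (l ^ n • ξ + l⁻¹ ^ n • a • ζ) := by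
      rw [val_smul, v1, smul_rsmul, smul_add, smul_rsmul, smul_rsmul, ea]
    have p1 : l ^ n * l⁻¹ ^ n = 1 := by rw [← mul_pow, mul_inv_cancel₀ l0.ne', one_pow]
    unfold dl at m1
    rw [v2, v1] at m1
    simp only [lor_smul_left, lor_smul_right, lor_add_left, lor_add_right, hξ.1, f1,
      lor_comm ζ ξ] at m1
    have e : -(s * (s * (l ^ n * (l ^ n * 0) + l⁻¹ ^ n * (l ^ n * lor ξ ζ) +
        (l ^ n * (l⁻¹ ^ n * lor ξ ζ) + l⁻¹ ^ n * (l⁻¹ ^ n * lor ζ (a • ζ)))))) =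
        1 + C * (l⁻¹ ^ n * l⁻¹ ^ n) := by
      rw [hC]
      linear_combination (-1 : ℝ) * hxx - 2 * s * s * lor ξ ζ * p1
    linarith
  have r0 : 0 < l⁻¹ := inv_pos.2 l0
  have r1 : l⁻¹ < 1 := inv_lt_one_of_one_lt₀ hl
  obtain ⟨n, hn⟩ := exists_pow_lt_of_lt_one (show 0 < δ / (|C| + 1) by positivity) r1
  have q0 : 0 < l⁻¹ ^ n := pow_pos r0 n
  have q1 : l⁻¹ ^ n ≤ 1 := pow_le_one₀ r0.le r1.le
  have q2 := main n
  rw [lt_div_iff₀ (by positivity)] at hn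
  have q3 : C * (l⁻¹ ^ n * l⁻¹ ^ n) ≤ |C| * (l⁻¹ ^ n * l⁻¹ ^ n) :=
    mul_le_mul_of_nonneg_right (le_abs_self C) (by positivity)
  have q4 : |C| * (l⁻¹ ^ n * l⁻¹ ^ n) ≤ |C| * l⁻¹ ^ n :=
    mul_le_mul_of_nonneg_left (mul_le_of_le_one_right q0.le q1) (abs_nonneg C)
  nlinarith

theorem Nice.Fx_eq_of_subset (h : Nice Γ) (ha : a ∈ Γ) (h1 : a ≠ 1) (hb : b ∈ Γ) (h2 : b ≠ 1)
    (hs : Fx a ⊆ Fx b) : Fx a = Fx b := by
  refine Set.Subset.antisymm hs ?_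
  intro ζ hζ
  by_contra hn
  obtain ⟨ξ, hξ⟩ := h.Fx_nonempty ha h1
  have hp : ¬Par ξ ζ := fun hp => hn (mem_Fx_of_par hξ hp)
  have ea : a • ξ = ξ := by
    by_contra hne
    obtain ⟨ξ', hξ', hp'⟩ := exists_second hξ hne
    rcases h.Fx_three hb h2 (hs hξ) (hs hξ') hp' hζ with q | q
    · exact hp q
    · exact hn (mem_Fx_of_par hξ' q)
  obtain ⟨l, hl, hl1, e1, e2⟩ := h.eig hb h2 (hs hξ) hζ hp
  rcases lt_or_gt_of_ne hl1 with hlt | hgt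
  · have i1 : b⁻¹ • ξ = l⁻¹ • ξ := by
      rw [inv_smul_eq_iff, smul_rsmul, e1, smul_smul, inv_mul_cancel₀ hl.ne', one_smul]
    have i2 : b⁻¹ • ζ = l⁻¹⁻¹ • ζ := by
      rw [inv_inv, inv_smul_eq_iff, smul_rsmul, e2, smul_smul, mul_inv_cancel₀ hl.ne', one_smul]
    exact fix_key h ha h1 (inv_mem hb) hξ.1 hζ.1 hp ea (one_lt_inv₀ hl |>.2 hlt) i1 i2
  · exact fix_key h ha h1 hb hξ.1 hζ.1 hp ea hgt e1 e2

/-- an element that preserves the fixed point set of `a` fixes it pointwise -/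
theorem Nice.subset_Fx (h : Nice Γ) (ha : a ∈ Γ) (h1 : a ≠ 1) (hb : b ∈ Γ)
    (hs : ∀ ξ ∈ Fx a, b • ξ ∈ Fx a) : Fx a ⊆ Fx b := by
  intro ξ hξ
  refine ⟨hξ.1, ?_⟩
  by_contra hp
  have hζ := hs ξ hξ
  have hθ := hs _ hζ
  rcases h.Fx_three ha h1 hξ hζ hp hθ with q | q
  · obtain ⟨t, -, e⟩ := q
    have hn := lor_neg_of_not_par hξ.1 hζ.1 hp
    have e1 := lor_smul b ξ (b • ξ)
    rw [e, lor_smul_right, lor_comm (b • ξ) ξ] at e1
    have t1 : t = 1 := by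
      apply mul_right_cancel₀ hn.ne
      rw [one_mul]
      exact e1
    rw [t1, one_smul] at e
    obtain ⟨-, s1, s2⟩ := fix_sum_neg hξ.1 hζ.1 hp
    have hb1 : b = 1 := h.free_vec hb s1 s2 (by rw [smul_add, e, add_comm])
    apply hp
    rw [hb1, one_smul]
    exact Par.refl ξ
  · exact hp ((par_smul_iff b).1 q)

theorem Nice.Fx_pow (h : Nice Γ) (ha : a ∈ Γ) (h1 : a ≠ 1) {k : ℕ} (hk : 0 < k) :
    Fx (a ^ k) = Fx a := by
  have hne : a ^ k ≠ 1 := fun e => h1 (h.tf a ha (isOfFinOrder_iff_pow_eq_one.2 ⟨k, hk, e⟩))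
  exact (h.Fx_eq_of_subset ha h1 (pow_mem ha k) hne fun ζ hζ => pow_mem_Fx hζ k).symm

end Pool.Agent.MP_3fe7bf_gt.GB

/-!
The Margulis lemma, in terms of fixed points at infinity.
-/

namespace Pool.Agent.MP_3fe7bf_gt.GB

/-- nontrivial elements that move a point little have the same fixed points at infinity -/
def HM (η : ℝ) (Γ : Subgroup Isom6) : Prop :=
  ∀ x : H6, ∀ a ∈ Γ, ∀ b ∈ Γ, a ≠ 1 → b ≠ 1 → dl x (a • x) < 1 + η → dl x (b • x) < 1 + η →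
    Fx a = Fx b

theorem marg_inv_norm {R : Type*} [NormedRing R] (h1 : ‖(1 : R)‖ ≤ 1) {a a' : R}
    (e : a' * a = 1) (ha : ‖a - 1‖ < 1 / 16) : ‖a'‖ ≤ 2 := by
  have e2 : a' = 1 - a' * (a - 1) := by rw [mul_sub, e, mul_one]; abel
  have h2 : ‖a'‖ ≤ 1 + ‖a'‖ * ‖a - 1‖ := by
    calc ‖a'‖ = ‖1 - a' * (a - 1)‖ := by rw [← e2]
      _ ≤ ‖(1 : R)‖ + ‖a' * (a - 1)‖ := norm_sub_le _ _
      _ ≤ 1 + ‖a'‖ * ‖a - 1‖ := add_le_add h1 (norm_mul_le _ _)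
  have h3 : ‖a'‖ * ‖a - 1‖ ≤ ‖a'‖ * (1 / 16) :=
    mul_le_mul_of_nonneg_left ha.le (norm_nonneg _)
  linarith

theorem marg_comm_norm {R : Type*} [NormedRing R] (h1 : ‖(1 : R)‖ ≤ 1) {a a' b b' : R}
    (ea : a' * a = 1) (ea' : a * a' = 1) (eb : b' * b = 1) (eb' : b * b' = 1)
    (ha : ‖a - 1‖ < 1 / 16) (hb : ‖b - 1‖ < 1 / 16) :
    ‖a * b * a' * b' - 1‖ ≤ ‖b - 1‖ / 2 := by
  have h2 := marg_inv_norm h1 ea ha
  have h3 := marg_inv_norm h1 eb hb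
  have e : a * b * a' * b' - 1 = ((a - 1) * (b - 1) - (b - 1) * (a - 1)) * a' * b' := by
    have e1 : (a - 1) * (b - 1) - (b - 1) * (a - 1) = a * b - b * a := by noncomm_ring
    rw [e1, sub_mul, sub_mul, mul_assoc b a a', ea', mul_one, eb']
  have h4 : ‖(a - 1) * (b - 1) - (b - 1) * (a - 1)‖ ≤ 2 * (‖a - 1‖ * ‖b - 1‖) := by
    have := norm_sub_le ((a - 1) * (b - 1)) ((b - 1) * (a - 1))
    have := norm_mul_le (a - 1) (b - 1)
    have := norm_mul_le (b - 1) (a - 1)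
    nlinarith
  have h5 : ‖a - 1‖ * ‖b - 1‖ ≤ 1 / 16 * ‖b - 1‖ :=
    mul_le_mul_of_nonneg_right ha.le (norm_nonneg _)
  rw [e]
  set c := (a - 1) * (b - 1) - (b - 1) * (a - 1)
  calc ‖c * a' * b'‖ ≤ ‖c * a'‖ * ‖b'‖ := norm_mul_le _ _
    _ ≤ ‖c‖ * ‖a'‖ * ‖b'‖ := mul_le_mul_of_nonneg_right (norm_mul_le _ _) (norm_nonneg _)
    _ ≤ ‖c‖ * 2 * 2 := by gcongr
    _ ≤ ‖b - 1‖ / 2 := by linarith

/-- the operator of an isometry -/
noncomputable def margOp (g : Isom6) : V7 →L[ℝ] V7 :=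
  LinearMap.toContinuousLinearMap (Matrix.toLin' g.val.val)

theorem marg_op_apply (g : Isom6) (v : V7) : margOp g v = g • v := by
  simp [margOp, smul_vec]

theorem marg_op_mul (g h : Isom6) : margOp (g * h) = margOp g * margOp h := by
  ext1 v
  rw [mul_apply_eq_comp, marg_op_apply, marg_op_apply, marg_op_apply, mul_smul]

theorem marg_op_one : margOp 1 = 1 := by
  ext1 v
  rw [marg_op_apply, one_smul, one_apply_eq_self]

theorem marg_op_continuous : Continuous margOp := by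
  let L : Matrix (Fin 7) (Fin 7) ℝ →ₗ[ℝ] (V7 →L[ℝ] V7) :=
    (LinearMap.toContinuousLinearMap.toLinearMap).comp (Matrix.toLin'.toLinearMap)
  have hL : Continuous L := L.continuous_of_finiteDimensional
  exact hL.comp isClosedEmbedding_val.continuous

/-- a Zassenhaus neighbourhood with a size function that halves under commutators -/
theorem zassenhaus : ∃ Ω ∈ nhds (1 : Isom6), ∃ N : Isom6 → ℝ,
    (∀ g ∈ Ω, dl o (g • o) ≤ 2) ∧ (∀ g, g ≠ 1 → 0 < N g) ∧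
    ∀ a ∈ Ω, ∀ b ∈ Ω, a * b * a⁻¹ * b⁻¹ ∈ Ω ∧ N (a * b * a⁻¹ * b⁻¹) ≤ N b / 2 := by
  have hc : Continuous fun g : Isom6 => ‖margOp g - 1‖ :=
    (marg_op_continuous.sub continuous_const).norm
  refine ⟨{g | ‖margOp g - 1‖ < 1 / 16}, ?_, fun g => ‖margOp g - 1‖, ?_, ?_, ?_⟩
  · refine (isOpen_lt hc continuous_const).mem_nhds ?_
    show ‖margOp 1 - 1‖ < 1 / 16
    rw [marg_op_one, sub_self, norm_zero]; norm_num
  · intro g hg
    have hg' : ‖margOp g - 1‖ < 1 / 16 := hg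
    have hn : ‖margOp g‖ ≤ 2 := by
      have e : margOp g = (margOp g - 1) + 1 := by abel
      have h1 : ‖(1 : V7 →L[ℝ] V7)‖ ≤ 1 := ContinuousLinearMap.norm_id_le
      have := norm_add_le (margOp g - 1) 1
      rw [← e] at this
      linarith
    have ho : ‖(o.val : V7)‖ = 1 := by
      show ‖(Pi.single 0 1 : V7)‖ = 1
      rw [Pi.norm_single, norm_one]
    rw [dl_o, val_smul, ← marg_op_apply]
    calc margOp g o.val 0 ≤ ‖margOp g o.val 0‖ := le_abs_self _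
      _ ≤ ‖margOp g o.val‖ := norm_le_pi_norm _ _
      _ ≤ ‖margOp g‖ * ‖(o.val : V7)‖ := (margOp g).le_opNorm _
      _ ≤ 2 := by rw [ho, mul_one]; exact hn
  · intro g hg
    rw [norm_pos_iff, sub_ne_zero]
    intro e
    refine hg (isom_ext fun v => ?_)
    rw [← marg_op_apply, e, one_smul, one_apply_eq_self]
  · intro a ha b hb
    have ha' : ‖margOp a - 1‖ < 1 / 16 := ha
    have hb' : ‖margOp b - 1‖ < 1 / 16 := hb
    have h1 : ‖(1 : V7 →L[ℝ] V7)‖ ≤ 1 := ContinuousLinearMap.norm_id_le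
    have key : ‖margOp (a * b * a⁻¹ * b⁻¹) - 1‖ ≤ ‖margOp b - 1‖ / 2 := by
      rw [marg_op_mul, marg_op_mul, marg_op_mul]
      refine marg_comm_norm h1 ?_ ?_ ?_ ?_ ha' hb'
      · rw [← marg_op_mul, inv_mul_cancel, marg_op_one]
      · rw [← marg_op_mul, mul_inv_cancel, marg_op_one]
      · rw [← marg_op_mul, inv_mul_cancel, marg_op_one]
      · rw [← marg_op_mul, mul_inv_cancel, marg_op_one]
    refine ⟨?_, key⟩
    show ‖margOp (a * b * a⁻¹ * b⁻¹) - 1‖ < 1 / 16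
    have := norm_nonneg (margOp b - 1)
    linarith

theorem marg_pow_small (k : ℕ) : ∀ e : ℝ, 0 < e → ∃ η > 0, ∀ g : Isom6,
    dl o (g • o) < 1 + η → ∀ i ≤ k, dl o (g ^ i • o) ≤ 1 + e := by
  induction k with
  | zero =>
    intro e he
    refine ⟨1, one_pos, fun g _ i hi => ?_⟩
    obtain rfl : i = 0 := Nat.le_zero.mp hi
    rw [pow_zero, one_smul, dl_self]; linarith
  | succ k ih =>
    intro e he
    have he' : (0 : ℝ) < min (e / 6) 1 := lt_min (by linarith) one_pos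
    obtain ⟨η, hη, H⟩ := ih _ he'
    refine ⟨min η (min (e / 6) 1), lt_min hη he', fun g hg i hi => ?_⟩
    have n1 : min η (min (e / 6) 1) ≤ η := min_le_left _ _
    have n2 : min η (min (e / 6) 1) ≤ min (e / 6) 1 := min_le_right _ _
    have hg1 : dl o (g • o) < 1 + η := by linarith
    have hg2 : dl o (g • o) ≤ 1 + min (e / 6) 1 := by linarith
    have m1 : min (e / 6) 1 ≤ e / 6 := min_le_left _ _
    have m2 : min (e / 6) 1 ≤ 1 := min_le_right _ _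
    rcases Nat.lt_or_eq_of_le hi with hlt | rfl
    · have := H g hg1 i (Nat.lt_succ_iff.mp hlt)
      linarith
    · have a1 := H g hg1 k le_rfl
      have a2 : dl (g ^ k • o) (g ^ (k + 1) • o) ≤ 1 + min (e / 6) 1 := by
        rw [pow_succ, mul_smul, dl_smul]; exact hg2
      have a3 := dl_le_of_le a1 a2
      set m := min (e / 6) 1
      nlinarith

theorem pigeon {Ω : Set Isom6} (hΩ : Ω ∈ nhds (1 : Isom6)) :
    ∃ η > 0, ∀ g : Isom6, dl o (g • o) < 1 + η → ∃ k : ℕ, 0 < k ∧ g ^ k ∈ Ω := by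
  obtain ⟨V, hV, hVV⟩ := exists_nhds_split_inv hΩ
  have hU : ∀ x ∈ {g : Isom6 | dl o (g • o) ≤ 2}, {y : Isom6 | y * x⁻¹ ∈ V} ∈ nhds x := by
    intro x _
    have hc : Continuous fun y : Isom6 => y * x⁻¹ := continuous_id.mul continuous_const
    exact hc.continuousAt.preimage_mem_nhds (by rw [mul_inv_cancel]; exact hV)
  obtain ⟨t, -, ht⟩ := (isCompact_isom 2).elim_nhds_subcover _ hU
  obtain ⟨η, hη, H⟩ := marg_pow_small t.card 1 one_pos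
  refine ⟨η, hη, fun g hg => ?_⟩
  have hex : ∀ i : ℕ, ∃ x : Isom6, i ≤ t.card → x ∈ t ∧ g ^ i * x⁻¹ ∈ V := by
    intro i
    by_cases hi : i ≤ t.card
    · have hm : g ^ i ∈ {g : Isom6 | dl o (g • o) ≤ 2} := by
        have := H g hg i hi
        show dl o (g ^ i • o) ≤ 2
        linarith
      obtain ⟨x, hx, hy⟩ := Set.mem_iUnion₂.mp (ht hm)
      exact ⟨x, fun _ => ⟨hx, hy⟩⟩
    · exact ⟨1, fun h => absurd h hi⟩
  choose f hf using hex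
  have hlt : t.card < (Finset.range (t.card + 1)).card := by simp
  obtain ⟨i, hi, j, hj, hij, e⟩ := Finset.exists_ne_map_eq_of_card_lt_of_maps_to hlt
    (f := f) (fun i hi => (hf i (Nat.lt_succ_iff.mp (Finset.mem_range.mp hi))).1)
  have hi' := (hf i (Nat.lt_succ_iff.mp (Finset.mem_range.mp hi))).2
  have hj' := (hf j (Nat.lt_succ_iff.mp (Finset.mem_range.mp hj))).2
  rw [e] at hi'
  have key : ∀ i j : ℕ, ∀ x : Isom6, i < j → g ^ i * x⁻¹ ∈ V → g ^ j * x⁻¹ ∈ V →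
      ∃ k : ℕ, 0 < k ∧ g ^ k ∈ Ω := by
    intro i j x hij h1 h2
    obtain ⟨k, rfl⟩ := Nat.exists_eq_add_of_lt hij
    refine ⟨k + 1, Nat.succ_pos _, ?_⟩
    have h3 := hVV _ h2 _ h1
    have e3 : g ^ (i + k + 1) * x⁻¹ / (g ^ i * x⁻¹) = g ^ (k + 1) := by
      rw [div_eq_mul_inv]; group
    rwa [e3] at h3
  rcases lt_or_gt_of_ne hij with h | h
  · exact key i j _ h hi' hj'
  · exact key j i _ h hj' hi'

theorem marg_norm {Γ : Subgroup Isom6} (h : Nice Γ) {a b : Isom6} (ha : a ∈ Γ) (hb : b ∈ Γ)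
    (ha1 : a ≠ 1) (hb1 : b ≠ 1) (e : Fx (b * a * b⁻¹) = Fx a) : Fx a = Fx b := by
  refine h.Fx_eq_of_subset ha ha1 hb hb1 (h.subset_Fx ha ha1 hb fun ξ hξ => ?_)
  rw [← e]
  exact (mem_Fx_conj b).mpr hξ

theorem descent_Fx {Γ : Subgroup Isom6} (h : Nice Γ) {Ω : Set Isom6} {N : Isom6 → ℝ}
    (h1 : ∀ g ∈ Ω, dl o (g • o) ≤ 2) (h2 : ∀ g, g ≠ 1 → 0 < N g)
    (h3 : ∀ a ∈ Ω, ∀ b ∈ Ω, a * b * a⁻¹ * b⁻¹ ∈ Ω ∧ N (a * b * a⁻¹ * b⁻¹) ≤ N b / 2)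
    {a b : Isom6} (ha : a ∈ Γ) (hb : b ∈ Γ) (ha1 : a ≠ 1) (hb1 : b ≠ 1) (haΩ : a ∈ Ω)
    (hbΩ : b ∈ Ω) : Fx a = Fx b := by
  by_contra hne
  have hfin : {c : Isom6 | c ∈ Γ ∧ c ∈ Ω ∧ c ≠ 1 ∧ Fx a ≠ Fx c}.Finite :=
    (h.fin 2).subset fun c hc => ⟨hc.1, h1 c hc.2.1⟩
  obtain ⟨b0, ⟨hb0, hb0Ω, hb01, hb0F⟩, hmin⟩ :=
    Set.exists_min_image _ N hfin ⟨b, hb, hbΩ, hb1, hne⟩
  apply hb0F
  have hc := h3 a haΩ b0 hb0Ω
  have hcΓ : a * b0 * a⁻¹ * b0⁻¹ ∈ Γ :=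
    Γ.mul_mem (Γ.mul_mem (Γ.mul_mem ha hb0) (Γ.inv_mem ha)) (Γ.inv_mem hb0)
  refine marg_norm h ha hb0 ha1 hb01 ?_
  by_cases hc1 : a * b0 * a⁻¹ * b0⁻¹ = 1
  · have e : b0 * a * b0⁻¹ = a := by
      have e2 : b0 * a * b0⁻¹ = (a * b0 * a⁻¹ * b0⁻¹)⁻¹ * a := by group
      rw [e2, hc1, inv_one, one_mul]
    rw [e]
  · have hF : Fx a = Fx (a * b0 * a⁻¹ * b0⁻¹) := by
      by_contra hF
      have := hmin _ ⟨hcΓ, hc.1, hc1, hF⟩
      have := h2 b0 hb01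
      linarith [hc.2]
    have hd : b0 * a * b0⁻¹ ∈ Γ := Γ.mul_mem (Γ.mul_mem hb0 ha) (Γ.inv_mem hb0)
    have hd1 : b0 * a * b0⁻¹ ≠ 1 := by
      intro e
      apply ha1
      have e2 : a = b0⁻¹ * (b0 * a * b0⁻¹) * b0 := by group
      rw [e2, e]; group
    refine (h.Fx_eq_of_subset ha ha1 hd hd1 fun ξ hξ => ?_).symm
    have e2 : b0 * a * b0⁻¹ = (a * b0 * a⁻¹ * b0⁻¹)⁻¹ * a := by group
    rw [e2]
    refine mul_mem_Fx ?_ hξ
    rw [Fx_inv, ← hF]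
    exact hξ

theorem margulis : ∃ η > 0, ∀ Γ : Subgroup Isom6, Nice Γ → HM η Γ := by
  obtain ⟨Ω, hΩ, N, h1, h2, h3⟩ := zassenhaus
  obtain ⟨η, hη, hp⟩ := pigeon hΩ
  refine ⟨η, hη, fun Γ h x a ha b hb ha1 hb1 hxa hxb => ?_⟩
  obtain ⟨c, -, rfl⟩ := exists_swap o x
  let P : Subgroup Isom6 := Γ.comap (MulAut.conj c).toMonoidHom
  have hP : Nice P := h.of_conj c fun p hp => hp
  have mem : ∀ g ∈ Γ, c⁻¹ * g * c ∈ P := by
    intro g hg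
    show c * (c⁻¹ * g * c) * c⁻¹ ∈ Γ
    have e : c * (c⁻¹ * g * c) * c⁻¹ = g := by group
    rw [e]; exact hg
  have ne : ∀ g : Isom6, g ≠ 1 → c⁻¹ * g * c ≠ 1 := by
    intro g hg e
    apply hg
    have e2 : g = c * (c⁻¹ * g * c) * c⁻¹ := by group
    rw [e2, e]; group
  have dis : ∀ g : Isom6, dl o ((c⁻¹ * g * c) • o) = dl (c • o) (g • c • o) := by
    intro g
    rw [mul_smul, mul_smul, dl_smul_left]
  have pw : ∀ g ∈ P, g ≠ 1 → ∀ k : ℕ, 0 < k → g ^ k ≠ 1 := fun g hg hg1 k hk e =>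
    hg1 (hP.tf g hg (isOfFinOrder_iff_pow_eq_one.mpr ⟨k, hk, e⟩))
  obtain ⟨k, hk, hkΩ⟩ := hp (c⁻¹ * a * c) (by rw [dis]; exact hxa)
  obtain ⟨l, hl, hlΩ⟩ := hp (c⁻¹ * b * c) (by rw [dis]; exact hxb)
  have key := descent_Fx hP h1 h2 h3 (P.pow_mem (mem a ha) k) (P.pow_mem (mem b hb) l)
    (pw _ (mem a ha) (ne a ha1) k hk) (pw _ (mem b hb) (ne b hb1) l hl) hkΩ hlΩ
  rw [hP.Fx_pow (mem a ha) (ne a ha1) hk, hP.Fx_pow (mem b hb) (ne b hb1) hl] at key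
  have key2 := Fx_conj_congr c key
  have e : ∀ g : Isom6, c * (c⁻¹ * g * c) * c⁻¹ = g := fun g => by group
  rwa [e, e] at key2

end Pool.Agent.MP_3fe7bf_gt.GB

/-!
The tubes around short geodesics are cocompact.
-/

namespace Pool.Agent.MP_3fe7bf_gt.GB

variable {Γ : Subgroup Isom6}

theorem lox_orth {ξ ζ w : V7} (hξ : ξ ∈ LC) (hζ : ζ ∈ LC) (hp : ¬Par ξ ζ) (h1 : lor w ξ = 0)
    (h2 : lor w ζ = 0) (h0 : w ≠ 0) : 0 < lor w w := by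
  obtain ⟨-, e2, e3⟩ := fix_sum_neg hξ hζ hp
  obtain ⟨s, -, x, hx⟩ := exists_nrm e2 e3
  refine lor_pos_of_orth x ?_ h0
  rw [hx, lor_smul_left, lor_add_left, lor_comm ξ, lor_comm ζ, h1, h2]; ring

theorem lox_proj {ξ ζ : V7} (hξ : ξ ∈ LC) (hζ : ζ ∈ LC) (hp : ¬Par ξ ζ) (u : V7) :
    0 ≤ lor u u + 2 * (lor u ξ * lor u ζ / -lor ξ ζ) := by
  have hk := (lor_neg_of_not_par hξ hζ hp).ne
  set w := u - (lor u ζ / lor ξ ζ) • ξ - (lor u ξ / lor ξ ζ) • ζ with hw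
  have h1 : lor w ξ = 0 := by
    rw [hw, lor_sub_left, lor_sub_left, lor_smul_left, lor_smul_left, hξ.1, lor_comm ζ ξ]
    field_simp; ring
  have h2 : lor w ζ = 0 := by
    rw [hw, lor_sub_left, lor_sub_left, lor_smul_left, lor_smul_left, hζ.1]
    field_simp; ring
  have h3 : lor w w = lor u u + 2 * (lor u ξ * lor u ζ / -lor ξ ζ) := by
    have : lor w w = lor w u := by
      conv_lhs => enter [2]; rw [hw]
      rw [lor_sub_right, lor_sub_right, lor_smul_right, lor_smul_right, h1, h2]; ring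
    rw [this, hw, lor_sub_left, lor_sub_left, lor_smul_left, lor_smul_left, lor_comm ξ u,
      lor_comm ζ u]
    field_simp; ring
  rw [← h3]
  by_cases h0 : w = 0
  · rw [h0, lor_zero_left]
  · exact (lox_orth hξ hζ hp h1 h2 h0).le

theorem lox_lor {b : Isom6} {ξ : V7} {l : ℝ} (hl : l ≠ 0) (h1 : b • ξ = l • ξ) (v : V7) :
    lor (b • v) ξ = l⁻¹ * lor v ξ := by
  rw [← lor_smul b v ξ, h1, lor_smul_right]; field_simp

theorem lox_disp {b : Isom6} {ξ ζ : V7} (hξ : ξ ∈ LC) (hζ : ζ ∈ LC) (hp : ¬Par ξ ζ) {l : ℝ}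
    (hl : 0 < l) (h1 : b • ξ = l • ξ) (h2 : b • ζ = l⁻¹ • ζ) (x : H6) :
    1 + lor x.val ξ * lor x.val ζ / -lor ξ ζ * (l + l⁻¹ - 2) ≤ dl x (b • x) := by
  have h := lox_proj hξ hζ hp (x.val - b • x.val)
  have e1 := lox_lor hl.ne' h1 x.val
  have e2 := lox_lor (inv_pos.2 hl).ne' h2 x.val
  rw [inv_inv] at e2
  simp only [lor_sub_left, lor_sub_right, lor_smul, x.2.1, e1, e2, lor_comm (b • x.val) x.val] at h
  have e3 : (lor x.val ξ - l⁻¹ * lor x.val ξ) * (lor x.val ζ - l * lor x.val ζ) / -lor ξ ζ =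
      -(lor x.val ξ * lor x.val ζ / -lor ξ ζ * (l + l⁻¹ - 2)) := by
    field_simp; ring
  rw [e3] at h
  simp only [dl, val_smul]
  linarith

theorem Nice.lox_gap (h : Nice Γ) {ξ ζ : V7} (hξ : ξ ∈ LC) (hζ : ζ ∈ LC) (hp : ¬Par ξ ζ) :
    ∃ δ > 0, ∀ b ∈ Γ, b ≠ 1 → ξ ∈ Fx b → ζ ∈ Fx b → ∀ x : H6,
      1 + lor x.val ξ * lor x.val ζ / -lor ξ ζ * δ ≤ dl x (b • x) := by
  obtain ⟨e1, e2, e3⟩ := fix_sum_neg hξ hζ hp
  obtain ⟨s, -, x0, hx⟩ := exists_nrm e2 e3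
  obtain ⟨δ, hδ, H⟩ := h.min_disp (dl o x0)
  refine ⟨2 * δ, by positivity, fun b hb b1 m1 m2 x => ?_⟩
  obtain ⟨l, hl, -, k1, k2⟩ := h.eig hb b1 m1 m2 hp
  have g := H x0 le_rfl b hb b1
  have n := x0.2.1
  rw [hx, lor_smul_left, lor_smul_right, e1] at n
  have d : dl x0 (b • x0) = (l + l⁻¹) / 2 := by
    simp only [dl, val_smul]
    rw [hx, smul_rsmul, smul_add b, k1, k2]
    simp only [lor_smul_left, lor_smul_right, lor_add_left, lor_add_right, hξ.1, hζ.1,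
      lor_comm ζ ξ]
    linear_combination (-(l + l⁻¹) / 2) * n
  refine le_trans ?_ (lox_disp hξ hζ hp hl k1 k2 x)
  have : 0 ≤ lor x.val ξ * lor x.val ζ / -lor ξ ζ :=
    div_nonneg (mul_pos_of_neg_of_neg (lor_neg_LC x hξ) (lor_neg_LC x hζ)).le
      (neg_pos.2 (lor_neg_of_not_par hξ hζ hp)).le
  have : 2 * δ ≤ l + l⁻¹ - 2 := by linarith
  gcongr

theorem lox_ker (ξ ζ : V7) : ∃ w : V7, w ≠ 0 ∧ 0 ≤ w 0 ∧ lor w ξ = 0 ∧ lor w ζ = 0 := by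
  let f : V7 →ₗ[ℝ] ℝ × ℝ :=
    { toFun := fun w => (lor w ξ, lor w ζ)
      map_add' := fun x y => by simp [lor_add_left]
      map_smul' := fun c x => by simp [lor_smul_left] }
  have hf : LinearMap.ker f ≠ ⊥ := LinearMap.ker_ne_bot_of_finrank_lt (by simp)
  obtain ⟨w, hw, h0⟩ := Submodule.exists_mem_ne_zero_of_ne_bot hf
  have e : (lor w ξ, lor w ζ) = (0, 0) := hw
  obtain ⟨e1, e2⟩ := Prod.mk.inj e
  rcases le_total 0 (w 0) with h | h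
  · exact ⟨w, h0, h, e1, e2⟩
  · exact ⟨-w, neg_ne_zero.2 h0, by simpa using h, by rw [lor_neg_left, e1, neg_zero],
      by rw [lor_neg_left, e2, neg_zero]⟩

theorem lox_pt {ξ ζ : V7} (hξ : ξ ∈ LC) (hζ : ζ ∈ LC) (hp : ¬Par ξ ζ) {N : ℝ} (hN : 1 ≤ N) :
    ∃ y : H6, lor y.val ξ * lor y.val ζ / -lor ξ ζ = N := by
  obtain ⟨w, h0, w0, h1, h2⟩ := lox_ker ξ ζ
  have hm := lox_orth hξ hζ hp h1 h2 h0
  have hk := neg_pos.2 (lor_neg_of_not_par hξ hζ hp)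
  obtain ⟨s, hs, es⟩ : ∃ s : ℝ, 0 < s ∧ s * s * -lor ξ ζ = N :=
    ⟨√(N / -lor ξ ζ), Real.sqrt_pos.2 (by positivity), by
      rw [Real.mul_self_sqrt (by positivity), div_mul_cancel₀ _ hk.ne']⟩
  obtain ⟨t, ht, et⟩ : ∃ t : ℝ, 0 ≤ t ∧ t * t * lor w w = 2 * N - 1 :=
    ⟨√((2 * N - 1) / lor w w), Real.sqrt_nonneg _, by
      rw [Real.mul_self_sqrt (div_nonneg (by linarith) hm.le), div_mul_cancel₀ _ hm.ne']⟩
  refine ⟨⟨s • (ξ + ζ) + t • w, ?_, ?_⟩, ?_⟩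
  · simp only [lor_smul_left, lor_smul_right, lor_add_left, lor_add_right, hξ.1, hζ.1,
      lor_comm ζ ξ, lor_comm ξ w, lor_comm ζ w, h1, h2]
    linear_combination et - 2 * es
  · have := hξ.2
    have := hζ.2
    simp only [Pi.add_apply, Pi.smul_apply, smul_eq_mul]
    positivity
  · simp only [lor_smul_left, lor_add_left, hξ.1, hζ.1, lor_comm ζ ξ, h1, h2]
    rw [div_eq_iff hk.ne']
    linear_combination (-lor ξ ζ) * es

theorem Nice.lox_far (h : Nice Γ) {a : Isom6} {ξ ζ : V7} (hξ : ξ ∈ Fx a)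
    (hζ : ζ ∈ Fx a) (hp : ¬Par ξ ζ) (C : ℝ) :
    ∃ y : H6, ∀ b ∈ Γ, b ≠ 1 → Fx b = Fx a → C ≤ dl y (b • y) := by
  obtain ⟨δ, hδ, H⟩ := h.lox_gap hξ.1 hζ.1 hp
  obtain ⟨y, hy⟩ := lox_pt hξ.1 hζ.1 hp (N := 1 + |C| / δ)
    (le_add_of_nonneg_right (by positivity))
  refine ⟨y, fun b hb b1 e => le_trans ?_ (H b hb b1 (e ▸ hξ) (e ▸ hζ) y)⟩
  rw [hy, add_mul, div_mul_cancel₀ _ hδ.ne']
  linarith [le_abs_self C]

theorem lox_zpow {b : Isom6} {ξ : V7} {l : ℝ} (hl : l ≠ 0) (e : b • ξ = l • ξ) (n : ℤ) :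
    b ^ n • ξ = l ^ n • ξ := by
  have e' : b⁻¹ • ξ = l⁻¹ • ξ := by
    rw [inv_smul_eq_iff, smul_rsmul, e, smul_smul, inv_mul_cancel₀ hl, one_smul]
  obtain ⟨m, rfl | rfl⟩ := n.eq_nat_or_neg
  · rw [zpow_natCast, zpow_natCast, fix_pow_smul e]
  · rw [zpow_neg, zpow_neg, zpow_natCast, zpow_natCast, ← inv_pow, ← inv_pow, fix_pow_smul e']

theorem lox_slide {a : Isom6} (ha : a ∈ Γ) {ξ ζ : V7} (hξ : ξ ∈ LC) (hζ : ζ ∈ LC)
    (hp : ¬Par ξ ζ) {l : ℝ} (hl : 1 < l) (h1 : a • ξ = l • ξ) (h2 : a • ζ = l⁻¹ • ζ) (K : ℝ) :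
    ∃ R, ∀ x : H6, lor x.val ξ * lor x.val ζ ≤ K → ∃ γ ∈ Γ, dl o (γ • x) ≤ R := by
  obtain ⟨-, e2, e3⟩ := fix_sum_neg hξ hζ hp
  obtain ⟨s, hs, x0, hx⟩ := exists_nrm e2 e3
  have l0 : 0 < l := by linarith
  refine ⟨2 * dl o x0 * (s * (l + K)), fun x hK => ?_⟩
  have a0 := neg_pos.2 (lor_neg_LC x hξ)
  have b0 := neg_pos.2 (lor_neg_LC x hζ)
  obtain ⟨n, n1, n2⟩ := exists_mem_Ico_zpow a0 hl
  have p : 0 < l ^ n := zpow_pos l0 n
  refine ⟨a ^ n, Γ.zpow_mem ha n, (dl_tri o x0 _).trans ?_⟩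
  have f1 := lox_lor p.ne' (lox_zpow l0.ne' h1 n) x.val
  have f2 := lox_lor (zpow_ne_zero n (inv_pos.2 l0).ne') (lox_zpow (inv_pos.2 l0).ne' h2 n) x.val
  rw [inv_zpow, inv_inv] at f2
  have d : dl x0 (a ^ n • x) = s * ((l ^ n)⁻¹ * -lor x.val ξ + l ^ n * -lor x.val ζ) := by
    simp only [dl, val_smul]
    rw [hx, lor_smul_left, lor_add_left, lor_comm ξ, lor_comm ζ, f1, f2]; ring
  have g1 : (l ^ n)⁻¹ * -lor x.val ξ ≤ l := by
    rw [inv_mul_le_iff₀ p, ← zpow_add_one₀ l0.ne']; exact n2.le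
  have g2 : l ^ n * -lor x.val ζ ≤ K := by
    refine le_trans (mul_le_mul_of_nonneg_right n1 b0.le) ?_
    linarith
  have := one_le_dl o x0
  rw [d]
  gcongr

theorem Nice.lox_bound (h : Nice Γ) {a : Isom6} (ha : a ∈ Γ) (h1 : a ≠ 1) {ξ ζ : V7}
    (hξ : ξ ∈ Fx a) (hζ : ζ ∈ Fx a) (hp : ¬Par ξ ζ) (C : ℝ) :
    ∃ R, ∀ b ∈ Γ, b ≠ 1 → Fx b = Fx a → ∀ x : H6, dl x (b • x) ≤ C →
      ∃ γ ∈ Γ, dl o (γ • x) ≤ R := by
  obtain ⟨δ, hδ, H⟩ := h.lox_gap hξ.1 hζ.1 hp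
  have hk := neg_pos.2 (lor_neg_of_not_par hξ.1 hζ.1 hp)
  obtain ⟨R, hR⟩ : ∃ R, ∀ x : H6, lor x.val ξ * lor x.val ζ ≤ C / δ * -lor ξ ζ →
      ∃ γ ∈ Γ, dl o (γ • x) ≤ R := by
    obtain ⟨l, hl, l1, k1, k2⟩ := h.eig ha h1 hξ hζ hp
    rcases lt_or_gt_of_ne l1 with l2 | l2
    · obtain ⟨R, hR⟩ := lox_slide ha hζ.1 hξ.1 (fun q => hp q.symm) ((one_lt_inv₀ hl).2 l2) k2
        (by rw [inv_inv]; exact k1) (C / δ * -lor ξ ζ)
      exact ⟨R, fun x hx => hR x (by rw [mul_comm]; exact hx)⟩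
    · exact lox_slide ha hξ.1 hζ.1 hp l2 k1 k2 _
  refine ⟨R, fun b hb b1 e x hx => hR x ?_⟩
  have := H b hb b1 (e ▸ hξ) (e ▸ hζ) x
  rw [← div_le_iff₀ hk, le_div_iff₀ hδ]
  linarith

theorem frontier_thick (h : Nice Γ) {η : ℝ} (hη : 0 < η) (hM : HM η Γ) {a : Isom6} (ha : a ∈ Γ)
    (h1 : a ≠ 1) {x y : H6} (hx : dl x (a • x) < 1 + η / 2)
    (hy : ∀ b ∈ Γ, b ≠ 1 → Fx b = Fx a → 1 + η / 2 ≤ dl y (b • y)) :
    ∃ z ∈ Thick (η / 2) Γ, ∃ b ∈ Γ, b ≠ 1 ∧ Fx b = Fx a ∧ dl z (b • z) < 1 + η := by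
  set A : Set H6 := {z | ∃ b ∈ Γ, b ≠ 1 ∧ Fx b = Fx a ∧ dl z (b • z) < 1 + η / 2} with hA
  have ho : IsOpen A := by
    refine isOpen_iff_mem_nhds.2 ?_
    rintro z ⟨b, hb, b1, e, hz⟩
    have : IsOpen {z : H6 | dl z (b • z) < 1 + η / 2} :=
      isOpen_lt (continuous_dl continuous_id (continuous_const_smul b)) continuous_const
    exact Filter.mem_of_superset (this.mem_nhds hz) fun w hw => ⟨b, hb, b1, e, hw⟩
  obtain ⟨z, z1, z2⟩ : ∃ z ∈ closure A, z ∉ A := by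
    by_contra hc
    push Not at hc
    have hcl : IsClopen A := ⟨isClosed_of_closure_subset hc, ho⟩
    have hu : y ∈ A := by
      rw [hcl.eq_univ ⟨x, a, ha, h1, rfl, hx⟩]; trivial
    obtain ⟨b, hb, b1, e, hz⟩ := hu
    exact hz.not_ge (hy b hb b1 e)
  obtain ⟨δ, hδ, H⟩ := dl_near (a := 1 + η / 2) (b := 1 + η) (by linarith)
  obtain ⟨w, w1, b, hb, b1, e, hw⟩ :=
    mem_closure_iff_nhds.1 z1 _ (ball_mem_nhds z (r := 1 + δ) (by linarith))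
  have w2 : dl w z ≤ 1 + δ := by rw [dl_comm]; exact le_of_lt w1
  have hz := H w (b • w) z (b • z) hw.le w2 (by rw [dl_smul]; exact w2)
  refine ⟨z, fun γ hγ γ1 => not_lt.1 fun hlt => z2 ⟨γ, hγ, γ1, ?_, hlt⟩, b, hb, b1, e, hz⟩
  exact (hM z γ hγ b hb γ1 b1 (by linarith) hz).trans e

theorem lox_part (h : Nice Γ) {η : ℝ} (hη : 0 < η) (hM : HM η Γ) {R0 : ℝ}
    (hR : ∀ x ∈ Thick (η / 2) Γ, ∃ γ ∈ Γ, dl o (γ • x) ≤ R0) :
    ∃ R, ∀ a ∈ Γ, a ≠ 1 → ∀ ξ ∈ Fx a, ∀ ζ ∈ Fx a, ¬Par ξ ζ → ∀ x : H6,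
      dl x (a • x) < 1 + η / 2 → ∃ γ ∈ Γ, dl o (γ • x) ≤ R := by
  have key : ∀ φ : Isom6, ∃ R, φ ∈ Γ → φ ≠ 1 → (∃ ξ ∈ Fx φ, ∃ ζ ∈ Fx φ, ¬Par ξ ζ) →
      ∀ b ∈ Γ, b ≠ 1 → Fx b = Fx φ → ∀ x : H6, dl x (b • x) ≤ 1 + η →
        ∃ γ ∈ Γ, dl o (γ • x) ≤ R := by
    intro φ
    by_cases c : φ ∈ Γ ∧ φ ≠ 1 ∧ ∃ ξ ∈ Fx φ, ∃ ζ ∈ Fx φ, ¬Par ξ ζ
    · obtain ⟨c1, c2, ξ, hξ, ζ, hζ, hp⟩ := c
      obtain ⟨R, hR⟩ := h.lox_bound c1 c2 hξ hζ hp (1 + η)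
      exact ⟨R, fun _ _ _ => hR⟩
    · exact ⟨0, fun c1 c2 c3 => absurd ⟨c1, c2, c3⟩ c⟩
  choose R hRφ using key
  obtain ⟨B, hB⟩ := ((h.fin_ball (2 * R0 * (1 + η))).image R).bddAbove
  refine ⟨B, fun a ha a1 ξ hξ ζ hζ hp x hx => ?_⟩
  obtain ⟨y, hy⟩ := h.lox_far hξ hζ hp (1 + η / 2)
  obtain ⟨z, hz, b, hb, b1, e, hd⟩ := frontier_thick h hη hM ha a1 hx hy
  obtain ⟨γ, hγ, hr⟩ := hR z hz
  have r1 : 1 ≤ R0 := (one_le_dl _ _).trans hr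
  have conj : ∀ c : Isom6, ∀ w : H6, (γ * c * γ⁻¹) • γ • w = γ • c • w := fun c w => by
    rw [mul_smul, inv_smul_smul, mul_smul]
  have mem : ∀ c ∈ Γ, γ * c * γ⁻¹ ∈ Γ := fun c hc =>
    Γ.mul_mem (Γ.mul_mem hγ hc) (Γ.inv_mem hγ)
  have ne1 : ∀ c : Isom6, c ≠ 1 → γ * c * γ⁻¹ ≠ 1 := fun c hc q => hc (by
    rwa [mul_inv_eq_one, mul_eq_left] at q)
  have hφ : R (γ * b * γ⁻¹) ≤ B := by
    refine hB ⟨_, ⟨mem b hb, γ • z, hr.trans (by nlinarith), ?_⟩, rfl⟩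
    refine (dl_tri o (γ • z) _).trans ?_
    rw [conj, dl_smul]
    have := one_le_dl z (b • z)
    gcongr
  obtain ⟨γ', hγ', hf⟩ := hRφ _ (mem b hb) (ne1 b b1)
    ⟨γ • ξ, (mem_Fx_conj γ).2 (e ▸ hξ), γ • ζ, (mem_Fx_conj γ).2 (e ▸ hζ),
      fun q => hp ((par_smul_iff γ).1 q)⟩ _ (mem a ha) (ne1 a a1) (Fx_conj_congr γ e.symm) (γ • x)
    (by rw [conj, dl_smul]; linarith)
  exact ⟨γ' * γ, Γ.mul_mem hγ' hγ, by rw [mul_smul]; exact hf.trans hφ⟩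

end Pool.Agent.MP_3fe7bf_gt.GB

/-!
The cusps of a lattice.
-/

namespace Pool.Agent.MP_3fe7bf_gt.GB

/-- `ζ` is the only fixed point at infinity of a nontrivial element -/
def IsCusp (Γ : Subgroup Isom6) (ζ : V7) : Prop :=
  ∃ a ∈ Γ, a ≠ 1 ∧ ζ ∈ Fx a ∧ ∀ ξ ∈ Fx a, Par ζ ξ

variable {Γ : Subgroup Isom6} {ζ ξ : V7} {η R0 : ℝ} {c : Isom6}

theorem IsCusp.mem_LC (hc : IsCusp Γ ζ) : ζ ∈ LC := by
  obtain ⟨_, _, _, h, _⟩ := hc
  exact h.1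

theorem cusp_conj_ne {a : Isom6} (g : Isom6) (ha : a ≠ 1) : g * a * g⁻¹ ≠ 1 := fun e =>
  ha (by simpa [mul_assoc] using congrArg (fun x => g⁻¹ * x * g) e)

theorem cusp_conj_ne' {a : Isom6} (g : Isom6) (ha : a ≠ 1) : g⁻¹ * a * g ≠ 1 := by
  simpa using cusp_conj_ne g⁻¹ ha

theorem cusp_dl_conj (g p : Isom6) (z : H6) :
    dl (g • z) ((g * p * g⁻¹) • g • z) = dl z (p • z) := by
  rw [mul_smul, mul_smul, inv_smul_smul, dl_smul]

theorem IsCusp.smul (hc : IsCusp Γ ζ) {γ : Isom6} (hγ : γ ∈ Γ) : IsCusp Γ (γ • ζ) := by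
  obtain ⟨a, ha, h1, hζ, hp⟩ := hc
  refine ⟨γ * a * γ⁻¹, Γ.mul_mem (Γ.mul_mem hγ ha) (Γ.inv_mem hγ), cusp_conj_ne γ h1,
    (mem_Fx_conj γ).2 hζ, fun θ hθ => ?_⟩
  rw [← smul_inv_smul γ θ] at hθ ⊢
  exact (hp _ ((mem_Fx_conj γ).1 hθ)).smul γ

theorem IsCusp.par (hc : IsCusp Γ ζ) (hp : Par ζ ξ) : IsCusp Γ ξ := by
  obtain ⟨a, ha, h1, hζ, hq⟩ := hc
  exact ⟨a, ha, h1, mem_Fx_of_par hζ hp, fun θ hθ => hp.symm.trans (hq θ hθ)⟩

theorem IsCusp.fix (hc : IsCusp Γ ζ) (h : Nice Γ) {γ : Isom6} (hγ : γ ∈ Γ)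
    (hp : Par ζ (γ • ζ)) : γ • ζ = ζ ∧ (γ ≠ 1 → ∀ ξ ∈ Fx γ, Par ζ ξ) := by
  have hz : ζ ∈ Fx γ := ⟨hc.mem_LC, hp⟩
  obtain ⟨a, ha, h1, -, hq⟩ := hc
  have key : γ ≠ 1 → ∀ ξ ∈ Fx γ, Par ζ ξ := fun h2 θ hθ => by
    rw [← h.Fx_eq_of_subset ha h1 hγ h2 fun θ hθ => mem_Fx_of_par hz (hq θ hθ)] at hθ
    exact hq θ hθ
  refine ⟨?_, key⟩
  by_contra hne
  obtain ⟨θ, hθ, hn⟩ := exists_second hz hne
  exact hn (key (fun e => hne (by rw [e, one_smul])) θ hθ)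

theorem cusp_Pc_fix {p : Isom6} (hp : p ∈ Pc Γ c) : (c * p * c⁻¹) • c • z0 = c • z0 := by
  rw [mul_smul, mul_smul, inv_smul_smul, hp.1]

theorem cusp_dl {p : Isom6} (hp : p ∈ Pc Γ c) {y z : H6} (e : uu z = uu y) :
    dl z (p • z) = 1 + ‖uu y - uu (p • y)‖ ^ 2 / (2 * ht z ^ 2) := by
  rw [dl_smul_chart hp.1, uu_smul_congr hp.1 e, e]

theorem cusp_thick (h : Nice Γ) (hη : 0 < η) (hM : HM η Γ) (hc : IsCusp Γ (c • z0)) (y : H6) :
    ∃ z : H6, uu z = uu y ∧ c • z ∈ Thick (η / 2) Γ ∧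
      ∃ p ∈ Pc Γ c, p ≠ 1 ∧ dl z (p • z) = 1 + η / 2 := by
  have hP := h.pc c
  obtain ⟨a, ha, h1, hζ, -⟩ := id hc
  have hp0 : c⁻¹ * a * c ∈ Pc Γ c := conj_mem_Pc ha (hc.fix h ha hζ.2).1
  obtain ⟨p, ⟨⟨hp, hpl⟩, hp1⟩, hmin⟩ := Set.exists_min_image
    ({q | q ∈ Pc Γ c ∧ dl y (q • y) ≤ dl y ((c⁻¹ * a * c) • y)} ∩ {q | q ≠ 1})
    (fun q => dl y (q • y)) ((hP.fin_pt y y _).inter_of_left _)
    ⟨_, ⟨hp0, le_rfl⟩, cusp_conj_ne' c h1⟩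
  have hy := ht_pos y
  have hmin' : ∀ q ∈ Pc Γ c, q ≠ 1 → ‖uu y - uu (p • y)‖ ^ 2 ≤ ‖uu y - uu (q • y)‖ ^ 2 := by
    intro q hq hq1
    have : dl y (p • y) ≤ dl y (q • y) := by
      by_cases hl : dl y (q • y) ≤ dl y ((c⁻¹ * a * c) • y)
      · exact hmin q ⟨⟨hq, hl⟩, hq1⟩
      · exact hpl.trans (not_le.1 hl).le
    rw [dl_smul_chart hp.1, dl_smul_chart hq.1, add_le_add_iff_left,
      div_le_div_iff_of_pos_right (by positivity)] at this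
    exact this
  have hm : 0 < ‖uu y - uu (p • y)‖ := by
    rw [norm_pos_iff, sub_ne_zero]
    exact fun e => hp1 (hP.free hp (chart_ext e.symm (ht_smul hp.1 y)))
  have hs := Real.sqrt_pos.2 hη
  obtain ⟨z, hz, hh⟩ := exists_pt (uu y) (div_pos hm hs)
  have e : ‖uu y - uu (p • y)‖ ^ 2 / (2 * ht z ^ 2) = η / 2 := by
    rw [hh, div_pow, Real.sq_sqrt hη.le]
    field_simp
  have ep : dl z (p • z) = 1 + η / 2 := by rw [cusp_dl hp hz, e]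
  refine ⟨z, hz, fun γ hγ hγ1 => ?_, p, hp, hp1, ep⟩
  by_contra hlt
  have hlt := not_le.1 hlt
  have hF := hM (c • z) _ hp.2 γ hγ (cusp_conj_ne c hp1) hγ1
    (by rw [cusp_dl_conj, ep]; linarith) (by linarith)
  have hz0 : c • z0 ∈ Fx γ := by
    rw [← hF]
    exact ⟨hc.mem_LC, by rw [cusp_Pc_fix hp]; exact Par.refl _⟩
  have hq : c⁻¹ * γ * c ∈ Pc Γ c := conj_mem_Pc hγ (hc.fix h hγ hz0.2).1
  have h2 := hmin' _ hq (cusp_conj_ne' c hγ1)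
  have h3 := cusp_dl_conj c (c⁻¹ * γ * c) z
  rw [show c * (c⁻¹ * γ * c) * c⁻¹ = γ by group, cusp_dl hq hz] at h3
  have hz' := ht_pos z
  have h4 := div_le_div_of_nonneg_right h2 (show 0 ≤ 2 * ht z ^ 2 by positivity)
  linarith

/-- the finitely many elements that move a thick point near the base point by a small amount -/
def cuspPhi (Γ : Subgroup Isom6) (η R0 : ℝ) : Set Isom6 :=
  {γ | γ ∈ Γ ∧ ∃ x : H6, dl o x ≤ 2 * R0 * (1 + η / 2) ∧ dl o (γ • x) ≤ 2 * R0 * (1 + η / 2)}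

theorem cusp_phi (h : Nice Γ) (hη : 0 < η) (hM : HM η Γ)
    (hR : ∀ x ∈ Thick (η / 2) Γ, ∃ γ ∈ Γ, dl o (γ • x) ≤ R0) (hc : IsCusp Γ (c • z0)) (y : H6) :
    ∃ z : H6, uu z = uu y ∧ c • z ∈ Thick (η / 2) Γ ∧
      (∃ p ∈ Pc Γ c, p ≠ 1 ∧ dl z (p • z) = 1 + η / 2) ∧
      ∃ γ ∈ Γ, dl o (γ • c • z) ≤ R0 ∧ ∃ φ ∈ cuspPhi Γ η R0, γ • c • z0 ∈ Fx φ ∧
        ∀ ξ ∈ Fx φ, Par (γ • c • z0) ξ := by
  obtain ⟨z, hz, hT, p, hp, hp1, ep⟩ := cusp_thick h hη hM hc y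
  obtain ⟨γ, hγ, hd⟩ := hR _ hT
  have hφ : γ * (c * p * c⁻¹) * γ⁻¹ ∈ Γ := Γ.mul_mem (Γ.mul_mem hγ hp.2) (Γ.inv_mem hγ)
  have hf : γ • c • z0 ∈ Fx (γ * (c * p * c⁻¹) * γ⁻¹) :=
    (mem_Fx_conj γ).2 ⟨hc.mem_LC, by rw [cusp_Pc_fix hp]; exact Par.refl _⟩
  refine ⟨z, hz, hT, ⟨p, hp, hp1, ep⟩, γ, hγ, hd, _, ⟨hφ, γ • c • z, ?_, ?_⟩, hf,
    ((hc.smul hγ).fix h hφ hf.2).2 (cusp_conj_ne γ (cusp_conj_ne c hp1))⟩
  · have := one_le_dl o (γ • c • z)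
    nlinarith
  · refine (dl_tri o (γ • c • z) _).trans ?_
    rw [cusp_dl_conj, cusp_dl_conj, ep]
    gcongr

theorem cusp_bd (h : Nice Γ) (hη : 0 < η) (hM : HM η Γ)
    (hR : ∀ x ∈ Thick (η / 2) Γ, ∃ γ ∈ Γ, dl o (γ • x) ≤ R0) (hc : IsCusp Γ (c • z0)) :
    ∃ R : ℝ, ∀ y : H6, ∃ z : H6, uu z = uu y ∧ c • z ∈ Thick (η / 2) Γ ∧
      (∃ p ∈ Pc Γ c, p ≠ 1 ∧ dl z (p • z) = 1 + η / 2) ∧ ∃ q ∈ Pc Γ c, dl o (q • z) ≤ R := by
  have hg : ∀ φ : Isom6, ∃ g ∈ Γ, (∃ γ ∈ Γ, γ • c • z0 ∈ Fx φ) → g • c • z0 ∈ Fx φ := by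
    intro φ
    by_cases hφ : ∃ γ ∈ Γ, γ • c • z0 ∈ Fx φ
    · obtain ⟨γ, hγ, e⟩ := hφ
      exact ⟨γ, hγ, fun _ => e⟩
    · exact ⟨1, Γ.one_mem, fun e => (hφ e).elim⟩
  choose g hg hg' using hg
  obtain ⟨B, hB⟩ := ((h.fin_ball (2 * R0 * (1 + η / 2))).image
    fun φ => dl o ((c⁻¹ * (g φ)⁻¹) • o)).bddAbove
  refine ⟨2 * B * R0, fun y => ?_⟩
  obtain ⟨z, hz, hT, hp, γ, hγ, hd, φ, hφ, hf, hpar⟩ := cusp_phi h hη hM hR hc y
  have hδ : (g φ)⁻¹ * γ ∈ Γ := Γ.mul_mem (Γ.inv_mem (hg φ)) hγ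
  have h1 : Par (c • z0) (((g φ)⁻¹ * γ) • c • z0) := by
    have := (hpar _ (hg' φ ⟨γ, hγ, hf⟩)).symm.smul (g φ)⁻¹
    rwa [inv_smul_smul, ← mul_smul] at this
  refine ⟨z, hz, hT, hp, _, conj_mem_Pc hδ (hc.fix h hδ h1).1, ?_⟩
  have h2 : dl o ((c⁻¹ * (g φ)⁻¹) • o) ≤ B := hB ⟨φ, hφ, rfl⟩
  refine (dl_tri o ((c⁻¹ * (g φ)⁻¹) • o) _).trans ?_
  rw [show c⁻¹ * ((g φ)⁻¹ * γ) * c = c⁻¹ * (g φ)⁻¹ * (γ * c) by group, mul_smul _ (γ * c), dl_smul,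
    mul_smul γ]
  have h3 := one_le_dl o ((c⁻¹ * (g φ)⁻¹) • o)
  have h4 := one_le_dl o (γ • c • z)
  gcongr
  linarith

theorem cusp_struct (h : Nice Γ) (hη : 0 < η) (hM : HM η Γ)
    (hR : ∀ x ∈ Thick (η / 2) Γ, ∃ γ ∈ Γ, dl o (γ • x) ≤ R0) (hc : IsCusp Γ (c • z0)) :
    ∃ h1 h2 R : ℝ, 0 < h1 ∧ (∀ y : H6, ∃ p ∈ Pc Γ c, ‖uu (p • y)‖ ≤ R) ∧
      (∀ y : H6, h2 < ht y → ∃ p ∈ Pc Γ c, p ≠ 1 ∧ dl y (p • y) < 1 + η / 2) ∧
      ∀ y : H6, ∀ p ∈ Pc Γ c, p ≠ 1 → dl y (p • y) < 1 + η / 2 → h1 ≤ ht y := by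
  obtain ⟨R, hR⟩ := cusp_bd h hη hM hR hc
  have hR1 : 1 ≤ R := by
    obtain ⟨z, -, -, -, q, -, hq⟩ := hR o
    exact (one_le_dl _ _).trans hq
  refine ⟨1 / (2 * R), 2 * R, 2 * R, by positivity, fun y => ?_, fun y hy => ?_,
    fun y p hp hp1 hlt => ?_⟩
  · obtain ⟨z, hz, -, -, q, hq, hd⟩ := hR y
    refine ⟨q, hq, ?_⟩
    have := norm_uu_sub_le o (q • z)
    rw [uu_o, ht_o, zero_sub, norm_neg, uu_smul_congr hq.1 hz] at this
    linarith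
  · obtain ⟨z, hz, -, ⟨p, hp, hp1, ep⟩, q, hq, hd⟩ := hR y
    refine ⟨p, hp, hp1, ?_⟩
    have h1 := ht_le_dl o (q • z)
    rw [ht_o, ht_smul hq.1] at h1
    have h2 := ht_pos z
    rw [cusp_dl hp hz] at ep
    have h3 : 0 < ‖uu y - uu (p • y)‖ ^ 2 := by
      by_contra h4
      have h5 : ‖uu y - uu (p • y)‖ ^ 2 = 0 := le_antisymm (not_lt.1 h4) (by positivity)
      rw [h5, zero_div] at ep
      linarith
    rw [dl_smul_chart hp.1, ← ep]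
    gcongr
    linarith
  · obtain ⟨z, hz, hT, -, q, hq, hd⟩ := hR y
    have h1 := ht_le_dl (q • z) o
    rw [ht_o, ht_smul hq.1, dl_comm] at h1
    have h2 := ht_pos z
    have h3 := ht_pos y
    have h4 := hT _ hp.2 (cusp_conj_ne c hp1)
    rw [cusp_dl_conj, cusp_dl hp hz] at h4
    rw [dl_smul_chart hp.1] at hlt
    have h5 : ht z ≤ ht y := by
      by_contra h6
      have h6 := (not_le.1 h6).le
      have : ‖uu y - uu (p • y)‖ ^ 2 / (2 * ht z ^ 2) ≤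
          ‖uu y - uu (p • y)‖ ^ 2 / (2 * ht y ^ 2) := by gcongr
      linarith
    refine le_trans ?_ h5
    rw [div_le_iff₀ (by positivity)]
    nlinarith

theorem cusp_finite (h : Nice Γ) (hη : 0 < η) (hM : HM η Γ)
    (hR : ∀ x ∈ Thick (η / 2) Γ, ∃ γ ∈ Γ, dl o (γ • x) ≤ R0) :
    ∃ S : Set V7, S.Finite ∧ (∀ ξ ∈ S, IsCusp Γ ξ) ∧
      ∀ ζ, IsCusp Γ ζ → ∃ ξ ∈ S, ∃ γ ∈ Γ, Par ξ (γ • ζ) := by
  have hf : ∀ φ : Isom6, ∃ θ : V7, (∃ ξ, IsCusp Γ ξ ∧ ξ ∈ Fx φ) → IsCusp Γ θ ∧ θ ∈ Fx φ := by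
    intro φ
    by_cases hφ : ∃ ξ, IsCusp Γ ξ ∧ ξ ∈ Fx φ
    · obtain ⟨θ, e⟩ := hφ
      exact ⟨θ, fun _ => e⟩
    · exact ⟨0, fun e => (hφ e).elim⟩
  choose f hf using hf
  refine ⟨f '' (cuspPhi Γ η R0 ∩ {φ | ∃ ξ, IsCusp Γ ξ ∧ ξ ∈ Fx φ}),
    ((h.fin_ball _).inter_of_left _).image _, ?_, fun ζ hζ => ?_⟩
  · rintro _ ⟨φ, hφ, rfl⟩
    exact (hf φ hφ.2).1
  · obtain ⟨c, rfl⟩ := exists_smul_LC z0_mem hζ.mem_LC
    obtain ⟨-, -, -, -, γ, hγ, -, φ, hφ, h1, h2⟩ := cusp_phi h hη hM hR hζ o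
    have h3 : ∃ ξ, IsCusp Γ ξ ∧ ξ ∈ Fx φ := ⟨_, hζ.smul hγ, h1⟩
    exact ⟨f φ, ⟨φ, ⟨hφ, h3⟩, rfl⟩, γ, hγ, (h2 _ (hf φ h3).2).symm⟩

theorem cusp_chart (h : Nice Γ) (hη : 0 < η) (hM : HM η Γ)
    (hR : ∀ x ∈ Thick (η / 2) Γ, ∃ γ ∈ Γ, dl o (γ • x) ≤ R0) (hc : IsCusp Γ ζ) :
    ∃ c : Isom6, Par ζ (c • z0) ∧
      ∀ y : H6, 1 < ht y → ∃ p ∈ Pc Γ c, p ≠ 1 ∧ dl y (p • y) < 1 + η / 2 := by
  obtain ⟨c0, rfl⟩ := exists_smul_LC z0_mem hc.mem_LC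
  obtain ⟨-, h2, -, -, -, hs, -⟩ := cusp_struct h hη hM hR hc
  have ht0 : 0 < max h2 1 := lt_max_of_lt_right one_pos
  obtain ⟨c, e⟩ := exists_smul_LC z0_mem (rsmul_mem_LC hc.mem_LC ht0)
  refine ⟨c, ⟨_, ht0, e⟩, fun y hy => ?_⟩
  have e1 : (ht y)⁻¹ = max h2 1 * (ht (c0⁻¹ • c • y))⁻¹ := by
    rw [← neg_lor_z0, ← neg_lor_z0, ← lor_smul c, e, lor_smul_right, val_smul, lor_smul_inv c0⁻¹,
      inv_inv, val_smul, mul_neg]
  have hy0 := ht_pos (c0⁻¹ • c • y)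
  have e2 : ht (c0⁻¹ • c • y) = max h2 1 * ht y := by
    field_simp at e1
    linarith
  obtain ⟨p, hp, hp1, hd⟩ := hs (c0⁻¹ • c • y) (by
    have := le_max_left h2 1
    rw [e2]
    nlinarith)
  refine ⟨_, conj_mem_Pc hp.2 (by rw [e, smul_rsmul, cusp_Pc_fix hp]),
    cusp_conj_ne' c (cusp_conj_ne c0 hp1), ?_⟩
  rw [← cusp_dl_conj c0, smul_inv_smul] at hd
  rwa [← dl_smul c, ← mul_smul c, show c * (c⁻¹ * (c0 * p * c0⁻¹) * c) = c0 * p * c0⁻¹ * c by group,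
    mul_smul]

end Pool.Agent.MP_3fe7bf_gt.GB

/-!
The thick-thin decomposition of a lattice.
-/

namespace Pool.Agent.MP_3fe7bf_gt.GB

variable {Γ : Subgroup Isom6}

/-- equivalence of lightlike directions under the group -/
def ththRel (Γ : Subgroup Isom6) (S : Set V7) : Setoid S where
  r ξ ζ := ∃ γ ∈ Γ, Par ζ.val (γ • ξ.val)
  iseqv := by
    refine ⟨fun ξ => ⟨1, Γ.one_mem, by rw [one_smul]; exact Par.refl _⟩, ?_, ?_⟩
    · rintro ξ ζ ⟨γ, hγ, h⟩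
      refine ⟨γ⁻¹, Γ.inv_mem hγ, ?_⟩
      have := h.smul γ⁻¹
      rw [inv_smul_smul] at this
      exact this.symm
    · rintro ξ ζ θ ⟨γ, hγ, h⟩ ⟨δ, hδ, h'⟩
      refine ⟨δ * γ, Γ.mul_mem hδ hγ, ?_⟩
      rw [mul_smul]
      exact h'.trans (h.smul δ)

/-- representatives of the classes of cusps -/
theorem cusp_reps {S : Set V7} (h1 : S.Finite) (h2 : ∀ ξ ∈ S, IsCusp Γ ξ)
    (h3 : ∀ ζ, IsCusp Γ ζ → ∃ ξ ∈ S, ∃ γ ∈ Γ, Par ξ (γ • ζ)) :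
    ∃ n : ℕ, ∃ v : Fin n → V7, (∀ i, IsCusp Γ (v i)) ∧
      (∀ i j, ∀ γ ∈ Γ, Par (v j) (γ • v i) → i = j) ∧
      ∀ ζ, IsCusp Γ ζ → ∃ i, ∃ γ ∈ Γ, Par (v i) (γ • ζ) := by
  have : Finite S := h1
  let e := Finite.equivFin (Quotient (ththRel Γ S))
  refine ⟨_, fun i => ((e.symm i).out : S).val, fun i => h2 _ (Subtype.prop _), ?_, ?_⟩
  · intro i j γ hγ hp
    have h4 : (ththRel Γ S).r (e.symm i).out (e.symm j).out := ⟨γ, hγ, hp⟩
    have h5 := Quotient.sound h4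
    rw [Quotient.out_eq, Quotient.out_eq] at h5
    exact e.symm.injective h5
  · intro ζ hζ
    obtain ⟨ξ, hξ, γ, hγ, hp⟩ := h3 ζ hζ
    have h4 : (ththRel Γ S).r ⟨ξ, hξ⟩ (Quotient.mk (ththRel Γ S) ⟨ξ, hξ⟩).out :=
      (ththRel Γ S).symm (Quotient.mk_out _)
    obtain ⟨δ, hδ, hq⟩ := h4
    refine ⟨e (Quotient.mk (ththRel Γ S) ⟨ξ, hξ⟩), δ * γ, Γ.mul_mem hδ hγ, ?_⟩
    simp only [Equiv.symm_apply_apply]
    rw [mul_smul]
    exact hq.trans (hp.smul δ)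

theorem thth_conj_ne {p : Isom6} (c : Isom6) (hp : p ≠ 1) : c * p * c⁻¹ ≠ 1 := by
  intro e
  apply hp
  have : p = c⁻¹ * (c * p * c⁻¹) * c := by group
  rw [this, e]; group

theorem thth_conj_dl (c p : Isom6) (y : H6) :
    dl (c • y) ((c * p * c⁻¹) • c • y) = dl y (p • y) := by
  rw [mul_smul, mul_smul, inv_smul_smul, dl_smul]

theorem thth_z0_Fx {c p : Isom6} (hp : p ∈ Pc Γ c) : z0 ∈ Fx p :=
  ⟨z0_mem, by rw [hp.1]; exact Par.refl _⟩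

/-- horoballs of depth one that meet have proportional centres -/
theorem thth_disj (h : Nice Γ) {η : ℝ} (hη : 0 < η) (hM : HM η Γ) {c d γ : Isom6} (hγ : γ ∈ Γ)
    (hd : IsCusp Γ (d • z0))
    (hc1 : ∀ y : H6, 1 < ht y → ∃ p ∈ Pc Γ c, p ≠ 1 ∧ dl y (p • y) < 1 + η / 2)
    (hd1 : ∀ y : H6, 1 < ht y → ∃ p ∈ Pc Γ d, p ≠ 1 ∧ dl y (p • y) < 1 + η / 2)
    {x : H6} (hx : x ∈ Hb (γ • c • z0) 1) (hx' : x ∈ Hb (d • z0) 1) :
    Par (d • z0) (γ • c • z0) := by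
  have e1 : x = (γ * c) • ((γ * c)⁻¹ • x) := (smul_inv_smul _ _).symm
  have e2 : x = d • (d⁻¹ • x) := (smul_inv_smul _ _).symm
  have hy : 1 < ht ((γ * c)⁻¹ • x) := by
    rw [← mem_Hb_chart (γ * c), ← e1, mul_smul]; exact hx
  have hy' : 1 < ht (d⁻¹ • x) := by
    rw [← mem_Hb_chart d, ← e2]; exact hx'
  obtain ⟨p, hp, hp1, hp2⟩ := hc1 _ hy
  obtain ⟨q, hq, hq1, hq2⟩ := hd1 _ hy'
  have ha : γ * c * p * (γ * c)⁻¹ ∈ Γ := by
    have := Γ.mul_mem (Γ.mul_mem hγ hp.2) (Γ.inv_mem hγ)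
    rwa [show γ * (c * p * c⁻¹) * γ⁻¹ = γ * c * p * (γ * c)⁻¹ by group] at this
  have hb : d * q * d⁻¹ ∈ Γ := hq.2
  have da : dl x ((γ * c * p * (γ * c)⁻¹) • x) < 1 + η := by
    have := thth_conj_dl (γ * c) p ((γ * c)⁻¹ • x)
    rw [← e1] at this
    rw [this]; linarith
  have db : dl x ((d * q * d⁻¹) • x) < 1 + η := by
    have := thth_conj_dl d q (d⁻¹ • x)
    rw [← e2] at this
    rw [this]; linarith
  have hF := hM x _ ha _ hb (thth_conj_ne _ hp1) (thth_conj_ne _ hq1) da db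
  have m1 : (γ * c) • z0 ∈ Fx (γ * c * p * (γ * c)⁻¹) := (mem_Fx_conj _).2 (thth_z0_Fx hp)
  have m2 : d • z0 ∈ Fx (d * q * d⁻¹) := (mem_Fx_conj _).2 (thth_z0_Fx hq)
  rw [hF, mul_smul] at m1
  exact (hd.fix h hb m2.2).2 (thth_conj_ne _ hq1) _ m1

/-- the thin part at one cusp: deep in the horoball, or at bounded distance modulo the group -/
theorem thth_cusp (h : Nice Γ) {η R0 : ℝ} (hη : 0 < η) (hM : HM η Γ)
    (hR : ∀ x ∈ Thick (η / 2) Γ, ∃ γ ∈ Γ, dl o (γ • x) ≤ R0) {c : Isom6}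
    (hc : IsCusp Γ (c • z0)) (M : ℝ) :
    ∃ R, ∀ a ∈ Γ, a ≠ 1 → c • z0 ∈ Fx a → ∀ x : H6, dl x (a • x) < 1 + η / 2 →
      (∃ γ ∈ Γ, dl o (γ • x) ≤ R) ∨ x ∈ Hb (c • z0) M := by
  obtain ⟨h1, h2, R, hh1, hco, -, hlow⟩ := cusp_struct h hη hM hR hc
  refine ⟨2 * dl o (c • o) * ((R ^ 2 + 1 + M ^ 2) / (2 * h1)), fun a ha a1 hF x hx => ?_⟩
  have hfix := (hc.fix h ha hF.2).1
  have hp := conj_mem_Pc ha hfix
  have hp1 : c⁻¹ * a * c ≠ 1 := by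
    have := thth_conj_ne c⁻¹ a1
    rwa [inv_inv] at this
  have e : x = c • (c⁻¹ • x) := (smul_inv_smul _ _).symm
  have hd : dl (c⁻¹ • x) ((c⁻¹ * a * c) • c⁻¹ • x) < 1 + η / 2 := by
    have := thth_conj_dl c⁻¹ a x
    rw [inv_inv] at this
    rwa [this]
  have hl := hlow _ _ hp hp1 hd
  by_cases hy : M < ht (c⁻¹ • x)
  · right
    rw [e]
    exact (mem_Hb_chart c).2 hy
  · left
    obtain ⟨q, hq, hq2⟩ := hco (c⁻¹ • x)
    refine ⟨c * q * c⁻¹, hq.2, ?_⟩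
    have hb : dl o (q • c⁻¹ • x) ≤ (R ^ 2 + 1 + M ^ 2) / (2 * h1) :=
      dl_o_le hh1 (by rw [ht_smul hq.1]; exact hl) (by rw [ht_smul hq.1]; exact not_lt.1 hy) hq2
    have ht1 := dl_tri o (c • o) (c • q • c⁻¹ • x)
    rw [dl_smul] at ht1
    rw [mul_smul, mul_smul]
    refine ht1.trans (mul_le_mul_of_nonneg_left hb ?_)
    have := one_le_dl o (c • o)
    linarith

theorem exists_TT (h : Nice Γ) (hv : FinCov Γ) : Nonempty (TT Γ) := by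
  classical
  obtain ⟨η, hη, hM0⟩ := margulis
  have hM := hM0 Γ h
  obtain ⟨R0, hR⟩ := thick_cocompact h hv (half_pos hη)
  obtain ⟨S, hS, hS1, hS2⟩ := cusp_finite h hη hM hR
  obtain ⟨n, v, hv1, hv2, hv3⟩ := cusp_reps hS hS1 hS2
  choose c hc1 hc2 using fun i => cusp_chart h hη hM hR (hv1 i)
  have hcc : ∀ i, IsCusp Γ (c i • z0) := fun i => (hv1 i).par (hc1 i)
  refine ⟨⟨n, c, ?_, ?_, ?_⟩⟩
  · intro i j γ hγ x hx hx'
    have hp := thth_disj h hη hM hγ (hcc j) (hc2 i) (hc2 j) hx hx'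
    have hij : i = j :=
      hv2 i j γ hγ (((hc1 j).trans hp).trans ((hc1 i).smul γ).symm)
    subst hij
    exact ⟨rfl, ((hcc i).fix h hγ hp).1⟩
  · intro i
    obtain ⟨_, _, R, -, hco, -⟩ := cusp_struct h hη hM hR (hcc i)
    exact ⟨R, hco⟩
  · intro M
    obtain ⟨R1, hR1⟩ := lox_part h hη hM hR
    choose R2 hR2 using fun i => thth_cusp h hη hM hR (hcc i) M
    obtain ⟨R3, hR3⟩ := (Set.finite_range R2).bddAbove
    have hR3' : ∀ i, R2 i ≤ R3 := fun i => hR3 ⟨i, rfl⟩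
    refine ⟨max R0 (max R1 R3), fun x => ?_⟩
    by_cases hx : x ∈ Thick (η / 2) Γ
    · obtain ⟨γ, hγ, hd⟩ := hR x hx
      exact ⟨γ, hγ, Or.inl (hd.trans (le_max_left _ _))⟩
    · have hx' : ∃ a ∈ Γ, a ≠ 1 ∧ dl x (a • x) < 1 + η / 2 := by
        by_contra hn
        exact hx fun a ha a1 => not_lt.1 fun hlt => hn ⟨a, ha, a1, hlt⟩
      obtain ⟨a, ha, a1, hd⟩ := hx'
      obtain ⟨ξ, hξ⟩ := h.Fx_nonempty ha a1
      by_cases hl : ∃ ζ ∈ Fx a, ¬Par ξ ζ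
      · obtain ⟨ζ, hζ, hp⟩ := hl
        obtain ⟨γ, hγ, hd'⟩ := hR1 a ha a1 ξ hξ ζ hζ hp x hd
        exact ⟨γ, hγ, Or.inl (hd'.trans ((le_max_left _ _).trans (le_max_right _ _)))⟩
      · have hcu : IsCusp Γ ξ := ⟨a, ha, a1, hξ, fun ζ hζ => by
          by_contra hn
          exact hl ⟨ζ, hζ, hn⟩⟩
        obtain ⟨i, γ, hγ, hp⟩ := hv3 ξ hcu
        have hb : γ * a * γ⁻¹ ∈ Γ := Γ.mul_mem (Γ.mul_mem hγ ha) (Γ.inv_mem hγ)
        have hF : c i • z0 ∈ Fx (γ * a * γ⁻¹) :=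
          mem_Fx_of_par ((mem_Fx_conj γ).2 hξ) (hp.symm.trans (hc1 i))
        have hd2 : dl (γ • x) ((γ * a * γ⁻¹) • γ • x) < 1 + η / 2 := by
          rwa [thth_conj_dl]
        rcases hR2 i _ hb (thth_conj_ne γ a1) hF _ hd2 with ⟨δ, hδ, hd3⟩ | hH
        · refine ⟨δ * γ, Γ.mul_mem hδ hγ, Or.inl ?_⟩
          rw [mul_smul]
          exact hd3.trans ((hR3' i).trans ((le_max_right _ _).trans (le_max_right _ _)))
        · exact ⟨γ, hγ, Or.inr ⟨i, hH⟩⟩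

end Pool.Agent.MP_3fe7bf_gt.GB

end
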