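import Pool.Agent.MP_3fe7bf_gt.Mg.GB_Vol
import Pool.Agent.MP_3fe7bf_gt.Mg.GB_Thin
import Pool.Agent.MP_3fe7bf_gt.Mg.Final

/-!
Haar measure on the isometry group is bi-invariant and projects to the hyperbolic volume.
-/

namespace Pool.Agent.MP_3fe7bf_gt.GB

open MeasureTheory

instance : MeasurableSpace Isom6 := borel Isom6

instance : BorelSpace Isom6 := ⟨rfl⟩

/-- Haar measure -/
noncomputable def mu : Measure Isom6 := Measure.haar

instance : mu.IsHaarMeasure := by unfold mu; infer_instance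

theorem haar_meas (R : ℝ) : MeasurableSet {g : Isom6 | dl o (g • o) ≤ R} :=
  (isCompact_isom R).isClosed.measurableSet

theorem haar_ne_top (R : ℝ) : mu {g : Isom6 | dl o (g • o) ≤ R} ≠ ⊤ :=
  (isCompact_isom R).measure_lt_top.ne

theorem haar_ne_zero : mu {g : Isom6 | dl o (g • o) ≤ 2} ≠ 0 := by
  have hc : Continuous fun g : Isom6 => dl o (g • o) :=
    continuous_dl continuous_const (continuous_id.smul continuous_const)
  have ho : IsOpen {g : Isom6 | dl o (g • o) < 2} := isOpen_lt hc continuous_const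
  have h1 : mu {g : Isom6 | dl o (g • o) < 2} ≠ 0 :=
    ho.measure_ne_zero mu ⟨1, by simp [dl_self]⟩
  exact fun h => h1 (measure_mono_null (fun g (hg : dl o (g • o) < 2) => hg.le) h)

theorem haar_cancel {c : NNReal}
    (h : mu {g : Isom6 | dl o (g • o) ≤ 2} = (c • mu) {g : Isom6 | dl o (g • o) ≤ 2}) : c = 1 := by
  rw [Measure.smul_apply, ENNReal.smul_def, smul_eq_mul] at h
  have h1 : (1 : ENNReal) * mu {g : Isom6 | dl o (g • o) ≤ 2} =
      c * mu {g : Isom6 | dl o (g • o) ≤ 2} := by rw [one_mul]; exact h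
  exact_mod_cast ((ENNReal.mul_left_inj haar_ne_zero (haar_ne_top 2)).1 h1).symm

theorem haar_stab {k : Isom6} (hk : k • o = o) : Measure.modularCharacterFun k = 1 := by
  apply haar_cancel
  rw [← Measure.map_right_mul_eq_modularCharacterFun_smul mu k,
    Measure.map_apply (measurable_mul_const k) (haar_meas 2)]
  congr 1
  ext g
  simp only [Set.mem_preimage, Set.mem_ofPred_eq, mul_smul, hk]

theorem haar_invol {r : Isom6} (hr : r * r = 1) : Measure.modularCharacterFun r = 1 := by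
  have h := Measure.modularCharacterFun_map_mul r r
  rw [hr, Measure.modularCharacterFun_map_one] at h
  have h1 : (Measure.modularCharacterFun r : ℝ) * Measure.modularCharacterFun r = 1 := by
    exact_mod_cast h.symm
  have h2 := (Measure.modularCharacterFun r).coe_nonneg
  have h3 : (Measure.modularCharacterFun r : ℝ) = 1 := by nlinarith
  exact_mod_cast h3

theorem modular_eq_one (g : Isom6) : Measure.modularCharacterFun g = 1 := by
  obtain ⟨r, hr, ho⟩ := exists_swap (g • o) o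
  have e : g = r * (r * g) := by rw [← mul_assoc, hr, one_mul]
  rw [e, Measure.modularCharacterFun_map_mul, haar_invol hr, one_mul]
  exact haar_stab (by rw [mul_smul, ho])

instance : mu.IsMulRightInvariant where
  map_mul_right_eq_self := by
    intro g
    rw [Measure.map_right_mul_eq_modularCharacterFun_smul mu g, modular_eq_one, one_smul]

instance : mu.IsInvInvariant where
  inv_eq_self := by
    have h := Measure.isMulLeftInvariant_eq_smul mu.inv mu
    have h1 : Measure.haarScalarFactor mu.inv mu = 1 := by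
      apply haar_cancel
      rw [← h, Measure.inv_apply]
      congr 1
      ext g
      simp only [Set.mem_inv, Set.mem_ofPred_eq, dl_o_inv]
    rw [h, h1, one_smul]

theorem mu_orbit : ∃ c : ENNReal, c ≠ ⊤ ∧
    ∀ A : Set H6, MeasurableSet A → mu {g | g • o ∈ A} ≤ c * nu A := by
  let B : Set H6 := {x | dl o x < 2}
  have hB : MeasurableSet B := (isOpen_lt (by fun_prop) continuous_const).measurableSet
  have hB0 : nu B ≠ 0 := (nu_ball_pos o (by norm_num)).ne'
  have hB1 : nu B ≠ ⊤ := (nu_lt_top_of_bdd (R := 2) fun x (hx : dl o x < 2) => hx.le).ne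
  have hc : mu {g : Isom6 | g⁻¹ • o ∈ B} ≠ ⊤ := by
    refine ne_top_of_le_ne_top (haar_ne_top 2) (measure_mono fun g hg => ?_)
    have h1 : dl o (g⁻¹ • o) < 2 := hg
    rw [dl_o_inv] at h1
    exact h1.le
  refine ⟨mu {g : Isom6 | g⁻¹ • o ∈ B} / nu B, ENNReal.div_ne_top hc hB0, fun A hA => ?_⟩
  have m1 : Measurable fun p : Isom6 × H6 => p.1 • p.2 := continuous_smul.measurable
  have m2 : Measurable fun p : Isom6 × H6 => p.1⁻¹ • p.2 :=
    (continuous_fst.inv.smul continuous_snd).measurable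
  have s1 : MeasurableSet {p : Isom6 × H6 | p.1 • p.2 ∈ A ∧ p.2 ∈ B} :=
    (m1 hA).inter (measurable_snd hB)
  have s2 : MeasurableSet {p : Isom6 × H6 | p.2 ∈ A ∧ p.1⁻¹ • p.2 ∈ B} :=
    (measurable_snd hA).inter (m2 hB)
  have e0 : mu.prod nu {p : Isom6 × H6 | p.1 • p.2 ∈ A ∧ p.2 ∈ B} =
      mu.prod nu {p : Isom6 × H6 | p.2 ∈ A ∧ p.1⁻¹ • p.2 ∈ B} := by
    rw [Measure.prod_apply s1, Measure.prod_apply s2]
    refine lintegral_congr fun g => ?_
    rw [← measure_preimage_smul (μ := nu) g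
      (Prod.mk g ⁻¹' {p : Isom6 × H6 | p.2 ∈ A ∧ p.1⁻¹ • p.2 ∈ B})]
    congr 1
    ext x
    simp only [Set.mem_preimage, Set.mem_ofPred_eq, inv_smul_smul]
  have e1 : mu.prod nu {p : Isom6 × H6 | p.1 • p.2 ∈ A ∧ p.2 ∈ B} =
      mu {g | g • o ∈ A} * nu B := by
    rw [Measure.prod_apply_symm s1, ← lintegral_indicator_const hB]
    refine lintegral_congr fun x => ?_
    by_cases hx : x ∈ B
    · obtain ⟨k, -, hk⟩ := exists_swap o x
      rw [Set.indicator_of_mem hx, ← measure_preimage_mul_right mu k {g | g • o ∈ A}]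
      congr 1
      ext g
      simp only [Set.mem_preimage, Set.mem_ofPred_eq, mul_smul, hk, hx, and_true]
    · rw [Set.indicator_of_notMem hx]
      convert measure_empty (μ := mu)
      ext g
      simp only [Set.mem_preimage, Set.mem_ofPred_eq, hx, and_false, Set.mem_empty_iff_false]
  have e2 : mu.prod nu {p : Isom6 × H6 | p.2 ∈ A ∧ p.1⁻¹ • p.2 ∈ B} =
      mu {g : Isom6 | g⁻¹ • o ∈ B} * nu A := by
    rw [Measure.prod_apply_symm s2, ← lintegral_indicator_const hA]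
    refine lintegral_congr fun x => ?_
    by_cases hx : x ∈ A
    · obtain ⟨k, -, hk⟩ := exists_swap o x
      rw [Set.indicator_of_mem hx, ← measure_preimage_mul mu k⁻¹ {g : Isom6 | g⁻¹ • o ∈ B}]
      congr 1
      ext g
      simp only [Set.mem_preimage, Set.mem_ofPred_eq, mul_inv_rev, inv_inv, mul_smul, hk, hx,
        true_and]
    · rw [Set.indicator_of_notMem hx]
      convert measure_empty (μ := mu)
      ext g
      simp only [Set.mem_preimage, Set.mem_ofPred_eq, hx, false_and, Set.mem_empty_iff_false]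
  rw [e1, e2] at e0
  rw [ENNReal.mul_comm_div, ← mul_div_assoc, ← e0, mul_div_assoc, ENNReal.div_self hB0 hB1,
    mul_one]

end Pool.Agent.MP_3fe7bf_gt.GB

/-!
Fundamental domains in the isometry group and unfolding.
-/

namespace Pool.Agent.MP_3fe7bf_gt.GB

open MeasureTheory

/-- a strict measurable fundamental domain of finite measure for right multiplication -/
structure FD (Γ : Subgroup Isom6) (F : Set Isom6) : Prop where
  meas : MeasurableSet F
  uniq : ∀ g : Isom6, ∃! γ : Γ, g * (γ : Isom6) ∈ F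
  fin : mu F ≠ ⊤

variable {Γ : Subgroup Isom6} {F : Set Isom6}

theorem fund_local (h : Nice Γ) (g : Isom6) :
    ∃ O ∈ nhds g, IsOpen O ∧ ∀ a ∈ O, ∀ γ ∈ Γ, a * γ ∈ O → γ = 1 := by
  have h1 : ({γ : Isom6 | γ ∈ Γ ∧ dl o (γ • o) ≤ 2} \ {1}).Finite := (h.fin 2).subset Set.sdiff_subset
  have h2 : IsOpen ({a : Isom6 | dl o (a • o) < 2} ∩
      ({γ : Isom6 | γ ∈ Γ ∧ dl o (γ • o) ≤ 2} \ {1})ᶜ) :=
    (isOpen_lt (by fun_prop) continuous_const).inter h1.isClosed.isOpen_compl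
  have h3 : Continuous fun p : Isom6 × Isom6 => p.1⁻¹ * p.2 := by fun_prop
  have h4 := (h2.preimage h3).mem_nhds (x := (g, g)) (by
    simp only [Set.mem_preimage, inv_mul_cancel]
    exact ⟨by simp [dl_self], fun h5 => h5.2 rfl⟩)
  rw [nhds_prod_eq, Filter.mem_prod_self_iff] at h4
  obtain ⟨t, ht, hs⟩ := h4
  refine ⟨interior t, interior_mem_nhds.mpr ht, isOpen_interior, fun a ha γ hγ hb => ?_⟩
  have h5 := hs (Set.mk_mem_prod (interior_subset ha) (interior_subset hb))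
  simp only [Set.mem_preimage, inv_mul_cancel_left] at h5
  by_contra h6
  exact h5.2 ⟨⟨hγ, le_of_lt h5.1⟩, h6⟩

theorem fund_cover (h : Nice Γ) : ∃ O : ℕ → Set Isom6, (∀ k, IsOpen (O k)) ∧
    (∀ g, ∃ k, g ∈ O k) ∧ ∀ k, ∀ a ∈ O k, ∀ γ ∈ Γ, a * γ ∈ O k → γ = 1 := by
  choose O h1 h2 h3 using fund_local h
  obtain ⟨s, hs, hc⟩ := TopologicalSpace.countable_cover_nhds h1
  have hm : ∀ g : Isom6, ∃ x ∈ s, g ∈ O x := fun g => by
    have h4 : g ∈ ⋃ x ∈ s, O x := by rw [hc]; trivial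
    simpa using h4
  obtain ⟨x, hx, -⟩ := hm 1
  obtain ⟨e, rfl⟩ := hs.exists_eq_range ⟨x, hx⟩
  refine ⟨fun k => O (e k), fun k => h2 _, fun g => ?_, fun k => h3 _⟩
  obtain ⟨_, ⟨k, rfl⟩, hk⟩ := hm g
  exact ⟨k, hk⟩

theorem fund_select (h : Nice Γ) {S : Set Isom6} (hS : MeasurableSet S)
    (hc : ∀ g : Isom6, ∃ γ : Γ, g * (γ : Isom6) ∈ S) :
    ∃ F ⊆ S, MeasurableSet F ∧ ∀ g : Isom6, ∃! γ : Γ, g * (γ : Isom6) ∈ F := by
  classical
  have := h.countable
  obtain ⟨O, h1, h2, h3⟩ := fund_cover h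
  refine ⟨⋃ k, (O k ∩ S) ∩ ⋂ j, ⋂ (_ : j < k), ⋂ γ : Γ,
    ((fun a : Isom6 => a * (γ : Isom6)) ⁻¹' (O j ∩ S))ᶜ, ?_, ?_, fun g => ?_⟩
  · exact Set.iUnion_subset fun k a ha => ha.1.2
  · refine MeasurableSet.iUnion fun k => ((h1 k).measurableSet.inter hS).inter ?_
    refine MeasurableSet.iInter fun j => MeasurableSet.iInter fun _ =>
      MeasurableSet.iInter fun γ => MeasurableSet.compl ?_
    exact measurable_mul_const _ ((h1 j).measurableSet.inter hS)
  · have hex : ∃ k, ∃ γ : Γ, g * (γ : Isom6) ∈ O k ∩ S := by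
      obtain ⟨γ, hγ⟩ := hc g
      obtain ⟨k, hk⟩ := h2 (g * γ)
      exact ⟨k, γ, hk, hγ⟩
    obtain ⟨γ, hγ⟩ := Nat.find_spec hex
    simp only [Set.mem_iUnion, Set.mem_inter_iff, Set.mem_iInter, Set.mem_compl_iff,
      Set.mem_preimage]
    refine ⟨γ, ⟨Nat.find hex, hγ, fun j hj δ hδ => Nat.find_min hex hj ⟨γ * δ, ?_⟩⟩, ?_⟩
    · rw [Subgroup.coe_mul, ← mul_assoc]
      exact hδ
    · rintro δ ⟨k, hk, hmin⟩
      have e : k = Nat.find hex := by
        refine le_antisymm (le_of_not_gt fun hlt => hmin _ hlt (δ⁻¹ * γ) ?_)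
          (Nat.find_min' hex ⟨δ, hk⟩)
        rw [Subgroup.coe_mul, Subgroup.coe_inv, mul_assoc, mul_inv_cancel_left]
        exact hγ
      subst e
      have h4 := h3 _ _ hγ.1 _ (γ⁻¹ * δ).2 (by
        rw [Subgroup.coe_mul, Subgroup.coe_inv, mul_assoc, mul_inv_cancel_left]
        exact hk.1)
      have h5 : γ⁻¹ * δ = 1 := Subtype.ext h4
      exact (inv_mul_eq_one.mp h5).symm

theorem exists_FD (h : Nice Γ) (hv : FinCov Γ) : ∃ F, FD Γ F := by
  obtain ⟨A, hA, hn, hc⟩ := hv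
  obtain ⟨c, hc0, hc1⟩ := mu_orbit
  have hm : MeasurableSet {g : Isom6 | g • o ∈ A} :=
    (by fun_prop : Continuous fun g : Isom6 => g • o).measurable hA
  obtain ⟨F, hF, h1, h2⟩ := fund_select h hm.inv fun g => by
    obtain ⟨γ, hγ, h3⟩ := hc (g⁻¹ • o)
    refine ⟨⟨γ, hγ⟩⁻¹, ?_⟩
    simpa [mul_smul] using h3
  refine ⟨F, h1, h2, ne_top_of_le_ne_top ?_ (measure_mono hF)⟩
  rw [Measure.measure_inv]
  exact ne_top_of_le_ne_top (ENNReal.mul_ne_top hc0 hn.ne) (hc1 A hA)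

theorem FD.pos (hF : FD Γ F) (h : Nice Γ) : 0 < mu.real F := by
  have := h.countable
  refine ENNReal.toReal_pos (fun h0 => ?_) hF.fin
  have h1 : mu (⋃ γ : Γ, (fun a : Isom6 => a * (γ : Isom6)) ⁻¹' F) = 0 :=
    measure_iUnion_null fun γ => by rw [measure_preimage_mul_right, h0]
  have h2 : (⋃ γ : Γ, (fun a : Isom6 => a * (γ : Isom6)) ⁻¹' F) = Set.univ :=
    Set.eq_univ_of_forall fun g => Set.mem_iUnion.mpr (hF.uniq g).exists
  rw [h2] at h1
  exact isOpen_univ.measure_ne_zero mu Set.univ_nonempty h1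

theorem fund_lintegral (hF : FD Γ F) (h : Nice Γ) {S : Set Isom6} (hS : MeasurableSet S) :
    mu S = ∫⁻ g in F, ∑' γ : Γ,
      ((fun a : Isom6 => a * (γ : Isom6)) ⁻¹' S).indicator (1 : Isom6 → ENNReal) g ∂mu := by
  have := h.countable
  rw [lintegral_tsum fun γ =>
    (measurable_one.indicator (measurable_mul_const _ hS)).aemeasurable]
  have h1 : S = ⋃ γ : Γ, S ∩ (fun a : Isom6 => a * ((γ⁻¹ : Γ) : Isom6)) ⁻¹' F := by
    refine Set.Subset.antisymm (fun g hg => ?_) (Set.iUnion_subset fun γ => Set.inter_subset_left)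
    obtain ⟨γ, hγ⟩ := (hF.uniq g).exists
    exact Set.mem_iUnion.mpr ⟨γ⁻¹, hg, by simpa using hγ⟩
  have h2 : Pairwise (Function.onFun Disjoint
      fun γ : Γ => S ∩ (fun a : Isom6 => a * ((γ⁻¹ : Γ) : Isom6)) ⁻¹' F) := by
    intro γ δ hne
    refine Set.disjoint_left.mpr fun g hg hg' => hne ?_
    exact inv_injective ((hF.uniq g).unique hg.2 hg'.2)
  conv_lhs => rw [h1]
  rw [measure_iUnion h2 fun γ => hS.inter (measurable_mul_const _ hF.meas)]
  refine tsum_congr fun γ => ?_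
  rw [lintegral_indicator_one (measurable_mul_const _ hS),
    Measure.restrict_apply (measurable_mul_const _ hS),
    ← measure_preimage_mul_right mu (γ : Isom6)]
  congr 1
  ext g
  simp

theorem fund_tsum (h : Nice Γ) {S : Set Isom6} {R : ℝ} (hb : ∀ g ∈ S, dl o (g • o) ≤ R)
    (g : Isom6) : ∑' γ : Γ,
      ((fun a : Isom6 => a * (γ : Isom6)) ⁻¹' S).indicator (1 : Isom6 → ENNReal) g =
      ({γ : Γ | g * (γ : Isom6) ∈ S}.ncard : ENNReal) := by
  have h1 : {γ : Γ | g * (γ : Isom6) ∈ S}.Finite := by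
    refine ((h.fin_pt (g⁻¹ • o) o R).preimage Subtype.val_injective.injOn).subset fun γ hγ => ?_
    refine ⟨γ.2, ?_⟩
    rw [dl_smul_left, inv_inv, ← mul_smul]
    exact hb _ hγ
  have h2 : ∀ γ : Γ,
      ((fun a : Isom6 => a * (γ : Isom6)) ⁻¹' S).indicator (1 : Isom6 → ENNReal) g =
      {γ : Γ | g * (γ : Isom6) ∈ S}.indicator (fun _ => (1 : ENNReal)) γ := fun γ => rfl
  rw [tsum_congr h2, ← tsum_subtype, ENNReal.tsum_set_one, ← h1.cast_ncard_eq]
  rfl

theorem FD.unfold (hF : FD Γ F) (h : Nice Γ) {S : Set Isom6} (hS : MeasurableSet S) {R : ℝ}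
    (hb : ∀ g ∈ S, dl o (g • o) ≤ R) :
    IntegrableOn (fun g : Isom6 => ({γ : Γ | g * (γ : Isom6) ∈ S}.ncard : ℝ)) F mu ∧
      mu.real S = ∫ g in F, ({γ : Γ | g * (γ : Isom6) ∈ S}.ncard : ℝ) ∂mu := by
  have := h.countable
  have h1 := fund_lintegral hF h hS
  have h2 : Measurable fun g : Isom6 => ∑' γ : Γ,
      ((fun a : Isom6 => a * (γ : Isom6)) ⁻¹' S).indicator (1 : Isom6 → ENNReal) g :=
    Measurable.tsum fun γ => measurable_one.indicator (measurable_mul_const _ hS)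
  simp only [fund_tsum h hb] at h1 h2
  have h3 : mu S ≠ ⊤ := ((measure_mono hb).trans_lt (isCompact_isom R).measure_lt_top).ne
  have h4 := integrable_toReal_of_lintegral_ne_top (μ := mu.restrict F) h2.aemeasurable (h1 ▸ h3)
  have h5 := integral_toReal (μ := mu.restrict F) h2.aemeasurable
    (Filter.Eventually.of_forall fun g => ENNReal.natCast_lt_top _)
  simp only [ENNReal.toReal_natCast] at h4 h5
  exact ⟨h4, by rw [h5, ← h1]; rfl⟩

/-- the isometries that make `B` meet `A` -/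
def meet (A B : Set H6) : Set Isom6 := {g | ∃ y ∈ B, g • y ∈ A}

theorem isOpen_meet {A : Set H6} (hA : IsOpen A) (B : Set H6) : IsOpen (meet A B) := by
  have e : meet A B = ⋃ y ∈ B, (fun g : Isom6 => g • y) ⁻¹' A := by
    ext g
    simp [meet]
  rw [e]
  exact isOpen_biUnion fun y _ => hA.preimage (by fun_prop)

theorem meet_bdd {A B : Set H6} (hA : Bdd A) (hB : Bdd B) :
    ∃ R, ∀ g ∈ meet A B, dl o (g • o) ≤ R := by
  obtain ⟨a, ha⟩ := hA
  obtain ⟨b, hb⟩ := hB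
  refine ⟨2 * a * b, ?_⟩
  rintro g ⟨y, hy, hg⟩
  refine (dl_tri o (g • y) (g • o)).trans ?_
  rw [dl_smul, dl_comm y o]
  have h1 := ha _ hg
  have h3 := one_le_dl o y
  have h4 := one_le_dl o (g • y)
  exact mul_le_mul (by linarith) (hb y hy) (by linarith) (by linarith)

theorem mu_meet_comm (A B : Set H6) : mu.real (meet A B) = mu.real (meet B A) := by
  have e : meet A B = (meet B A)⁻¹ := by
    ext g
    constructor
    · rintro ⟨y, hy, hg⟩
      exact ⟨g • y, hg, by rwa [inv_smul_smul]⟩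
    · rintro ⟨y, hy, hg⟩
      exact ⟨g⁻¹ • y, hg, by rwa [smul_inv_smul]⟩
  rw [e, Measure.real, Measure.measure_inv, Measure.real]

theorem FD.unfold_meet (hF : FD Γ F) (h : Nice Γ) {A B : Set H6} (hA : IsOpen A) (hA' : Bdd A)
    (hB : Bdd B) :
    IntegrableOn (fun g : Isom6 => ({γ : Γ | ∃ y ∈ B, g • (γ : Isom6) • y ∈ A}.ncard : ℝ)) F mu ∧
      mu.real (meet A B) =
        ∫ g in F, ({γ : Γ | ∃ y ∈ B, g • (γ : Isom6) • y ∈ A}.ncard : ℝ) ∂mu := by
  obtain ⟨R, hR⟩ := meet_bdd hA' hB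
  simpa only [meet, Set.mem_ofPred_eq, mul_smul] using
    hF.unfold h (isOpen_meet hA B).measurableSet hR

end Pool.Agent.MP_3fe7bf_gt.GB

/-!
Mass transport between two lattices.
-/

namespace Pool.Agent.MP_3fe7bf_gt.GB

open MeasureTheory Filter Topology

variable {Γ : Subgroup Isom6} {F : Set Isom6} {M : ℝ} {A : Set H6}

/-- the mean number of horoballs met by a translate of `A` -/
noncomputable def TT.I (D : TT Γ) (F : Set Isom6) (M : ℝ) (A : Set H6) : ℝ :=
  ∫ g in F, (D.nB M {x | g • x ∈ A} : ℝ) ∂mu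

/-- the translate of a cap to the cusp `i` -/
def TT.capc (D : TT Γ) (i : Fin D.n) (M R : ℝ) : Set H6 := {x | (D.c i)⁻¹ • x ∈ cap M R}

theorem trans_bdd (D : TT Γ) (i : Fin D.n) (hM : 0 < M) (R : ℝ) : Bdd (D.capc i M R) :=
  Bdd.preimage (cap_bdd hM R) _

theorem trans_cnt (D : TT Γ) (i : Fin D.n) (R : ℝ) (g : Isom6) :
    {γ : Γ | ∃ y ∈ D.capc i M R, g • (γ : Isom6) • y ∈ A}.ncard =
      D.cnt i M R {x | g • x ∈ A} := by
  unfold TT.cnt
  congr 1
  ext γ
  constructor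
  · rintro ⟨y, h1, h2⟩
    exact ⟨_, h1, by simpa using h2⟩
  · rintro ⟨y, h1, h2⟩
    exact ⟨D.c i • y, by simpa [TT.capc] using h1, h2⟩

/-- the kinematic formula -/
theorem Cov.kf {D : TT Γ} (C : Cov D M) (hF : FD Γ F) (h1 : IsOpen A) (h2 : HC A) (h3 : Bdd A)
    (h4 : A.Nonempty) :
    ∑ τ ∈ C.FN, (sgn τ : ℝ) * mu.real (meet A (st C.U τ)) = D.I F M A - mu.real F := by
  have H := fun τ (hτ : τ ∈ C.FN) => hF.unfold_meet C.nice h1 h3 (C.bdd_st (C.mem_FN.1 hτ).2)
  have e : ∀ g : Isom6, ∑ τ ∈ C.FN, (sgn τ : ℝ) *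
      ({γ : Γ | ∃ y ∈ st C.U τ, g • (γ : Isom6) • y ∈ A}.ncard : ℝ) =
      (D.nB M {x | g • x ∈ A} : ℝ) - 1 := fun g => by
    obtain ⟨a, ha⟩ := h4
    have h5 := C.orb_F (h2.preimage g) (h3.preimage g) ⟨g⁻¹ • a, by simpa using ha⟩
    exact_mod_cast h5
  have i1 : Integrable (fun _ : Isom6 => (1 : ℝ)) (mu.restrict F) := integrableOn_const hF.fin
  have i2 : Integrable (fun g : Isom6 => (D.nB M {x | g • x ∈ A} : ℝ) - 1) (mu.restrict F) := by
    simp only [← e]
    exact integrable_finsetSum _ fun τ hτ => (H τ hτ).1.const_mul _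
  have i3 : Integrable (fun g : Isom6 => (D.nB M {x | g • x ∈ A} : ℝ)) (mu.restrict F) := by
    simpa only [Pi.add_def, sub_add_cancel] using i2.add i1
  rw [Finset.sum_congr rfl fun τ hτ => by rw [(H τ hτ).2, ← integral_const_mul],
    ← integral_finsetSum _ fun τ hτ => (H τ hτ).1.const_mul _]
  simp only [e]
  rw [integral_sub i3 i1, setIntegral_const, smul_eq_mul, mul_one, TT.I]

theorem TT.I_nonneg (D : TT Γ) : 0 ≤ D.I F M A := by
  exact integral_nonneg fun _ => Nat.cast_nonneg _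

theorem TT.I_le (D : TT Γ) (hF : FD Γ F) (hM : 4 ≤ M) (h3 : Bdd A) :
    D.I F M A * v0 ≤ mu.real F * nu.real (N2 A) := by
  rw [TT.I, ← integral_mul_const, ← smul_eq_mul (mu.real F), ← setIntegral_const]
  refine integral_mono_of_nonneg (Eventually.of_forall fun g =>
    mul_nonneg (Nat.cast_nonneg _) v0_pos.le) (integrableOn_const hF.fin)
    (Eventually.of_forall fun g => ?_)
  exact (D.nB_le hM (h3.preimage g)).trans_eq (nu_N2_preimage A g)

theorem TT.I_lim (D : TT Γ) (h : Nice Γ) (hF : FD Γ F) (hM : 4 ≤ M) {R : Fin D.n → ℕ → ℝ}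
    (hR : ∀ i, Fol (Pc Γ (D.c i)) (R i)) (h1 : IsOpen A) (h3 : Bdd A) :
    Tendsto (fun k => ∑ i, mu.real (meet A (D.capc i M (R i k))) / NP (Pc Γ (D.c i)) (R i k))
      atTop (𝓝 (D.I F M A)) := by
  have hM0 : 0 < M := by linarith
  have H := fun i r => hF.unfold_meet h h1 h3 (trans_bdd D i hM0 r)
  simp only [trans_cnt] at H
  obtain ⟨d, hd⟩ := h3.diam
  obtain ⟨C, R1, hC, hb⟩ := D.cnt_le h d
  have e : ∀ k, ∑ i, mu.real (meet A (D.capc i M (R i k))) / NP (Pc Γ (D.c i)) (R i k) =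
      ∫ g in F, ∑ i, (D.cnt i M (R i k) {x | g • x ∈ A} : ℝ) / NP (Pc Γ (D.c i)) (R i k) ∂mu :=
    fun k => by
      rw [integral_finsetSum _ fun i _ => (H i (R i k)).1.div_const _]
      exact Finset.sum_congr rfl fun i _ => by rw [(H i (R i k)).2, integral_div]
  simp only [e]
  refine tendsto_integral_filter_of_dominated_convergence
    (fun _ => ∑ _i : Fin D.n, C * (nu.real (N2 A) / v0)) (Eventually.of_forall fun k =>
      (integrable_finsetSum _ fun i _ => (H i (R i k)).1.div_const _).aestronglyMeasurable) ?_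
    (integrableOn_const hF.fin) (Eventually.of_forall fun g => ?_)
  · filter_upwards [eventually_all.2 fun i => (hR i).1.eventually_ge_atTop R1] with k hk
    refine Eventually.of_forall fun g => ?_
    rw [Real.norm_of_nonneg (Finset.sum_nonneg fun i _ => by positivity)]
    have h5 : (D.nB M {x | g • x ∈ A} : ℝ) ≤ nu.real (N2 A) / v0 := by
      rw [le_div_iff₀ v0_pos]
      exact (D.nB_le hM (h3.preimage g)).trans_eq (nu_N2_preimage A g)
    refine Finset.sum_le_sum fun i _ => le_trans ?_ (mul_le_mul_of_nonneg_left h5 hC.le)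
    refine div_le_of_le_mul₀ (Nat.cast_nonneg _) (by positivity)
      (hb i _ (hk i) M hM0 _ fun x hx y hy => ?_)
    rw [← dl_smul g]
    exact hd _ hx _ hy
  · refine D.cnt_lim h hR (D.fin_hb h hM0 (h3.preimage g)) fun i γ _ => ?_
    obtain ⟨a, ha⟩ := (h3.preimage g).uu_le (γ * D.c i)
    exact ⟨a, fun y hy _ => ha y (by rwa [mul_smul])⟩

/-- the cusps of `Γ` contribute little to the transport from any other lattice -/
theorem TT.T_bound (D : TT Γ) (h : Nice Γ) (hv : FinCov Γ) (hF : FD Γ F) {ε : ℝ} (hε : 0 < ε) :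
    ∃ M0 : ℝ, ∀ M, M0 ≤ M → ∀ (Λ : Subgroup Isom6) (F' : Set Isom6) (D' : TT Λ) (C : Cov D' M),
      FD Λ F' → |∑ σ ∈ C.FN, (sgn σ : ℝ) * D.I F M (st C.U σ)| ≤ ε * mu.real F' := by
  have hv0 := v0_pos
  have hε' : 0 < ε * v0 / (D.n + 1) := by positivity
  choose M1 hM1 using fun i => (D.cryst h i).vol_cap (D.fin_vol h hv i) hε'
  choose R hR using fun i => (D.cryst h i).exists_fol
  obtain ⟨M2, hM2⟩ := (Set.finite_range M1).bddAbove
  refine ⟨max 4 M2, fun M hM Λ F' D' C hF' => ?_⟩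
  have hM4 : 4 ≤ M := (le_max_left _ _).trans hM
  have hM0 : 0 < M := by linarith
  choose R1 hR1 using fun i => hM1 i M ((hM2 ⟨i, rfl⟩).trans ((le_max_right _ _).trans hM))
  have hF0 : 0 ≤ mu.real F' := measureReal_nonneg
  have l1 := (tendsto_finsetSum C.FN fun σ hσ => (D.I_lim h hF hM4 hR
    (isOpen_st C.isOpen_U σ) (C.bdd_st (C.mem_FN.1 hσ).2)).const_mul (sgn σ : ℝ)).abs
  have l2 : Tendsto (fun k => ∑ i, (mu.real F' * (ε / (D.n + 1)) +
      mu.real F' / NP (Pc Γ (D.c i)) (R i k))) atTop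
      (𝓝 (∑ _i : Fin D.n, (mu.real F' * (ε / (D.n + 1)) + 0))) :=
    tendsto_finsetSum _ fun i _ => tendsto_const_nhds.add
      (tendsto_const_nhds.div_atTop ((D.cryst h i).NP_tendsto.comp (hR i).1))
  refine (le_of_tendsto_of_tendsto l1 l2 ?_).trans ?_
  · filter_upwards [eventually_all.2 fun i => (hR i).1.eventually_ge_atTop (R1 i),
      eventually_all.2 fun i => (hR i).1.eventually_gt_atTop M] with k hk hk'
    simp only [Finset.mul_sum]
    rw [Finset.sum_comm]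
    refine (Finset.abs_sum_le_sum_abs _ _).trans (Finset.sum_le_sum fun i _ => ?_)
    have hb := trans_bdd D i hM0 (R i k)
    have a1 := C.kf hF' (A := D.capc i M (R i k))
      ((isOpen_cap M _).preimage (continuous_const_smul (D.c i)⁻¹))
      ((hc_cap M _).preimage _) hb (by
        obtain ⟨y, hy⟩ := cap_nonempty hM0 (hk' i)
        exact ⟨D.c i • y, by simpa [TT.capc] using hy⟩)
    have a2 := D'.I_le hF' hM4 hb
    have a3 : nu.real (N2 (D.capc i M (R i k))) = nu.real (N2 (cap M (R i k))) :=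
      nu_N2_preimage _ _
    have a4 := mul_le_mul_of_nonneg_left (hR1 i _ (hk i)) hF0
    have a5 : 0 ≤ D'.I F' M (D.capc i M (R i k)) := D'.I_nonneg
    have a6 : (0 : ℝ) < NP (Pc Γ (D.c i)) (R i k) :=
      Nat.cast_pos.2 ((D.cryst h i).NP_pos (hM0.trans (hk' i)))
    have a7 : D'.I F' M (D.capc i M (R i k)) ≤
        mu.real F' * (ε / (D.n + 1)) * NP (Pc Γ (D.c i)) (R i k) := by
      refine le_of_mul_le_mul_right ((a2.trans_eq (by rw [a3])).trans (a4.trans_eq ?_)) hv0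
      ring
    simp only [← mul_div_assoc, mu_meet_comm (st C.U _)]
    rw [← Finset.sum_div, a1, abs_div, abs_of_pos a6, div_le_iff₀ a6, add_mul,
      div_mul_cancel₀ _ a6.ne', mul_div_assoc]
    exact abs_le.2 ⟨by linarith, by linarith⟩
  · rw [add_zero, Finset.sum_const, Finset.card_univ, Fintype.card_fin, nsmul_eq_mul,
      mul_left_comm, mul_comm ε]
    refine mul_le_mul_of_nonneg_left ?_ hF0
    rw [← mul_div_assoc, div_le_iff₀ (by positivity)]
    linarith

end Pool.Agent.MP_3fe7bf_gt.GB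

/-!
The Euler characteristic is proportional to the covolume, hence negative.
-/

namespace Pool.Agent.MP_3fe7bf_gt.GB

open MeasureTheory

theorem hasChi_unique {X : Type} [TopologicalSpace X] {a b : ℤ} (ha : HasChi X a)
    (hb : HasChi X b) : a = b := by
  have key : ∀ N N' : ℕ, N ≤ N' → (∀ n, N ≤ n → Subsingleton (Hsing ℚ n X)) →
      ∑ n ∈ Finset.range N, (-1 : ℤ) ^ n * Module.finrank ℚ (Hsing ℚ n X) =
        ∑ n ∈ Finset.range N', (-1 : ℤ) ^ n * Module.finrank ℚ (Hsing ℚ n X) := by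
    intro N N' h1 h2
    refine Finset.sum_subset (Finset.range_mono h1) fun n _ hn => ?_
    have := h2 n (by simpa using hn)
    rw [Module.finrank_zero_of_subsingleton]
    simp
  obtain ⟨-, N, h1, rfl⟩ := ha
  obtain ⟨-, N', h2, rfl⟩ := hb
  rcases le_total N N' with h | h
  · exact key N N' h h1
  · exact (key N' N h h2).symm

variable {Γ Λ : Subgroup Isom6}

theorem lat_nice (h : IsLat Γ) : Nice Γ := nice_of_discrete h.1 h.2.1

theorem lat_finCov (h : IsLat Γ) : FinCov Γ := by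
  obtain ⟨F, h1, h2, h3⟩ := h.2.2
  exact finCov_of_hvol h1 h2 h3

theorem exists_chi (h : IsLat Γ) : ∃ c, HasChi (Orb Γ) c := by
  obtain ⟨D⟩ := exists_TT (lat_nice h) (lat_finCov h)
  obtain ⟨C⟩ := exists_Cov (lat_nice h) D le_rfl
  exact ⟨_, C.chi_F⟩

theorem proportional (hΓ : IsLat Γ) (hΛ : IsLat Λ) {F F' : Set Isom6} (hF : FD Γ F)
    (hF' : FD Λ F') {a b : ℤ} (ha : HasChi (Orb Γ) a) (hb : HasChi (Orb Λ) b) :
    (a : ℝ) * mu.real F' = b * mu.real F := by
  obtain ⟨D⟩ := exists_TT (lat_nice hΓ) (lat_finCov hΓ)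
  obtain ⟨D'⟩ := exists_TT (lat_nice hΛ) (lat_finCov hΛ)
  have p := hF.pos (lat_nice hΓ)
  have p' := hF'.pos (lat_nice hΛ)
  have key : ∀ ε > 0, |(a : ℝ) * mu.real F' - b * mu.real F| ≤ ε * (mu.real F + mu.real F') := by
    intro ε hε
    obtain ⟨M1, h1⟩ := D.T_bound (lat_nice hΓ) (lat_finCov hΓ) hF hε
    obtain ⟨M2, h2⟩ := D'.T_bound (lat_nice hΛ) (lat_finCov hΛ) hF' hε
    obtain ⟨C⟩ := exists_Cov (lat_nice hΓ) D (le_max_left 1 (max M1 M2))
    obtain ⟨C'⟩ := exists_Cov (lat_nice hΛ) D' (le_max_left 1 (max M1 M2))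
    have b1 := h1 _ ((le_max_left _ _).trans (le_max_right 1 _)) Λ F' D' C' hF'
    have b2 := h2 _ ((le_max_right _ _).trans (le_max_right 1 _)) Γ F D C hF
    have ea : (a : ℝ) = -∑ σ ∈ C.FN, (sgn σ : ℝ) := by
      rw [hasChi_unique ha C.chi_F]; push_cast; rfl
    have eb : (b : ℝ) = -∑ σ ∈ C'.FN, (sgn σ : ℝ) := by
      rw [hasChi_unique hb C'.chi_F]; push_cast; rfl
    have s1 : ∑ σ ∈ C.FN, ∑ τ ∈ C'.FN, (sgn σ : ℝ) * sgn τ * mu.real (meet (st C.U σ) (st C'.U τ)) =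
        ∑ σ ∈ C.FN, (sgn σ : ℝ) * D'.I F' (max 1 (max M1 M2)) (st C.U σ) + a * mu.real F' := by
      rw [ea, neg_mul, Finset.sum_mul, ← sub_eq_add_neg, ← Finset.sum_sub_distrib]
      refine Finset.sum_congr rfl fun σ hσ => ?_
      have hσ' := C.mem_FN.mp hσ
      rw [← mul_sub, ← C'.kf hF' (isOpen_st C.isOpen_U σ) (hc_st C.hc_U σ) (C.bdd_st hσ'.2)
        hσ'.1.1, Finset.mul_sum]
      exact Finset.sum_congr rfl fun τ _ => mul_assoc _ _ _
    have s2 : ∑ τ ∈ C'.FN, ∑ σ ∈ C.FN, (sgn σ : ℝ) * sgn τ * mu.real (meet (st C.U σ) (st C'.U τ)) =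
        ∑ τ ∈ C'.FN, (sgn τ : ℝ) * D.I F (max 1 (max M1 M2)) (st C'.U τ) + b * mu.real F := by
      rw [eb, neg_mul, Finset.sum_mul, ← sub_eq_add_neg, ← Finset.sum_sub_distrib]
      refine Finset.sum_congr rfl fun τ hτ => ?_
      have hτ' := C'.mem_FN.mp hτ
      rw [← mul_sub, ← C.kf hF (isOpen_st C'.isOpen_U τ) (hc_st C'.hc_U τ) (C'.bdd_st hτ'.2)
        hτ'.1.1, Finset.mul_sum]
      exact Finset.sum_congr rfl fun σ _ => by rw [mu_meet_comm]; ring
    rw [Finset.sum_comm, s2] at s1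
    rw [abs_le] at b1 b2 ⊢
    constructor <;> nlinarith [b1.1, b1.2, b2.1, b2.2]
  have h0 : |(a : ℝ) * mu.real F' - b * mu.real F| ≤ 0 := by
    refine le_of_forall_pos_le_add fun ε hε => ?_
    have := key (ε / (mu.real F + mu.real F')) (by positivity)
    rwa [div_mul_cancel₀ _ (by positivity), ← zero_add ε] at this
  exact sub_eq_zero.mp (abs_nonpos_iff.mp h0)

theorem witness : ∃ Γ : Subgroup Isom6, IsLat Γ ∧ Infinite (Hsing ℤ 1 (Orb Γ)) ∧
    HasChi (Orb Γ) (-1) := by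
  obtain ⟨Γ, h1, h2, h3, h4, h5, h6, h7⟩ := final
  exact ⟨Γ, ⟨h1, h2, h3⟩, h4, h5, 7, fun n hn => h6 n (by omega), h7.symm⟩

theorem chi_le (h : IsLat Γ) : ∃ c : ℤ, c ≤ -1 ∧ HasChi (Orb Γ) c := by
  obtain ⟨c, hc⟩ := exists_chi h
  obtain ⟨Λ, hΛ, -, hb⟩ := witness
  obtain ⟨F, hF⟩ := exists_FD (lat_nice h) (lat_finCov h)
  obtain ⟨F', hF'⟩ := exists_FD (lat_nice hΛ) (lat_finCov hΛ)
  have e := proportional h hΛ hF hF' hc hb
  have p := hF.pos (lat_nice h)
  have p' := hF'.pos (lat_nice hΛ)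
  have : (c : ℝ) < 0 := by
    by_contra hn
    have := mul_nonneg (not_lt.mp hn) p'.le
    push_cast at e
    linarith
  have : c < 0 := by exact_mod_cast this
  exact ⟨c, by omega, hc⟩

end Pool.Agent.MP_3fe7bf_gt.GB
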