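import Pool.Agent.MP_3fe7bf_gt.Mg.Hyp
import Pool.Agent.MP_3fe7bf_gt.Mg.Chain
import Pool.Agent.MP_3fe7bf_gt.Mg.Vol

-- part MP_3fe7bf_gt.GB.Geom
section

/-!
Lorentzian linear algebra: the function `dl` (hyperbolic cosine of the distance), reflections,
the light cone, normalisation.
-/

namespace Pool.Agent.MP_3fe7bf_gt.GB

open Matrix

abbrev V7 : Type := Fin 7 → ℝ

theorem lor_comm (x y : V7) : lor x y = lor y x := by simp only [lor_eq]; ring
theorem lor_add_left (x y z : V7) : lor (x + y) z = lor x z + lor y z := by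
  simp only [lor_eq, Pi.add_apply]; ring
theorem lor_add_right (x y z : V7) : lor x (y + z) = lor x y + lor x z := by
  simp only [lor_eq, Pi.add_apply]; ring
theorem lor_sub_left (x y z : V7) : lor (x - y) z = lor x z - lor y z := by
  simp only [lor_eq, Pi.sub_apply]; ring
theorem lor_sub_right (x y z : V7) : lor x (y - z) = lor x y - lor x z := by
  simp only [lor_eq, Pi.sub_apply]; ring
theorem lor_smul_left (c : ℝ) (x y : V7) : lor (c • x) y = c * lor x y := by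
  simp only [lor_eq, Pi.smul_apply, smul_eq_mul]; ring
theorem lor_smul_right (c : ℝ) (x y : V7) : lor x (c • y) = c * lor x y := by
  simp only [lor_eq, Pi.smul_apply, smul_eq_mul]; ring
theorem lor_neg_left (x y : V7) : lor (-x) y = -lor x y := by
  simp only [lor_eq, Pi.neg_apply]; ring
theorem lor_neg_right (x y : V7) : lor x (-y) = -lor x y := by
  simp only [lor_eq, Pi.neg_apply]; ring
theorem lor_zero_left (x : V7) : lor 0 x = 0 := by simp [lor]
theorem lor_zero_right (x : V7) : lor x 0 = 0 := by simp [lor]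

@[fun_prop]
theorem continuous_lor {α : Type*} [TopologicalSpace α] {f g : α → V7} (hf : Continuous f)
    (hg : Continuous g) : Continuous fun a => lor (f a) (g a) := by
  simp only [lor_eq]; fun_prop

theorem smul_vec (g : Isom6) (v : V7) : g • v = g.val.val *ᵥ v := rfl
theorem val_smul (g : Isom6) (x : H6) : (g • x).val = g • x.val := rfl
theorem lor_smul (g : Isom6) (x y : V7) : lor (g • x) (g • y) = lor x y := g.2.1 x y
theorem lor_smul_inv (g : Isom6) (x y : V7) : lor (g • x) y = lor x (g⁻¹ • y) := by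
  rw [← lor_smul g x (g⁻¹ • y), smul_inv_smul]
theorem smul_rsmul (g : Isom6) (c : ℝ) (v : V7) : g • c • v = c • g • v := smul_comm g c v

theorem isom_ext {g h : Isom6} (H : ∀ v : V7, g • v = h • v) : g = h := by
  apply Subtype.ext
  apply Units.ext
  exact Matrix.ext_iff_mulVec.2 H

/-- the base point -/
def o : H6 := ⟨Pi.single 0 1, by simp [lor], by simp⟩

/-- hyperbolic cosine of the hyperbolic distance -/
def dl (x y : H6) : ℝ := -lor x.val y.val

theorem dl_comm (x y : H6) : dl x y = dl y x := by simp only [dl, lor_comm x.val]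
theorem dl_self (x : H6) : dl x x = 1 := by simp only [dl, x.2.1, neg_neg]
theorem dl_smul (g : Isom6) (x y : H6) : dl (g • x) (g • y) = dl x y := by
  simp only [dl, val_smul, lor_smul]
theorem dl_smul_left (g : Isom6) (x y : H6) : dl (g • x) y = dl x (g⁻¹ • y) := by
  rw [← dl_smul g x (g⁻¹ • y), smul_inv_smul]
theorem dl_o (x : H6) : dl o x = x.val 0 := by simp [dl, o, lor]

@[fun_prop]
theorem continuous_dl {α : Type*} [TopologicalSpace α] {f g : α → H6} (hf : Continuous f)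
    (hg : Continuous g) : Continuous fun a => dl (f a) (g a) := by
  unfold dl; fun_prop

theorem lor_aux_zero {w : V7} (h0 : w 0 = 0) (h : lor w w ≤ 0) : w = 0 := by
  unfold lor at h
  rw [h0, mul_zero, neg_zero, zero_add] at h
  have h1 : ∑ i : Fin 6, w i.succ * w i.succ = 0 :=
    le_antisymm h (Finset.sum_nonneg fun i _ => mul_self_nonneg _)
  rw [Finset.sum_eq_zero_iff_of_nonneg fun i _ => mul_self_nonneg _] at h1
  funext i
  refine Fin.cases h0 (fun i => ?_) i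
  exact mul_self_eq_zero.1 (h1 i (Finset.mem_univ i))

theorem lor_aux_orth (x : H6) {w : V7} (h : lor x.val w = 0) (h0 : w ≠ 0) : 0 < lor w w := by
  by_contra hn
  rw [not_lt] at hn
  have hc := lor_cs x.val w
  rw [h, x.2.1, zero_add] at hc
  have hx := one_le_of_lor x.2.1
  have h1 : (-1 + x.val 0 * x.val 0) * lor w w ≤ 0 :=
    mul_nonpos_of_nonneg_of_nonpos (by linarith) hn
  have h2 : w 0 * w 0 ≤ 0 := by nlinarith
  exact h0 (lor_aux_zero (mul_self_eq_zero.1 (le_antisymm h2 (mul_self_nonneg _))) hn)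

theorem lor_aux_o (w : V7) : lor o.val w = -w 0 := by simp [o, lor]

theorem one_le_dl (x y : H6) : 1 ≤ dl x y := by
  have h := lor_cs x.val y.val
  rw [x.2.1, y.2.1] at h
  have hx := one_le_zero x
  have hy := one_le_zero y
  have h1 : 1 ≤ x.val 0 * y.val 0 := by nlinarith
  have h2 : (lor x.val y.val + x.val 0 * y.val 0) ^ 2 ≤ (x.val 0 * y.val 0 - 1) ^ 2 := by
    nlinarith [sq_nonneg (x.val 0 - y.val 0)]
  have h3 := (abs_le_of_sq_le_sq' h2 (by linarith)).2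
  unfold dl
  linarith

theorem eq_of_dl_le_one {x y : H6} (h : dl x y ≤ 1) : x = y := by
  have h1 : lor x.val y.val = -1 := by
    have := one_le_dl x y
    unfold dl at h this
    linarith
  by_contra hne
  have h2 : x.val - y.val ≠ 0 := fun h0 => hne (Subtype.ext (sub_eq_zero.1 h0))
  have h3 := lor_aux_orth x (w := x.val - y.val) (by rw [lor_sub_right, x.2.1, h1]; ring) h2
  rw [lor_sub_left, lor_sub_right, lor_sub_right, x.2.1, y.2.1, lor_comm y.val, h1] at h3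
  linarith

/-- a reflection in a spacelike vector -/
theorem exists_refl {v : V7} (hv : 0 < lor v v) :
    ∃ g : Isom6, g * g = 1 ∧ ∀ w : V7, g • w = w - (2 * lor w v / lor v v) • v := by
  let r : V7 →ₗ[ℝ] V7 :=
    { toFun := fun w => w - (2 * lor w v / lor v v) • v
      map_add' := fun a b => by
        rw [lor_add_left, mul_add, add_div, add_smul]
        abel
      map_smul' := fun c a => by
        rw [lor_smul_left, RingHom.id_apply, smul_sub, smul_smul]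
        congr 2
        ring }
  have hr : ∀ w, r w = w - (2 * lor w v / lor v v) • v := fun w => rfl
  have hlv : ∀ w, lor (r w) v = -lor w v := fun w => by
    rw [hr, lor_sub_left, lor_smul_left]
    field_simp
    ring
  have hrr : ∀ w, r (r w) = w := fun w => by
    rw [hr (r w), hlv, hr, mul_neg, neg_div, neg_smul]
    abel
  have hl : ∀ a b, lor (r a) (r b) = lor a b := fun a b => by
    rw [hr b, lor_sub_right, lor_smul_right, hlv, hr, lor_sub_left, lor_smul_left, lor_comm v b]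
    field_simp
    ring
  have hA : ∀ x, lor x x = -1 → 0 < x 0 → 0 < r x 0 := by
    intro x hx hx0
    have h1 : lor (r x) (r x) = -1 := by rw [hl, hx]
    have h2 := one_le_of_lor h1
    by_contra hn
    rw [not_lt] at hn
    have h3 : r x 0 < 0 := lt_of_le_of_ne hn fun h0 => by
      rw [h0] at h2
      linarith
    have h4 := lor_neg_of_future (y := -r x) hx (by rw [lor_neg_neg, h1])
      hx0 (by simpa using h3)
    rw [lor_neg_right, hr, lor_sub_right, lor_smul_right, hx] at h4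
    have h5 : 0 ≤ 2 * lor x v / lor v v * lor x v := by
      rw [div_mul_eq_mul_div, mul_assoc]
      exact div_nonneg (mul_nonneg zero_le_two (mul_self_nonneg _)) hv.le
    linarith
  have hM : ∀ w, LinearMap.toMatrix' r *ᵥ w = r w := fun w => LinearMap.toMatrix'_mulVec r w
  have hMM : LinearMap.toMatrix' r * LinearMap.toMatrix' r = 1 :=
    Matrix.ext_iff_mulVec.2 fun w => by rw [← mulVec_mulVec, hM, hM, hrr, one_mulVec]
  refine ⟨⟨⟨LinearMap.toMatrix' r, LinearMap.toMatrix' r, hMM, hMM⟩, fun a b => ?_,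
    fun x hx => ?_⟩, Subtype.ext (Units.ext hMM), fun w => hM w⟩
  · show lor (LinearMap.toMatrix' r *ᵥ a) (LinearMap.toMatrix' r *ᵥ b) = _
    rw [hM, hM, hl]
  · show 0 < (LinearMap.toMatrix' r *ᵥ x) 0 ↔ _
    rw [hM]
    refine ⟨fun h => ?_, hA x hx⟩
    have := hA (r x) (by rw [hl, hx]) h
    rwa [hrr] at this

theorem exists_swap (x y : H6) : ∃ g : Isom6, g * g = 1 ∧ g • x = y := by
  by_cases h : x = y
  · exact ⟨1, mul_one 1, by rw [one_smul, h]⟩
  have h1 : 1 < dl x y := lt_of_not_ge fun h' => h (eq_of_dl_le_one h')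
  unfold dl at h1
  have h2 : lor (x.val - y.val) (x.val - y.val) = 2 * (-1 - lor x.val y.val) := by
    rw [lor_sub_left, lor_sub_right, lor_sub_right, x.2.1, y.2.1, lor_comm y.val]
    ring
  have h3 : 0 < -1 - lor x.val y.val := by linarith
  obtain ⟨g, hg, hw⟩ := exists_refl (v := x.val - y.val) (by rw [h2]; linarith)
  refine ⟨g, hg, Subtype.ext ?_⟩
  rw [val_smul, hw, h2, lor_sub_right, x.2.1, div_self (by linarith), one_smul]
  abel

theorem dl_add (x y z : H6) :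
    dl x z ≤ dl x y * dl y z + √(dl x y ^ 2 - 1) * √(dl y z ^ 2 - 1) := by
  obtain ⟨g, -, hg⟩ := exists_swap y o
  rw [← dl_smul g x z, ← dl_smul g x y, ← dl_smul g y z, hg, dl_comm _ o, dl_o, dl_o]
  generalize g • x = a
  generalize g • z = c
  have h := lor_cs a.val c.val
  rw [a.2.1, c.2.1] at h
  have ha := one_le_of_lor a.2.1
  rw [← Real.sqrt_mul (by nlinarith)]
  have h1 : |lor a.val c.val + a.val 0 * c.val 0| ≤ √((a.val 0 ^ 2 - 1) * (c.val 0 ^ 2 - 1)) :=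
    Real.abs_le_sqrt (by nlinarith)
  have h2 := (abs_le.1 h1).1
  unfold dl
  linarith

theorem lor_aux_sqrt (x y : H6) : √(dl x y ^ 2 - 1) ≤ dl x y :=
  Real.sqrt_le_iff.2 ⟨by linarith [one_le_dl x y], by linarith⟩

theorem dl_tri (x y z : H6) : dl x z ≤ 2 * dl x y * dl y z := by
  have h := dl_add x y z
  have h1 := lor_aux_sqrt x y
  have h2 := lor_aux_sqrt y z
  have h3 := mul_le_mul h1 h2 (Real.sqrt_nonneg _) (by linarith [one_le_dl x y])
  linarith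

theorem dl_le_of_le {x y z : H6} {a : ℝ} (h1 : dl x y ≤ a) (h2 : dl y z ≤ a) :
    dl x z ≤ 2 * a ^ 2 - 1 := by
  have h := dl_add x y z
  have p1 := one_le_dl x y
  have p2 := one_le_dl y z
  have q1 : √(dl x y ^ 2 - 1) ≤ √(a ^ 2 - 1) := Real.sqrt_le_sqrt (by nlinarith)
  have q2 : √(dl y z ^ 2 - 1) ≤ √(a ^ 2 - 1) := Real.sqrt_le_sqrt (by nlinarith)
  have h3 := mul_le_mul q1 q2 (Real.sqrt_nonneg _) (Real.sqrt_nonneg _)
  rw [Real.mul_self_sqrt (x := a ^ 2 - 1) (by nlinarith)] at h3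
  have h4 := mul_le_mul h1 h2 (by linarith) (by linarith)
  nlinarith

theorem lor_aux_step {x y z : H6} {a s : ℝ} (h1 : dl x y ≤ a) (h2 : dl y z ≤ s) :
    dl x z ≤ a * (s + √(s ^ 2 - 1)) := by
  have h := dl_add x y z
  have p1 := one_le_dl x y
  have p2 := one_le_dl y z
  have q2 : √(dl y z ^ 2 - 1) ≤ √(s ^ 2 - 1) := Real.sqrt_le_sqrt (by nlinarith)
  have h3 := mul_le_mul ((lor_aux_sqrt x y).trans h1) q2 (Real.sqrt_nonneg _) (by linarith)
  have h4 := mul_le_mul h1 h2 (by linarith) (by linarith)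
  linarith

/-- small perturbations of the end points change `dl` little, uniformly for bounded `dl` -/
theorem dl_near {a b : ℝ} (hab : a < b) : ∃ δ > 0, ∀ x y x' y' : H6,
    dl x y ≤ a → dl x x' ≤ 1 + δ → dl y y' ≤ 1 + δ → dl x' y' < b := by
  have hc : Continuous fun δ : ℝ =>
      a * (1 + δ + √((1 + δ) ^ 2 - 1)) * (1 + δ + √((1 + δ) ^ 2 - 1)) := by
    fun_prop
  have h0 : ∀ᶠ δ : ℝ in nhds 0,
      a * (1 + δ + √((1 + δ) ^ 2 - 1)) * (1 + δ + √((1 + δ) ^ 2 - 1)) < b :=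
    (hc.tendsto 0).eventually (gt_mem_nhds (by simpa using hab))
  obtain ⟨δ, h1, h2⟩ := ((h0.filter_mono nhdsWithin_le_nhds).and
    (self_mem_nhdsWithin (s := Set.Ioi (0 : ℝ)))).exists
  refine ⟨δ, h2, fun x y x' y' hxy hx hy => lt_of_le_of_lt ?_ h1⟩
  rw [dl_comm] at hxy
  have h3 := lor_aux_step hxy hx
  rw [dl_comm] at h3
  exact lor_aux_step h3 hy

theorem isCompact_ball (c : H6) (R : ℝ) : IsCompact {x : H6 | dl c x ≤ R} := by
  have hK : IsCompact (H6Homeo ⁻¹' Metric.closedBall 0 (2 * dl o c * R)) :=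
    H6Homeo.isCompact_preimage.2 (isCompact_closedBall _ _)
  refine hK.of_isClosed_subset (isClosed_le (by fun_prop) continuous_const) fun x hx => ?_
  have hx' : dl c x ≤ R := hx
  have h1 : x.val 0 ≤ 2 * dl o c * R := by
    have := dl_tri o c x
    rw [dl_o x] at this
    exact this.trans (mul_le_mul_of_nonneg_left hx' (by linarith [one_le_dl o c]))
  have h2 := x.2.2
  rw [Set.mem_preimage, mem_closedBall_zero_iff, pi_norm_le_iff_of_nonneg (by linarith)]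
  intro i
  have h3 : x.val i.succ * x.val i.succ ≤ ∑ j : Fin 6, x.val j.succ * x.val j.succ :=
    Finset.single_le_sum (f := fun j : Fin 6 => x.val j.succ * x.val j.succ)
      (fun j _ => mul_self_nonneg _) (Finset.mem_univ i)
  have h4 := x.2.1
  unfold lor at h4
  have h5 : |x.val i.succ| ≤ x.val 0 := abs_le_of_sq_le_sq (by nlinarith) h2.le
  exact h5.trans h1

theorem bdd_of_isCompact {K : Set H6} (hK : IsCompact K) : ∃ R, ∀ x ∈ K, dl o x ≤ R := by
  obtain ⟨R, hR⟩ := hK.bddAbove_image (f := fun x => dl o x) (by fun_prop)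
  exact ⟨R, fun x hx => hR ⟨x, hx, rfl⟩⟩

theorem ball_mem_nhds (x : H6) {r : ℝ} (hr : 1 < r) : {y : H6 | dl x y < r} ∈ nhds x :=
  (isOpen_lt (by fun_prop) continuous_const).mem_nhds (by simpa [dl_self] using hr)

/-- the future light cone -/
def LC : Set V7 := {ζ | lor ζ ζ = 0 ∧ 0 < ζ 0}

/-- proportional vectors -/
def Par (ξ ζ : V7) : Prop := ∃ t : ℝ, 0 < t ∧ ζ = t • ξ

theorem Par.refl (ξ : V7) : Par ξ ξ := ⟨1, one_pos, (one_smul _ _).symm⟩
theorem Par.symm {ξ ζ : V7} (h : Par ξ ζ) : Par ζ ξ := by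
  obtain ⟨t, ht, rfl⟩ := h
  exact ⟨t⁻¹, inv_pos.mpr ht, by rw [smul_smul, inv_mul_cancel₀ ht.ne', one_smul]⟩
theorem Par.trans {ξ ζ θ : V7} (h : Par ξ ζ) (h' : Par ζ θ) : Par ξ θ := by
  obtain ⟨t, ht, rfl⟩ := h
  obtain ⟨s, hs, rfl⟩ := h'
  exact ⟨s * t, mul_pos hs ht, by rw [smul_smul]⟩
theorem Par.smul {ξ ζ : V7} (h : Par ξ ζ) (g : Isom6) : Par (g • ξ) (g • ζ) := by
  obtain ⟨t, ht, rfl⟩ := h
  exact ⟨t, ht, smul_rsmul g t ξ⟩
theorem par_smul_iff (g : Isom6) {ξ ζ : V7} : Par (g • ξ) (g • ζ) ↔ Par ξ ζ :=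
  ⟨fun h => by simpa using h.smul g⁻¹, fun h => h.smul g⟩

theorem rsmul_mem_LC {ζ : V7} (h : ζ ∈ LC) {t : ℝ} (ht : 0 < t) : t • ζ ∈ LC :=
  ⟨by rw [lor_smul_left, lor_smul_right, h.1]; ring, mul_pos ht h.2⟩

theorem lor_neg_LC (x : H6) {ζ : V7} (h : ζ ∈ LC) : lor x.val ζ < 0 := by
  have hc := lor_cs x.val ζ
  rw [x.2.1, h.1] at hc
  have h1 := mul_pos x.2.2 h.2
  have h2 := mul_pos h.2 h.2
  by_contra hn
  rw [not_lt] at hn
  nlinarith

theorem lor_aux_or {w : V7} (h : lor w w = 0) (h0 : w ≠ 0) : w ∈ LC ∨ -w ∈ LC := by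
  rcases lt_trichotomy (w 0) 0 with h1 | h1 | h1
  · exact Or.inr ⟨by rw [lor_neg_neg, h], by simpa using h1⟩
  · exact absurd (lor_aux_zero h1 h.le) h0
  · exact Or.inl ⟨h, h1⟩

theorem smul_mem_LC (g : Isom6) {ζ : V7} (h : ζ ∈ LC) : g • ζ ∈ LC := by
  have h1 : lor (g • ζ) (g • ζ) = 0 := by rw [lor_smul, h.1]
  have h2 : lor (g • o).val (g • ζ) < 0 := by
    rw [val_smul, lor_smul]
    exact lor_neg_LC o h
  have h3 : g • ζ ≠ 0 := fun h0 => by
    rw [h0, lor_zero_right] at h2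
    exact lt_irrefl _ h2
  rcases lor_aux_or h1 h3 with h4 | h4
  · exact h4
  · have := lor_neg_LC (g • o) h4
    rw [lor_neg_right] at this
    linarith

theorem lor_neg_of_not_par {ξ ζ : V7} (hξ : ξ ∈ LC) (hζ : ζ ∈ LC) (h : ¬Par ξ ζ) :
    lor ξ ζ < 0 := by
  have hc := lor_cs ξ ζ
  rw [hξ.1, hζ.1] at hc
  have h1 := mul_pos hξ.2 hζ.2
  have h2 : lor ξ ζ ≤ 0 := by
    by_contra hn
    rw [not_le] at hn
    nlinarith
  refine lt_of_le_of_ne h2 fun h0 => h ?_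
  have h3 : ζ 0 • ξ - ξ 0 • ζ = 0 := by
    refine lor_aux_zero (by simp [mul_comm]) (le_of_eq ?_)
    simp only [lor_sub_left, lor_sub_right, lor_smul_left, lor_smul_right, hξ.1, hζ.1, h0,
      lor_comm ζ ξ]
    ring
  refine ⟨(ξ 0)⁻¹ * ζ 0, mul_pos (inv_pos.2 hξ.2) hζ.2, ?_⟩
  rw [mul_smul, sub_eq_zero.1 h3, smul_smul, inv_mul_cancel₀ hξ.2.ne', one_smul]

theorem lor_eq_zero_of_par {ξ ζ : V7} (hξ : ξ ∈ LC) (h : Par ξ ζ) : lor ξ ζ = 0 := by
  obtain ⟨t, -, rfl⟩ := h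
  rw [lor_smul_right, hξ.1, mul_zero]

theorem pos_of_rsmul_mem_LC {ξ : V7} (hξ : ξ ∈ LC) {t : ℝ} (h : t • ξ ∈ LC) : 0 < t :=
  pos_of_mul_pos_left h.2 hξ.2.le

theorem mem_LC_or {w : V7} (h : lor w w = 0) (h0 : w ≠ 0) : w ∈ LC ∨ -w ∈ LC := by
  exact lor_aux_or h h0

/-- a vector orthogonal to a point of hyperbolic space is spacelike or zero -/
theorem lor_pos_of_orth (x : H6) {w : V7} (h : lor x.val w = 0) (h0 : w ≠ 0) : 0 < lor w w := by
  exact lor_aux_orth x h h0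

theorem lor_aux_LC {ξ ζ : V7} (hξ : ξ ∈ LC) (hζ : ζ ∈ LC) (h : ¬Par ξ ζ) :
    ∃ c : Isom6, c • ξ = ζ := by
  have h1 := lor_neg_of_not_par hξ hζ h
  have h2 : lor (ξ - ζ) (ξ - ζ) = 2 * (0 - lor ξ ζ) := by
    rw [lor_sub_left, lor_sub_right, lor_sub_right, hξ.1, hζ.1, lor_comm ζ]
    ring
  obtain ⟨g, -, hw⟩ := exists_refl (v := ξ - ζ) (by rw [h2]; linarith)
  refine ⟨g, ?_⟩
  rw [hw, h2, lor_sub_right, hξ.1, div_self (by linarith), one_smul]
  abel

/-- the group is transitive on the future light cone -/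
theorem exists_smul_LC {ξ ζ : V7} (hξ : ξ ∈ LC) (hζ : ζ ∈ LC) : ∃ c : Isom6, c • ξ = ζ := by
  by_cases h : Par ξ ζ
  · have h0 := hξ.2
    have hθ : (2 * ξ 0) • o.val - ξ ∈ LC := by
      refine ⟨?_, ?_⟩
      · simp only [lor_sub_left, lor_sub_right, lor_smul_left, lor_smul_right, hξ.1, o.2.1,
          lor_comm ξ o.val, lor_aux_o ξ]
        ring
      · have : o.val 0 = 1 := by simp [o]
        rw [Pi.sub_apply, Pi.smul_apply, this, smul_eq_mul]
        linarith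
    have h1 : ¬Par ξ ((2 * ξ 0) • o.val - ξ) := fun hp => by
      have := lor_eq_zero_of_par hξ hp
      rw [lor_sub_right, lor_smul_right, hξ.1, lor_comm ξ o.val, lor_aux_o] at this
      nlinarith
    obtain ⟨c, hc⟩ := lor_aux_LC hξ hθ h1
    obtain ⟨d, hd⟩ := lor_aux_LC hθ hζ fun hp => h1 (h.trans hp.symm)
    exact ⟨d * c, by rw [mul_smul, hc, hd]⟩
  · exact lor_aux_LC hξ hζ h

/-- `lor x ζ` changes by a bounded factor when `x` moves a bounded distance -/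
theorem neg_lor_LC_le (x y : H6) {ζ : V7} (h : ζ ∈ LC) :
    -lor y.val ζ ≤ 2 * dl x y * -lor x.val ζ := by
  obtain ⟨g, -, hg⟩ := exists_swap x o
  have hη := smul_mem_LC g h
  rw [← lor_smul g y.val, ← lor_smul g x.val, ← val_smul, ← val_smul, ← dl_smul g, hg, dl_o,
    lor_aux_o, neg_neg]
  generalize g • ζ = η at hη
  generalize g • y = a
  have hc := lor_cs a.val η
  rw [a.2.1, hη.1] at hc
  have h1 := mul_pos a.2.2 hη.2
  have h2 : (lor a.val η + a.val 0 * η 0) ^ 2 ≤ (a.val 0 * η 0) ^ 2 := by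
    nlinarith [mul_self_nonneg (η 0)]
  have h3 := (abs_le_of_sq_le_sq' h2 h1.le).1
  linarith

open Classical in
/-- radial projection of future timelike vectors to the hyperboloid -/
noncomputable def nrm (y : V7) : H6 :=
  if h : lor y y < 0 ∧ 0 < y 0 then
    ⟨(√(-lor y y))⁻¹ • y, by
      rw [lor_smul_left, lor_smul_right, ← mul_assoc, ← mul_inv,
        Real.mul_self_sqrt (neg_pos.mpr h.1).le, inv_neg, neg_mul, inv_mul_cancel₀ h.1.ne],
      mul_pos (inv_pos.mpr (Real.sqrt_pos.mpr (neg_pos.mpr h.1))) h.2⟩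
  else o

theorem nrm_val {y : V7} (h : lor y y < 0) (h0 : 0 < y 0) :
    (nrm y).val = (√(-lor y y))⁻¹ • y := by
  rw [nrm, dif_pos ⟨h, h0⟩]

theorem exists_nrm {y : V7} (h : lor y y < 0) (h0 : 0 < y 0) :
    ∃ s : ℝ, 0 < s ∧ ∃ x : H6, x.val = s • y :=
  ⟨_, inv_pos.mpr (Real.sqrt_pos.mpr (neg_pos.mpr h)), nrm y, nrm_val h h0⟩

theorem nrm_rsmul (x : H6) {t : ℝ} (ht : 0 < t) : nrm (t • x.val) = x := by
  have h1 : lor (t • x.val) (t • x.val) = -(t * t) := by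
    rw [lor_smul_left, lor_smul_right, x.2.1]
    ring
  apply Subtype.ext
  rw [nrm_val (by rw [h1]; nlinarith) (mul_pos ht x.2.2), h1, neg_neg, Real.sqrt_mul_self ht.le,
    smul_smul, inv_mul_cancel₀ ht.ne', one_smul]

end Pool.Agent.MP_3fe7bf_gt.GB

/-!
Topology of the isometry group: closed embedding in matrices, compact balls, continuity of the
action.
-/

namespace Pool.Agent.MP_3fe7bf_gt.GB

open Matrix Topology

theorem dl_o_smul (g : Isom6) : dl o (g • o) = g.val.val 0 0 := by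
  rw [dl_o, val_smul, smul_vec]
  simp [o]

theorem top_JR_sq : JR * JR = 1 := by
  ext i j
  fin_cases i <;> fin_cases j <;>
    simp [JR, J, Matrix.mul_apply, Matrix.diagonal]

theorem top_JR_transpose : JRᵀ = JR := by
  ext i j
  fin_cases i <;> fin_cases j <;> simp [JR, J, Matrix.diagonal]

theorem top_lor_mulVec (A : Matrix (Fin 7) (Fin 7) ℝ) (x y : V7) :
    lor (A *ᵥ x) (A *ᵥ y) = x ⬝ᵥ ((Aᵀ * JR * A) *ᵥ y) := by
  rw [lor_eq_dot, Matrix.mulVec_mulVec, Matrix.dotProduct_mulVec, Matrix.vecMul_mulVec,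
    ← Matrix.dotProduct_mulVec, ← Matrix.mul_assoc]

theorem top_gram (g : Isom6) : (g.val.val)ᵀ * JR * g.val.val = JR := by
  ext i j
  have h := g.2.1 (Pi.single i 1) (Pi.single j 1)
  rw [top_lor_mulVec, lor_eq_dot] at h
  simpa using h

theorem top_left_inv {A : Matrix (Fin 7) (Fin 7) ℝ} (h : Aᵀ * JR * A = JR) :
    JR * Aᵀ * JR * A = 1 := by
  rw [Matrix.mul_assoc JR, Matrix.mul_assoc JR, h, top_JR_sq]

theorem top_gram_transpose {A : Matrix (Fin 7) (Fin 7) ℝ} (h : Aᵀ * JR * A = JR) :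
    A * JR * Aᵀ = JR := by
  have h1 : A * (JR * Aᵀ * JR) = 1 := mul_eq_one_comm.mp (top_left_inv h)
  calc A * JR * Aᵀ = A * (JR * Aᵀ * JR) * JR := by
        simp only [Matrix.mul_assoc, top_JR_sq, Matrix.mul_one]
    _ = JR := by rw [h1, Matrix.one_mul]

theorem top_lor_single (j : Fin 7) :
    lor (Pi.single j 1) (Pi.single j 1) = if j = 0 then -1 else 1 := by
  fin_cases j <;> simp [lor_eq]

theorem top_col {A : Matrix (Fin 7) (Fin 7) ℝ} (h : Aᵀ * JR * A = JR) (j : Fin 7) :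
    -(A 0 j * A 0 j) + ∑ i : Fin 6, A i.succ j * A i.succ j = if j = 0 then -1 else 1 := by
  have h1 := top_lor_mulVec A (Pi.single j 1) (Pi.single j 1)
  rw [h, ← lor_eq_dot, top_lor_single] at h1
  simpa [lor] using h1

theorem top_row {A : Matrix (Fin 7) (Fin 7) ℝ} (h : Aᵀ * JR * A = JR) :
    -(A 0 0 * A 0 0) + ∑ i : Fin 6, A 0 i.succ * A 0 i.succ = -1 := by
  have h1 := top_col (A := Aᵀ) (by rw [Matrix.transpose_transpose]; exact top_gram_transpose h) 0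
  simpa using h1

theorem top_future {A : Matrix (Fin 7) (Fin 7) ℝ} (h : Aᵀ * JR * A = JR) (hA : 0 < A 0 0) {x : V7}
    (hx : lor x x = -1) (h0 : 0 < x 0) : 0 < (A *ᵥ x) 0 := by
  have h1 := top_row h
  have h2 := lor_neg_of_future (x := x)
    (y := ![A 0 0, -A 0 1, -A 0 2, -A 0 3, -A 0 4, -A 0 5, -A 0 6]) hx
    (by
      simp [Fin.sum_univ_succ] at h1
      rw [lor_eq]
      simp
      linarith) h0 (by simpa using hA)
  rw [lor_eq] at h2
  simp at h2
  simp [Matrix.mulVec, dotProduct, Fin.sum_univ_succ]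
  linarith

theorem top_exists {A : Matrix (Fin 7) (Fin 7) ℝ} (h : Aᵀ * JR * A = JR) (hA : 0 < A 0 0) :
    ∃ g : Isom6, g.val.val = A := by
  refine ⟨⟨⟨A, JR * Aᵀ * JR, mul_eq_one_comm.mp (top_left_inv h), top_left_inv h⟩,
    fun x y => ?_, fun x hx => ⟨fun h4 => ?_, top_future h hA hx⟩⟩, rfl⟩
  · show lor (A *ᵥ x) (A *ᵥ y) = lor x y
    rw [top_lor_mulVec, h, lor_eq_dot]
  · by_contra hn
    have h1 := one_le_of_lor hx
    have h2 : 0 < (-x) 0 := by
      rcases lt_trichotomy (x 0) 0 with a | a | a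
      · simpa using a
      · rw [a] at h1; norm_num at h1
      · exact absurd a hn
    have h3 := top_future h hA (x := -x) (by rw [lor_neg_neg, hx]) h2
    rw [Matrix.mulVec_neg] at h3
    have h5 : 0 < (A *ᵥ x) 0 := h4
    simp at h3
    linarith

theorem top_one_le (g : Isom6) : 1 ≤ g.val.val 0 0 := by
  rw [← dl_o_smul, dl_o]
  exact one_le_zero _

theorem inv_val (g : Isom6) : (g⁻¹).val.val = JR * (g.val.val)ᵀ * JR :=
  Units.inv_eq_of_mul_eq_one_left (top_left_inv (top_gram g))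

theorem abs_det (g : Isom6) : |g.val.val.det| = 1 := by
  have h1 := congrArg Matrix.det (top_left_inv (top_gram g))
  have h2 := congrArg Matrix.det top_JR_sq
  simp only [Matrix.det_mul, Matrix.det_transpose, Matrix.det_one] at h1 h2
  have h3 : g.val.val.det * g.val.val.det = 1 := by
    linear_combination h1 - g.val.val.det * g.val.val.det * h2
  rcases mul_self_eq_one_iff.mp h3 with h | h <;> simp [h]

theorem abs_entry_le (g : Isom6) (i j : Fin 7) : |g.val.val i j| ≤ dl o (g • o) := by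
  rw [dl_o_smul]
  have h0 := top_one_le g
  have h1 := top_row (top_gram g)
  have hcol := top_col (top_gram g) j
  generalize g.val.val = A at *
  have hrow : ∀ j, A 0 j * A 0 j ≤ A 0 0 * A 0 0 - (if j = 0 then 0 else 1) := by
    intro j
    refine Fin.cases (by simp) (fun j => ?_) j
    have := Finset.single_le_sum (f := fun i : Fin 6 => A 0 i.succ * A 0 i.succ)
      (fun i _ => mul_self_nonneg _) (Finset.mem_univ j)
    simp only [Fin.succ_ne_zero, if_false]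
    linarith
  apply abs_le_of_sq_le_sq' _ (by linarith) |> fun h => abs_le.mpr h
  refine Fin.cases ?_ (fun i => ?_) i
  · have := hrow j
    split_ifs at this <;> nlinarith
  · have h2 := Finset.single_le_sum (f := fun i : Fin 6 => A i.succ j * A i.succ j)
      (fun i _ => mul_self_nonneg _) (Finset.mem_univ i)
    have := hrow j
    split_ifs at this hcol <;> nlinarith

theorem isClosedEmbedding_val :
    IsClosedEmbedding (fun g : Isom6 => (g.val.val : Matrix (Fin 7) (Fin 7) ℝ)) := by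
  have hc : Continuous (fun g : Isom6 => (g.val.val : Matrix (Fin 7) (Fin 7) ℝ)) :=
    Units.continuous_val.comp continuous_subtype_val
  refine ⟨⟨?_, fun g h e => Subtype.ext (Units.ext e)⟩, ?_⟩
  · refine ⟨le_antisymm hc.le_induced ?_⟩
    let t : TopologicalSpace Isom6 := TopologicalSpace.induced
      (fun g : Isom6 => (g.val.val : Matrix (Fin 7) (Fin 7) ℝ)) inferInstance
    have h1 : @Continuous Isom6 _ t _ (fun g : Isom6 => (g.val.val : Matrix (Fin 7) (Fin 7) ℝ)) :=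
      continuous_induced_dom
    have h2 : @Continuous Isom6 (GL (Fin 7) ℝ) t _ (fun g : Isom6 => g.val) := by
      refine Units.continuous_iff.mpr ⟨h1, ?_⟩
      have e : (fun g : Isom6 => ((g.val⁻¹ : GL (Fin 7) ℝ) : Matrix (Fin 7) (Fin 7) ℝ)) =
          fun g : Isom6 => JR * (g.val.val)ᵀ * JR := funext inv_val
      rw [e]
      exact (continuous_const.matrix_mul h1.matrix_transpose).matrix_mul continuous_const
    exact continuous_iff_le_induced.mp h2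
  · have e : Set.range (fun g : Isom6 => (g.val.val : Matrix (Fin 7) (Fin 7) ℝ)) =
        {A | Aᵀ * JR * A = JR} ∩ {A | 1 ≤ A 0 0} := by
      ext A
      constructor
      · rintro ⟨g, rfl⟩
        exact ⟨top_gram g, top_one_le g⟩
      · rintro ⟨h1, h2⟩
        exact top_exists h1 (lt_of_lt_of_le one_pos h2)
    rw [e]
    refine IsClosed.inter (isClosed_eq ?_ continuous_const) (isClosed_le continuous_const ?_)
    · exact (continuous_id.matrix_transpose.matrix_mul continuous_const).matrix_mul continuous_id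
    · exact continuous_id.matrix_elem 0 0

instance : LocallyCompactSpace Isom6 :=
  haveI : LocallyCompactSpace (Matrix (Fin 7) (Fin 7) ℝ) :=
    inferInstanceAs (LocallyCompactSpace (Fin 7 → Fin 7 → ℝ))
  isClosedEmbedding_val.locallyCompactSpace

instance : SecondCountableTopology Isom6 :=
  haveI : SecondCountableTopology (Matrix (Fin 7) (Fin 7) ℝ) :=
    inferInstanceAs (SecondCountableTopology (Fin 7 → Fin 7 → ℝ))
  isClosedEmbedding_val.isEmbedding.secondCountableTopology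

instance : ContinuousSMul Isom6 V7 where
  continuous_smul := (isClosedEmbedding_val.continuous.comp continuous_fst).matrix_mulVec
    continuous_snd

instance : ContinuousSMul Isom6 H6 where
  continuous_smul := Continuous.subtype_mk
    ((isClosedEmbedding_val.continuous.comp continuous_fst).matrix_mulVec
      (continuous_subtype_val.comp continuous_snd)) _

theorem isCompact_isom (R : ℝ) : IsCompact {g : Isom6 | dl o (g • o) ≤ R} := by
  have hK : IsCompact (Set.Icc (fun _ _ => -R : Fin 7 → Fin 7 → ℝ) (fun _ _ => R)) :=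
    isCompact_Icc
  refine (isClosedEmbedding_val.isCompact_preimage hK).of_isClosed_subset ?_ fun g hg => ?_
  · simp only [dl_o_smul]
    exact isClosed_le (isClosedEmbedding_val.continuous.matrix_elem 0 0) continuous_const
  · have hg' : dl o (g • o) ≤ R := hg
    exact ⟨fun i j => by linarith [(abs_le.mp (abs_entry_le g i j)).1],
      fun i j => by linarith [(abs_le.mp (abs_entry_le g i j)).2]⟩

theorem dl_o_inv (g : Isom6) : dl o (g⁻¹ • o) = dl o (g • o) := by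
  rw [← dl_smul_left, dl_comm]

end Pool.Agent.MP_3fe7bf_gt.GB

/-!
Discrete torsion free groups: properness, freeness, homology of the quotient.
-/

namespace Pool.Agent.MP_3fe7bf_gt.GB

open CategoryTheory

structure Nice (Γ : Subgroup Isom6) : Prop where
  fin : ∀ c : ℝ, {γ : Isom6 | γ ∈ Γ ∧ dl o (γ • o) ≤ c}.Finite
  tf : ∀ g ∈ Γ, IsOfFinOrder g → g = 1

variable {Γ : Subgroup Isom6}

theorem nice_of_discrete (h : DiscreteTopology Γ) (tf : ∀ g ∈ Γ, IsOfFinOrder g → g = 1) :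
    Nice Γ := by
  refine ⟨fun c => ?_, tf⟩
  have h1 := Γ.tendsto_coe_cofinite_of_discrete (isDiscrete_iff_discreteTopology.mpr h)
    (isCompact_isom c).compl_mem_cocompact
  rw [Filter.mem_map, Filter.mem_cofinite] at h1
  refine (h1.image Subtype.val).subset ?_
  rintro γ ⟨hγ, hc⟩
  exact ⟨⟨γ, hγ⟩, fun hn => hn hc, rfl⟩

theorem Nice.fin_ball (h : Nice Γ) (R : ℝ) :
    {γ : Isom6 | γ ∈ Γ ∧ ∃ x : H6, dl o x ≤ R ∧ dl o (γ • x) ≤ R}.Finite := by
  refine (h.fin (2 * R * R)).subset ?_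
  rintro γ ⟨hγ, x, h1, h2⟩
  refine ⟨hγ, (dl_tri o (γ • x) (γ • o)).trans ?_⟩
  rw [dl_smul, dl_comm x o]
  have h3 := one_le_dl o x
  have h4 := one_le_dl o (γ • x)
  exact mul_le_mul (by linarith) h1 (by linarith) (by linarith)

theorem Nice.fin_pt (h : Nice Γ) (x y : H6) (c : ℝ) :
    {γ : Isom6 | γ ∈ Γ ∧ dl x (γ • y) ≤ c}.Finite := by
  refine (h.fin_ball (max (dl o y) (2 * dl o x * c))).subset ?_
  rintro γ ⟨hγ, h1⟩
  refine ⟨hγ, y, le_max_left _ _, le_max_of_le_right ((dl_tri o x (γ • y)).trans ?_)⟩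
  have h3 := one_le_dl o x
  exact mul_le_mul_of_nonneg_left h1 (by linarith)

theorem Nice.free (h : Nice Γ) {γ : Isom6} (hγ : γ ∈ Γ) {x : H6} (e : γ • x = x) : γ = 1 := by
  refine h.tf γ hγ (finite_powers.mp ((h.fin_pt x x 1).subset ?_))
  rintro _ ⟨n, rfl⟩
  have h1 : γ ^ n • x = x :=
    (MulAction.stabilizer Isom6 x).pow_mem (MulAction.mem_stabilizer_iff.mpr e) n
  refine ⟨Γ.pow_mem hγ n, ?_⟩
  show dl x (γ ^ n • x) ≤ 1
  rw [h1, dl_self]

theorem Nice.free_vec (h : Nice Γ) {γ : Isom6} (hγ : γ ∈ Γ) {v : V7} (hv : lor v v < 0)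
    (h0 : 0 < v 0) (e : γ • v = v) : γ = 1 := by
  obtain ⟨s, -, x, hx⟩ := exists_nrm hv h0
  refine h.free hγ (x := x) (Subtype.ext ?_)
  rw [val_smul, hx, smul_rsmul, e]

theorem Nice.countable (h : Nice Γ) : Countable Γ := by
  have h1 : (Γ : Set Isom6).Countable := by
    refine (Set.countable_iUnion fun n : ℕ => (h.fin n).countable).mono fun γ hγ => ?_
    obtain ⟨n, hn⟩ := exists_nat_ge (dl o (γ • o))
    exact Set.mem_iUnion.mpr ⟨n, hγ, hn⟩
  exact h1.to_subtype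

theorem Nice.min_disp (h : Nice Γ) (R : ℝ) :
    ∃ δ > 0, ∀ x : H6, dl o x ≤ R → ∀ γ ∈ Γ, γ ≠ 1 → 1 + δ ≤ dl x (γ • x) := by
  have h1 : ∀ γ ∈ {γ : Isom6 | γ ∈ Γ ∧ ∃ x : H6, dl o x ≤ 4 * R ∧ dl o (γ • x) ≤ 4 * R},
      ∀ᶠ t in nhdsWithin (1 : ℝ) (Set.Ioi 1), γ ≠ 1 → ∀ x : H6, dl o x ≤ R → t ≤ dl x (γ • x) := by
    rintro γ ⟨hγ, -⟩
    by_cases h0 : γ = 1
    · exact Filter.Eventually.of_forall fun t ht => absurd h0 ht
    obtain ⟨a, ha, hb⟩ := (isCompact_ball o R).exists_forall_le'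
      (f := fun x : H6 => dl x (γ • x)) (a := 1)
      (continuous_dl continuous_id (continuous_const_smul γ)).continuousOn
      (fun x _ => lt_of_not_ge fun hx => h0 (h.free hγ (eq_of_dl_le_one hx).symm))
    filter_upwards [Ioo_mem_nhdsGT ha] with t ht _ x hx
    exact ht.2.le.trans (hb x hx)
  have h9 : ∀ᶠ t in nhdsWithin (1 : ℝ) (Set.Ioi 1), t ∈ Set.Ioo (1 : ℝ) 2 :=
    Ioo_mem_nhdsGT one_lt_two
  obtain ⟨t, ht, h2⟩ :=
    (h9.and ((Filter.eventually_all_finite (h.fin_ball (4 * R))).mpr h1)).exists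
  refine ⟨t - 1, sub_pos.mpr ht.1, fun x hx γ hγ h0 => ?_⟩
  rw [add_sub_cancel]
  have h3 := one_le_dl o x
  by_cases h4 : dl o (γ • x) ≤ 4 * R
  · exact h2 γ ⟨hγ, x, by linarith, h4⟩ h0 x hx
  · have h5 := dl_tri o x (γ • x)
    have h6 := one_le_dl x (γ • x)
    have h7 := ht.2
    by_contra h8
    push Not at h4 h8
    nlinarith

/-- niceness passes to groups that are conjugate into `Γ` -/
theorem Nice.of_conj (h : Nice Γ) (c : Isom6) {P : Subgroup Isom6}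
    (hP : ∀ p ∈ P, c * p * c⁻¹ ∈ Γ) : Nice P := by
  have hi : Function.Injective fun p : Isom6 => c * p * c⁻¹ := fun p q e => by simpa using e
  refine ⟨fun r => ((h.fin_pt (c • o) (c • o) r).preimage hi.injOn).subset ?_, fun p hp hf => ?_⟩
  · rintro p ⟨hp, hr⟩
    refine ⟨hP p hp, ?_⟩
    rwa [mul_smul, mul_smul, inv_smul_smul, dl_smul]
  · have h1 := h.tf _ (hP p hp) ((MulAut.conj c).toMonoidHom.isOfFinOrder hf)
    exact hi (by simpa using h1)

theorem Nice.orb_iso (h : Nice Γ) (k : Type) [CommRing k] (n : ℕ) :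
    Nonempty (groupHomology (Rep.trivial k Γ k) n ≅ Hsing k n (Orb Γ)) := by
  have : IsCancelSMul Γ H6 := isCancelSMul_iff_eq_one_of_smul_eq.mpr fun g x e =>
    Subtype.ext (h.free g.2 e)
  have : ContinuousConstSMul Γ H6 := ⟨fun g => continuous_const_smul (g : Isom6)⟩
  have : ProperlyDiscontinuousSMul Γ H6 := ⟨fun {K L} hK hL => by
    obtain ⟨a, ha⟩ := bdd_of_isCompact hK
    obtain ⟨b, hb⟩ := bdd_of_isCompact hL
    refine ((h.fin_ball (max a b)).preimage Subtype.val_injective.injOn).subset ?_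
    rintro g ⟨_, ⟨x, hx, rfl⟩, hy⟩
    exact ⟨g.2, x, le_max_of_le_left (ha x hx), le_max_of_le_right (hb _ hy)⟩⟩
  exact singular_iso_group k (E := H6) (f := Quotient.mk _)
    isQuotientCoveringMap_quotientMk_of_properlyDiscontinuousSMul n

end Pool.Agent.MP_3fe7bf_gt.GB

/-!
Upper half space coordinates and horoballs.
-/

namespace Pool.Agent.MP_3fe7bf_gt.GB

abbrev E5 : Type := EuclideanSpace ℝ (Fin 5)

/-- the point at infinity of the chart -/
def z0 : V7 := ![1, 1, 0, 0, 0, 0, 0]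

theorem z0_mem : z0 ∈ LC := by
  constructor <;> simp [z0, lor_eq]

/-- height -/
noncomputable def ht (x : H6) : ℝ := (x.val 0 - x.val 1)⁻¹

/-- horizontal coordinate -/
noncomputable def uu (x : H6) : E5 := WithLp.toLp 2 fun i => ht x * x.val i.succ.succ

theorem neg_lor_z0 (x : H6) : -lor x.val z0 = (ht x)⁻¹ := by
  simp [ht, z0, lor_eq]; ring

theorem ht_pos (x : H6) : 0 < ht x := by
  have h := lor_neg_LC x z0_mem
  have h2 := neg_lor_z0 x
  exact inv_pos.mp (by rw [← h2]; linarith)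

theorem chart_norm_sq (u : E5) : ‖u‖ ^ 2 = u 0 ^ 2 + u 1 ^ 2 + u 2 ^ 2 + u 3 ^ 2 + u 4 ^ 2 := by
  rw [EuclideanSpace.real_norm_sq_eq, Fin.sum_univ_five]

theorem chart_sub_pos (x : H6) : 0 < x.val 0 - x.val 1 := inv_pos.mp (ht_pos x)

theorem chart_uu0 (x : H6) : uu x 0 = ht x * x.val 2 := rfl
theorem chart_uu1 (x : H6) : uu x 1 = ht x * x.val 3 := rfl
theorem chart_uu2 (x : H6) : uu x 2 = ht x * x.val 4 := rfl
theorem chart_uu3 (x : H6) : uu x 3 = ht x * x.val 5 := rfl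
theorem chart_uu4 (x : H6) : uu x 4 = ht x * x.val 6 := rfl

theorem chart_add (x : H6) : x.val 0 + x.val 1 =
    (1 + x.val 2 ^ 2 + x.val 3 ^ 2 + x.val 4 ^ 2 + x.val 5 ^ 2 + x.val 6 ^ 2) /
      (x.val 0 - x.val 1) := by
  have h := x.2.1
  rw [lor_eq] at h
  rw [eq_div_iff (chart_sub_pos x).ne']
  linarith

theorem exists_pt (u : E5) {h : ℝ} (hh : 0 < h) : ∃ x : H6, uu x = u ∧ ht x = h := by
  have hn : ‖u‖ ^ 2 = u 0 ^ 2 + u 1 ^ 2 + u 2 ^ 2 + u 3 ^ 2 + u 4 ^ 2 := chart_norm_sq u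
  have hp : 0 < (1 / h + h + ‖u‖ ^ 2 / h) / 2 := by positivity
  let x : H6 := ⟨![(1 / h + h + ‖u‖ ^ 2 / h) / 2, (h + ‖u‖ ^ 2 / h - 1 / h) / 2, u 0 / h, u 1 / h,
    u 2 / h, u 3 / h, u 4 / h], by
      simp only [lor_eq, Matrix.cons_val_zero, Matrix.cons_val_one, Matrix.cons_val]
      rw [hn]; field_simp; ring, by simpa using hp⟩
  have h1 : ht x = h := by
    simp only [ht, x, Matrix.cons_val_zero, Matrix.cons_val_one]
    field_simp; ring
  refine ⟨x, ?_, h1⟩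
  ext i
  simp only [uu, h1]
  fin_cases i <;> simp [x] <;> field_simp

theorem dl_chart (x y : H6) :
    dl x y = (‖uu x - uu y‖ ^ 2 + ht x ^ 2 + ht y ^ 2) / (2 * ht x * ht y) := by
  have hx := chart_add x
  have hy := chart_add y
  have sx := chart_sub_pos x
  have sy := chart_sub_pos y
  have e : dl x y = ((x.val 0 + x.val 1) * (y.val 0 - y.val 1) +
      (x.val 0 - x.val 1) * (y.val 0 + y.val 1)) / 2 - (x.val 2 * y.val 2 + x.val 3 * y.val 3 +
      x.val 4 * y.val 4 + x.val 5 * y.val 5 + x.val 6 * y.val 6) := by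
    rw [dl, lor_eq]; ring
  rw [e, hx, hy, chart_norm_sq]
  simp only [PiLp.sub_apply, chart_uu0, chart_uu1, chart_uu2, chart_uu3, chart_uu4, ht]
  generalize x.val 0 - x.val 1 = s at *
  generalize y.val 0 - y.val 1 = t at *
  field_simp
  ring

theorem chart_ext {x y : H6} (h1 : uu x = uu y) (h2 : ht x = ht y) : x = y := by
  refine eq_of_dl_le_one (le_of_eq ?_)
  have h := ht_pos y
  rw [dl_chart, h1, h2, sub_self, norm_zero]
  field_simp
  ring

theorem ht_o : ht o = 1 := by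
  simp [ht, o]

theorem uu_o : uu o = 0 := by
  ext i
  simp [uu, o]

theorem chart_cont (i : Fin 7) : Continuous fun x : H6 => x.val i :=
  (continuous_apply i).comp continuous_subtype_val

@[fun_prop]
theorem continuous_ht : Continuous ht :=
  Continuous.inv₀ ((chart_cont 0).sub (chart_cont 1)) fun x => (chart_sub_pos x).ne'

@[fun_prop]
theorem continuous_uu : Continuous uu :=
  (PiLp.continuous_toLp 2 _).comp (continuous_pi fun _ => continuous_ht.mul (chart_cont _))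

theorem add_eq_chart (x : H6) : x.val 0 + x.val 1 = (‖uu x‖ ^ 2 + ht x ^ 2) / ht x := by
  have sx := chart_sub_pos x
  rw [chart_add, chart_norm_sq]
  simp only [chart_uu0, chart_uu1, chart_uu2, chart_uu3, chart_uu4, ht]
  generalize x.val 0 - x.val 1 = s at *
  field_simp
  ring

theorem ht_smul {p : Isom6} (hp : p • z0 = z0) (x : H6) : ht (p • x) = ht x := by
  have h1 := neg_lor_z0 (p • x)
  have h2 := neg_lor_z0 x
  rw [val_smul] at h1
  conv at h1 => lhs; rw [← hp, lor_smul]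
  exact inv_injective (h1.symm.trans h2)

theorem uu_smul {p : Isom6} (hp : p • z0 = z0) (x y : H6) :
    ‖uu (p • x) - uu (p • y)‖ = ‖uu x - uu y‖ := by
  have h1 := dl_chart (p • x) (p • y)
  rw [dl_smul, dl_chart, ht_smul hp, ht_smul hp] at h1
  have hx := ht_pos x
  have hy := ht_pos y
  rw [div_left_inj' (by positivity)] at h1
  have h2 : ‖uu (p • x) - uu (p • y)‖ ^ 2 = ‖uu x - uu y‖ ^ 2 := by linarith
  exact (pow_left_inj₀ (norm_nonneg _) (norm_nonneg _) two_ne_zero).mp h2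

theorem uu_smul_congr {p : Isom6} (hp : p • z0 = z0) {x y : H6} (h : uu x = uu y) :
    uu (p • x) = uu (p • y) := by
  have h1 := uu_smul hp x y
  rw [h, sub_self, norm_zero] at h1
  exact sub_eq_zero.mp (norm_eq_zero.mp h1)

theorem norm_uu_smul_le {p : Isom6} (hp : p • z0 = z0) (x : H6) :
    ‖uu (p • x)‖ ≤ ‖uu (p • o)‖ + ‖uu x‖ := by
  have h1 := uu_smul hp x o
  rw [uu_o, sub_zero] at h1
  have h2 := norm_add_le (uu (p • o)) (uu (p • x) - uu (p • o))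
  rw [add_sub_cancel, h1] at h2
  exact h2

theorem norm_uu_smul_o_le {p : Isom6} (hp : p • z0 = z0) (x : H6) :
    ‖uu (p • o)‖ ≤ ‖uu (p • x)‖ + ‖uu x‖ := by
  have h1 := uu_smul hp o x
  rw [uu_o, zero_sub, norm_neg] at h1
  have h2 := norm_add_le (uu (p • x)) (uu (p • o) - uu (p • x))
  rw [add_sub_cancel, h1] at h2
  exact h2

theorem norm_uu_inv {p : Isom6} (hp : p • z0 = z0) : ‖uu (p⁻¹ • o)‖ = ‖uu (p • o)‖ := by
  have h1 := uu_smul hp (p⁻¹ • o) o
  rw [smul_inv_smul, uu_o, sub_zero, zero_sub, norm_neg] at h1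
  exact h1.symm

theorem dl_smul_chart {p : Isom6} (hp : p • z0 = z0) (x : H6) :
    dl x (p • x) = 1 + ‖uu x - uu (p • x)‖ ^ 2 / (2 * ht x ^ 2) := by
  have h := ht_pos x
  rw [dl_chart, ht_smul hp]
  field_simp
  ring

theorem dl_o_le {x : H6} {a b R : ℝ} (ha : 0 < a) (h1 : a ≤ ht x) (h2 : ht x ≤ b)
    (h3 : ‖uu x‖ ≤ R) : dl o x ≤ (R ^ 2 + 1 + b ^ 2) / (2 * a) := by
  rw [dl_chart, uu_o, ht_o, zero_sub, norm_neg]
  have h := ht_pos x
  have h4 : ‖uu x‖ ^ 2 ≤ R ^ 2 := pow_le_pow_left₀ (norm_nonneg _) h3 2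
  have h5 : ht x ^ 2 ≤ b ^ 2 := pow_le_pow_left₀ h.le h2 2
  refine div_le_div₀ (by positivity) (by linarith) (by positivity) (by linarith)

theorem ht_le_dl (x y : H6) : ht y ≤ 2 * dl x y * ht x := by
  have hx := ht_pos x
  have hy := ht_pos y
  have e : 2 * dl x y * ht x = (‖uu x - uu y‖ ^ 2 + ht x ^ 2 + ht y ^ 2) / ht y := by
    rw [dl_chart]; field_simp
  rw [e, le_div_iff₀ hy]
  nlinarith [sq_nonneg ‖uu x - uu y‖, sq_nonneg (ht x)]

theorem norm_uu_sub_le (x y : H6) : ‖uu x - uu y‖ ≤ 2 * dl x y * ht x := by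
  have hx := ht_pos x
  have hy := ht_pos y
  have e : 2 * dl x y * ht x = (‖uu x - uu y‖ ^ 2 + ht x ^ 2 + ht y ^ 2) / ht y := by
    rw [dl_chart]; field_simp
  rw [e, le_div_iff₀ hy]
  nlinarith [sq_nonneg (‖uu x - uu y‖ - ht y), sq_nonneg (ht x), norm_nonneg (uu x - uu y),
    mul_nonneg (norm_nonneg (uu x - uu y)) hy.le]

/-- the open horoball of depth `M` with respect to the lightlike vector `ζ` -/
def Hb (ζ : V7) (M : ℝ) : Set H6 := {x | M * -lor x.val ζ < 1}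

theorem smul_mem_Hb (g : Isom6) {ζ : V7} {M : ℝ} {x : H6} : g • x ∈ Hb (g • ζ) M ↔ x ∈ Hb ζ M := by
  simp only [Hb, Set.mem_ofPred_eq, val_smul, lor_smul]

theorem mem_Hb_z0 {M : ℝ} {x : H6} : x ∈ Hb z0 M ↔ M < ht x := by
  simp only [Hb, Set.mem_ofPred_eq, neg_lor_z0]
  rw [← div_eq_mul_inv, div_lt_one (ht_pos x)]

theorem mem_Hb_chart (c : Isom6) {M : ℝ} {y : H6} : c • y ∈ Hb (c • z0) M ↔ M < ht y := by
  rw [smul_mem_Hb, mem_Hb_z0]

theorem Hb_mono {ζ : V7} (h : ζ ∈ LC) {M M' : ℝ} (hM : M ≤ M') : Hb ζ M' ⊆ Hb ζ M := by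
  intro x hx
  have h1 := lor_neg_LC x h
  simp only [Hb, Set.mem_ofPred_eq] at hx ⊢
  exact lt_of_le_of_lt (mul_le_mul_of_nonneg_right hM (by linarith)) hx

theorem isOpen_Hb (ζ : V7) (M : ℝ) : IsOpen (Hb ζ M) := by
  exact isOpen_lt (by fun_prop) continuous_const

theorem mem_Hb_one {ζ : V7} (h : ζ ∈ LC) {M : ℝ} (hM : 4 ≤ M) {x y : H6} (hx : x ∈ Hb ζ M)
    (hxy : dl x y < 2) : y ∈ Hb ζ 1 := by
  have h1 := lor_neg_LC x h
  have h2 := neg_lor_LC_le x y h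
  simp only [Hb, Set.mem_ofPred_eq] at hx ⊢
  generalize -lor y.val ζ = b at *
  have ha : 0 < -lor x.val ζ := by linarith
  generalize -lor x.val ζ = a at *
  nlinarith

/-- a cap: a bounded convex piece of the horoball -/
def cap (M R : ℝ) : Set H6 := {y | M < ht y ∧ ‖uu y‖ ^ 2 + ht y ^ 2 < R ^ 2}

theorem isOpen_cap (M R : ℝ) : IsOpen (cap M R) := by
  exact (isOpen_lt continuous_const continuous_ht).inter
    (isOpen_lt ((continuous_uu.norm.pow 2).add (continuous_ht.pow 2)) continuous_const)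

theorem cap_nonempty {M R : ℝ} (hM : 0 < M) (h : M < R) : (cap M R).Nonempty := by
  obtain ⟨x, h1, h2⟩ := exists_pt 0 (h := (M + R) / 2) (by linarith)
  refine ⟨x, by rw [h2]; linarith, ?_⟩
  rw [h1, h2, norm_zero]
  nlinarith

theorem cap_bound {M R : ℝ} (hR : 0 ≤ R) {y : H6} (h : y ∈ cap M R) : ‖uu y‖ < R ∧ ht y < R := by
  have h1 := h.2
  have h2 := ht_pos y
  constructor
  · exact lt_of_pow_lt_pow_left₀ 2 hR (by nlinarith)
  · exact lt_of_pow_lt_pow_left₀ 2 hR (by nlinarith [sq_nonneg ‖uu y‖])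

theorem cap_bdd {M : ℝ} (hM : 0 < M) (R : ℝ) : ∃ a, ∀ y ∈ cap M R, dl o y ≤ a := by
  refine ⟨(|R| ^ 2 + 1 + |R| ^ 2) / (2 * M), fun y hy => ?_⟩
  have hy' : y ∈ cap M |R| := ⟨hy.1, by rw [sq_abs]; exact hy.2⟩
  obtain ⟨h1, h2⟩ := cap_bound (abs_nonneg R) hy'
  exact dl_o_le hM hy.1.le h2.le h1.le

end Pool.Agent.MP_3fe7bf_gt.GB

/-!
Convex subsets of hyperbolic space.
-/

namespace Pool.Agent.MP_3fe7bf_gt.GB

/-- hyperbolic convexity -/
def HC (A : Set H6) : Prop :=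
  ∀ x ∈ A, ∀ y ∈ A, ∀ z : H6, ∀ a b : ℝ, 0 ≤ a → 0 ≤ b → z.val = a • x.val + b • y.val → z ∈ A

/-- bounded sets -/
def Bdd (V : Set H6) : Prop := ∃ R, ∀ x ∈ V, dl o x ≤ R

theorem Bdd.mono {A B : Set H6} (h : Bdd B) (hs : A ⊆ B) : Bdd A := by
  obtain ⟨R, hR⟩ := h
  exact ⟨R, fun x hx => hR x (hs hx)⟩

theorem Bdd.preimage {A : Set H6} (h : Bdd A) (g : Isom6) : Bdd {x | g • x ∈ A} := by
  obtain ⟨R, hR⟩ := h
  refine ⟨2 * dl o (g⁻¹ • o) * R, fun x hx => ?_⟩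
  have h1 := hR _ hx
  have h2 := dl_tri o (g⁻¹ • o) x
  have h3 : dl (g⁻¹ • o) x = dl o (g • x) := by rw [dl_smul_left, inv_inv]
  have h4 := one_le_dl o (g⁻¹ • o)
  rw [h3] at h2
  exact h2.trans (mul_le_mul_of_nonneg_left h1 (by linarith))

theorem Bdd.diam {A : Set H6} (h : Bdd A) : ∃ d, ∀ x ∈ A, ∀ y ∈ A, dl x y ≤ d := by
  obtain ⟨R, hR⟩ := h
  refine ⟨2 * R ^ 2 - 1, fun x hx y hy => dl_le_of_le (y := o) ?_ (hR y hy)⟩
  rw [dl_comm]
  exact hR x hx

theorem cvx_lor (x y : H6) (a b : ℝ) :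
    lor (a • x.val + b • y.val) (a • x.val + b • y.val) = -(a ^ 2 + b ^ 2 + 2 * a * b * dl x y) := by
  simp only [lor_add_left, lor_add_right, lor_smul_left, lor_smul_right, x.2.1, y.2.1, dl,
    lor_comm y.val x.val]
  ring

theorem cvx_lt {a b s t c : ℝ} (ha : 0 ≤ a) (hb : 0 ≤ b) (hab : 0 < a + b) (h1 : a + b ≤ 1)
    (hc : 0 ≤ c) (hs : s < c) (ht : t < c) : a * s + b * t < c := by
  have h2 := mul_le_mul_of_nonneg_right h1 hc
  have h3 := mul_le_mul_of_nonneg_left hs.le ha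
  have h4 := mul_le_mul_of_nonneg_left ht.le hb
  rcases ha.eq_or_lt with e | e
  · have h5 := mul_lt_mul_of_pos_left ht (show 0 < b by linarith)
    linarith
  · have h5 := mul_lt_mul_of_pos_left hs e
    linarith

theorem coeff_sum {x y z : H6} {a b : ℝ} (ha : 0 ≤ a) (hb : 0 ≤ b)
    (h : z.val = a • x.val + b • y.val) : 0 < a + b ∧ a + b ≤ 1 := by
  have h1 := cvx_lor x y a b
  rw [← h, z.2.1] at h1
  have h2 := one_le_dl x y
  have h3 : 0 ≤ a * b * (dl x y - 1) := mul_nonneg (mul_nonneg ha hb) (by linarith)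
  constructor
  · rcases (add_nonneg ha hb).eq_or_lt with e | e
    · have ea : a = 0 := by linarith
      have eb : b = 0 := by linarith
      rw [ea, eb] at h1
      norm_num at h1
    · exact e
  · nlinarith

theorem hc_univ : HC Set.univ := fun _ _ _ _ _ _ _ _ _ _ => trivial

theorem hc_empty : HC ∅ := fun _ h => h.elim

theorem HC.inter {A B : Set H6} (hA : HC A) (hB : HC B) : HC (A ∩ B) :=
  fun x hx y hy z a b ha hb e => ⟨hA x hx.1 y hy.1 z a b ha hb e, hB x hx.2 y hy.2 z a b ha hb e⟩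

theorem HC.preimage {A : Set H6} (hA : HC A) (g : Isom6) : HC {x | g • x ∈ A} := by
  intro x hx y hy z a b ha hb e
  refine hA (g • x) hx (g • y) hy (g • z) a b ha hb ?_
  rw [val_smul, val_smul, val_smul, e, smul_add, smul_rsmul, smul_rsmul]

theorem cvx_dl (c : H6) {x y z : H6} {a b : ℝ} (e : z.val = a • x.val + b • y.val) :
    dl c z = a * dl c x + b * dl c y := by
  simp only [dl, e, lor_add_right, lor_smul_right]
  ring

theorem hc_ball (c : H6) (r : ℝ) : HC {y | dl c y < r} := by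
  intro x hx y hy z a b ha hb e
  obtain ⟨h1, h2⟩ := coeff_sum ha hb e
  have hx' : dl c x < r := hx
  have h3 := one_le_dl c x
  show dl c z < r
  rw [cvx_dl c e]
  exact cvx_lt ha hb h1 h2 (by linarith) hx hy

theorem hc_cball (c : H6) (r : ℝ) : HC {y | dl c y ≤ r} := by
  intro x hx y hy z a b ha hb e
  obtain ⟨h1, h2⟩ := coeff_sum ha hb e
  have hx' : dl c x ≤ r := hx
  have hy' : dl c y ≤ r := hy
  have h3 := one_le_dl c x
  show dl c z ≤ r
  rw [cvx_dl c e]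
  have h4 := mul_le_mul_of_nonneg_right h2 (show 0 ≤ r by linarith)
  have h5 := mul_le_mul_of_nonneg_left hx' ha
  have h6 := mul_le_mul_of_nonneg_left hy' hb
  linarith

theorem hc_Hb (ζ : V7) (M : ℝ) : HC (Hb ζ M) := by
  intro x hx y hy z a b ha hb e
  obtain ⟨h1, h2⟩ := coeff_sum ha hb e
  have h3 := cvx_lt ha hb h1 h2 zero_le_one hx hy
  show M * -lor z.val ζ < 1
  rw [e, lor_add_left, lor_smul_left, lor_smul_left]
  linarith

theorem hc_ht (M : ℝ) : HC {y | M < ht y} := by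
  have e : {y | M < ht y} = Hb z0 M := Set.ext fun _ => mem_Hb_z0.symm
  rw [e]
  exact hc_Hb z0 M

theorem hc_uu (u : E5) (r : ℝ) : HC {y | ‖uu y - u‖ < r} := by
  intro x hx y hy z a b ha hb e
  have hx0 := ht_pos x
  have hy0 := ht_pos y
  have hz0 := ht_pos z
  have e1 : (ht z)⁻¹ = a * (ht x)⁻¹ + b * (ht y)⁻¹ := by
    simp only [ht, inv_inv, e, Pi.add_apply, Pi.smul_apply, smul_eq_mul]
    ring
  have e2 : a * (ht x)⁻¹ * ht z + b * (ht y)⁻¹ * ht z = 1 := by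
    rw [← add_mul, ← e1, inv_mul_cancel₀ hz0.ne']
  have e3 : uu z = (a * (ht x)⁻¹ * ht z) • uu x + (b * (ht y)⁻¹ * ht z) • uu y := by
    ext i
    simp only [uu, e, Pi.add_apply, Pi.smul_apply, smul_eq_mul, PiLp.add_apply, PiLp.smul_apply]
    field_simp
  have h1 := convex_ball u r (mem_ball_iff_norm.2 hx) (mem_ball_iff_norm.2 hy)
    (show 0 ≤ a * (ht x)⁻¹ * ht z by positivity) (show 0 ≤ b * (ht y)⁻¹ * ht z by positivity) e2
  rw [← e3] at h1
  exact mem_ball_iff_norm.1 h1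

theorem cvx_cap (x : H6) (R : ℝ) : ‖uu x‖ ^ 2 + ht x ^ 2 < R ^ 2 ↔
    x.val 0 + x.val 1 - R ^ 2 * (x.val 0 - x.val 1) < 0 := by
  have h0 := ht_pos x
  have e : x.val 0 - x.val 1 = (ht x)⁻¹ := by rw [ht, inv_inv]
  rw [add_eq_chart, e, sub_neg, ← div_eq_mul_inv, div_lt_div_iff_of_pos_right h0]

theorem hc_cap (M R : ℝ) : HC (cap M R) := by
  intro x hx y hy z a b ha hb e
  obtain ⟨h1, h2⟩ := coeff_sum ha hb e
  refine ⟨hc_ht M x hx.1 y hy.1 z a b ha hb e, (cvx_cap z R).2 ?_⟩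
  have h3 := cvx_lt ha hb h1 h2 le_rfl ((cvx_cap x R).1 hx.2) ((cvx_cap y R).1 hy.2)
  simp only [e, Pi.add_apply, Pi.smul_apply, smul_eq_mul]
  linarith

theorem hc_le (l : V7 →ₗ[ℝ] ℝ) : HC {y | l y.val ≤ 0} := by
  intro x hx y hy z a b ha hb e
  show l z.val ≤ 0
  rw [e, map_add, map_smul, map_smul, smul_eq_mul, smul_eq_mul]
  exact add_nonpos (mul_nonpos_of_nonneg_of_nonpos ha hx) (mul_nonpos_of_nonneg_of_nonpos hb hy)

theorem hc_eq (l : V7 →ₗ[ℝ] ℝ) : HC {y | l y.val = 0} := by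
  intro x hx y hy z a b _ _ e
  have hx' : l x.val = 0 := hx
  have hy' : l y.val = 0 := hy
  show l z.val = 0
  rw [e, map_add, map_smul, map_smul, hx', hy', smul_zero, smul_zero, add_zero]

theorem HC.ivt {A : Set H6} (hA : HC A) (l : V7 →ₗ[ℝ] ℝ) {x y : H6} (hx : x ∈ A) (hy : y ∈ A)
    (h1 : l x.val ≤ 0) (h2 : 0 ≤ l y.val) : ∃ z ∈ A, l z.val = 0 := by
  rcases h1.eq_or_lt with e | h1
  · exact ⟨x, hx, e⟩
  have hq : 0 < -l x.val := neg_pos.2 h1
  have h3 : lor (l y.val • x.val + (-l x.val) • y.val) (l y.val • x.val + (-l x.val) • y.val) <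
      0 := by
    rw [cvx_lor, neg_lt_zero]
    have := one_le_dl x y
    positivity
  have h4 : 0 < (l y.val • x.val + (-l x.val) • y.val) 0 := by
    have hx0 := x.2.2
    have hy0 := y.2.2
    simp only [Pi.add_apply, Pi.smul_apply, smul_eq_mul]
    positivity
  obtain ⟨s, hs, z, hz⟩ := exists_nrm h3 h4
  refine ⟨z, hA x hx y hy z (s * l y.val) (s * -l x.val) (by positivity) (by positivity) ?_, ?_⟩
  · rw [hz, smul_add, smul_smul, smul_smul]
  · rw [hz, map_smul, map_add, map_smul, map_smul]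
    simp only [smul_eq_mul]
    ring

end Pool.Agent.MP_3fe7bf_gt.GB

/-!
The structures of the proof: cusp groups, thick-thin data, covers by balls and prisms.
-/

namespace Pool.Agent.MP_3fe7bf_gt.GB

open Filter Topology

/-- the cusp group of `Γ` at `c • z0`, seen in the chart `c` -/
def Pc (Γ : Subgroup Isom6) (c : Isom6) : Subgroup Isom6 where
  carrier := {p | p • z0 = z0 ∧ c * p * c⁻¹ ∈ Γ}
  one_mem' := ⟨one_smul _ _, by simp⟩
  mul_mem' := by
    rintro a b ⟨h1, h2⟩ ⟨h3, h4⟩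
    refine ⟨by rw [mul_smul, h3, h1], ?_⟩
    have := Γ.mul_mem h2 h4
    rwa [show c * a * c⁻¹ * (c * b * c⁻¹) = c * (a * b) * c⁻¹ by group] at this
  inv_mem' := by
    rintro a ⟨h1, h2⟩
    refine ⟨by rw [inv_smul_eq_iff, h1], ?_⟩
    have := Γ.inv_mem h2
    rwa [show (c * a * c⁻¹)⁻¹ = c * a⁻¹ * c⁻¹ by group] at this

theorem mem_Pc {Γ : Subgroup Isom6} {c p : Isom6} :
    p ∈ Pc Γ c ↔ p • z0 = z0 ∧ c * p * c⁻¹ ∈ Γ := Iff.rfl

theorem conj_mem_Pc {Γ : Subgroup Isom6} {c γ : Isom6} (hγ : γ ∈ Γ)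
    (h : γ • c • z0 = c • z0) : c⁻¹ * γ * c ∈ Pc Γ c :=
  ⟨by rw [mul_smul, mul_smul, h, inv_smul_smul],
    by rwa [show c * (c⁻¹ * γ * c) * c⁻¹ = γ by group]⟩

theorem Nice.pc {Γ : Subgroup Isom6} (h : Nice Γ) (c : Isom6) : Nice (Pc Γ c) :=
  h.of_conj c fun _ hp => hp.2

/-- a group that fixes the point at infinity and is cocompact on horospheres -/
structure Cryst (P : Subgroup Isom6) : Prop where
  nice : Nice P
  fix : ∀ p ∈ P, p • z0 = z0
  coc : ∃ R, ∀ y : H6, ∃ p ∈ P, ‖uu (p • y)‖ ≤ R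

/-- thick-thin data: finitely many cusps with disjoint horoballs and a cocompact complement -/
structure TT (Γ : Subgroup Isom6) where
  n : ℕ
  c : Fin n → Isom6
  disj : ∀ i j, ∀ γ ∈ Γ, ∀ x : H6, x ∈ Hb (γ • c i • z0) 1 → x ∈ Hb (c j • z0) 1 →
    i = j ∧ γ • c i • z0 = c i • z0
  cocP : ∀ i, ∃ R, ∀ y : H6, ∃ p ∈ Pc Γ (c i), ‖uu (p • y)‖ ≤ R
  core : ∀ M : ℝ, ∃ R, ∀ x : H6, ∃ γ ∈ Γ, dl o (γ • x) ≤ R ∨ ∃ i, γ • x ∈ Hb (c i • z0) M

variable {Γ : Subgroup Isom6}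

theorem TT.cryst (D : TT Γ) (h : Nice Γ) (i : Fin D.n) : Cryst (Pc Γ (D.c i)) :=
  ⟨h.pc _, fun _ hp => hp.1, D.cocP i⟩

/-- the lightlike vectors of all the horoballs -/
def TT.HV (D : TT Γ) : Set V7 := {ζ | ∃ i, ∃ γ ∈ Γ, ζ = γ • D.c i • z0}

/-- the horoballs of depth `M` that meet `V` -/
def TT.hb (D : TT Γ) (M : ℝ) (V : Set H6) : Set V7 := {ζ | ζ ∈ D.HV ∧ (Hb ζ M ∩ V).Nonempty}

/-- the number of horoballs of depth `M` that meet `V` -/
noncomputable def TT.nB (D : TT Γ) (M : ℝ) (V : Set H6) : ℕ := (D.hb M V).ncard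

/-- the number of translates of a cap at the cusp `i` that meet `V` -/
noncomputable def TT.cnt (D : TT Γ) (i : Fin D.n) (M R : ℝ) (V : Set H6) : ℕ :=
  {γ : Γ | ∃ y ∈ cap M R, (γ : Isom6) • D.c i • y ∈ V}.ncard

/-- the orbit counting function of a cusp group -/
noncomputable def NP (P : Subgroup Isom6) (R : ℝ) : ℕ :=
  {p : Isom6 | p ∈ P ∧ ‖uu (p • o)‖ < R}.ncard

/-- the number of translates of a cap that meet `V` -/
noncomputable def cp (P : Subgroup Isom6) (M R : ℝ) (V : Set H6) : ℕ :=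
  {p : Isom6 | p ∈ P ∧ ∃ y ∈ cap M R, p • y ∈ V}.ncard

/-- a sequence of radii along which the orbit count has small boundary -/
def Fol (P : Subgroup Isom6) (R : ℕ → ℝ) : Prop :=
  Tendsto R atTop atTop ∧
    ∀ a : ℝ, Tendsto (fun k => (NP P (R k + a) : ℝ) / NP P (R k)) atTop (𝓝 1)

/-- a neighbourhood of fixed size -/
def N2 (A : Set H6) : Set H6 := {y | ∃ x ∈ A, dl x y < 2}

/-- a finite family of embedded convex open sets, balls (kind `none`) and vertical prisms in the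
cusps, whose translates cover hyperbolic space -/
structure Cov (D : TT Γ) (M : ℝ) where
  nice : Nice Γ
  one_le : 1 ≤ M
  m : ℕ
  W : Fin m → Set H6
  kind : Fin m → Option (Fin D.n)
  hc : ∀ t, HC (W t)
  op : ∀ t, IsOpen (W t)
  emb : ∀ t, ∀ γ ∈ Γ, ∀ x ∈ W t, γ • x ∈ W t → γ = 1
  cov : ∀ x : H6, ∃ t, ∃ γ ∈ Γ, γ • x ∈ W t
  bdd : ∀ t, kind t = none → Bdd (W t)
  sub : ∀ t i, kind t = some i → ∃ a, ∀ y : H6, D.c i • y ∈ W t → M < ht y ∧ ‖uu y‖ ≤ a
  loc : ∀ i, ∀ x : H6, ∃ t, ∃ γ ∈ Γ, kind t = some i ∧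
    ∃ O ∈ 𝓝 x, ∀ y ∈ O, y ∈ Hb (D.c i • z0) M → γ • y ∈ W t

end Pool.Agent.MP_3fe7bf_gt.GB

end

-- part MP_3fe7bf_gt.GB.Vol
section

/-!
The invariant measure on hyperbolic space.
-/

namespace Pool.Agent.MP_3fe7bf_gt.GB

open MeasureTheory

/-- the hyperbolic volume divided by seven, as a measure -/
noncomputable def nu : Measure H6 :=
  Measure.map nrm (volume.restrict {y : V7 | 0 < y 0 ∧ -1 < lor y y ∧ lor y y < 0})

theorem meas_cont_lor : Continuous fun y : V7 => lor y y := by fun_prop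

theorem meas_isOpen_fut : IsOpen {y : V7 | lor y y < 0 ∧ 0 < y 0} :=
  (isOpen_lt meas_cont_lor continuous_const).inter (isOpen_lt continuous_const (continuous_apply 0))

theorem meas_isOpen_dom : IsOpen {y : V7 | 0 < y 0 ∧ -1 < lor y y ∧ lor y y < 0} :=
  (isOpen_lt continuous_const (continuous_apply 0)).inter
    ((isOpen_lt continuous_const meas_cont_lor).inter (isOpen_lt meas_cont_lor continuous_const))

theorem measurable_nrm : Measurable nrm := by
  classical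
  have h : Measurable fun y : V7 => (nrm y).val := by
    have e : (fun y : V7 => (nrm y).val) = fun y : V7 =>
        if lor y y < 0 ∧ 0 < y 0 then (√(-lor y y))⁻¹ • y else o.val := by
      funext y
      by_cases hy : lor y y < 0 ∧ 0 < y 0
      · rw [if_pos hy, nrm_val hy.1 hy.2]
      · rw [if_neg hy, nrm, dif_neg hy]
    rw [e]
    refine Measurable.ite meas_isOpen_fut.measurableSet ?_ measurable_const
    exact (meas_cont_lor.neg.sqrt.measurable.inv).smul measurable_id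
  exact h.subtype_mk (h := fun y => (nrm y).2)

theorem meas_cone_eq (A : Set H6) :
    nrm ⁻¹' A ∩ {y : V7 | 0 < y 0 ∧ -1 < lor y y ∧ lor y y < 0} = cone A := by
  ext y
  constructor
  · rintro ⟨hA, h0, h1, h2⟩
    have hp : 0 < √(-lor y y) := Real.sqrt_pos.mpr (neg_pos.mpr h2)
    refine ⟨√(-lor y y), ⟨hp, ?_⟩, nrm y, hA, ?_⟩
    · rw [Real.sqrt_lt' one_pos]; linarith
    · rw [nrm_val h2 h0, smul_smul, mul_inv_cancel₀ hp.ne', one_smul]
  · rintro ⟨t, ⟨t0, t1⟩, x, hx, rfl⟩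
    have e : lor (t • x.val) (t • x.val) = -(t * t) := by
      rw [lor_smul_left, lor_smul_right, x.2.1]; ring
    refine ⟨?_, mul_pos t0 x.2.2, ?_, ?_⟩
    · rw [Set.mem_preimage, nrm_rsmul x t0]; exact hx
    · rw [e]; nlinarith
    · rw [e]; nlinarith

theorem nu_eq {A : Set H6} (hA : MeasurableSet A) : nu A = volume (cone A) := by
  rw [nu, Measure.map_apply measurable_nrm hA, Measure.restrict_apply (measurable_nrm hA),
    meas_cone_eq]

theorem meas_cone_preimage (g : Isom6) (A : Set H6) :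
    cone ((fun x => g • x) ⁻¹' A) = Matrix.toLin' (g⁻¹).val.val '' cone A := by
  ext y
  constructor
  · rintro ⟨t, ht, x, hx, rfl⟩
    refine ⟨t • (g • x).val, ⟨t, ht, _, hx, rfl⟩, ?_⟩
    rw [map_smul, Matrix.toLin'_apply, ← smul_vec, ← val_smul, inv_smul_smul]
  · rintro ⟨_, ⟨t, ht, x, hx, rfl⟩, rfl⟩
    refine ⟨t, ht, g⁻¹ • x, ?_, ?_⟩
    · simpa only [Set.mem_preimage, smul_inv_smul] using hx
    · rw [map_smul, Matrix.toLin'_apply, ← smul_vec, ← val_smul]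

instance : SMulInvariantMeasure Isom6 H6 nu where
  measure_preimage_smul := by
    intro g A hA
    rw [nu_eq hA, nu_eq ((continuous_const_smul g).measurable hA), meas_cone_preimage,
      Measure.addHaar_image_linearMap, LinearMap.det_toLin', abs_det, ENNReal.ofReal_one, one_mul]

theorem meas_abs_le (x : H6) (i : Fin 7) : |x.val i| ≤ x.val 0 := by
  have h0 := x.2.2
  refine Fin.cases (abs_of_pos h0).le (fun j => ?_) i
  have h1 := x.2.1
  have h2 : x.val j.succ * x.val j.succ ≤ ∑ i : Fin 6, x.val i.succ * x.val i.succ :=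
    Finset.single_le_sum (f := fun i : Fin 6 => x.val i.succ * x.val i.succ)
      (fun i _ => mul_self_nonneg _) (Finset.mem_univ j)
  unfold lor at h1
  exact abs_le_of_sq_le_sq' (by nlinarith) h0.le |>.elim fun a b => abs_le.mpr ⟨a, b⟩

theorem meas_lt_top {A : Set H6} {R : ℝ} (h : ∀ x ∈ A, dl o x ≤ R) : nu A < ⊤ := by
  have hm : MeasurableSet {x : H6 | dl o x ≤ R} :=
    (isClosed_le (by fun_prop) continuous_const).measurableSet
  refine (measure_mono (t := {x : H6 | dl o x ≤ R}) h).trans_lt ?_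
  rw [nu_eq hm]
  refine (measure_mono (t := Set.Icc (fun _ => -R) (fun _ => R)) ?_).trans_lt
    isCompact_Icc.measure_lt_top
  rintro _ ⟨t, ⟨t0, t1⟩, x, hx, rfl⟩
  have hx' : x.val 0 ≤ R := by rw [← dl_o]; exact hx
  have key : ∀ i, |(t • x.val) i| ≤ R := fun i => by
    rw [Pi.smul_apply, smul_eq_mul, abs_mul, abs_of_pos t0]
    have := meas_abs_le x i
    have := abs_nonneg (x.val i)
    nlinarith
  exact ⟨fun i => (abs_le.mp (key i)).1, fun i => (abs_le.mp (key i)).2⟩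

instance : IsFiniteMeasureOnCompacts nu where
  lt_top_of_isCompact := by
    intro K hK
    obtain ⟨R, hR⟩ := bdd_of_isCompact hK
    exact meas_lt_top hR

theorem meas_continuousOn_nrm :
    ContinuousOn nrm {y : V7 | 0 < y 0 ∧ -1 < lor y y ∧ lor y y < 0} := by
  rw [Topology.IsInducing.subtypeVal.continuousOn_iff]
  refine ContinuousOn.congr (f := fun y : V7 => (√(-lor y y))⁻¹ • y) ?_
    fun y hy => nrm_val hy.2.2 hy.1
  refine ContinuousOn.smul (meas_cont_lor.neg.sqrt.continuousOn.inv₀ fun y hy => ?_)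
    continuousOn_id
  exact (Real.sqrt_pos.mpr (neg_pos.mpr hy.2.2)).ne'

theorem meas_isOpen_cone {U : Set H6} (hU : IsOpen U) : IsOpen (cone U) := by
  rw [← meas_cone_eq, Set.inter_comm]
  exact meas_continuousOn_nrm.isOpen_inter_preimage meas_isOpen_dom hU

instance : Measure.IsOpenPosMeasure nu where
  open_pos := by
    rintro U hU ⟨x, hx⟩
    rw [nu_eq hU.measurableSet]
    exact (meas_isOpen_cone hU).measure_ne_zero _
      ⟨(1 / 2 : ℝ) • x.val, 1 / 2, ⟨by norm_num, by norm_num⟩, x, hx, rfl⟩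

instance : SigmaFinite nu := inferInstance

theorem nu_ball (x : H6) (r : ℝ) : nu {y | dl x y < r} = nu {y | dl o y < r} := by
  obtain ⟨g, -, hg⟩ := exists_swap o x
  rw [← measure_preimage_smul (μ := nu) g {y | dl x y < r}]
  congr 1
  ext y
  simp only [Set.mem_preimage, Set.mem_ofPred_eq]
  rw [← hg, dl_smul]

theorem nu_ball_pos (x : H6) {r : ℝ} (hr : 1 < r) : 0 < nu {y | dl x y < r} :=
  Measure.measure_pos_of_mem_nhds nu (ball_mem_nhds x hr)

theorem nu_lt_top_of_bdd {A : Set H6} {R : ℝ} (h : ∀ x ∈ A, dl o x ≤ R) : nu A < ⊤ :=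
  meas_lt_top h

/-- finite covolume -/
def FinCov (Γ : Subgroup Isom6) : Prop :=
  ∃ F : Set H6, MeasurableSet F ∧ nu F < ⊤ ∧ ∀ x : H6, ∃ γ ∈ Γ, γ • x ∈ F

variable {Γ : Subgroup Isom6}

theorem finCov_of_hvol {F : Set H6} (h1 : MeasurableSet F) (h2 : hvol F < ⊤)
    (h3 : ∀ x : H6, ∃ g ∈ Γ, g • x ∈ F) : FinCov Γ := by
  refine ⟨F, h1, ?_, h3⟩
  rw [nu_eq h1]
  have h : (7 : ENNReal) * volume (cone F) < ⊤ := h2
  exact lt_of_le_of_lt (le_mul_of_one_le_left' (by norm_num)) h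

end Pool.Agent.MP_3fe7bf_gt.GB

/-!
Volume bounds from multiplicity; the thick part of a lattice is cocompact.
-/

namespace Pool.Agent.MP_3fe7bf_gt.GB

open MeasureTheory

variable {Γ : Subgroup Isom6}

/-- a set that meets every orbit at most `k` times has at most `k` times the covolume -/
theorem nu_le_mul (h : Nice Γ) {F : Set H6} (hF : MeasurableSet F)
    (hc : ∀ x : H6, ∃ γ ∈ Γ, γ • x ∈ F) {A : Set H6} (hA : MeasurableSet A) (k : ℕ)
    (hk : ∀ x : H6, {γ : Isom6 | γ ∈ Γ ∧ γ • x ∈ A}.encard ≤ k) : nu A ≤ k * nu F := by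
  have hcount : Countable Γ := h.countable
  have hm : ∀ g : Isom6, Measurable (fun x : H6 => g • x) := fun g =>
    (continuous_const_smul g).measurable
  have h1 : A ⊆ ⋃ γ : Γ, A ∩ (fun x : H6 => (γ : Isom6)⁻¹ • x) ⁻¹' F := by
    intro x hx
    obtain ⟨γ, hγ, hx'⟩ := hc x
    exact Set.mem_iUnion.mpr ⟨⟨γ⁻¹, Γ.inv_mem hγ⟩, hx, by simpa using hx'⟩
  have h2 : ∀ γ : Γ, nu (A ∩ (fun x : H6 => (γ : Isom6)⁻¹ • x) ⁻¹' F) =
      ∫⁻ x in F, ((fun x : H6 => (γ : Isom6) • x) ⁻¹' A).indicator 1 x ∂nu := by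
    intro γ
    rw [lintegral_indicator_one (hm _ hA), Measure.restrict_apply (hm _ hA),
      ← measure_preimage_smul nu (γ : Isom6) (A ∩ _)]
    congr 1
    ext x
    simp
  have h3 : ∀ x : H6, ∑' γ : Γ, ((fun x : H6 => (γ : Isom6) • x) ⁻¹' A).indicator
      (1 : H6 → ENNReal) x ≤ k := by
    intro x
    have e1 : ∀ γ : Γ, ((fun x : H6 => (γ : Isom6) • x) ⁻¹' A).indicator (1 : H6 → ENNReal) x =
        {γ : Γ | (γ : Isom6) • x ∈ A}.indicator (fun _ => (1 : ENNReal)) γ := by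
      intro γ
      by_cases hx : (γ : Isom6) • x ∈ A <;> simp [Set.indicator, hx]
    simp_rw [e1]
    rw [← tsum_subtype, ENNReal.tsum_set_one]
    have e2 : {γ : Γ | (γ : Isom6) • x ∈ A}.encard = {γ : Isom6 | γ ∈ Γ ∧ γ • x ∈ A}.encard := by
      rw [← Subtype.val_injective.encard_image]
      congr 1
      ext g
      simp only [Set.mem_image, Set.mem_ofPred_eq, Subtype.exists, exists_and_right,
        exists_eq_right]
      tauto
    rw [e2]
    exact_mod_cast hk x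
  calc nu A ≤ ∑' γ : Γ, nu (A ∩ (fun x : H6 => (γ : Isom6)⁻¹ • x) ⁻¹' F) :=
        (measure_mono h1).trans (measure_iUnion_le _)
    _ = ∫⁻ x in F, ∑' γ : Γ, ((fun x : H6 => (γ : Isom6) • x) ⁻¹' A).indicator 1 x ∂nu := by
        rw [lintegral_tsum (fun γ => ((measurable_one.indicator (hm _ hA))).aemeasurable)]
        exact tsum_congr h2
    _ ≤ ∫⁻ _ in F, (k : ENNReal) ∂nu := lintegral_mono h3
    _ = k * nu F := by rw [setLIntegral_const]

/-- the thick part -/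
def Thick (ε : ℝ) (Γ : Subgroup Isom6) : Set H6 := {x | ∀ γ ∈ Γ, γ ≠ 1 → 1 + ε ≤ dl x (γ • x)}

theorem thick_cocompact (h : Nice Γ) (hv : FinCov Γ) {ε : ℝ} (hε : 0 < ε) :
    ∃ R, ∀ x ∈ Thick ε Γ, ∃ γ ∈ Γ, dl o (γ • x) ≤ R := by
  classical
  by_contra hno
  push Not at hno
  obtain ⟨F, hF, hfin, hc⟩ := hv
  obtain ⟨δ, hδ, hnear⟩ := dl_near (a := 1) (b := 1 + ε) (by linarith)
  set r : ℝ := 1 + δ with hr
  have hr1 : 1 < r := by linarith
  -- separated families of thick points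
  have fam : ∀ N : ℕ, ∃ S : Finset H6, S.card = N ∧ (∀ x ∈ S, x ∈ Thick ε Γ) ∧
      ∀ x ∈ S, ∀ y ∈ S, x ≠ y → ∀ γ ∈ Γ, 2 * r ^ 2 < dl x (γ • y) := by
    intro N
    induction N with
    | zero => exact ⟨∅, rfl, by simp, by simp⟩
    | succ N ih =>
      obtain ⟨S, hcard, hth, hsep⟩ := ih
      obtain ⟨z, hz, hfar⟩ := hno (∑ x ∈ S, 2 * dl o x * (2 * r ^ 2))
      have hsz : ∀ x ∈ S, ∀ γ ∈ Γ, 2 * r ^ 2 < dl x (γ • z) := by
        intro x hx γ hγ
        by_contra hle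
        push Not at hle
        have i1 := dl_tri o x (γ • z)
        have i2 := hfar γ hγ
        have i3 : 2 * dl o x * (2 * r ^ 2) ≤ ∑ x ∈ S, 2 * dl o x * (2 * r ^ 2) :=
          Finset.single_le_sum (f := fun x => 2 * dl o x * (2 * r ^ 2))
            (fun y _ => by have := one_le_dl o y; positivity) hx
        have i4 := one_le_dl o x
        have i5 : 2 * dl o x * dl x (γ • z) ≤ 2 * dl o x * (2 * r ^ 2) :=
          mul_le_mul_of_nonneg_left hle (by linarith)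
        linarith
      have hzS : z ∉ S := by
        intro hzS
        have := hsz z hzS 1 Γ.one_mem
        rw [one_smul, dl_self] at this
        nlinarith
      refine ⟨insert z S, by rw [Finset.card_insert_of_notMem hzS, hcard], ?_, ?_⟩
      · intro x hx
        rcases Finset.mem_insert.mp hx with rfl | hx
        · exact hz
        · exact hth x hx
      · intro x hx y hy hxy γ hγ
        rcases Finset.mem_insert.mp hx with hx' | hx' <;>
          rcases Finset.mem_insert.mp hy with hy' | hy'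
        · exact absurd (hx'.trans hy'.symm) hxy
        · rw [hx', dl_comm, dl_smul_left]
          exact hsz y hy' _ (Γ.inv_mem hγ)
        · rw [hy']; exact hsz x hx' γ hγ
        · exact hsep x hx' y hy' hxy γ hγ
  have hball : ∀ x : H6, MeasurableSet {y | dl x y < r} := fun x =>
    (isOpen_lt (by fun_prop) continuous_const).measurableSet
  have bound : ∀ N : ℕ, (N : ENNReal) * nu {y | dl o y < r} ≤ nu F := by
    intro N
    obtain ⟨S, hcard, hth, hsep⟩ := fam N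
    have key : ∀ x ∈ S, ∀ y ∈ S, ∀ γ ∈ Γ, ∀ w : H6, dl x w < r → dl y (γ • w) < r →
        x = y ∧ γ = 1 := by
      intro x hx y hy γ hγ w h1 h2
      have h3 : dl w (γ⁻¹ • y) < r := by rw [← dl_smul_left, dl_comm]; exact h2
      have hxy : x = y := by
        by_contra hne
        have i1 := hsep x hx y hy hne _ (Γ.inv_mem hγ)
        have i2 := dl_le_of_le h1.le h3.le
        linarith
      subst hxy
      refine ⟨rfl, ?_⟩
      by_contra hne
      have i1 := hth x hx γ⁻¹ (Γ.inv_mem hγ) (inv_ne_one.mpr hne)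
      have i2 := hnear w w x (γ⁻¹ • x) (dl_self w).le (by rw [dl_comm]; linarith) (by linarith)
      linarith
    have m1 : nu (⋃ x ∈ S, {y | dl x y < r}) = N * nu {y | dl o y < r} := by
      rw [measure_biUnion_finset ?_ (fun x _ => hball x)]
      · rw [Finset.sum_congr rfl (fun x _ => nu_ball x r), Finset.sum_const, hcard, nsmul_eq_mul]
      · intro x hx y hy hxy
        rw [Function.onFun, Set.disjoint_left]
        intro w h1 h2
        exact hxy (key x hx y hy 1 Γ.one_mem w h1 (by rw [one_smul]; exact h2)).1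
    have m2 := nu_le_mul h hF hc (A := ⋃ x ∈ S, {y | dl x y < r})
      (S.measurableSet_biUnion (fun x _ => hball x)) 1 (fun w => by
        rw [Nat.cast_one, Set.encard_le_one_iff]
        rintro g1 g2 ⟨m1, k1⟩ ⟨m2, k2⟩
        simp only [Set.mem_iUnion, Set.mem_ofPred_eq] at k1 k2
        obtain ⟨x, hx, k1⟩ := k1
        obtain ⟨y, hy, k2⟩ := k2
        have := (key x hx y hy (g2 * g1⁻¹) (Γ.mul_mem m2 (Γ.inv_mem m1)) (g1 • w) k1
          (by rw [smul_smul, inv_mul_cancel_right]; exact k2)).2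
        exact (mul_inv_eq_one.mp this).symm)
    rw [m1] at m2
    simpa using m2
  obtain ⟨N, hN⟩ := ENNReal.exists_nat_mul_gt (nu_ball_pos o hr1).ne' hfin.ne
  exact absurd (bound N) (not_le.mpr hN)

end Pool.Agent.MP_3fe7bf_gt.GB

/-!
Consequences of the thick-thin data: finiteness and volume bounds for horoballs.
-/

namespace Pool.Agent.MP_3fe7bf_gt.GB

open MeasureTheory

variable {Γ : Subgroup Isom6}

theorem Cryst.fin_uu {P : Subgroup Isom6} (h : Cryst P) (R : ℝ) :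
    {p : Isom6 | p ∈ P ∧ ‖uu (p • o)‖ ≤ R}.Finite := by
  refine (h.nice.fin (1 + R ^ 2 / 2)).subset ?_
  rintro p ⟨hp, hR⟩
  refine ⟨hp, ?_⟩
  rw [dl_smul_chart (h.fix p hp), uu_o, ht_o, zero_sub, norm_neg]
  have := pow_le_pow_left₀ (norm_nonneg _) hR 2
  linarith

theorem Cryst.infinite {P : Subgroup Isom6} (h : Cryst P) : (P : Set Isom6).Infinite := by
  intro hf
  obtain ⟨R, hR⟩ := h.coc
  obtain ⟨B, hB⟩ := (hf.image fun p => ‖uu (p • o)‖).bddAbove
  obtain ⟨u, hu⟩ := NormedSpace.exists_lt_norm ℝ E5 (B + R)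
  obtain ⟨y, hy, -⟩ := exists_pt u one_pos
  obtain ⟨p, hp, h1⟩ := hR y
  have h2 := norm_uu_smul_le (h.fix _ (P.inv_mem hp)) (p • y)
  have h3 : ‖uu (p⁻¹ • o)‖ ≤ B := hB ⟨p⁻¹, P.inv_mem hp, rfl⟩
  rw [inv_smul_smul, hy] at h2
  linarith

theorem Bdd.uu_le {V : Set H6} (h : Bdd V) (g : Isom6) :
    ∃ a, ∀ y : H6, g • y ∈ V → ‖uu y‖ ≤ a := by
  obtain ⟨R, hR⟩ := h.preimage g
  refine ⟨2 * R, fun y hy => ?_⟩
  have h1 := norm_uu_sub_le o y
  have h2 := hR y hy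
  rw [uu_o, ht_o, zero_sub, norm_neg] at h1
  linarith

theorem isOpen_N2 (A : Set H6) : IsOpen (N2 A) := by
  have e : N2 A = ⋃ x ∈ A, {y | dl x y < 2} := by
    ext y
    simp [N2]
  rw [e]
  exact isOpen_biUnion fun x _ => isOpen_lt (by fun_prop) continuous_const

theorem Bdd.n2 {A : Set H6} (h : Bdd A) : Bdd (N2 A) := by
  obtain ⟨R, hR⟩ := h
  refine ⟨2 * R * 2, ?_⟩
  rintro y ⟨x, hx, hxy⟩
  have h1 := hR x hx
  have h2 := one_le_dl o x
  have h3 := one_le_dl x y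
  exact (dl_tri o x y).trans (mul_le_mul (by linarith) hxy.le (by linarith) (by linarith))

theorem nu_N2_preimage (A : Set H6) (g : Isom6) :
    nu.real (N2 {x | g • x ∈ A}) = nu.real (N2 A) := by
  have e : N2 {x | g • x ∈ A} = (fun x => g • x) ⁻¹' N2 A := by
    ext y
    constructor
    · rintro ⟨x, hx, hxy⟩
      exact ⟨g • x, hx, by rwa [dl_smul]⟩
    · rintro ⟨x, hx, hxy⟩
      refine ⟨g⁻¹ • x, by simpa using hx, ?_⟩
      rwa [dl_smul_left, inv_inv]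
  rw [e, Measure.real, measure_preimage_smul, Measure.real]

/-- the volume of the ball of size two -/
noncomputable def v0 : ℝ := nu.real {y | dl o y < 2}

theorem v0_pos : 0 < v0 := by
  exact ENNReal.toReal_pos (nu_ball_pos o (by norm_num)).ne'
    (nu_lt_top_of_bdd (R := 2) fun x hx => le_of_lt hx).ne

variable (D : TT Γ) {M : ℝ} {ζ ζ' : V7} {V : Set H6}

theorem TT.mem_LC (h : ζ ∈ D.HV) : ζ ∈ LC := by
  obtain ⟨i, γ, -, rfl⟩ := h
  exact smul_mem_LC _ (smul_mem_LC _ z0_mem)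

theorem TT.c_mem_HV (i : Fin D.n) {γ : Isom6} (hγ : γ ∈ Γ) : γ • D.c i • z0 ∈ D.HV :=
  ⟨i, γ, hγ, rfl⟩

theorem TT.smul_mem_HV (h : ζ ∈ D.HV) {γ : Isom6} (hγ : γ ∈ Γ) : γ • ζ ∈ D.HV := by
  obtain ⟨i, γ', hγ', rfl⟩ := h
  exact ⟨i, γ * γ', Γ.mul_mem hγ hγ', (mul_smul _ _ _).symm⟩

theorem TT.HV_eq (hM : 1 ≤ M) (h : ζ ∈ D.HV) (h' : ζ' ∈ D.HV) {x : H6} (hx : x ∈ Hb ζ M)
    (hx' : x ∈ Hb ζ' M) : ζ = ζ' := by
  have h1 := Hb_mono (D.mem_LC h) hM hx
  have h2 := Hb_mono (D.mem_LC h') hM hx'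
  obtain ⟨i, γ, hγ, rfl⟩ := h
  obtain ⟨j, γ', hγ', rfl⟩ := h'
  obtain ⟨rfl, e⟩ := D.disj i j (γ'⁻¹ * γ) (Γ.mul_mem (Γ.inv_mem hγ') hγ) (γ'⁻¹ • x)
    (by rwa [mul_smul, smul_mem_Hb]) (by rwa [← smul_mem_Hb γ', smul_inv_smul])
  rwa [mul_smul, inv_smul_eq_iff] at e

theorem TT.idx_eq {i j : Fin D.n} {γ γ' : Isom6} (hγ : γ ∈ Γ) (hγ' : γ' ∈ Γ)
    (e : γ • D.c i • z0 = γ' • D.c j • z0) : i = j := by
  obtain ⟨y, -, hy⟩ := exists_pt 0 (h := 2) two_pos
  have h1 : D.c j • y ∈ Hb (D.c j • z0) 1 := (mem_Hb_chart _).2 (by rw [hy]; norm_num)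
  refine (D.disj i j (γ'⁻¹ * γ) (Γ.mul_mem (Γ.inv_mem hγ') hγ) (D.c j • y) ?_ h1).1
  rwa [mul_smul, e, inv_smul_smul]

theorem TT.nB_le_one (hM : 1 ≤ M) (h : ζ ∈ D.HV) (hV : V ⊆ Hb ζ M) : D.hb M V ⊆ {ζ} := by
  rintro ξ ⟨hξ, x, h1, h2⟩
  exact D.HV_eq hM hξ h h1 (hV h2)

theorem TT.ht_le (h : Nice Γ) (i : Fin D.n) (R : ℝ) :
    ∃ H, ∀ γ ∈ Γ, ∀ y : H6, dl o (γ • D.c i • y) ≤ R → ht y ≤ H := by
  have hC := D.cryst h i
  obtain ⟨p0, hp0, hne⟩ := hC.infinite.exists_notMem_finset {1}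
  rw [Finset.mem_singleton] at hne
  obtain ⟨R0, hR0⟩ := hC.coc
  obtain ⟨δ, hδ, hd⟩ := h.min_disp R
  refine ⟨1 + (R0 + (‖uu (p0 • o)‖ + R0)) ^ 2 / (2 * δ), fun γ hγ y hy => ?_⟩
  obtain ⟨q, hq, h1⟩ := hR0 y
  have hm : q⁻¹ * p0 * q ∈ Pc Γ (D.c i) :=
    Subgroup.mul_mem _ (Subgroup.mul_mem _ (Subgroup.inv_mem _ hq) hp0) hq
  have h2 := hd _ hy (γ * (D.c i * (q⁻¹ * p0 * q) * (D.c i)⁻¹) * γ⁻¹)
    (Γ.mul_mem (Γ.mul_mem hγ hm.2) (Γ.inv_mem hγ)) (fun e => hne (by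
      have e1 : p0 = (γ * D.c i * q⁻¹)⁻¹ * (γ * (D.c i * (q⁻¹ * p0 * q) * (D.c i)⁻¹) * γ⁻¹) *
        (γ * D.c i * q⁻¹) := by group
      rw [e1, e]
      group))
  simp only [mul_smul, inv_smul_smul, dl_smul] at h2
  rw [← dl_smul_left, dl_smul_chart hp0.1, ht_smul hq.1] at h2
  have h3 := norm_uu_smul_le hp0.1 (q • y)
  have h4 : ‖uu (q • y) - uu (p0 • q • y)‖ ≤ R0 + (‖uu (p0 • o)‖ + R0) :=
    (norm_sub_le _ _).trans (by linarith)
  have h5 := pow_le_pow_left₀ (norm_nonneg _) h4 2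
  have h6 := ht_pos y
  have h7 : δ ≤ ‖uu (q • y) - uu (p0 • q • y)‖ ^ 2 / (2 * ht y ^ 2) := by linarith
  rw [le_div_iff₀ (by positivity)] at h7
  have h8 : ht y ^ 2 ≤ (R0 + (‖uu (p0 • o)‖ + R0)) ^ 2 / (2 * δ) := by
    rw [le_div_iff₀ (by positivity)]
    linarith
  nlinarith

theorem TT.fin_deep (h : Nice Γ) (i : Fin D.n) (R a : ℝ) (hM : 0 < M) :
    {γ : Isom6 | γ ∈ Γ ∧ ∃ y : H6, M < ht y ∧ ‖uu y‖ ≤ a ∧ dl o (γ • D.c i • y) ≤ R}.Finite := by
  obtain ⟨H, hH⟩ := D.ht_le h i R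
  refine (h.fin_ball (max R (2 * dl o (D.c i • o) * ((a ^ 2 + 1 + H ^ 2) / (2 * M))))).subset ?_
  rintro γ ⟨hγ, y, h1, h2, h3⟩
  refine ⟨hγ, D.c i • y, le_max_of_le_right ((dl_tri o (D.c i • o) _).trans ?_),
    le_max_of_le_left h3⟩
  rw [dl_smul]
  exact mul_le_mul_of_nonneg_left (dl_o_le hM h1.le (hH γ hγ y h3) h2)
    (by linarith [one_le_dl o (D.c i • o)])

theorem TT.fin_hb (h : Nice Γ) (hM : 0 < M) (hV : Bdd V) : (D.hb M V).Finite := by
  obtain ⟨R, hR⟩ := hV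
  choose R0 hR0 using D.cocP
  refine (Set.finite_iUnion fun i =>
    (D.fin_deep h i R (R0 i) hM).image fun γ => γ • D.c i • z0).subset ?_
  rintro _ ⟨⟨i, γ, hγ, rfl⟩, x, h1, h2⟩
  obtain ⟨y, rfl⟩ : ∃ y : H6, x = γ • D.c i • y := ⟨(D.c i)⁻¹ • γ⁻¹ • x, by simp⟩
  rw [smul_mem_Hb, mem_Hb_chart] at h1
  obtain ⟨p, hp, h3⟩ := hR0 i y
  have hp' := (Pc Γ (D.c i)).inv_mem hp
  refine Set.mem_iUnion.2 ⟨i, γ * (D.c i * p⁻¹ * (D.c i)⁻¹),
    ⟨Γ.mul_mem hγ hp'.2, p • y, by rwa [ht_smul hp.1], h3, ?_⟩, ?_⟩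
  · simp only [mul_smul, inv_smul_smul]
    exact hR _ h2
  · simp only [mul_smul, inv_smul_smul, hp'.1]

theorem TT.nB_le (hM : 4 ≤ M) (hV : Bdd V) : (D.nB M V : ℝ) * v0 ≤ nu.real (N2 V) := by
  unfold TT.nB
  rcases (D.hb M V).finite_or_infinite with hf | hf
  swap
  · rw [hf.ncard, Nat.cast_zero, zero_mul]
    exact measureReal_nonneg
  have ex : ∀ ξ ∈ D.hb M V, ∃ x, x ∈ Hb ξ M ∩ V := fun ξ hξ => hξ.2
  have : Nonempty H6 := ⟨o⟩
  choose! x hx using ex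
  obtain ⟨R, hR⟩ := hV.n2
  have hfin := (nu_lt_top_of_bdd hR).ne
  have hsub : ∀ ξ ∈ hf.toFinset, {y | dl (x ξ) y < 2} ⊆ N2 V := fun ξ hξ y hy =>
    ⟨x ξ, (hx ξ (hf.mem_toFinset.1 hξ)).2, hy⟩
  have e := measureReal_biUnion_finset (μ := nu) (s := hf.toFinset)
    (f := fun ξ => {y | dl (x ξ) y < 2}) ?_
    (fun ξ _ => (isOpen_lt (by fun_prop) continuous_const).measurableSet)
    fun ξ hξ => ne_top_of_le_ne_top hfin (measure_mono (hsub ξ hξ))
  · have e2 : ∀ ξ ∈ hf.toFinset, nu.real {y | dl (x ξ) y < 2} = v0 := fun ξ _ => by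
      rw [v0, Measure.real, nu_ball, Measure.real]
    rw [Finset.sum_congr rfl e2, Finset.sum_const, nsmul_eq_mul] at e
    rw [Set.ncard_eq_toFinset_card _ hf, ← e]
    exact measureReal_mono (Set.iUnion₂_subset hsub) hfin
  · intro ξ hξ ξ' hξ' hne
    have k1 := hf.mem_toFinset.1 hξ
    have k2 := hf.mem_toFinset.1 hξ'
    exact Set.disjoint_left.2 fun y hy hy' => hne (D.HV_eq le_rfl k1.1 k2.1
      (mem_Hb_one (D.mem_LC k1.1) hM (hx ξ k1).1 hy)
      (mem_Hb_one (D.mem_LC k2.1) hM (hx ξ' k2).1 hy'))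

theorem TT.fin_vol (h : Nice Γ) (hv : FinCov Γ) (i : Fin D.n) (a : ℝ) :
    nu {y | 1 < ht y ∧ ‖uu y‖ ≤ a} < ⊤ := by
  obtain ⟨F, hF, hF', hc⟩ := hv
  have hfin := (D.cryst h i).fin_uu (2 * a)
  have hm : MeasurableSet {y | 1 < ht y ∧ ‖uu y‖ ≤ a} :=
    (isOpen_lt continuous_const continuous_ht).measurableSet.inter
      (isClosed_le continuous_uu.norm continuous_const).measurableSet
  rw [← measure_preimage_smul (μ := nu) (D.c i)⁻¹]
  refine (nu_le_mul h hF hc ((continuous_const_smul (D.c i)⁻¹).measurable hm)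
    {p : Isom6 | p ∈ Pc Γ (D.c i) ∧ ‖uu (p • o)‖ ≤ 2 * a}.ncard fun x => ?_).trans_lt
    (ENNReal.mul_lt_top (ENNReal.natCast_lt_top _) hF')
  rw [hfin.cast_ncard_eq]
  rcases Set.eq_empty_or_nonempty {γ : Isom6 | γ ∈ Γ ∧
    γ • x ∈ (fun y => (D.c i)⁻¹ • y) ⁻¹' {y | 1 < ht y ∧ ‖uu y‖ ≤ a}} with e | ⟨γ0, h0, h1, h2⟩
  · rw [e, Set.encard_empty]
    exact zero_le
  refine Set.encard_le_encard_of_injOn (f := fun γ => (D.c i)⁻¹ * (γ * γ0⁻¹) * D.c i) ?_ ?_
  · rintro γ ⟨hγ, h3, h4⟩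
    have k1 := (mem_Hb_chart (D.c i)).2 h1
    have k2 := (mem_Hb_chart (D.c i)).2 h3
    simp only [smul_inv_smul] at k1 k2
    have hg := Γ.mul_mem hγ (Γ.inv_mem h0)
    have k3 := (D.disj i i _ hg (γ • x) (by
      rwa [← smul_mem_Hb (γ * γ0⁻¹), mul_smul γ γ0⁻¹ (γ0 • x), inv_smul_smul] at k1) k2).2
    have hp := conj_mem_Pc hg k3
    refine ⟨hp, (norm_uu_smul_o_le hp.1 ((D.c i)⁻¹ • γ0 • x)).trans ?_⟩
    simp only [mul_smul, smul_inv_smul, inv_smul_smul]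
    have h2' : ‖uu ((D.c i)⁻¹ • γ0 • x)‖ ≤ a := h2
    have h4' : ‖uu ((D.c i)⁻¹ • γ • x)‖ ≤ a := h4
    linarith
  · intro γ _ γ' _ e
    simpa using e

end Pool.Agent.MP_3fe7bf_gt.GB

/-!
Orbit counting for a cusp group: doubling, radii with small boundary, caps.
-/

namespace Pool.Agent.MP_3fe7bf_gt.GB

open Filter Topology MeasureTheory

variable {P : Subgroup Isom6}

theorem Cryst.fin_NP (h : Cryst P) (R : ℝ) :
    {p : Isom6 | p ∈ P ∧ ‖uu (p • o)‖ < R}.Finite :=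
  (h.fin_uu R).subset fun _ hp => ⟨hp.1, hp.2.le⟩

theorem Cryst.NP_mono (h : Cryst P) : Monotone (NP P) := by
  intro a b hab
  exact Set.ncard_le_ncard (fun p hp => ⟨hp.1, hp.2.trans_le hab⟩) (h.fin_NP b)

theorem Cryst.NP_pos (h : Cryst P) {R : ℝ} (hR : 0 < R) : 0 < NP P R := by
  exact (Set.ncard_pos (h.fin_NP R)).2 ⟨1, P.one_mem, by simpa [uu_o] using hR⟩

theorem Cryst.NP_tendsto (h : Cryst P) : Tendsto (fun R => (NP P R : ℝ)) atTop atTop := by
  refine tendsto_natCast_atTop_atTop.comp (tendsto_atTop.2 fun n => ?_)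
  obtain ⟨t, ht, hn⟩ := h.infinite.exists_subset_card_eq n
  obtain ⟨b, hb⟩ := (t.finite_toSet.image fun p => ‖uu (p • o)‖).bddAbove
  filter_upwards [eventually_gt_atTop b] with R hR
  rw [← hn, ← Set.ncard_coe_finset]
  exact Set.ncard_le_ncard (fun p hp => ⟨ht hp, (hb ⟨p, hp, rfl⟩).trans_lt hR⟩) (h.fin_NP R)

theorem folner_inj (h : Cryst P) {q : Isom6} (hq : q ∈ P) {A : Set Isom6} {R : ℝ}
    (hA : ∀ p ∈ A, p ∈ P ∧ ‖uu (q • p • o)‖ < R) : A.ncard ≤ NP P R :=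
  Set.ncard_le_ncard_of_injOn (fun p => q * p)
    (fun p hp => ⟨P.mul_mem hq (hA p hp).1, by rw [mul_smul]; exact (hA p hp).2⟩)
    (fun _ _ _ _ e => mul_left_cancel e) (h.fin_NP R)

theorem folner_union {α β : Type} (t : Finset α) (A : α → Set β) {N : ℕ}
    (hA : ∀ w ∈ t, (A w).ncard ≤ N) : (⋃ w ∈ t, A w).ncard ≤ t.card * N := by
  classical
  induction t using Finset.induction_on with
  | empty => simp
  | insert a t ha ih =>
    rw [Finset.set_biUnion_insert, Finset.card_insert_of_notMem ha]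
    have h1 := Set.ncard_union_le (A a) (⋃ w ∈ t, A w)
    have h2 := hA a (Finset.mem_insert_self _ _)
    have h3 := ih fun w hw => hA w (Finset.mem_insert_of_mem hw)
    nlinarith

theorem Cryst.doubling (h : Cryst P) (c : ℝ) :
    ∃ C R1 : ℝ, 0 < C ∧ ∀ R, R1 ≤ R → (NP P (c * R) : ℝ) ≤ C * NP P R := by
  obtain ⟨R0, hR0⟩ := h.coc
  obtain ⟨t, -, ht, hcov⟩ :=
    finite_cover_balls_of_compact (isCompact_closedBall (0 : E5) (2 * |c|)) one_pos
  lift t to Finset E5 using ht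
  refine ⟨t.card + 1, max (2 * R0) 1, by positivity, fun R hR => ?_⟩
  have hR1 : 2 * R0 ≤ R := (le_max_left _ _).trans hR
  have hR2 : 0 < R := one_pos.trans_le ((le_max_right _ _).trans hR)
  let A : E5 → Set Isom6 := fun w => {p | p ∈ P ∧ ‖uu (p • o) - (R / 2) • w‖ < R / 2}
  have hA : ∀ w ∈ t, (A w).ncard ≤ NP P R := by
    intro w _
    obtain ⟨y, hy, -⟩ := exists_pt ((R / 2) • w) one_pos
    obtain ⟨q, hq, hq'⟩ := hR0 y
    refine folner_inj h hq fun p hp => ⟨hp.1, ?_⟩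
    have h1 := uu_smul (h.fix q hq) (p • o) y
    have h2 := norm_add_le (uu (q • p • o) - uu (q • y)) (uu (q • y))
    have h3 := hp.2
    rw [sub_add_cancel, h1, hy] at h2
    linarith
  have hfin : (⋃ w ∈ t, A w).Finite := by
    refine t.finite_toSet.biUnion fun w _ => (h.fin_NP (R / 2 + ‖(R / 2) • w‖)).subset ?_
    rintro p ⟨hp, hp'⟩
    refine ⟨hp, ?_⟩
    have h2 := norm_add_le (uu (p • o) - (R / 2) • w) ((R / 2) • w)
    rw [sub_add_cancel] at h2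
    linarith
  have hsub : {p : Isom6 | p ∈ P ∧ ‖uu (p • o)‖ < c * R} ⊆ ⋃ w ∈ t, A w := by
    rintro p ⟨hp, hp'⟩
    have h1 : (2 / R) • uu (p • o) ∈ Metric.closedBall (0 : E5) (2 * |c|) := by
      rw [mem_closedBall_zero_iff, norm_smul, Real.norm_of_nonneg (by positivity),
        div_mul_eq_mul_div, div_le_iff₀ hR2]
      nlinarith [le_abs_self c]
    obtain ⟨w, hw, hw'⟩ := Set.mem_iUnion₂.1 (hcov h1)
    refine Set.mem_iUnion₂.2 ⟨w, hw, hp, ?_⟩
    rw [mem_ball_iff_norm] at hw'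
    have e : uu (p • o) - (R / 2) • w = (R / 2) • ((2 / R) • uu (p • o) - w) := by
      rw [smul_sub, smul_smul, show R / 2 * (2 / R) = 1 by field_simp, one_smul]
    rw [e, norm_smul, Real.norm_of_nonneg (by positivity)]
    nlinarith
  have h1 : NP P (c * R) ≤ t.card * NP P R :=
    (Set.ncard_le_ncard hsub hfin).trans (folner_union t A hA)
  have h2 : (NP P (c * R) : ℝ) ≤ t.card * NP P R := by exact_mod_cast h1
  nlinarith [(Nat.cast_nonneg (NP P R) : (0 : ℝ) ≤ _)]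

theorem folner_step (h : Cryst P) {ε a : ℝ} (hε : 0 < ε) (ha : 0 < a) (R2 : ℝ) :
    ∃ R, R2 + a ≤ R ∧ (NP P (R + a) : ℝ) ≤ (1 + ε) * NP P (R - a) := by
  by_contra hc
  push Not at hc
  obtain ⟨C, R1, hC, hd⟩ := h.doubling 2
  obtain ⟨R3, h1, h2, h3⟩ : ∃ R3, R2 ≤ R3 ∧ R1 ≤ R3 ∧ 0 < R3 :=
    ⟨max R2 (max R1 1), le_max_left _ _, le_max_of_le_right (le_max_left _ _),
      one_pos.trans_le (le_max_of_le_right (le_max_right _ _))⟩
  have hN : (0 : ℝ) < NP P R3 := by exact_mod_cast h.NP_pos h3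
  have hlo : ∀ j : ℕ, (1 + ε) ^ j * NP P R3 ≤ (NP P (R3 + 2 * a * j) : ℝ) := by
    intro j
    induction j with
    | zero => simp
    | succ j ih =>
      have hj : (0 : ℝ) ≤ 2 * a * j := by positivity
      have h4 := hc (R3 + 2 * a * j + a) (by linarith)
      rw [add_sub_cancel_right] at h4
      rw [show R3 + 2 * a * ((j + 1 : ℕ) : ℝ) = R3 + 2 * a * j + a + a by push_cast; ring, pow_succ]
      nlinarith
  have hup : ∀ m : ℕ, (NP P (2 ^ m * R3) : ℝ) ≤ C ^ m * NP P R3 := by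
    intro m
    induction m with
    | zero => simp
    | succ m ih =>
      have h4 := hd (2 ^ m * R3) (by nlinarith [one_le_pow₀ (one_le_two (α := ℝ)) (n := m)])
      rw [show (2 : ℝ) ^ (m + 1) * R3 = 2 * (2 ^ m * R3) by ring, pow_succ]
      nlinarith
  obtain ⟨m0, hm0⟩ := pow_unbounded_of_one_lt (1 + 2 * a / R3) (one_lt_two (α := ℝ))
  obtain ⟨n, hn⟩ := pow_unbounded_of_one_lt C (one_lt_two (α := ℝ))
  have hlim := (tendsto_pow_const_div_const_pow_of_one_lt n (show 1 < 1 + ε by linarith)).comp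
    (tendsto_pow_atTop_atTop_of_one_lt (one_lt_two (α := ℕ)))
  obtain ⟨i, hi⟩ := (hlim.eventually (gt_mem_nhds (show (0 : ℝ) < (C ^ m0)⁻¹ by positivity))).exists
  simp only [Function.comp] at hi
  have h5 : R3 + 2 * a * ((2 ^ i : ℕ) : ℝ) ≤ 2 ^ (m0 + i) * R3 := by
    have h6 : R3 + 2 * a ≤ 2 ^ m0 * R3 := by
      have := mul_le_mul_of_nonneg_right hm0.le h3.le
      rwa [add_mul, one_mul, div_mul_cancel₀ _ h3.ne'] at this
    have h7 : (1 : ℝ) ≤ 2 ^ i := one_le_pow₀ one_le_two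
    push_cast
    rw [pow_add]
    nlinarith
  have h8 : (NP P (R3 + 2 * a * ((2 ^ i : ℕ) : ℝ)) : ℝ) ≤ NP P (2 ^ (m0 + i) * R3) := by
    exact_mod_cast h.NP_mono h5
  have h9 : (1 + ε) ^ (2 ^ i) ≤ C ^ (m0 + i) :=
    le_of_mul_le_mul_right (((hlo _).trans h8).trans (hup _)) hN
  have h10 : C ^ i ≤ ((2 ^ i : ℕ) : ℝ) ^ n := by
    push_cast
    rw [← pow_mul, mul_comm, pow_mul]
    exact pow_le_pow_left₀ hC.le hn.le i
  rw [div_lt_iff₀ (by positivity), inv_mul_eq_div, lt_div_iff₀ (by positivity)] at hi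
  rw [pow_add] at h9
  nlinarith [pow_pos hC m0]

theorem Cryst.exists_fol (h : Cryst P) : ∃ R, Fol P R := by
  have hk : ∀ k : ℕ, (0 : ℝ) < k + 1 := fun k => by positivity
  choose R h1 h2 using fun k : ℕ =>
    folner_step h (ε := 1 / ((k : ℝ) + 1)) (a := (k : ℝ) + 1) (by positivity) (hk k) (k + 1)
  refine ⟨R, tendsto_atTop_mono (fun k => ?_) tendsto_natCast_atTop_atTop, fun a => ?_⟩
  · linarith [h1 k, hk k]
  have hup : Tendsto (fun k : ℕ => 1 + 1 / ((k : ℝ) + 1)) atTop (𝓝 1) := by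
    simpa using (tendsto_one_div_add_atTop_nhds_zero_nat (𝕜 := ℝ)).const_add 1
  have hlo : Tendsto (fun k : ℕ => (1 + 1 / ((k : ℝ) + 1))⁻¹) atTop (𝓝 1) := by
    simpa using hup.inv₀ one_ne_zero
  have hev : ∀ᶠ k : ℕ in atTop, |a| ≤ (k : ℝ) + 1 := by
    filter_upwards [tendsto_natCast_atTop_atTop.eventually_ge_atTop |a|] with k hk
    linarith
  have hm : ∀ {x y : ℝ}, x ≤ y → (NP P x : ℝ) ≤ NP P y := fun hxy => by
    exact_mod_cast h.NP_mono hxy
  have hpos : ∀ k, (0 : ℝ) < NP P (R k) := fun k => by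
    exact_mod_cast h.NP_pos (by linarith [h1 k, hk k])
  refine tendsto_of_tendsto_of_tendsto_of_le_of_le' hlo hup ?_ ?_
  · filter_upwards [hev] with k hk'
    have he : (0 : ℝ) < 1 + 1 / ((k : ℝ) + 1) := by positivity
    rw [le_div_iff₀ (hpos k), inv_mul_le_iff₀ he]
    have h3 : (NP P (R k) : ℝ) ≤ NP P (R k + (k + 1)) := hm (by linarith [hk k])
    have h4 : (NP P (R k - (k + 1)) : ℝ) ≤ NP P (R k + a) := hm (by linarith [(abs_le.1 hk').1])
    exact (h3.trans (h2 k)).trans (mul_le_mul_of_nonneg_left h4 he.le)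
  · filter_upwards [hev] with k hk'
    have he : (0 : ℝ) < 1 + 1 / ((k : ℝ) + 1) := by positivity
    rw [div_le_iff₀ (hpos k)]
    have h3 : (NP P (R k + a) : ℝ) ≤ NP P (R k + (k + 1)) := hm (by linarith [(abs_le.1 hk').2])
    have h4 : (NP P (R k - (k + 1)) : ℝ) ≤ NP P (R k) := hm (by linarith [hk k])
    exact (h3.trans (h2 k)).trans (mul_le_mul_of_nonneg_left h4 he.le)

theorem folner_bd (h : Cryst P) {M R : ℝ} (hR : 0 ≤ R) {V : Set H6} {a : ℝ}
    (hV : ∀ y ∈ V, M < ht y → ‖uu y‖ ≤ a) {p : Isom6} (hp : p ∈ P) {y : H6} (hy : y ∈ cap M R)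
    (hpy : p • y ∈ V) : ‖uu (p • o)‖ < R + a := by
  have h1 := hV _ hpy (by rw [ht_smul (h.fix p hp)]; exact hy.1)
  have h2 := norm_uu_smul_o_le (h.fix p hp) y
  have h3 := (cap_bound hR hy).1
  linarith

theorem Cryst.cp_fin (h : Cryst P) (M R : ℝ) {V : Set H6} {a : ℝ}
    (hV : ∀ y ∈ V, M < ht y → ‖uu y‖ ≤ a) :
    {p : Isom6 | p ∈ P ∧ ∃ y ∈ cap M R, p • y ∈ V}.Finite := by
  refine (h.fin_NP (|R| + a)).subset ?_
  rintro p ⟨hp, y, hy, hpy⟩
  exact ⟨hp, folner_bd h (abs_nonneg R) hV hp ⟨hy.1, by rw [sq_abs]; exact hy.2⟩ hpy⟩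

theorem Cryst.cp_lim (h : Cryst P) {R : ℕ → ℝ} (hR : Fol P R) {M : ℝ} {V : Set H6} {a : ℝ}
    (hV : ∀ y ∈ V, M < ht y → ‖uu y‖ ≤ a) {x : H6} (hx : x ∈ V) (hx' : M < ht x) :
    Tendsto (fun k => (cp P M (R k) V : ℝ) / NP P (R k)) atTop (𝓝 1) := by
  refine tendsto_of_tendsto_of_tendsto_of_le_of_le' (hR.2 (-a - ht x)) (hR.2 a) ?_ ?_
  · refine Eventually.of_forall fun k => div_le_div_of_nonneg_right ?_ (Nat.cast_nonneg _)
    refine Nat.cast_le.2 (Set.ncard_le_ncard ?_ (h.cp_fin M (R k) hV))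
    rintro p ⟨hp, hp'⟩
    have hf := h.fix _ (P.inv_mem hp)
    have h1 := norm_uu_smul_le hf x
    rw [norm_uu_inv (h.fix p hp)] at h1
    have h2 := hV x hx hx'
    have h3 := ht_pos x
    refine ⟨hp, p⁻¹ • x, ⟨by rw [ht_smul hf]; exact hx', ?_⟩, by rw [smul_inv_smul]; exact hx⟩
    rw [ht_smul hf]
    have h4 : ‖uu (p⁻¹ • x)‖ + ht x < R k := by linarith
    nlinarith [norm_nonneg (uu (p⁻¹ • x))]
  · filter_upwards [hR.1.eventually_ge_atTop 0] with k hk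
    refine div_le_div_of_nonneg_right ?_ (Nat.cast_nonneg _)
    refine Nat.cast_le.2 (Set.ncard_le_ncard ?_ (h.fin_NP _))
    rintro p ⟨hp, y, hy, hpy⟩
    exact ⟨hp, folner_bd h hk hV hp hy hpy⟩

theorem Cryst.cp_le (h : Cryst P) (d : ℝ) : ∃ C R1 : ℝ, 0 < C ∧ ∀ R, R1 ≤ R → ∀ M : ℝ,
    ∀ V : Set H6, (∀ x ∈ V, ∀ y ∈ V, dl x y ≤ d) → (cp P M R V : ℝ) ≤ C * NP P R := by
  obtain ⟨R0, hR0⟩ := h.coc
  obtain ⟨C, R1, hC, hd⟩ := h.doubling (2 * d + 2)
  refine ⟨C, max R1 (max R0 0), hC, fun R hR M V hV => ?_⟩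
  have a1 : R1 ≤ R := (le_max_left _ _).trans hR
  have a2 : R0 ≤ R := (le_max_of_le_right (le_max_left _ _)).trans hR
  have a3 : 0 ≤ R := (le_max_of_le_right (le_max_right _ _)).trans hR
  refine le_trans (Nat.cast_le.2 ?_) (hd R a1)
  rcases {p : Isom6 | p ∈ P ∧ ∃ y ∈ cap M R, p • y ∈ V}.eq_empty_or_nonempty with e | hne
  · rw [cp, e]
    simp
  obtain ⟨p0, hp0, y0, hy0, hx0⟩ := hne
  obtain ⟨q, hq, hq'⟩ := hR0 (p0 • y0)
  refine folner_inj h hq ?_
  rintro p ⟨hp, y, hy, hx⟩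
  refine ⟨hp, ?_⟩
  have h1 := norm_uu_smul_o_le (h.fix _ (P.mul_mem hq hp)) y
  rw [mul_smul, mul_smul] at h1
  have h2 := uu_smul (h.fix q hq) (p0 • y0) (p • y)
  have h3 := norm_uu_sub_le (p0 • y0) (p • y)
  rw [ht_smul (h.fix p0 hp0)] at h3
  have h4 := norm_sub_le (uu (q • p0 • y0)) (uu (q • p0 • y0) - uu (q • p • y))
  rw [sub_sub_cancel, h2] at h4
  have h5 := (cap_bound a3 hy).1
  have h6 := (cap_bound a3 hy0).2
  have h7 := hV _ hx0 _ hx
  have h8 := one_le_dl (p0 • y0) (p • y)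
  have h9 := ht_pos y0
  have h10 : dl (p0 • y0) (p • y) * ht y0 ≤ d * R :=
    mul_le_mul h7 h6.le h9.le (by linarith)
  linarith

theorem Cryst.vol_cap (h : Cryst P) (hv : ∀ a : ℝ, nu {y | 1 < ht y ∧ ‖uu y‖ ≤ a} < ⊤) {ε : ℝ}
    (hε : 0 < ε) : ∃ M0 : ℝ, ∀ M, M0 ≤ M → ∃ R1 : ℝ, ∀ R, R1 ≤ R →
      nu.real (N2 (cap M R)) ≤ ε * NP P R := by
  obtain ⟨R0, hR0⟩ := h.coc
  obtain ⟨C, R1, hC, hd⟩ := h.doubling 6
  let D : ℝ → Set H6 := fun M => {y | M / 4 < ht y ∧ ‖uu y‖ ≤ R0}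
  have hDm : ∀ M, MeasurableSet (D M) := fun M =>
    (isOpen_lt continuous_const continuous_ht).measurableSet.inter
      (isClosed_le continuous_uu.norm continuous_const).measurableSet
  have hD4 : nu (D 4) ≠ ⊤ := by
    have := (hv R0).ne
    simpa [D] using this
  have hanti : Antitone D := fun M M' hM y hy => ⟨lt_of_le_of_lt (by linarith) hy.1, hy.2⟩
  have hlim := tendsto_measure_iInter_atTop (μ := nu) (fun M => (hDm M).nullMeasurableSet) hanti
    ⟨4, hD4⟩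
  have he : ⋂ M, D M = ∅ := by
    refine Set.eq_empty_of_forall_notMem fun y hy => ?_
    have := (Set.mem_iInter.1 hy (4 * ht y)).1
    linarith
  rw [he, measure_empty] at hlim
  obtain ⟨M0, hM0⟩ := eventually_atTop.1
    (hlim.eventually (gt_mem_nhds (ENNReal.ofReal_pos.2 (div_pos hε hC))))
  refine ⟨M0, fun M hM => ⟨max R1 (max R0 0), fun R hR => ?_⟩⟩
  have a1 : R1 ≤ R := (le_max_left _ _).trans hR
  have a2 : R0 ≤ R := (le_max_of_le_right (le_max_left _ _)).trans hR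
  have a3 : 0 ≤ R := (le_max_of_le_right (le_max_right _ _)).trans hR
  have hlt : nu (D M) < ENNReal.ofReal (ε / C) := hM0 M hM
  have hre : nu.real (D M) ≤ ε / C :=
    ENNReal.toReal_le_of_le_ofReal (div_pos hε hC).le hlt.le
  set T := (h.fin_NP (6 * R)).toFinset with hT
  have hsub : N2 (cap M R) ⊆ ⋃ q ∈ T, (fun y => q • y) ⁻¹' D M := by
    rintro y ⟨x, hx, hxy⟩
    obtain ⟨q, hq, hq'⟩ := hR0 y
    obtain ⟨h1, h2⟩ := cap_bound a3 hx
    have h3 := ht_le_dl y x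
    rw [dl_comm] at h3
    have h4 := norm_uu_sub_le x y
    have h5 := norm_sub_le (uu x) (uu x - uu y)
    rw [sub_sub_cancel] at h5
    have h6 := norm_uu_smul_o_le (h.fix q hq) y
    have h7 := ht_pos x
    have h8 := ht_pos y
    have h9 := hx.1
    refine Set.mem_iUnion₂.2 ⟨q, ?_, ?_, hq'⟩
    · rw [hT, Set.Finite.mem_toFinset]
      exact ⟨hq, by nlinarith⟩
    · rw [ht_smul (h.fix q hq)]
      nlinarith
  have hpre : ∀ q : Isom6, nu ((fun y => q • y) ⁻¹' D M) = nu (D M) := fun q =>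
    measure_preimage_smul (μ := nu) q (D M)
  have hfin : nu (⋃ q ∈ T, (fun y => q • y) ⁻¹' D M) ≠ ⊤ :=
    (measure_biUnion_lt_top T.finite_toSet fun q _ => by
      rw [hpre]; exact hlt.trans ENNReal.ofReal_lt_top).ne
  have hcard : (T.card : ℝ) = NP P (6 * R) := by
    rw [hT, NP, Set.ncard_eq_toFinset_card _ (h.fin_NP (6 * R))]
  calc nu.real (N2 (cap M R)) ≤ nu.real (⋃ q ∈ T, (fun y => q • y) ⁻¹' D M) :=
        measureReal_mono hsub hfin
    _ ≤ ∑ q ∈ T, nu.real ((fun y => q • y) ⁻¹' D M) := measureReal_biUnion_finset_le _ _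
    _ = NP P (6 * R) * nu.real (D M) := by
        simp only [measureReal_def, hpre, Finset.sum_const, nsmul_eq_mul, hcard]
    _ ≤ C * NP P R * (ε / C) :=
        mul_le_mul (hd R a1) hre measureReal_nonneg (by positivity)
    _ = ε * NP P R := by field_simp

end Pool.Agent.MP_3fe7bf_gt.GB

/-!
Counting horoballs with caps.
-/

namespace Pool.Agent.MP_3fe7bf_gt.GB

open Filter Topology

variable {Γ : Subgroup Isom6} (D : TT Γ) {M : ℝ} {V : Set H6}

/-- the horoballs of type `i` that meet `V` -/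
def TT.hbi (i : Fin D.n) (M : ℝ) (V : Set H6) : Set V7 :=
  {ζ | (∃ γ ∈ Γ, ζ = γ • D.c i • z0) ∧ (Hb ζ M ∩ V).Nonempty}

theorem TT.hbi_subset (i : Fin D.n) : D.hbi i M V ⊆ D.hb M V :=
  fun _ h => ⟨⟨i, h.1⟩, h.2⟩

theorem count_fib {α β : Type} (A : Set α) (s : Finset β) (f : α → β) (hf : ∀ a ∈ A, f a ∈ s)
    (hfin : ∀ b ∈ s, {a | a ∈ A ∧ f a = b}.Finite) :
    A.ncard = ∑ b ∈ s, {a | a ∈ A ∧ f a = b}.ncard := by
  classical
  have hA : A.Finite := (s.finite_toSet.biUnion hfin).subset fun a ha =>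
    Set.mem_biUnion (hf a ha) ⟨ha, rfl⟩
  rw [Set.ncard_eq_toFinset_card A hA,
    Finset.card_eq_sum_card_fiberwise (f := f) (t := s) fun a ha => hf a (by simpa using ha)]
  refine Finset.sum_congr rfl fun b _ => ?_
  rw [← Set.ncard_coe_finset]
  congr 1
  ext a
  simp

theorem TT.count_rep (i : Fin D.n) (M : ℝ) (V : Set H6) :
    ∃ g : V7 → Isom6, ∀ ζ ∈ D.hbi i M V, g ζ ∈ Γ ∧ ζ = g ζ • D.c i • z0 := by
  have : ∀ ζ : V7, ∃ γ : Isom6, ζ ∈ D.hbi i M V → γ ∈ Γ ∧ ζ = γ • D.c i • z0 := by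
    intro ζ
    by_cases hz : ζ ∈ D.hbi i M V
    · obtain ⟨γ, h1, h2⟩ := hz.1
      exact ⟨γ, fun _ => ⟨h1, h2⟩⟩
    · exact ⟨1, fun k => absurd k hz⟩
  choose g hg using this
  exact ⟨g, hg⟩

theorem TT.nB_eq_sum (h1 : (D.hb M V).Finite) : D.nB M V = ∑ i, (D.hbi i M V).ncard := by
  classical
  have hf : ∀ i, (D.hbi i M V).Finite := fun i => h1.subset (D.hbi_subset i)
  have e : h1.toFinset = Finset.univ.biUnion fun i => (hf i).toFinset := by
    ext ζ
    simp only [Set.Finite.mem_toFinset, Finset.mem_biUnion, Finset.mem_univ, true_and]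
    constructor
    · rintro ⟨⟨i, hi⟩, h2⟩
      exact ⟨i, hi, h2⟩
    · rintro ⟨i, hi⟩
      exact D.hbi_subset i hi
  rw [TT.nB, Set.ncard_eq_toFinset_card _ h1, e, Finset.card_biUnion]
  · exact Finset.sum_congr rfl fun i _ => (Set.ncard_eq_toFinset_card _ (hf i)).symm
  · intro i _ j _ hij
    rw [Function.onFun, Finset.disjoint_left]
    intro ζ hi hj
    rw [Set.Finite.mem_toFinset] at hi hj
    obtain ⟨γ, hγ, e1⟩ := hi.1
    obtain ⟨γ', hγ', e2⟩ := hj.1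
    exact hij (D.idx_eq hγ hγ' (e1.symm.trans e2))

theorem TT.cnt_eq_sum (h : Nice Γ) (i : Fin D.n) (s : Finset V7)
    (hs : ∀ ζ, ζ ∈ s ↔ ζ ∈ D.hbi i M V)
    (h2 : ∀ γ ∈ Γ, ∃ a, ∀ y : H6, γ • D.c i • y ∈ V → M < ht y → ‖uu y‖ ≤ a)
    (g : V7 → Isom6) (hg : ∀ ζ ∈ s, g ζ ∈ Γ ∧ ζ = g ζ • D.c i • z0) (R : ℝ) :
    D.cnt i M R V = ∑ ζ ∈ s, cp (Pc Γ (D.c i)) M R {y | g ζ • D.c i • y ∈ V} := by
  have key : ∀ ζ ∈ s,
      {p : Isom6 | p ∈ Pc Γ (D.c i) ∧ ∃ y ∈ cap M R, p • y ∈ {y | g ζ • D.c i • y ∈ V}} =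
      (fun γ : Γ => (D.c i)⁻¹ * ((g ζ)⁻¹ * γ) * D.c i) ''
        {γ : Γ | γ ∈ {γ : Γ | ∃ y ∈ cap M R, (γ : Isom6) • D.c i • y ∈ V} ∧
          (γ : Isom6) • D.c i • z0 = ζ} := by
    intro ζ hζ
    obtain ⟨g1, g2⟩ := hg ζ hζ
    ext p
    constructor
    · rintro ⟨hp, y, hy, hV⟩
      refine ⟨⟨g ζ * (D.c i * p * (D.c i)⁻¹), Γ.mul_mem g1 hp.2⟩, ⟨⟨y, hy, ?_⟩, ?_⟩, ?_⟩
      · simp only [mul_smul, inv_smul_smul]
        exact hV
      · simp only [mul_smul, inv_smul_smul]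
        rw [hp.1, ← g2]
      · simp only
        group
    · rintro ⟨γ, ⟨⟨y, hy, hV⟩, e⟩, rfl⟩
      refine ⟨conj_mem_Pc (Γ.mul_mem (Γ.inv_mem g1) γ.2) ?_, y, hy, ?_⟩
      · rw [mul_smul, e, inv_smul_eq_iff, ← g2]
      · simp only [Set.mem_ofPred_eq, mul_smul, smul_inv_smul]
        exact hV
  have inj : ∀ ζ, Function.Injective fun γ : Γ => (D.c i)⁻¹ * ((g ζ)⁻¹ * γ) * D.c i := by
    intro ζ a b hab
    exact Subtype.ext (mul_left_cancel (mul_left_cancel (mul_right_cancel hab)))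
  rw [TT.cnt, count_fib _ s (fun γ : Γ => (γ : Isom6) • D.c i • z0)]
  · refine Finset.sum_congr rfl fun ζ hζ => ?_
    rw [cp, key ζ hζ, Set.ncard_image_of_injective _ (inj ζ)]
  · rintro γ ⟨y, hy, hV⟩
    refine (hs _).2 ⟨⟨γ, γ.2, rfl⟩, (γ : Isom6) • D.c i • y, ?_, hV⟩
    rw [smul_mem_Hb, mem_Hb_chart]
    exact hy.1
  · intro ζ hζ
    obtain ⟨a, ha⟩ := h2 _ (hg ζ hζ).1
    have := (D.cryst h i).cp_fin M R (V := {y | g ζ • D.c i • y ∈ V}) (a := a) ha
    rw [key ζ hζ] at this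
    exact this.of_finite_image (inj ζ).injOn

theorem TT.cnt_lim (h : Nice Γ) {R : Fin D.n → ℕ → ℝ} (hR : ∀ i, Fol (Pc Γ (D.c i)) (R i))
    (h1 : (D.hb M V).Finite)
    (h2 : ∀ i, ∀ γ ∈ Γ, ∃ a, ∀ y : H6, γ • D.c i • y ∈ V → M < ht y → ‖uu y‖ ≤ a) :
    Tendsto (fun k => ∑ i, (D.cnt i M (R i k) V : ℝ) / NP (Pc Γ (D.c i)) (R i k)) atTop
      (𝓝 (D.nB M V)) := by
  rw [D.nB_eq_sum h1, Nat.cast_sum]
  refine tendsto_finsetSum _ fun i _ => ?_
  have hf : (D.hbi i M V).Finite := h1.subset (D.hbi_subset i)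
  obtain ⟨g, hg⟩ := D.count_rep i M V
  have hs : ∀ ζ, ζ ∈ hf.toFinset ↔ ζ ∈ D.hbi i M V := fun ζ => hf.mem_toFinset
  have e : ((D.hbi i M V).ncard : ℝ) = ∑ _ζ ∈ hf.toFinset, (1 : ℝ) := by
    rw [Set.ncard_eq_toFinset_card _ hf]
    simp
  simp only [D.cnt_eq_sum h i hf.toFinset hs (h2 i) g fun ζ hζ => hg ζ ((hs ζ).1 hζ), Nat.cast_sum,
    Finset.sum_div]
  rw [e]
  refine tendsto_finsetSum _ fun ζ hζ => ?_
  have hz := (hs ζ).1 hζ
  obtain ⟨g1, g2⟩ := hg ζ hz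
  obtain ⟨a, ha⟩ := h2 i _ g1
  obtain ⟨x, hx, hxV⟩ := hz.2
  refine (D.cryst h i).cp_lim (hR i) (V := {y | g ζ • D.c i • y ∈ V}) (a := a) ha
    (x := (D.c i)⁻¹ • (g ζ)⁻¹ • x) ?_ ?_
  · simp only [Set.mem_ofPred_eq, smul_inv_smul]
    exact hxV
  · rw [← mem_Hb_chart (D.c i), ← smul_mem_Hb (g ζ), ← g2, smul_inv_smul, smul_inv_smul]
    exact hx

theorem TT.cnt_le (h : Nice Γ) (d : ℝ) : ∃ C R1 : ℝ, 0 < C ∧ ∀ i, ∀ R, R1 ≤ R → ∀ M : ℝ, 0 < M →
    ∀ V : Set H6, (∀ x ∈ V, ∀ y ∈ V, dl x y ≤ d) →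
      (D.cnt i M R V : ℝ) ≤ C * D.nB M V * NP (Pc Γ (D.c i)) R := by
  choose C R1 hC hle using fun i => (D.cryst h i).cp_le d
  obtain ⟨C', hC'⟩ := Finite.exists_le C
  obtain ⟨R', hR'⟩ := Finite.exists_le R1
  refine ⟨max C' 1, R', lt_max_of_lt_right one_pos, fun i R hR M hM V hV => ?_⟩
  have hb : Bdd V := by
    rcases V.eq_empty_or_nonempty with rfl | ⟨x, hx⟩
    · exact ⟨0, fun _ k => k.elim⟩
    · refine ⟨2 * dl o x * d, fun y hy => (dl_tri o x y).trans ?_⟩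
      have := one_le_dl o x
      exact mul_le_mul_of_nonneg_left (hV x hx y hy) (by linarith)
  have h1 := D.fin_hb h hM hb
  have hf : (D.hbi i M V).Finite := h1.subset (D.hbi_subset i)
  obtain ⟨g, hg⟩ := D.count_rep i M V
  have hs : ∀ ζ, ζ ∈ hf.toFinset ↔ ζ ∈ D.hbi i M V := fun ζ => hf.mem_toFinset
  have h2 : ∀ γ ∈ Γ, ∃ a, ∀ y : H6, γ • D.c i • y ∈ V → M < ht y → ‖uu y‖ ≤ a := by
    intro γ _
    obtain ⟨a, ha⟩ := hb.uu_le (γ * D.c i)
    exact ⟨a, fun y hy _ => ha y (by rwa [mul_smul])⟩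
  rw [D.cnt_eq_sum h i hf.toFinset hs h2 g fun ζ hζ => hg ζ ((hs ζ).1 hζ), Nat.cast_sum]
  have h3 : ∀ ζ ∈ hf.toFinset, (cp (Pc Γ (D.c i)) M R {y | g ζ • D.c i • y ∈ V} : ℝ) ≤
      max C' 1 * NP (Pc Γ (D.c i)) R := by
    intro ζ _
    refine (hle i R ((hR' i).trans hR) M _ fun x hx y hy => ?_).trans
      (mul_le_mul_of_nonneg_right ((hC' i).trans (le_max_left _ _)) (Nat.cast_nonneg _))
    rw [← dl_smul (D.c i), ← dl_smul (g ζ)]
    exact hV _ hx _ hy
  refine (Finset.sum_le_card_nsmul _ _ _ h3).trans ?_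
  have h4 : (hf.toFinset.card : ℝ) ≤ D.nB M V := by
    rw [← Set.ncard_eq_toFinset_card _ hf]
    exact_mod_cast Set.ncard_le_ncard (D.hbi_subset i) h1
  rw [nsmul_eq_mul, mul_comm (max C' 1) (D.nB M V : ℝ), mul_assoc]
  exact mul_le_mul_of_nonneg_right h4
    (mul_nonneg (zero_le_one.trans (le_max_right _ _)) (Nat.cast_nonneg _))

end Pool.Agent.MP_3fe7bf_gt.GB

/-!
Existence of covers by balls and prisms.
-/

namespace Pool.Agent.MP_3fe7bf_gt.GB

variable {Γ : Subgroup Isom6}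

theorem exists_balls (h : Nice Γ) (R : ℝ) : ∃ r : ℝ, ∃ s : Finset H6,
    (∀ c ∈ s, ∀ γ ∈ Γ, ∀ x : H6, dl c x < r → dl c (γ • x) < r → γ = 1) ∧
    ∀ x : H6, dl o x ≤ R → ∃ c ∈ s, dl c x < r := by
  obtain ⟨δ, hδ, hd⟩ := h.min_disp (4 * R)
  have ht0 : 0 < min 1 (δ / 7) := lt_min one_pos (by linarith)
  have ht1 : min 1 (δ / 7) ≤ 1 := min_le_left _ _
  have ht2 : min 1 (δ / 7) ≤ δ / 7 := min_le_right _ _
  generalize min 1 (δ / 7) = t at ht0 ht1 ht2
  obtain ⟨s, hs1, hs2⟩ := (isCompact_ball o R).elim_nhds_subcover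
    (fun c => {y : H6 | dl c y < 1 + t}) fun c _ => ball_mem_nhds c (by linarith)
  refine ⟨1 + t, s, fun c hc γ hγ x h1 h2 => ?_, fun x hx => ?_⟩
  · by_contra hne
    have hc' : dl o c ≤ R := hs1 c hc
    have h3 := one_le_dl o c
    have h4 := one_le_dl c x
    have h5 : dl o x ≤ 4 * R := (dl_tri o c x).trans (by nlinarith)
    have h6 := hd x h5 γ hγ hne
    have h7 : dl x (γ • x) ≤ 2 * (1 + t) ^ 2 - 1 :=
      dl_le_of_le (by rw [dl_comm]; exact h1.le) h2.le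
    nlinarith
  · have := hs2 (show x ∈ {x : H6 | dl o x ≤ R} from hx)
    simp only [Set.mem_iUnion] at this
    obtain ⟨c, hc, hx'⟩ := this
    exact ⟨c, hc, hx'⟩

theorem Cryst.exists_prisms {P : Subgroup Isom6} (h : Cryst P) : ∃ r : ℝ, ∃ s : Finset E5,
    (∀ u ∈ s, ∀ p ∈ P, ∀ y : H6, ‖uu y - u‖ < r → ‖uu (p • y) - u‖ < r → p = 1) ∧
    ∀ y : H6, ∃ p ∈ P, ∃ u ∈ s, ‖uu (p • y) - u‖ < r := by
  obtain ⟨R, hR⟩ := h.coc
  obtain ⟨δ, hδ, hd⟩ := h.nice.min_disp (((R + 1) ^ 2 + 1 + 1 ^ 2) / (2 * 1))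
  have ht0 : 0 < min 1 (δ / 2) := lt_min one_pos (by linarith)
  have ht1 : min 1 (δ / 2) ≤ 1 := min_le_left _ _
  have ht2 : min 1 (δ / 2) ≤ δ / 2 := min_le_right _ _
  generalize min 1 (δ / 2) = r at ht0 ht1 ht2
  obtain ⟨s, hs1, hs2⟩ := (isCompact_closedBall (0 : E5) R).elim_nhds_subcover
    (fun u => Metric.ball u r) fun u _ => Metric.ball_mem_nhds u ht0
  refine ⟨r, s, fun u hu p hp y h1 h2 => ?_, fun y => ?_⟩
  · by_contra hne
    have hu' : ‖u‖ ≤ R := mem_closedBall_zero_iff.1 (hs1 u hu)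
    obtain ⟨z, hz1, hz2⟩ := exists_pt (uu y) one_pos
    have h3 : ‖uu z‖ ≤ R + 1 := by
      have := norm_add_le (uu y - u) u
      rw [sub_add_cancel] at this
      rw [hz1]
      linarith
    have h4 := hd z (dl_o_le one_pos hz2.ge hz2.le h3) p hp hne
    rw [dl_smul_chart (h.fix p hp), uu_smul_congr (h.fix p hp) hz1, hz1, hz2] at h4
    have h5 : ‖uu y - uu (p • y)‖ < 2 * r := by
      have := norm_sub_le (uu y - u) (uu (p • y) - u)
      rw [sub_sub_sub_cancel_right] at this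
      linarith
    have h6 := norm_nonneg (uu y - uu (p • y))
    have h7 : ‖uu y - uu (p • y)‖ ^ 2 < (2 * r) ^ 2 := pow_lt_pow_left₀ h5 h6 two_ne_zero
    nlinarith
  · obtain ⟨p, hp, h1⟩ := hR y
    have := hs2 (mem_closedBall_zero_iff.2 h1)
    simp only [Set.mem_iUnion] at this
    obtain ⟨u, hu, hy⟩ := this
    exact ⟨p, hp, u, hu, mem_ball_iff_norm.1 hy⟩

/-- a vertical prism in the chart `c` -/
def cover_prism (c : Isom6) (M : ℝ) (u : E5) (r : ℝ) : Set H6 :=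
  {x | c⁻¹ • x ∈ {y | M < ht y} ∩ {y | ‖uu y - u‖ < r}}

theorem cover_mem {c : Isom6} {M : ℝ} {u : E5} {r : ℝ} {x : H6} :
    x ∈ cover_prism c M u r ↔ M < ht (c⁻¹ • x) ∧ ‖uu (c⁻¹ • x) - u‖ < r := Iff.rfl

theorem cover_hc (c : Isom6) (M : ℝ) (u : E5) (r : ℝ) : HC (cover_prism c M u r) :=
  ((hc_ht M).inter (hc_uu u r)).preimage c⁻¹

theorem cover_open (g : Isom6) (u : E5) (r : ℝ) : IsOpen {x : H6 | ‖uu (g • x) - u‖ < r} :=
  isOpen_lt ((continuous_uu.comp (continuous_const_smul g)).sub continuous_const).norm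
    continuous_const

theorem cover_op (c : Isom6) (M : ℝ) (u : E5) (r : ℝ) : IsOpen (cover_prism c M u r) :=
  (isOpen_lt continuous_const (continuous_ht.comp (continuous_const_smul c⁻¹))).inter
    (cover_open c⁻¹ u r)

theorem cover_Hb {c : Isom6} {M : ℝ} {x : H6} : x ∈ Hb (c • z0) M ↔ M < ht (c⁻¹ • x) := by
  rw [← mem_Hb_chart c, smul_inv_smul]

theorem cover_emb (D : TT Γ) {M : ℝ} (hM : 1 ≤ M) (i : Fin D.n) {u : E5} {r : ℝ}
    (hu : ∀ p ∈ Pc Γ (D.c i), ∀ y : H6, ‖uu y - u‖ < r → ‖uu (p • y) - u‖ < r → p = 1)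
    {γ : Isom6} (hγ : γ ∈ Γ) {x : H6} (h1 : x ∈ cover_prism (D.c i) M u r)
    (h2 : γ • x ∈ cover_prism (D.c i) M u r) : γ = 1 := by
  rw [cover_mem] at h1 h2
  have h3 : x ∈ Hb (D.c i • z0) 1 := cover_Hb.2 (hM.trans_lt h1.1)
  have h4 : γ • x ∈ Hb (D.c i • z0) 1 := cover_Hb.2 (hM.trans_lt h2.1)
  have h5 := (D.disj i i γ hγ (γ • x) ((smul_mem_Hb γ).2 h3) h4).2
  have h6 := hu _ (conj_mem_Pc hγ h5) ((D.c i)⁻¹ • x) h1.2
    (by rw [mul_smul, mul_smul, smul_inv_smul]; exact h2.2)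
  calc γ = D.c i * ((D.c i)⁻¹ * γ * D.c i) * (D.c i)⁻¹ := by group
    _ = 1 := by rw [h6]; group

theorem cover_loc {c : Isom6} {M r : ℝ} {s : Finset E5}
    (hs : ∀ y : H6, ∃ p ∈ Pc Γ c, ∃ u ∈ s, ‖uu (p • y) - u‖ < r) (x : H6) :
    ∃ u ∈ s, ∃ γ ∈ Γ, ∃ O ∈ nhds x, ∀ y ∈ O, y ∈ Hb (c • z0) M → γ • y ∈ cover_prism c M u r := by
  obtain ⟨p, hp, u, hu, h1⟩ := hs (c⁻¹ • x)
  refine ⟨u, hu, c * p * c⁻¹, hp.2, {y | ‖uu ((p * c⁻¹) • y) - u‖ < r},
    (cover_open _ u r).mem_nhds (by rw [Set.mem_ofPred_eq, mul_smul]; exact h1), fun y h2 h3 => ?_⟩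
  have e : c⁻¹ • (c * p * c⁻¹) • y = p • c⁻¹ • y := by
    rw [mul_smul, mul_smul, inv_smul_smul]
  rw [cover_mem, e, ht_smul hp.1]
  rw [Set.mem_ofPred_eq, mul_smul] at h2
  exact ⟨cover_Hb.1 h3, h2⟩

theorem exists_Cov (h : Nice Γ) (D : TT Γ) {M : ℝ} (hM : 1 ≤ M) : Nonempty (Cov D M) := by
  classical
  obtain ⟨R, hR⟩ := D.core M
  obtain ⟨r0, s0, hb1, hb2⟩ := exists_balls h R
  choose r s hp1 hp2 using fun i => (D.cryst h i).exists_prisms
  let T : Type := s0 ⊕ (Σ i : Fin D.n, s i)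
  let W : T → Set H6 := Sum.elim (fun c => {x | dl c x < r0})
    fun q => cover_prism (D.c q.1) M q.2 (r q.1)
  let kind : T → Option (Fin D.n) := Sum.elim (fun _ => none) fun q => some q.1
  let e : Fin (Fintype.card T) ≃ T := (Fintype.equivFin T).symm
  have hloc : ∀ i, ∀ x : H6, ∃ t, ∃ γ ∈ Γ, kind t = some i ∧
      ∃ O ∈ nhds x, ∀ y ∈ O, y ∈ Hb (D.c i • z0) M → γ • y ∈ W t := by
    intro i x
    obtain ⟨u, hu, γ, hγ, hO⟩ := cover_loc (M := M) (hp2 i) x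
    exact ⟨Sum.inr ⟨i, ⟨u, hu⟩⟩, γ, hγ, rfl, hO⟩
  have hhc : ∀ t, HC (W t) := by
    rintro (c | q)
    · exact hc_ball _ _
    · exact cover_hc _ _ _ _
  have hop : ∀ t, IsOpen (W t) := by
    rintro (c | q)
    · exact isOpen_lt (continuous_dl continuous_const continuous_id) continuous_const
    · exact cover_op _ _ _ _
  have hemb : ∀ t, ∀ γ ∈ Γ, ∀ x ∈ W t, γ • x ∈ W t → γ = 1 := by
    rintro (c | q) γ hγ x h1 h2
    · exact hb1 c c.2 γ hγ x h1 h2
    · exact cover_emb D hM q.1 (hp1 q.1 q.2 q.2.2) hγ h1 h2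
  have hcov : ∀ x : H6, ∃ t, ∃ γ ∈ Γ, γ • x ∈ W t := by
    intro x
    obtain ⟨γ, hγ, h1 | ⟨i, h1⟩⟩ := hR x
    · obtain ⟨c, hc, h2⟩ := hb2 _ h1
      exact ⟨Sum.inl ⟨c, hc⟩, γ, hγ, h2⟩
    · obtain ⟨t, γ', hγ', -, O, hO, h2⟩ := hloc i (γ • x)
      exact ⟨t, γ' * γ, Γ.mul_mem hγ' hγ, by
        rw [mul_smul]; exact h2 _ (mem_of_mem_nhds hO) h1⟩
  have hbdd : ∀ t, kind t = none → Bdd (W t) := by
    rintro (c | q) hk
    · refine ⟨2 * dl o c * r0, fun x hx => (dl_tri o c x).trans ?_⟩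
      have h1 := one_le_dl o c
      exact mul_le_mul_of_nonneg_left (le_of_lt hx) (by linarith)
    · exact absurd hk (Option.some_ne_none _)
  have hsub : ∀ t i, kind t = some i →
      ∃ a, ∀ y : H6, D.c i • y ∈ W t → M < ht y ∧ ‖uu y‖ ≤ a := by
    rintro (c | ⟨j, u⟩) i hk
    · exact absurd hk.symm (Option.some_ne_none _)
    · obtain rfl : j = i := Option.some.inj hk
      refine ⟨r j + ‖(u : E5)‖, fun y hy => ?_⟩
      have h1 := cover_mem.1 hy
      rw [inv_smul_smul] at h1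
      have h2 := norm_add_le (uu y - u) u
      rw [sub_add_cancel] at h2
      exact ⟨h1.1, by linarith [h1.2]⟩
  refine ⟨⟨h, hM, Fintype.card T, fun t => W (e t), fun t => kind (e t), fun t => hhc _,
    fun t => hop _, fun t => hemb _, fun x => ?_, fun t => hbdd _, fun t => hsub _,
    fun i x => ?_⟩⟩
  · obtain ⟨t, ht⟩ := hcov x
    exact ⟨e.symm t, by rw [e.apply_symm_apply]; exact ht⟩
  · obtain ⟨t, ht⟩ := hloc i x
    exact ⟨e.symm t, by rw [e.apply_symm_apply]; exact ht⟩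

end Pool.Agent.MP_3fe7bf_gt.GB

end
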