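import Mathlib
import Pool.Agent.MP_3fe7bf_gt.Defs

-- part MP_3fe7bf_gt.Basic
section

/-!
Lorentzian lattice of signature (6,1): the form, the integral positive Lorentz group and its action.
-/

namespace Pool.Agent.MP_3fe7bf_gt

open Matrix

abbrev Vec := Fin 7 → ℤ

def B (x y : Vec) : ℤ :=
  -(x 0 * y 0) + x 1 * y 1 + x 2 * y 2 + x 3 * y 3 + x 4 * y 4 + x 5 * y 5 + x 6 * y 6

def kap : Vec := ![3, -1, -1, -1, -1, -1, -1]

def deg (x : Vec) : ℤ := 3 * x 0 + x 1 + x 2 + x 3 + x 4 + x 5 + x 6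

def J : Matrix (Fin 7) (Fin 7) ℤ := Matrix.diagonal ![-1, 1, 1, 1, 1, 1, 1]

theorem B_comm (x y : Vec) : B x y = B y x := by unfold B; ring

theorem B_add_left (x y z : Vec) : B (x + y) z = B x z + B y z := by
  simp only [B, Pi.add_apply]; ring
theorem B_add_right (x y z : Vec) : B x (y + z) = B x y + B x z := by
  simp only [B, Pi.add_apply]; ring
theorem B_sub_left (x y z : Vec) : B (x - y) z = B x z - B y z := by
  simp only [B, Pi.sub_apply]; ring
theorem B_sub_right (x y z : Vec) : B x (y - z) = B x y - B x z := by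
  simp only [B, Pi.sub_apply]; ring
theorem B_smul_left (c : ℤ) (x y : Vec) : B (c • x) y = c * B x y := by
  simp only [B, Pi.smul_apply, smul_eq_mul]; ring
theorem B_smul_right (c : ℤ) (x y : Vec) : B x (c • y) = c * B x y := by
  simp only [B, Pi.smul_apply, smul_eq_mul]; ring
theorem B_neg_left (x y : Vec) : B (-x) y = -B x y := by
  simp only [B, Pi.neg_apply]; ring
theorem B_neg_right (x y : Vec) : B x (-y) = -B x y := by
  simp only [B, Pi.neg_apply]; ring
theorem B_zero_right (x : Vec) : B x 0 = 0 := by simp [B]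

theorem deg_add (x y : Vec) : deg (x + y) = deg x + deg y := by
  simp only [deg, Pi.add_apply]; ring
theorem deg_sub (x y : Vec) : deg (x - y) = deg x - deg y := by
  simp only [deg, Pi.sub_apply]; ring
theorem deg_smul (c : ℤ) (x : Vec) : deg (c • x) = c * deg x := by
  simp only [deg, Pi.smul_apply, smul_eq_mul]; ring
theorem deg_neg (x : Vec) : deg (-x) = -deg x := by
  simp only [deg, Pi.neg_apply]; ring

theorem B_kap (x : Vec) : B x kap = -deg x := by
  simp [B, kap, deg]; ring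
theorem kap_B (x : Vec) : B kap x = -deg x := by rw [B_comm, B_kap]
theorem deg_kap : deg kap = 3 := by simp [deg, kap]
theorem B_kap_kap : B kap kap = -3 := by rw [B_kap, deg_kap]
theorem kap_zero : kap 0 = 3 := by simp [kap]

theorem cs6 (a1 a2 a3 a4 a5 a6 b1 b2 b3 b4 b5 b6 : ℤ) :
    (a1 * b1 + a2 * b2 + a3 * b3 + a4 * b4 + a5 * b5 + a6 * b6) ^ 2 ≤
      (a1 * a1 + a2 * a2 + a3 * a3 + a4 * a4 + a5 * a5 + a6 * a6) *
      (b1 * b1 + b2 * b2 + b3 * b3 + b4 * b4 + b5 * b5 + b6 * b6) := by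
  have h : (a1 * a1 + a2 * a2 + a3 * a3 + a4 * a4 + a5 * a5 + a6 * a6) *
      (b1 * b1 + b2 * b2 + b3 * b3 + b4 * b4 + b5 * b5 + b6 * b6) -
      (a1 * b1 + a2 * b2 + a3 * b3 + a4 * b4 + a5 * b5 + a6 * b6) ^ 2 =
      (a1*b2-a2*b1)^2 + (a1*b3-a3*b1)^2 + (a1*b4-a4*b1)^2 + (a1*b5-a5*b1)^2 + (a1*b6-a6*b1)^2
      + (a2*b3-a3*b2)^2 + (a2*b4-a4*b2)^2 + (a2*b5-a5*b2)^2 + (a2*b6-a6*b2)^2
      + (a3*b4-a4*b3)^2 + (a3*b5-a5*b3)^2 + (a3*b6-a6*b3)^2
      + (a4*b5-a5*b4)^2 + (a4*b6-a6*b4)^2 + (a5*b6-a6*b5)^2 := by ring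
  have h2 : 0 ≤ (a1*b2-a2*b1)^2 + (a1*b3-a3*b1)^2 + (a1*b4-a4*b1)^2 + (a1*b5-a5*b1)^2 + (a1*b6-a6*b1)^2
      + (a2*b3-a3*b2)^2 + (a2*b4-a4*b2)^2 + (a2*b5-a5*b2)^2 + (a2*b6-a6*b2)^2
      + (a3*b4-a4*b3)^2 + (a3*b5-a5*b3)^2 + (a3*b6-a6*b3)^2
      + (a4*b5-a5*b4)^2 + (a4*b6-a6*b4)^2 + (a5*b6-a6*b5)^2 := by positivity
  linarith

/-- two future vectors, one causal and one timelike, have negative product -/
theorem B_neg_of_future {x y : Vec} (hx : B x x ≤ 0) (hy : B y y < 0) (hx0 : 0 < x 0)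
    (hy0 : 0 < y 0) : B x y < 0 := by
  have h := cs6 (x 1) (x 2) (x 3) (x 4) (x 5) (x 6) (y 1) (y 2) (y 3) (y 4) (y 5) (y 6)
  unfold B at *
  have hY0 : 0 ≤ y 1 * y 1 + y 2 * y 2 + y 3 * y 3 + y 4 * y 4 + y 5 * y 5 + y 6 * y 6 := by
    have := mul_self_nonneg (y 1)
    have := mul_self_nonneg (y 2)
    have := mul_self_nonneg (y 3)
    have := mul_self_nonneg (y 4)
    have := mul_self_nonneg (y 5)
    have := mul_self_nonneg (y 6)
    linarith
  have hX1 : x 1 * x 1 + x 2 * x 2 + x 3 * x 3 + x 4 * x 4 + x 5 * x 5 + x 6 * x 6 ≤ x 0 * x 0 := by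
    linarith
  have hY1 : y 1 * y 1 + y 2 * y 2 + y 3 * y 3 + y 4 * y 4 + y 5 * y 5 + y 6 * y 6 < y 0 * y 0 := by
    linarith
  have goal : x 1 * y 1 + x 2 * y 2 + x 3 * y 3 + x 4 * y 4 + x 5 * y 5 + x 6 * y 6 < x 0 * y 0 := by
    generalize x 1 * y 1 + x 2 * y 2 + x 3 * y 3 + x 4 * y 4 + x 5 * y 5 + x 6 * y 6 = S at *
    generalize x 1 * x 1 + x 2 * x 2 + x 3 * x 3 + x 4 * x 4 + x 5 * x 5 + x 6 * x 6 = X at *
    generalize y 1 * y 1 + y 2 * y 2 + y 3 * y 3 + y 4 * y 4 + y 5 * y 5 + y 6 * y 6 = Y at *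
    have h1 : X * Y ≤ (x 0 * x 0) * Y := mul_le_mul_of_nonneg_right hX1 hY0
    have h2 : (x 0 * x 0) * Y < (x 0 * x 0) * (y 0 * y 0) :=
      mul_lt_mul_of_pos_left hY1 (mul_pos hx0 hx0)
    have h3 : S ^ 2 < (x 0 * y 0) ^ 2 :=
      calc S ^ 2 ≤ X * Y := h
        _ ≤ (x 0 * x 0) * Y := h1
        _ < (x 0 * x 0) * (y 0 * y 0) := h2
        _ = (x 0 * y 0) ^ 2 := by ring
    exact lt_of_pow_lt_pow_left₀ 2 (le_of_lt (mul_pos hx0 hy0)) h3
  linarith

theorem eq_zero_of_causal {x : Vec} (hx : B x x ≤ 0) (h0 : x 0 = 0) : x = 0 := by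
  unfold B at hx
  rw [h0] at hx
  have h1 := mul_self_nonneg (x 1)
  have h2 := mul_self_nonneg (x 2)
  have h3 := mul_self_nonneg (x 3)
  have h4 := mul_self_nonneg (x 4)
  have h5 := mul_self_nonneg (x 5)
  have h6 := mul_self_nonneg (x 6)
  have e1 : x 1 = 0 := mul_self_eq_zero.mp (by linarith)
  have e2 : x 2 = 0 := mul_self_eq_zero.mp (by linarith)
  have e3 : x 3 = 0 := mul_self_eq_zero.mp (by linarith)
  have e4 : x 4 = 0 := mul_self_eq_zero.mp (by linarith)
  have e5 : x 5 = 0 := mul_self_eq_zero.mp (by linarith)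
  have e6 : x 6 = 0 := mul_self_eq_zero.mp (by linarith)
  funext i
  fin_cases i <;> simp_all

/-- the orthogonal complement of a future timelike vector is positive definite -/
theorem eq_zero_of_orth {x y : Vec} (hy : B y y < 0) (hy0 : 0 < y 0) (hxy : B x y = 0)
    (hx : B x x ≤ 0) : x = 0 := by
  rcases lt_trichotomy (x 0) 0 with h | h | h
  · have := B_neg_of_future (x := -x) (y := y) (by rw [B_neg_left, B_neg_right]; linarith) hy
      (by simp; linarith) hy0
    rw [B_neg_left] at this; linarith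
  · exact eq_zero_of_causal hx h
  · have := B_neg_of_future hx hy h hy0
    linarith

theorem nonneg_of_orth {x y : Vec} (hy : B y y < 0) (hy0 : 0 < y 0) (hxy : B x y = 0) :
    0 ≤ B x x := by
  by_contra h
  push Not at h
  have := eq_zero_of_orth hy hy0 hxy h.le
  rw [this, B_zero_right] at h
  exact lt_irrefl _ h

/-- a causal vector with negative product against a future timelike vector is future -/
theorem future_of_B_neg {x y : Vec} (hx : B x x ≤ 0) (hy : B y y < 0) (hy0 : 0 < y 0)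
    (h : B x y < 0) : 0 < x 0 := by
  rcases lt_trichotomy (x 0) 0 with h1 | h1 | h1
  · have := B_neg_of_future (x := -x) (y := y) (by rw [B_neg_left, B_neg_right]; linarith) hy
      (by simp; linarith) hy0
    rw [B_neg_left] at this; linarith
  · have := eq_zero_of_causal hx h1
    rw [this, B_comm, B_zero_right] at h; exact absurd h (lt_irrefl _)
  · exact h1

theorem deg_pos_of_future {x : Vec} (hx : B x x ≤ 0) (h0 : 0 < x 0) : 0 < deg x := by
  have := B_neg_of_future hx (y := kap) (by rw [B_kap_kap]; norm_num) h0 (by rw [kap_zero]; norm_num)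
  rw [B_kap] at this; linarith

theorem future_of_deg_pos {x : Vec} (hx : B x x ≤ 0) (h0 : 0 < deg x) : 0 < x 0 :=
  future_of_B_neg hx (y := kap) (by rw [B_kap_kap]; norm_num) (by rw [kap_zero]; norm_num)
    (by rw [B_kap]; linarith)

theorem psd (x : Vec) : 0 ≤ 3 * B x x + deg x ^ 2 := by
  have h := nonneg_of_orth (x := (3 : ℤ) • x - deg x • kap) (y := kap)
    (by rw [B_kap_kap]; norm_num) (by rw [kap_zero]; norm_num)
    (by rw [B_sub_left, B_smul_left, B_smul_left, B_kap, B_kap_kap]; ring)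
  simp only [B_sub_left, B_sub_right, B_smul_left, B_smul_right, B_kap, kap_B, deg_kap, deg_sub,
    deg_smul] at h
  nlinarith

theorem eq_zero_of_deg {x : Vec} (hd : deg x = 0) (hx : B x x ≤ 0) : x = 0 :=
  eq_zero_of_orth (y := kap) (by rw [B_kap_kap]; norm_num) (by rw [kap_zero]; norm_num)
    (by rw [B_kap, hd]; rfl) hx

/-- Cauchy-Schwarz on the complement of `kap` -/
theorem csK (x y : Vec) (hy : 0 < 3 * B y y + deg y ^ 2) :
    (3 * B x y + deg x * deg y) ^ 2 ≤ (3 * B x x + deg x ^ 2) * (3 * B y y + deg y ^ 2) := by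
  have h := psd ((3 * B y y + deg y ^ 2) • x - (3 * B x y + deg x * deg y) • y)
  simp only [B_sub_left, B_sub_right, B_smul_left, B_smul_right, deg_sub, deg_smul] at h
  rw [B_comm y x] at h
  set q := 3 * B y y + deg y ^ 2 with hq
  set p := 3 * B x y + deg x * deg y with hp
  set r := 3 * B x x + deg x ^ 2 with hr
  have e : 3 * (q * (q * B x x - p * B x y) - p * (q * B x y - p * B y y)) +
      (q * deg x - p * deg y) ^ 2 = q * (q * r - p ^ 2) := by
    rw [hq, hp, hr]; ring
  rw [e] at h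
  have := (mul_nonneg_iff_of_pos_left hy).mp h
  nlinarith

theorem B_eq_dot (x y : Vec) : B x y = x ⬝ᵥ (J *ᵥ y) := by
  simp [B, J, dotProduct, Matrix.mulVec_diagonal, Fin.sum_univ_succ]; ring

theorem B_mulVec {A : Matrix (Fin 7) (Fin 7) ℤ} (h : Aᵀ * J * A = J) (x y : Vec) :
    B (A *ᵥ x) (A *ᵥ y) = B x y := by
  rw [B_eq_dot, B_eq_dot, Matrix.mulVec_mulVec, Matrix.dotProduct_mulVec, Matrix.vecMul_mulVec,
    ← Matrix.dotProduct_mulVec, ← Matrix.mul_assoc, h]

theorem lorentz_of_B {A : Matrix (Fin 7) (Fin 7) ℤ}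
    (h : ∀ x y, B (A *ᵥ x) (A *ᵥ y) = B x y) : Aᵀ * J * A = J := by
  ext i j
  have := h (Pi.single i 1) (Pi.single j 1)
  rw [B_eq_dot, B_eq_dot, Matrix.mulVec_mulVec, Matrix.dotProduct_mulVec, Matrix.vecMul_mulVec,
    ← Matrix.dotProduct_mulVec, ← Matrix.mul_assoc] at this
  simpa using this

theorem J_mul_J : J * J = 1 := by
  simp only [J, Matrix.diagonal_mul_diagonal]
  rw [← Matrix.diagonal_one]
  congr 1
  funext i
  fin_cases i <;> simp

theorem J_transpose : Jᵀ = J := by simp [J]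

theorem left_inv_of_lorentz {A : Matrix (Fin 7) (Fin 7) ℤ} (h : Aᵀ * J * A = J) :
    (J * Aᵀ * J) * A = 1 := by
  rw [Matrix.mul_assoc, Matrix.mul_assoc, ← Matrix.mul_assoc Aᵀ, h, J_mul_J]

theorem lorentz_transpose {A : Matrix (Fin 7) (Fin 7) ℤ} (h : Aᵀ * J * A = J) :
    A * J * Aᵀ = J := by
  have h1 : A * (J * Aᵀ * J) = 1 := mul_eq_one_comm.mp (left_inv_of_lorentz h)
  have h2 : A * (J * Aᵀ * J) * J = J := by rw [h1, Matrix.one_mul]
  simpa only [Matrix.mul_assoc, J_mul_J, Matrix.mul_one] using h2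

theorem future_mulVec {A : Matrix (Fin 7) (Fin 7) ℤ} (h : Aᵀ * J * A = J) (h0 : 0 < A 0 0)
    {x : Vec} (hx : B x x ≤ 0) (hx0 : 0 < x 0) : 0 < (A *ᵥ x) 0 := by
  have h1 := congrFun (congrFun (lorentz_transpose h) 0) 0
  have h2 := B_neg_of_future (x := x)
    (y := ![A 0 0, -A 0 1, -A 0 2, -A 0 3, -A 0 4, -A 0 5, -A 0 6]) hx
    (by
      simp [J, Matrix.mul_apply, Fin.sum_univ_succ, Matrix.diagonal] at h1
      simp [B]; linarith) hx0 (by simpa using h0)
  simp [B] at h2
  simp [Matrix.mulVec, dotProduct, Fin.sum_univ_succ]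
  linarith

/-- The group of integral positive Lorentzian matrices. -/
def PO : Subgroup (GL (Fin 7) ℤ) where
  carrier := {A | (A : Matrix (Fin 7) (Fin 7) ℤ)ᵀ * J * A = J ∧ 0 < (A : Matrix (Fin 7) (Fin 7) ℤ) 0 0}
  one_mem' := by simp
  mul_mem' := by
    rintro a b ⟨ha, ha0⟩ ⟨hb, hb0⟩
    refine ⟨?_, ?_⟩
    · simp only [Units.val_mul, Matrix.transpose_mul]
      calc _ = (b : Matrix (Fin 7) (Fin 7) ℤ)ᵀ * ((a : Matrix (Fin 7) (Fin 7) ℤ)ᵀ * J * a) * b := by
              simp only [Matrix.mul_assoc]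
        _ = J := by rw [ha, hb]
    · have h := future_mulVec ha ha0 (x := (b : Matrix (Fin 7) (Fin 7) ℤ) *ᵥ Pi.single 0 1)
        (by rw [B_mulVec hb]; simp [B]) (by simpa using hb0)
      rw [Matrix.mulVec_mulVec] at h
      simpa using h
  inv_mem' := by
    rintro a ⟨ha, ha0⟩
    have hinv : ((a⁻¹ : GL (Fin 7) ℤ) : Matrix (Fin 7) (Fin 7) ℤ) =
        J * (a : Matrix (Fin 7) (Fin 7) ℤ)ᵀ * J := by
      have h1 := left_inv_of_lorentz ha
      have h2 : (a : Matrix (Fin 7) (Fin 7) ℤ) * ((a⁻¹ : GL (Fin 7) ℤ) : Matrix (Fin 7) (Fin 7) ℤ) = 1 :=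
        Units.mul_inv a
      calc _ = (J * (a : Matrix (Fin 7) (Fin 7) ℤ)ᵀ * J * a) *
                ((a⁻¹ : GL (Fin 7) ℤ) : Matrix (Fin 7) (Fin 7) ℤ) := by rw [h1, Matrix.one_mul]
        _ = _ := by rw [Matrix.mul_assoc _ (a : Matrix (Fin 7) (Fin 7) ℤ), h2, Matrix.mul_one]
    refine ⟨?_, ?_⟩
    · rw [hinv]
      simp only [Matrix.transpose_mul, J_transpose, Matrix.transpose_transpose]
      have := lorentz_transpose ha
      calc _ = J * ((a : Matrix (Fin 7) (Fin 7) ℤ) * (J * J) * J * (a : Matrix (Fin 7) (Fin 7) ℤ)ᵀ) * J := by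
              simp only [Matrix.mul_assoc]
        _ = J := by rw [J_mul_J, Matrix.mul_one, this, J_mul_J, Matrix.one_mul]
    · rw [hinv]
      simpa [J, Matrix.mul_apply, Matrix.diagonal, Fin.sum_univ_succ] using ha0

/-- underlying matrix -/
def mat (g : PO) : Matrix (Fin 7) (Fin 7) ℤ := ((g : GL (Fin 7) ℤ) : Matrix (Fin 7) (Fin 7) ℤ)

theorem smul_def (g : PO) (v : Vec) : g • v = mat g *ᵥ v := rfl

theorem B_smul (g : PO) (x y : Vec) : B (g • x) (g • y) = B x y := B_mulVec g.2.1 x y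

theorem B_smul_left' (g : PO) (x y : Vec) : B (g • x) y = B x (g⁻¹ • y) := by
  rw [← B_smul g x (g⁻¹ • y), smul_inv_smul]

theorem future_smul (g : PO) {x : Vec} (hx : B x x ≤ 0) (h0 : 0 < x 0) : 0 < (g • x) 0 :=
  future_mulVec g.2.1 g.2.2 hx h0

theorem smul_zsmul (g : PO) (c : ℤ) (x : Vec) : g • (c • x) = c • (g • x) := by
  rw [smul_def, smul_def, Matrix.mulVec_smul]

theorem deg_smul_pos (g : PO) {x : Vec} (hx : B x x ≤ 0) (h0 : 0 < deg x) : 0 < deg (g • x) :=
  deg_pos_of_future (by rw [B_smul]; exact hx) (future_smul g hx (future_of_deg_pos hx h0))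

theorem deg_inv_smul (g : PO) (v : Vec) : deg (g⁻¹ • v) = -B v (g • kap) := by
  rw [B_comm, B_smul_left', kap_B, neg_neg]

theorem ext_smul {g h : PO} (H : ∀ v : Vec, g • v = h • v) : g = h := by
  apply Subtype.ext
  apply Units.ext
  exact Matrix.ext_iff_smul.mpr H

/-- reflection matrix in a vector `v` with `a * B v v = 2` -/
def reflMat (a : ℤ) (v : Vec) : Matrix (Fin 7) (Fin 7) ℤ := 1 - a • Matrix.vecMulVec v (J *ᵥ v)

theorem reflMat_mulVec (a : ℤ) (v x : Vec) : reflMat a v *ᵥ x = x - (a * B x v) • v := by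
  unfold reflMat
  rw [Matrix.sub_mulVec, Matrix.one_mulVec, Matrix.smul_mulVec, Matrix.vecMulVec_mulVec, B_eq_dot,
    dotProduct_comm]
  simp [mul_smul]

theorem reflMat_sq {a : ℤ} {v : Vec} (h : a * B v v = 2) : reflMat a v * reflMat a v = 1 := by
  apply Matrix.ext_iff_mulVec.mpr
  intro x
  rw [← Matrix.mulVec_mulVec, reflMat_mulVec, reflMat_mulVec, Matrix.one_mulVec, B_sub_left,
    B_smul_left]
  have : a * (B x v - a * B x v * B v v) = -(a * B x v) := by
    linear_combination (-(a * B x v)) * h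
  rw [this, neg_smul]; abel

def refl (a : ℤ) (v : Vec) (ha : 0 < a) (h : a * B v v = 2) : PO :=
  ⟨⟨reflMat a v, reflMat a v, reflMat_sq h, reflMat_sq h⟩, by
    refine ⟨lorentz_of_B ?_, ?_⟩
    · intro x y
      simp only [reflMat_mulVec, B_sub_left, B_sub_right, B_smul_left, B_smul_right]
      rw [B_comm v y]
      linear_combination (a * B x v * B y v) * h
    · have : reflMat a v 0 0 = 1 + a * (v 0 * v 0) := by
        simp [reflMat, J, Matrix.vecMulVec, Matrix.mulVec_diagonal]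
      show 0 < reflMat a v 0 0
      rw [this]
      have := mul_self_nonneg (v 0)
      positivity⟩

theorem refl_smul (a : ℤ) (v : Vec) (ha : 0 < a) (h : a * B v v = 2) (x : Vec) :
    refl a v ha h • x = x - (a * B x v) • v := reflMat_mulVec a v x

theorem refl_mul_self (a : ℤ) (v : Vec) (ha : 0 < a) (h : a * B v v = 2) :
    refl a v ha h * refl a v ha h = 1 := by
  apply Subtype.ext
  apply Units.ext
  exact reflMat_sq h

theorem refl_inv (a : ℤ) (v : Vec) (ha : 0 < a) (h : a * B v v = 2) :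
    (refl a v ha h)⁻¹ = refl a v ha h :=
  inv_eq_of_mul_eq_one_right (refl_mul_self a v ha h)

end Pool.Agent.MP_3fe7bf_gt

end

-- part MP_3fe7bf_gt.Walls
section

/-!
Walls (vectors of norm one), separating sets, the wall-crossing cocycle, nef vectors and descent.
-/

namespace Pool.Agent.MP_3fe7bf_gt

open Matrix

theorem sq_par (x : ℤ) : ∃ k, x * x = x + 2 * k := by
  obtain ⟨k, hk⟩ := Int.even_mul_pred_self x
  exact ⟨k, by linarith⟩

theorem B_par (v : Vec) : ∃ k, B v v = deg v + 2 * k := by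
  obtain ⟨k0, h0⟩ := sq_par (v 0)
  obtain ⟨k1, h1⟩ := sq_par (v 1)
  obtain ⟨k2, h2⟩ := sq_par (v 2)
  obtain ⟨k3, h3⟩ := sq_par (v 3)
  obtain ⟨k4, h4⟩ := sq_par (v 4)
  obtain ⟨k5, h5⟩ := sq_par (v 5)
  obtain ⟨k6, h6⟩ := sq_par (v 6)
  exact ⟨-k0 - 2 * v 0 + k1 + k2 + k3 + k4 + k5 + k6, by unfold B deg; linarith⟩

theorem deg_ne_zero {v : Vec} (h : B v v = 1) : deg v ≠ 0 := by
  obtain ⟨k, hk⟩ := B_par v
  omega

theorem deg_odd {v : Vec} (h : B v v = 1) : deg v % 2 = 1 := by
  obtain ⟨k, hk⟩ := B_par v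
  omega

def e0 : Vec := Pi.single 0 1
def E (i : Fin 6) : Vec := Pi.single i.succ 1

theorem B_e0 (x : Vec) : B x e0 = -x 0 := by simp [B, e0]
theorem B_E (x : Vec) (i : Fin 6) : B x (E i) = x i.succ := by
  fin_cases i <;> simp [B, E]
theorem deg_e0 : deg e0 = 3 := by simp [deg, e0]
theorem deg_E (i : Fin 6) : deg (E i) = 1 := by fin_cases i <;> simp [deg, E]
theorem e0_zero : e0 0 = 1 := by simp [e0]
theorem e0_succ (i : Fin 6) : e0 i.succ = 0 := by simp [e0]
theorem E_zero (i : Fin 6) : E i 0 = 0 := by simp [E]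
theorem E_succ (i j : Fin 6) : E i j.succ = if i = j then 1 else 0 := by
  simp [E, Pi.single_apply, eq_comm]
theorem B_E_E (i : Fin 6) : B (E i) (E i) = 1 := by rw [B_E, E_succ]; simp

theorem coord_bound {v : Vec} (h : B v v = 1) {c : ℤ} (h0 : 0 < deg v) (h1 : deg v < c) (i : Fin 7) :
    -(2 * c + 3) ≤ v i ∧ v i ≤ 2 * c + 3 := by
  have hz := csK v e0 (by rw [B_e0, deg_e0, e0_zero]; norm_num)
  rw [B_e0, B_e0, deg_e0, e0_zero, h] at hz
  have hb : -(2 * c + 2) ≤ v 0 ∧ v 0 ≤ 2 * c + 2 := by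
    constructor <;> nlinarith
  refine Fin.cases ?_ (fun j => ?_) i
  · constructor <;> linarith [hb.1, hb.2]
  · have hj := csK v (E j) (by rw [B_E_E, deg_E]; norm_num)
    rw [B_E, B_E_E, deg_E, h] at hj
    constructor <;> nlinarith

def Sep (g : PO) : Set Vec := {v | B v v = 1 ∧ 0 < deg v ∧ deg (g⁻¹ • v) < 0}

theorem deg_lt_of_sep {g : PO} {v : Vec} (hv : v ∈ Sep g) : deg v < deg (g • kap) := by
  obtain ⟨h1, h2, h3⟩ := hv
  rw [deg_inv_smul] at h3
  have hz : B (g • kap) (g • kap) = -3 := by rw [B_smul, B_kap_kap]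
  have hz0 : 0 < (g • kap) 0 := future_smul g (by rw [B_kap_kap]; norm_num) (by rw [kap_zero]; norm_num)
  set z := g • kap with hzdef
  set a := deg v with ha
  set b := B v z with hb
  have hu : B (kap + a • v) (kap + a • v) = -3 - a * a := by
    simp only [B_add_left, B_add_right, B_smul_left, B_smul_right, B_kap, kap_B, deg_kap, h1, deg_add,
      deg_smul, ← ha]; ring
  have hu' : B (z - b • v) (z - b • v) = -3 - b * b := by
    simp only [B_sub_left, B_sub_right, B_smul_left, B_smul_right, hz, h1, B_comm z v, ← hb]; ring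
  have hf : 0 < (kap + a • v) 0 := by
    apply future_of_deg_pos
    · rw [hu]; nlinarith
    · rw [deg_add, deg_smul, deg_kap, ← ha]; nlinarith
  have hf' : 0 < (z - b • v) 0 := by
    apply future_of_B_neg (y := z)
    · rw [hu']; nlinarith
    · rw [hz]; norm_num
    · exact hz0
    · rw [B_sub_left, B_smul_left, hz, ← hb]; nlinarith
  have := B_neg_of_future (x := kap + a • v) (y := z - b • v) (by rw [hu]; nlinarith)
    (by rw [hu']; nlinarith) hf hf'
  simp only [B_add_left, B_sub_right, B_smul_left, B_smul_right, kap_B, h1, ← ha, ← hb] at this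
  nlinarith

theorem sep_finite (g : PO) : (Sep g).Finite := by
  apply Set.Finite.subset (Set.finite_Icc (fun _ => -(2 * deg (g • kap) + 3))
    (fun _ => 2 * deg (g • kap) + 3))
  intro v hv
  have := coord_bound hv.1 hv.2.1 (deg_lt_of_sep hv)
  exact ⟨fun i => (this i).1, fun i => (this i).2⟩

noncomputable def sep (g : PO) : Finset Vec := (sep_finite g).toFinset

theorem mem_sep {g : PO} {v : Vec} :
    v ∈ sep g ↔ B v v = 1 ∧ 0 < deg v ∧ deg (g⁻¹ • v) < 0 := by
  simp [sep, Sep]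

/-- wall-crossing sum -/
noncomputable def Lam {A : Type} [AddCommGroup A] (s : Vec → A) (g : PO) : A := ∑ v ∈ sep g, s v

theorem Lam_mul {A : Type} [AddCommGroup A] (s : Vec → A) (hs : ∀ v, s (-v) = -s v) (g h : PO) :
    Lam s (g * h) = Lam s g + Lam (fun v => s (g • v)) h := by
  classical
  unfold Lam
  rw [← Finset.sum_filter_add_sum_filter_not (sep h) (fun w => 0 < deg (g • w))]
  have e1 : ∑ w ∈ (sep h).filter (fun w => 0 < deg (g • w)), s (g • w) =
      ∑ v ∈ sep (g * h) \ sep g, s v := by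
    refine Finset.sum_nbij' (fun w => g • w) (fun v => g⁻¹ • v) ?_ ?_ ?_ ?_ ?_
    · intro w hw
      simp only [Finset.mem_filter, mem_sep] at hw
      simp only [Finset.mem_sdiff, mem_sep, B_smul, _root_.mul_inv_rev, mul_smul, inv_smul_smul]
      obtain ⟨⟨h1, h2, h3⟩, h4⟩ := hw
      exact ⟨⟨h1, h4, h3⟩, fun h => by linarith [h.2.2]⟩
    · intro v hv
      simp only [Finset.mem_sdiff, mem_sep, _root_.mul_inv_rev, mul_smul] at hv
      simp only [Finset.mem_filter, mem_sep, B_smul, smul_inv_smul]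
      obtain ⟨⟨h1, h2, h3⟩, h4⟩ := hv
      have h5 : deg (g⁻¹ • v) ≠ 0 := deg_ne_zero (by rw [B_smul]; exact h1)
      refine ⟨⟨h1, ?_, h3⟩, h2⟩
      by_contra h6
      exact h4 ⟨h1, h2, by omega⟩
    · intro w _; simp
    · intro v _; simp
    · intro w _; rfl
  have e2 : ∑ w ∈ (sep h).filter (fun w => ¬ 0 < deg (g • w)), s (g • w) =
      -∑ v ∈ sep g \ sep (g * h), s v := by
    rw [← Finset.sum_neg_distrib]
    refine Finset.sum_nbij' (fun w => -(g • w)) (fun v => -(g⁻¹ • v)) ?_ ?_ ?_ ?_ ?_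
    · intro w hw
      simp only [Finset.mem_filter, mem_sep] at hw
      simp only [Finset.mem_sdiff, mem_sep, B_smul, _root_.mul_inv_rev, mul_smul, inv_smul_smul,
        B_neg_left, B_neg_right, neg_neg, smul_neg, deg_neg]
      obtain ⟨⟨h1, h2, h3⟩, h4⟩ := hw
      have h5 : deg (g • w) ≠ 0 := deg_ne_zero (by rw [B_smul]; exact h1)
      exact ⟨⟨h1, by omega, by omega⟩, fun h => by linarith [h.2.2]⟩
    · intro v hv
      simp only [Finset.mem_sdiff, mem_sep, _root_.mul_inv_rev, mul_smul] at hv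
      simp only [Finset.mem_filter, mem_sep, B_smul, smul_inv_smul, B_neg_left, B_neg_right, neg_neg,
        smul_neg, deg_neg]
      obtain ⟨⟨h1, h2, h3⟩, h4⟩ := hv
      have h5 : deg (h⁻¹ • g⁻¹ • v) ≠ 0 := deg_ne_zero (by rw [B_smul, B_smul]; exact h1)
      refine ⟨⟨h1, by omega, ?_⟩, by omega⟩
      by_contra h6
      exact h4 ⟨h1, h2, by omega⟩
    · intro w _; simp
    · intro v _; simp
    · intro w _; rw [hs, neg_neg]
  rw [e1, e2, ← sub_eq_add_neg, Finset.sum_sdiff_sub_sum_sdiff]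
  abel

theorem Lam_congr {A : Type} [AddCommGroup A] {s t : Vec → A} (h : ∀ v, B v v = 1 → s v = t v)
    (g : PO) : Lam s g = Lam t g :=
  Finset.sum_congr rfl fun _ hv => h _ (mem_sep.mp hv).1

theorem deg_smul_of_fix {w : PO} (hw : w • kap = kap) (v : Vec) : deg (w • v) = deg v := by
  have h := B_smul w v kap
  rw [hw, B_kap, B_kap] at h
  linarith

theorem sep_of_fix {w : PO} (hw : w • kap = kap) : sep w = ∅ := by
  ext v
  simp only [mem_sep, Finset.notMem_empty, iff_false]
  rintro ⟨_, h2, h3⟩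
  rw [deg_smul_of_fix (inv_smul_eq_iff.mpr hw.symm)] at h3
  linarith

theorem Lam_of_fix {A : Type} [AddCommGroup A] (s : Vec → A) {w : PO} (hw : w • kap = kap) :
    Lam s w = 0 := by
  simp [Lam, sep_of_fix hw]

theorem Lam_one {A : Type} [AddCommGroup A] (s : Vec → A) : Lam s 1 = 0 :=
  Lam_of_fix s (one_smul _ _)

def IsLine (v : Vec) : Prop := B v v = 1 ∧ deg v = 1

/-- reflection in a wall -/
def rf (v : Vec) (h : B v v = 1) : PO := refl 2 v (by norm_num) (by rw [h]; norm_num)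

theorem rf_smul (v : Vec) (h : B v v = 1) (x : Vec) : rf v h • x = x - (2 * B x v) • v :=
  refl_smul _ _ _ _ x

theorem rf_inv (v : Vec) (h : B v v = 1) : (rf v h)⁻¹ = rf v h := refl_inv _ _ _ _

theorem rf_mul_self (v : Vec) (h : B v v = 1) : rf v h * rf v h = 1 := refl_mul_self _ _ _ _

theorem rf_self (v : Vec) (h : B v v = 1) : rf v h • v = -v := by
  rw [rf_smul, h]; ext i; simp; ring

theorem deg_rf_pos {l v : Vec} (hl : IsLine l) (hv : B v v = 1) (h0 : 0 < deg v) (hne : v ≠ l) :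
    0 < deg (rf l hl.1 • v) := by
  have h5 : deg (rf l hl.1 • v) ≠ 0 := deg_ne_zero (by rw [B_smul]; exact hv)
  rw [rf_smul, deg_sub, deg_smul, hl.2] at *
  by_contra hneg
  have hcs := csK v l (by rw [hl.1, hl.2]; norm_num)
  rw [hl.1, hl.2, hv] at hcs
  set a := deg v with ha
  set c := B v l with hc
  have h1 : a - 2 * c ≤ -1 := by omega
  have h2 : a * (a - 2 * c) ≤ -1 := by nlinarith
  have h3 : c * c ≤ 1 := by nlinarith
  have h4 : c = 1 := by nlinarith
  have h6 : a = 1 := by omega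
  apply hne
  have := eq_zero_of_deg (x := v - l) (by rw [deg_sub, hl.2, ← ha, h6]; rfl)
    (by rw [B_sub_left, B_sub_right, B_sub_right, hv, hl.1, B_comm l v, ← hc, h4]; norm_num)
  exact sub_eq_zero.mp this

theorem sep_rf {l : Vec} (hl : IsLine l) : sep (rf l hl.1) = {l} := by
  ext v
  simp only [mem_sep, Finset.mem_singleton, rf_inv]
  constructor
  · rintro ⟨h1, h2, h3⟩
    by_contra hne
    linarith [deg_rf_pos hl h1 h2 hne]
  · rintro rfl
    refine ⟨hl.1, by rw [hl.2]; norm_num, ?_⟩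
    rw [rf_self, deg_neg, hl.2]; norm_num

theorem Lam_rf {A : Type} [AddCommGroup A] (s : Vec → A) {l : Vec} (hl : IsLine l) :
    Lam s (rf l hl.1) = s l := by
  simp [Lam, sep_rf hl]

def Nef (y : Vec) : Prop := ∀ l, IsLine l → B y l ≤ 0

theorem isLine_smul {w : PO} (hw : w • kap = kap) {l : Vec} (hl : IsLine l) : IsLine (w • l) :=
  ⟨by rw [B_smul]; exact hl.1, by rw [deg_smul_of_fix hw]; exact hl.2⟩

theorem nef_smul {w : PO} (hw : w • kap = kap) {y : Vec} (hy : Nef y) : Nef (w • y) := by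
  intro l hl
  rw [B_smul_left']
  exact hy _ (isLine_smul (inv_smul_eq_iff.mpr hw.symm) hl)

theorem isLine_E (i : Fin 6) : IsLine (E i) := ⟨B_E_E i, deg_E i⟩

theorem isLine_L {i j : Fin 6} (h : i ≠ j) : IsLine (e0 - E i - E j) := by
  constructor
  · simp only [B_sub_right, B_e0, B_E, Pi.sub_apply, e0_zero, E_zero, e0_succ, E_succ, h, h.symm]
    simp
  · simp [deg_sub, deg_e0, deg_E]

theorem B_crem {i j k : Fin 6} (hij : i ≠ j) (hik : i ≠ k) (hjk : j ≠ k) :
    1 * B (e0 - E i - E j - E k) (e0 - E i - E j - E k) = 2 := by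
  simp only [B_sub_right, B_e0, B_E, Pi.sub_apply, e0_zero, E_zero, e0_succ, E_succ, hij, hij.symm,
    hik, hik.symm, hjk, hjk.symm]
  simp

/-- Cremona reflection -/
def crem {i j k : Fin 6} (hij : i ≠ j) (hik : i ≠ k) (hjk : j ≠ k) : PO :=
  refl 1 (e0 - E i - E j - E k) (by norm_num) (B_crem hij hik hjk)

theorem crem_smul {i j k : Fin 6} (hij : i ≠ j) (hik : i ≠ k) (hjk : j ≠ k) (x : Vec) :
    crem hij hik hjk • x = x + (x 0 + x i.succ + x j.succ + x k.succ) • (e0 - E i - E j - E k) := by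
  unfold crem
  rw [refl_smul]
  simp only [B_sub_right, B_e0, B_E]
  rw [sub_eq_add_neg, ← neg_smul]
  congr 2
  ring

theorem crem_kap {i j k : Fin 6} (hij : i ≠ j) (hik : i ≠ k) (hjk : j ≠ k) :
    crem hij hik hjk • kap = kap := by
  rw [crem_smul]
  have : ∀ i : Fin 6, kap i.succ = -1 := by intro i; fin_cases i <;> simp [kap]
  simp [this, kap_zero]

theorem B_self_sum (u : Vec) : B u u = -(u 0 * u 0) + ∑ i : Fin 6, u i.succ * u i.succ := by
  simp [B, Fin.sum_univ_succ]; ring

theorem nef_nonpos_aux : ∀ (n : ℕ) (u : Vec), Nef u → u 0 < n → B u u ≤ 0 := by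
  intro n
  induction n with
  | zero =>
    intro u hu h
    have h1 := hu _ (isLine_E 0)
    have h2 := hu _ (isLine_E 1)
    have h3 := hu _ (isLine_L (i := 0) (j := 1) (by decide))
    simp only [B_sub_right, B_e0, B_E] at h1 h2 h3
    simp at h
    linarith
  | succ n ih =>
    intro u hu h
    let m : Fin 6 → ℤ := fun i => -u i.succ
    have hm : ∀ i, 0 ≤ m i := fun i => by
      have := hu _ (isLine_E i); rw [B_E] at this; simp [m]; linarith
    let p := Tuple.sort m
    have hmono : Monotone (m ∘ p) := Tuple.monotone_sort m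
    have h34 : p 3 ≠ p 4 := fun h => by simpa using p.injective h
    have h35 : p 3 ≠ p 5 := fun h => by simpa using p.injective h
    have h45 : p 4 ≠ p 5 := fun h => by simpa using p.injective h
    by_cases hc : u 0 < m (p 3) + m (p 4) + m (p 5)
    · have := ih (crem h34 h35 h45 • u) (nef_smul (crem_kap _ _ _) hu) (by
        rw [crem_smul]
        simp only [Pi.add_apply, Pi.smul_apply, Pi.sub_apply, e0_zero, E_zero, smul_eq_mul]
        simp only [m] at hc
        push_cast at h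
        linarith)
      rwa [B_smul] at this
    · rw [B_self_sum]
      have e : ∑ i : Fin 6, u i.succ * u i.succ = ∑ i : Fin 6, m (p i) * m (p i) := by
        rw [Equiv.sum_comp p (fun i => m i * m i)]
        simp [m]
      rw [e, Fin.sum_univ_six]
      have a01 : m (p 0) ≤ m (p 1) := hmono (by decide : (0 : Fin 6) ≤ 1)
      have a12 : m (p 1) ≤ m (p 2) := hmono (by decide : (1 : Fin 6) ≤ 2)
      have a23 : m (p 2) ≤ m (p 3) := hmono (by decide : (2 : Fin 6) ≤ 3)
      have a34 : m (p 3) ≤ m (p 4) := hmono (by decide : (3 : Fin 6) ≤ 4)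
      have a45 : m (p 4) ≤ m (p 5) := hmono (by decide : (4 : Fin 6) ≤ 5)
      have a0 := hm (p 0)
      push Not at hc
      generalize m (p 0) = x0 at *
      generalize m (p 1) = x1 at *
      generalize m (p 2) = x2 at *
      generalize m (p 3) = x3 at *
      generalize m (p 4) = x4 at *
      generalize m (p 5) = x5 at *
      generalize u 0 = d at *
      have b0 : x0 * x0 ≤ x3 * x4 := mul_le_mul (by linarith) (by linarith) a0 (by linarith)
      have b1 : x1 * x1 ≤ x3 * x5 := mul_le_mul (by linarith) (by linarith) (by linarith) (by linarith)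
      have b2 : x2 * x2 ≤ x4 * x5 := mul_le_mul (by linarith) (by linarith) (by linarith) (by linarith)
      have b3 : (x3 + x4 + x5) * (x3 + x4 + x5) ≤ d * d :=
        mul_le_mul hc hc (by linarith) (by linarith)
      nlinarith [mul_self_nonneg x0, mul_self_nonneg x1, mul_self_nonneg x2]

theorem nef_nonpos {u : Vec} (hu : Nef u) : B u u ≤ 0 :=
  nef_nonpos_aux ((u 0).toNat + 1) u hu (by push_cast; omega)

theorem nef_root_aux {y : Vec} (hy : Nef y) :
    ∀ (n : ℕ) (v : Vec), B v v = 1 → 0 < deg v → deg v < n → B y v ≤ 0 := by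
  intro n
  induction n with
  | zero => intro v _ h1 h2; simp at h2; linarith
  | succ n ih =>
    intro v hv h1 h2
    by_cases hl : deg v = 1
    · exact hy v ⟨hv, hl⟩
    · have : ¬ Nef v := fun h => by linarith [nef_nonpos h]
      unfold Nef at this
      push Not at this
      obtain ⟨l, hl1, hl2⟩ := this
      have hne : v ≠ l := fun h => hl (h ▸ hl1.2)
      have h3 := deg_rf_pos hl1 hv h1 hne
      have h4 := ih (rf l hl1.1 • v) (by rw [B_smul]; exact hv) h3 (by
        rw [rf_smul, deg_sub, deg_smul, hl1.2]; push_cast at h2; linarith)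
      rw [rf_smul, B_sub_right, B_smul_right] at h4
      have := hy l hl1
      nlinarith

theorem nef_root {y v : Vec} (hy : Nef y) (hv : B v v = 1) (h : 0 < deg v) : B y v ≤ 0 :=
  nef_root_aux hy ((deg v).toNat + 1) v hv h (by push_cast; omega)

theorem kap_eq : kap = E 0 + (e0 - E 0 - E 1) + ![2, -1, 0, -1, -1, -1, -1] := by
  ext i; fin_cases i <;> simp [kap, E, e0]

theorem eq_kap {z : Vec} (hz : B z z = -3) (h : ∀ l, IsLine l → B z l ≤ -1) : z = kap := by
  have hu : Nef (z - kap) := fun l hl => by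
    rw [B_sub_left, kap_B, hl.2]; linarith [h l hl]
  have h1 := nef_nonpos hu
  have h2 : B (z - kap) kap ≤ 0 := by
    have a := hu _ (isLine_E 0)
    have b := hu _ (isLine_L (i := 0) (j := 1) (by decide))
    have c := hu ![2, -1, 0, -1, -1, -1, -1] (by constructor <;> simp [B, deg])
    have : B (z - kap) kap = B (z - kap) (E 0 + (e0 - E 0 - E 1) + ![2, -1, 0, -1, -1, -1, -1]) := by
      rw [← kap_eq]
    rw [this, B_add_right, B_add_right]; linarith
  have h3 : B (z - kap) (z - kap) + 2 * B (z - kap) kap = 0 := by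
    simp only [B_sub_left, B_sub_right, hz, B_kap_kap, B_comm kap z]; ring
  have := eq_zero_of_deg (x := z - kap) (by rw [B_kap] at h2 h3; linarith) h1
  exact sub_eq_zero.mp this

theorem fix_of_sep_empty {g : PO} (h : sep g = ∅) : g • kap = kap := by
  apply eq_kap (by rw [B_smul, B_kap_kap])
  intro l hl
  have h1 : l ∉ sep g := by rw [h]; simp
  rw [mem_sep] at h1
  have h2 : deg (g⁻¹ • l) ≠ 0 := deg_ne_zero (by rw [B_smul]; exact hl.1)
  have h3 : ¬ deg (g⁻¹ • l) < 0 := fun h => h1 ⟨hl.1, by rw [hl.2]; norm_num, h⟩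
  rw [deg_inv_smul] at h2 h3
  rw [B_comm]
  omega

/-- reduction modulo two -/
def res (v : Vec) : Fin 7 → ZMod 2 := fun i => (v i : ZMod 2)

def red : PO →* GL (Fin 7) (ZMod 2) :=
  (Matrix.GeneralLinearGroup.map (Int.castRingHom (ZMod 2))).comp PO.subtype

theorem res_smul (g : PO) (v : Vec) : res (g • v) = red g • res v := by
  ext i
  exact RingHom.map_mulVec (Int.castRingHom (ZMod 2)) (mat g) v i

theorem res_surj (t : Fin 7 → ZMod 2) : ∃ v, res v = t :=
  ⟨fun i => ((t i).val : ℤ), by ext i; simp [res]⟩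

theorem red_eq_iff {g h : PO} : red g = red h ↔ ∀ v, res (g • v) = res (h • v) := by
  constructor
  · intro H v; rw [res_smul, res_smul, H]
  · intro H
    apply Units.ext
    apply Matrix.ext_iff_smul.mpr
    intro t
    obtain ⟨v, rfl⟩ := res_surj t
    have := H v
    rw [res_smul, res_smul] at this
    exact this

theorem mem_ker_red {g : PO} : g ∈ red.ker ↔ ∀ v, res (g • v) = res v := by
  rw [MonoidHom.mem_ker, ← map_one red, red_eq_iff]; simp

theorem res_neg (v : Vec) : res (-v) = res v := by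
  ext i; simp [res]

theorem rf_mem_ker (v : Vec) (h : B v v = 1) : rf v h ∈ red.ker := by
  rw [mem_ker_red]
  intro x
  rw [rf_smul]
  ext i
  have : (2 : ZMod 2) = 0 := rfl
  simp [res, this]

theorem descent_aux : ∀ (n : ℕ) (y : Vec), B y y ≤ 0 → 0 < deg y → deg y < n →
    ∃ g ∈ red.ker, Nef (g • y) := by
  intro n
  induction n with
  | zero => intro y _ h1 h2; simp at h2; linarith
  | succ n ih =>
    intro y hy h1 h2
    by_cases hn : Nef y
    · exact ⟨1, one_mem _, by simpa using hn⟩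
    · unfold Nef at hn
      push Not at hn
      obtain ⟨l, hl1, hl2⟩ := hn
      obtain ⟨g, hg, hg2⟩ := ih (rf l hl1.1 • y) (by rw [B_smul]; exact hy) (deg_smul_pos _ hy h1) (by
        rw [rf_smul, deg_sub, deg_smul, hl1.2]; push_cast at h2; linarith)
      exact ⟨g * rf l hl1.1, mul_mem hg (rf_mem_ker _ _), by rwa [mul_smul]⟩

theorem descent {y : Vec} (hy : B y y ≤ 0) (h : 0 < deg y) : ∃ g ∈ red.ker, Nef (g • y) :=
  descent_aux ((deg y).toNat + 1) y hy h (by push_cast; omega)

theorem B_cast (x y : Vec) : ((B x y : ℤ) : ZMod 2) =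
    -(res x 0 * res y 0) + res x 1 * res y 1 + res x 2 * res y 2 + res x 3 * res y 3 +
      res x 4 * res y 4 + res x 5 * res y 5 + res x 6 * res y 6 := by
  simp [B, res]

theorem line_eq_of_res {l l' : Vec} (hl : IsLine l) (hl' : IsLine l') (h : res l = res l') :
    l = l' := by
  have hd : ∀ i, ∃ k : ℤ, l i - l' i = 2 * k := fun i => by
    have := congrFun h i
    simp only [res] at this
    have h2 := (ZMod.intCast_eq_intCast_iff_dvd_sub (l' i) (l i) 2).mp this.symm
    exact h2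
  choose u hu using hd
  have e : l - l' = (2 : ℤ) • u := by ext i; simp [hu i]
  have hdu : deg u = 0 := by
    have := congrArg deg e
    rw [deg_sub, deg_smul, hl.2, hl'.2] at this
    linarith
  have hB : B (l - l') (l - l') = 4 * B u u := by rw [e, B_smul_left, B_smul_right]; ring
  rw [B_sub_left, B_sub_right, B_sub_right, hl.1, hl'.1, B_comm l' l] at hB
  obtain ⟨k, hk⟩ := B_par u
  have hcs := csK l l' (by rw [hl'.1, hl'.2]; norm_num)
  rw [hl.1, hl.2, hl'.1, hl'.2] at hcs
  have h1 : -1 ≤ B l l' := by nlinarith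
  have h2 : B u u ≤ 0 := by omega
  have h3 := eq_zero_of_deg hdu h2
  rw [h3, smul_zero] at e
  exact sub_eq_zero.mp e

theorem vec_decomp (v : Vec) : v = v 0 • e0 + ∑ i : Fin 6, v i.succ • E i := by
  ext j
  fin_cases j <;> simp [e0, E, Fin.sum_univ_succ]

theorem ext_of_basis {g h : PO} (h0 : g • e0 = h • e0) (hE : ∀ i, g • E i = h • E i) : g = h := by
  apply ext_smul
  intro v
  rw [vec_decomp v]
  simp only [smul_add, Finset.smul_sum, smul_zsmul, h0, hE]

theorem e0_of_fix {g h : PO} (hg : g • kap = kap) (hh : h • kap = kap)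
    (hE : ∀ i, g • E i = h • E i) : g • e0 = h • e0 := by
  have e : kap = (3 : ℤ) • e0 - ∑ i : Fin 6, E i := by
    ext j; fin_cases j <;> simp [kap, e0, E, Fin.sum_univ_succ]
  have h1 := hg.trans hh.symm
  rw [e] at h1
  simp only [smul_sub, Finset.smul_sum, smul_zsmul, hE, sub_left_inj] at h1
  exact smul_right_injective _ (by norm_num : (3 : ℤ) ≠ 0) h1

theorem eq_one_of_fix {w : PO} (hw : w • kap = kap) (h2 : w ∈ red.ker) : w = 1 := by
  have hE : ∀ i, w • E i = (1 : PO) • E i := fun i => by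
    rw [one_smul]
    exact line_eq_of_res (isLine_smul hw (isLine_E i)) (isLine_E i) (mem_ker_red.mp h2 _)
  exact ext_of_basis (e0_of_fix hw (one_smul _ _) hE) hE

theorem exists_ker_mul_fix (g : PO) : ∃ n ∈ red.ker, (n * g) • kap = kap := by
  obtain ⟨n, hn, h⟩ := descent (y := g • kap) (by rw [B_smul, B_kap_kap]; norm_num)
    (deg_smul_pos g (by rw [B_kap_kap]; norm_num) (by rw [deg_kap]; norm_num))
  refine ⟨n, hn, eq_kap (by rw [B_smul, B_kap_kap]) fun l hl => ?_⟩
  rw [← mul_smul] at h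
  have h1 := h l hl
  have h2 : deg ((n * g)⁻¹ • l) ≠ 0 := deg_ne_zero (by rw [B_smul]; exact hl.1)
  rw [deg_inv_smul] at h2
  rw [B_comm] at h1 ⊢
  omega

end Pool.Agent.MP_3fe7bf_gt

end

-- part MP_3fe7bf_gt.Hyp
section

/-!
The integral positive Lorentz group acts properly discontinuously on hyperbolic space.
-/

namespace Pool.Agent.MP_3fe7bf_gt

open Matrix

theorem lor_eq (x y : Fin 7 → ℝ) : lor x y =
    -(x 0 * y 0) + x 1 * y 1 + x 2 * y 2 + x 3 * y 3 + x 4 * y 4 + x 5 * y 5 + x 6 * y 6 := by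
  simp [lor, Fin.sum_univ_succ]; ring

def JR : Matrix (Fin 7) (Fin 7) ℝ := J.map (Int.castRingHom ℝ)

theorem lor_eq_dot (x y : Fin 7 → ℝ) : lor x y = x ⬝ᵥ (JR *ᵥ y) := by
  rw [lor_eq]
  simp [JR, J, dotProduct, Matrix.mulVec, Fin.sum_univ_succ, Matrix.diagonal]; ring

noncomputable def matR (g : PO) : Matrix (Fin 7) (Fin 7) ℝ := (mat g).map (Int.castRingHom ℝ)

theorem matR_apply (g : PO) (i j : Fin 7) : matR g i j = (mat g i j : ℝ) := rfl

theorem matR_lor (g : PO) : (matR g)ᵀ * JR * matR g = JR := by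
  have h : (mat g)ᵀ * J * mat g = J := g.2.1
  have := congrArg (fun A => A.map (Int.castRingHom ℝ)) h
  simp only [Matrix.map_mul, Matrix.transpose_map] at this
  exact this

theorem lor_matR (g : PO) (x y : Fin 7 → ℝ) : lor (matR g *ᵥ x) (matR g *ᵥ y) = lor x y := by
  rw [lor_eq_dot, lor_eq_dot, Matrix.mulVec_mulVec, Matrix.dotProduct_mulVec, Matrix.vecMul_mulVec,
    ← Matrix.dotProduct_mulVec, ← Matrix.mul_assoc, matR_lor]

theorem lor_cs (x y : Fin 7 → ℝ) :
    (lor x y + x 0 * y 0) ^ 2 ≤ (lor x x + x 0 * x 0) * (lor y y + y 0 * y 0) := by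
  have h := Finset.sum_mul_sq_le_sq_mul_sq Finset.univ (fun i : Fin 6 => x i.succ)
    (fun i : Fin 6 => y i.succ)
  simp only [lor, sq, neg_add_cancel_comm] at h ⊢
  exact h

theorem one_le_of_lor {x : Fin 7 → ℝ} (h : lor x x = -1) : 1 ≤ x 0 * x 0 := by
  have : 0 ≤ ∑ i : Fin 6, x i.succ * x i.succ := Finset.sum_nonneg fun i _ => mul_self_nonneg _
  unfold lor at h
  linarith

theorem one_le_zero (x : H6) : 1 ≤ x.val 0 := by
  have := one_le_of_lor x.2.1
  have := x.2.2
  nlinarith

theorem lor_neg_of_future {x y : Fin 7 → ℝ} (hx : lor x x = -1) (hy : lor y y = -1) (hx0 : 0 < x 0)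
    (hy0 : 0 < y 0) : lor x y < 0 := by
  have h := lor_cs x y
  rw [hx, hy] at h
  have h1 := one_le_of_lor hx
  have h2 := one_le_of_lor hy
  by_contra hn
  push Not at hn
  have := mul_pos hx0 hy0
  nlinarith

theorem row_lor (g : PO) : -(mat g 0 0 * mat g 0 0) + ∑ i : Fin 6, mat g 0 i.succ * mat g 0 i.succ = -1 := by
  have h1 := congrFun (congrFun (lorentz_transpose g.2.1) 0) 0
  simp [J, Matrix.mul_apply, Fin.sum_univ_succ, Matrix.diagonal] at h1
  simp [mat, Fin.sum_univ_succ]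
  linarith

theorem matR_future (g : PO) {x : Fin 7 → ℝ} (hx : lor x x = -1) (h0 : 0 < x 0) :
    0 < (matR g *ᵥ x) 0 := by
  have h1 := row_lor g
  have h2 := lor_neg_of_future (x := x)
    (y := ![matR g 0 0, -matR g 0 1, -matR g 0 2, -matR g 0 3, -matR g 0 4, -matR g 0 5, -matR g 0 6]) hx
    (by
      have := congrArg (Int.cast : ℤ → ℝ) h1
      simp [Fin.sum_univ_succ] at this
      rw [lor_eq]
      simp [matR_apply]
      linarith) h0 (by
      have : 0 < mat g 0 0 := g.2.2
      simpa [matR_apply] using this)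
  rw [lor_eq] at h2
  simp at h2
  simp [Matrix.mulVec, dotProduct, Fin.sum_univ_succ]
  linarith

theorem lor_neg_neg (x : Fin 7 → ℝ) : lor (-x) (-x) = lor x x := by simp [lor]

/-- the inclusion of the integral group in the real group -/
noncomputable def toR : PO →* Isom6 :=
  ((Matrix.GeneralLinearGroup.map (Int.castRingHom ℝ)).comp PO.subtype).codRestrict Isom6 (fun g => by
    refine ⟨lor_matR g, fun x hx => ⟨fun h => ?_, matR_future g hx⟩⟩
    by_contra hn
    have h1 := one_le_of_lor hx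
    have h2 : 0 < (-x) 0 := by
      rcases lt_trichotomy (x 0) 0 with a | a | a
      · simpa using a
      · rw [a] at h1; norm_num at h1
      · exact absurd a hn
    have h3 := matR_future g (x := -x) (by rw [lor_neg_neg, hx]) h2
    rw [Matrix.mulVec_neg] at h3
    have h4 : 0 < (matR g *ᵥ x) 0 := h
    simp at h3
    linarith)

theorem toR_val (g : PO) : (toR g).val.val = matR g := rfl

theorem toR_injective : Function.Injective toR := by
  intro g h e
  have : matR g = matR h := by rw [← toR_val, ← toR_val, e]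
  apply Subtype.ext
  apply Units.ext
  ext i j
  have := congrFun (congrFun this i) j
  rw [matR_apply, matR_apply] at this
  exact_mod_cast this

noncomputable instance : MulAction PO H6 := MulAction.compHom H6 toR

theorem smul_H6 (g : PO) (x : H6) : g • x = toR g • x := rfl

theorem smul_val (g : PO) (x : H6) : (g • x).val = matR g *ᵥ x.val := rfl

instance : ContinuousConstSMul Isom6 H6 where
  continuous_const_smul _ := Continuous.subtype_mk
    (Continuous.matrix_mulVec continuous_const continuous_subtype_val) _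

instance : ContinuousConstSMul PO H6 where
  continuous_const_smul g := continuous_const_smul (toR g)

theorem corner_le (g : PO) (x : H6) : (mat g 0 0 : ℝ) ≤ 2 * (x.val 0 * (g • x).val 0) := by
  let a : Fin 7 → ℝ := matR g *ᵥ Pi.single 0 1
  have ha : lor a a = -1 := by
    simp only [a]; rw [lor_matR]; simp [lor]
  have ha0 : a 0 = (mat g 0 0 : ℝ) := by simp [a, matR_apply]
  have hay : lor a (g • x).val = -x.val 0 := by
    rw [smul_val]; simp only [a]; rw [lor_matR]; simp [lor]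
  have h := lor_cs a (g • x).val
  rw [ha, hay, (g • x).2.1, ha0] at h
  have h1 := one_le_zero x
  have h2 := one_le_zero (g • x)
  have h3 : (0 : ℝ) < mat g 0 0 := by exact_mod_cast (g.2.2 : 0 < mat g 0 0)
  generalize (mat g 0 0 : ℝ) = A at *
  generalize x.val 0 = X at *
  generalize (g • x).val 0 = Y at *
  have : A * A ≤ A * (2 * (X * Y)) := by nlinarith
  exact le_of_mul_le_mul_left this h3

theorem entry_le (g : PO) (i j : Fin 7) : |mat g i j| ≤ mat g 0 0 := by
  have h0 : 0 < mat g 0 0 := g.2.2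
  have h1 := row_lor g
  have hrow : ∀ j, mat g 0 j * mat g 0 j ≤ mat g 0 0 * mat g 0 0 - (if j = 0 then 0 else 1) := by
    intro j
    refine Fin.cases (by simp) (fun j => ?_) j
    have := Finset.single_le_sum (f := fun i : Fin 6 => mat g 0 i.succ * mat g 0 i.succ)
      (fun i _ => mul_self_nonneg _) (Finset.mem_univ j)
    simp only [Fin.succ_ne_zero, if_false]
    linarith
  have hcol : B (g • Pi.single j 1) (g • Pi.single j 1) = if j = 0 then -1 else 1 := by
    rw [B_smul]
    fin_cases j <;> simp [B]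
  rw [B_self_sum, smul_def] at hcol
  simp only [Matrix.mulVec_single_one, Matrix.col_apply] at hcol
  apply abs_le_of_sq_le_sq' _ h0.le |> fun h => abs_le.mpr h
  refine Fin.cases ?_ (fun i => ?_) i
  · have := hrow j
    split_ifs at this <;> nlinarith
  · have h2 := Finset.single_le_sum (f := fun i : Fin 6 => mat g i.succ j * mat g i.succ j)
      (fun i _ => mul_self_nonneg _) (Finset.mem_univ i)
    have := hrow j
    split_ifs at this hcol <;> nlinarith

theorem finite_corner (N : ℤ) : {g : PO | mat g 0 0 ≤ N}.Finite := by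
  have hf : (Set.Icc (fun _ _ => -N : Fin 7 → Fin 7 → ℤ) (fun _ _ => N)).Finite := Set.finite_Icc _ _
  refine Set.Finite.subset (hf.preimage (f := fun g : PO => (mat g : Fin 7 → Fin 7 → ℤ)) ?_) ?_
  · intro g _ h _ e
    exact Subtype.ext (Units.ext e)
  · intro g hg
    have hg' : mat g 0 0 ≤ N := hg
    exact ⟨fun i j => by linarith [(abs_le.mp (entry_le g i j)).1],
      fun i j => by linarith [(abs_le.mp (entry_le g i j)).2]⟩

theorem finite_height (x : H6) (c : ℝ) : {g : PO | (g • x).val 0 ≤ c}.Finite := by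
  refine (finite_corner ⌈2 * (x.val 0 * c)⌉).subset fun g hg => ?_
  have h1 := corner_le g x
  have h2 : (g • x).val 0 ≤ c := hg
  have h3 := mul_le_mul_of_nonneg_left h2 x.2.2.le
  have h4 := Int.le_ceil (2 * (x.val 0 * c))
  show mat g 0 0 ≤ _
  exact_mod_cast (h1.trans (by linarith) : (mat g 0 0 : ℝ) ≤ (⌈2 * (x.val 0 * c)⌉ : ℤ))

instance : ProperlyDiscontinuousSMul PO H6 where
  finite_disjoint_inter_image {K L} hK hL := by
    have hc : Continuous fun x : H6 => x.val 0 := (continuous_apply 0).comp continuous_subtype_val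
    obtain ⟨a, ha⟩ := hK.bddAbove_image hc.continuousOn
    obtain ⟨b, hb⟩ := hL.bddAbove_image hc.continuousOn
    refine (finite_corner ⌈2 * (a * b)⌉).subset ?_
    rintro g ⟨_, ⟨x, hx, rfl⟩, hy⟩
    have h1 := corner_le g x
    have h2 : x.val 0 ≤ a := ha ⟨x, hx, rfl⟩
    have h3 : (g • x).val 0 ≤ b := hb ⟨_, hy, rfl⟩
    have h4 := Int.le_ceil (2 * (a * b))
    have h5 := mul_le_mul h2 h3 (g • x).2.2.le (x.2.2.le.trans h2)
    show mat g 0 0 ≤ _
    exact_mod_cast (h1.trans (by linarith) : (mat g 0 0 : ℝ) ≤ (⌈2 * (a * b)⌉ : ℤ))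

theorem isOfFinOrder_of_fix {g : PO} {x : H6} (h : g • x = x) : IsOfFinOrder g := by
  have : Finite (MulAction.stabilizer PO x) := ProperlyDiscontinuousSMul.finite_stabilizer x
  have h1 : IsOfFinOrder (⟨g, h⟩ : MulAction.stabilizer PO x) := isOfFinOrder_of_finite _
  exact (MulAction.stabilizer PO x).subtype.isOfFinOrder h1

theorem isOfFinOrder_of_fix_vec {g : PO} {c : Vec} (hc : B c c < 0) (h0 : 0 < c 0) (h : g • c = c) :
    IsOfFinOrder g := by
  let r : ℝ := (Real.sqrt (-(B c c : ℝ)))⁻¹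
  have hc' : (0 : ℝ) < -(B c c : ℝ) := by exact_mod_cast neg_pos.mpr hc
  have hr : 0 < r := inv_pos.mpr (Real.sqrt_pos.mpr hc')
  have hr2 : r * r * (B c c : ℝ) = -1 := by
    simp only [r]
    rw [← mul_inv, Real.mul_self_sqrt hc'.le, inv_neg, neg_mul, inv_mul_cancel₀ (by linarith)]
  let x : H6 := ⟨r • fun i => (c i : ℝ), by
    rw [lor_eq, ← hr2]
    simp [B]; ring, by
    have : (0 : ℝ) < c 0 := by exact_mod_cast h0
    simpa using mul_pos hr this⟩
  apply isOfFinOrder_of_fix (x := x)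
  apply Subtype.ext
  rw [smul_val]
  show matR g *ᵥ (r • fun i => (c i : ℝ)) = r • fun i => (c i : ℝ)
  rw [Matrix.mulVec_smul]
  congr 1
  funext i
  have := RingHom.map_mulVec (Int.castRingHom ℝ) (mat g) c i
  rw [← smul_def, h] at this
  exact this.symm

noncomputable def H6Homeo : H6 ≃ₜ (Fin 6 → ℝ) where
  toFun x := fun i => x.val i.succ
  invFun y := ⟨Fin.cons (Real.sqrt (1 + ∑ i, y i * y i)) y, by
    have : 0 ≤ ∑ i, y i * y i := Finset.sum_nonneg fun i _ => mul_self_nonneg _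
    simp only [lor, Fin.cons_zero, Fin.cons_succ]
    rw [Real.mul_self_sqrt (by linarith)]; ring, by
    have : 0 ≤ ∑ i, y i * y i := Finset.sum_nonneg fun i _ => mul_self_nonneg _
    simp only [Fin.cons_zero]
    exact Real.sqrt_pos.mpr (by linarith)⟩
  left_inv x := by
    apply Subtype.ext
    funext i
    refine Fin.cases ?_ (fun i => rfl) i
    simp only [Fin.cons_zero]
    have h := x.2.1
    unfold lor at h
    rw [show 1 + ∑ i : Fin 6, x.val i.succ * x.val i.succ = x.val 0 * x.val 0 by linarith,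
      Real.sqrt_mul_self x.2.2.le]
  right_inv y := rfl
  continuous_toFun := continuous_pi fun i => (continuous_apply _).comp continuous_subtype_val
  continuous_invFun := by
    refine Continuous.subtype_mk (continuous_pi fun i => ?_) _
    refine Fin.cases ?_ (fun i => ?_) i
    · simp only [Fin.cons_zero]; fun_prop
    · simp only [Fin.cons_succ]; fun_prop

instance : ContractibleSpace H6 := H6Homeo.contractibleSpace

instance : LocallyCompactSpace H6 := H6Homeo.isClosedEmbedding.locallyCompactSpace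

theorem discrete_map (Γ : Subgroup PO) : DiscreteTopology (Γ.map toR) := by
  refine discreteTopology_iff_isOpen_singleton.mpr fun g => ?_
  have hc : Continuous fun h : Γ.map toR => (h.val.val.val : Matrix (Fin 7) (Fin 7) ℝ) :=
    Units.continuous_val.comp (continuous_subtype_val.comp continuous_subtype_val)
  have : ({g} : Set (Γ.map toR)) =
      ⋂ i, ⋂ j, {h : Γ.map toR | |h.val.val.val i j - g.val.val.val i j| < 1} := by
    ext h
    simp only [Set.mem_singleton_iff, Set.mem_iInter, Set.mem_ofPred_eq]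
    constructor
    · rintro rfl; simp
    · intro H
      obtain ⟨_, a, ha, rfl⟩ := g
      obtain ⟨_, b, hb, rfl⟩ := h
      have : b = a := by
        apply Subtype.ext
        apply Units.ext
        ext i j
        have := H i j
        simp only [toR_val, matR_apply] at this
        have h2 : |mat b i j - mat a i j| < 1 := by exact_mod_cast this
        have := Int.abs_lt_one_iff.mp h2
        exact sub_eq_zero.mp this
      subst this
      rfl
  rw [this]
  refine isOpen_iInter_of_finite fun i => isOpen_iInter_of_finite fun j => ?_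
  refine isOpen_lt ?_ continuous_const
  exact ((hc.matrix_elem i j).sub continuous_const).abs

end Pool.Agent.MP_3fe7bf_gt

end
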